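import Pool.Agent.Lib.GG.Rows

/-!
# Project G, row ACT (helper49)
-/

set_option autoImplicit false

open scoped ComplexConjugate Matrix
open Complex Pool.Agent.HCM Pool.Agent.RAT

namespace Pool.Agent.GG

noncomputable section

/-! ### ACT -/

section act

variable {Y T : Type} [Fintype Y] [Fintype T] [DecidableEq T]

theorem der_apply' (W : Matrix Y Y ℂ) (f : (T → Y) → ℂ) (t : T → Y) :
    der Finset.univ W f t = ∑ i, ∑ y', W (t i) y' * f (Function.update t i y') := rfl

theorem der_add (W : Matrix Y Y ℂ) (f g : (T → Y) → ℂ) :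
    der Finset.univ W (f + g) = der Finset.univ W f + der Finset.univ W g := by
  funext t
  simp only [der_apply', Pi.add_apply, mul_add, Finset.sum_add_distrib]

theorem der_smul (W : Matrix Y Y ℂ) (q : ℚ) (f : (T → Y) → ℂ) :
    der Finset.univ W (q • f) = q • der Finset.univ W f := by
  funext t
  simp only [der_apply', Pi.smul_apply, Finset.smul_sum, mul_smul_comm]

theorem der_zero (W : Matrix Y Y ℂ) :
    der Finset.univ W (0 : (T → Y) → ℂ) = 0 := by
  funext t
  simp only [der_apply', Pi.zero_apply, mul_zero, Finset.sum_const_zero]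

/-- the derivation of a product of periods -/
theorem der_prod {V : Type} (p : Y → V → ℂ) (W : Matrix Y Y ℂ) (A : V → V)
    (hA : ∀ y v, ∑ y', W y y' * p y' v = p y (A v)) (x : T → V) :
    der Finset.univ W (fun t => ∏ i, p (t i) (x i)) =
      ∑ j, fun t => ∏ i, p (t i) (Function.update x j (A (x j)) i) := by
  funext t
  rw [der_apply', Finset.sum_apply]
  refine Finset.sum_congr rfl fun j _ => ?_
  have h1 : ∀ y', ∏ i, p (Function.update t j y' i) (x i) =
      p y' (x j) * ∏ i ∈ Finset.univ.erase j, p (t i) (x i) := by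
    intro y'
    rw [← Finset.mul_prod_erase Finset.univ _ (Finset.mem_univ j), Function.update_self]
    congr 1
    refine Finset.prod_congr rfl fun i hi => ?_
    rw [Function.update_of_ne (Finset.ne_of_mem_erase hi)]
  have h2 : ∏ i, p (t i) (Function.update x j (A (x j)) i) =
      p (t j) (A (x j)) * ∏ i ∈ Finset.univ.erase j, p (t i) (x i) := by
    rw [← Finset.mul_prod_erase Finset.univ _ (Finset.mem_univ j), Function.update_self]
    congr 1
    refine Finset.prod_congr rfl fun i hi => ?_
    rw [Function.update_of_ne (Finset.ne_of_mem_erase hi)]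
  simp only [h1]
  rw [h2, ← hA, Finset.sum_mul]
  exact Finset.sum_congr rfl fun y' _ => by ring

end act

theorem act : ACT := by
  classical
  intro S Λ _ _ M G _ _ b ι _ K _ _ T _ _ X Z y hX f hf
  have hA : ∀ (y0 : Lt M G K) (v : Lp Λ K),
      ∑ y', Matrix.fromBlocks Z 0 0 (cmM y) y0 y' * per b y' v =
        per b y0 ((X.mulVec v.1, fun i => y i * v.2 i) : Lp Λ K) := by
    intro y0 v
    rw [Fintype.sum_sum_type]
    rcases y0 with a | q
    · have h1 : ∀ a', Matrix.fromBlocks Z 0 0 (cmM y) (Sum.inl a) (Sum.inl a') = Z a a' :=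
        fun a' => rfl
      have h2 : ∀ q' : Idx K, Matrix.fromBlocks Z 0 0 (cmM y) (Sum.inl a) (Sum.inr q') = 0 :=
        fun q' => rfl
      simp only [h1, h2, zero_mul, Finset.sum_const_zero, add_zero]
      exact (hX a v.1).symm
    · have h1 : ∀ a', Matrix.fromBlocks Z 0 0 (cmM y) (Sum.inr q) (Sum.inl a') = 0 :=
        fun a' => rfl
      have h2 : ∀ q' : Idx K, Matrix.fromBlocks Z 0 0 (cmM y) (Sum.inr q) (Sum.inr q') =
        cmM y q q' := fun q' => rfl
      simp only [h1, h2, zero_mul, Finset.sum_const_zero, zero_add]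
      rw [Finset.sum_eq_single q]
      · have h3 : cmM y q q = q.2 (y q.1) := by
          unfold cmM
          rw [Matrix.diagonal_apply_eq]
        rw [h3]
        exact (map_mul q.2 (y q.1) (v.2 q.1)).symm
      · intro q' _ hq
        have h3 : cmM y q q' = 0 := by
          unfold cmM
          rw [Matrix.diagonal_apply_ne _ hq.symm]
        rw [h3, zero_mul]
      · intro h; exact absurd (Finset.mem_univ _) h
  unfold RTn at hf
  induction hf using Submodule.span_induction with
  | mem f hf =>
    obtain ⟨x, rfl⟩ := hf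
    have h := der_prod (per (M := M) (G := G) (K := K) b) _ _ hA x
    rw [h]
    refine Submodule.sum_mem _ fun j _ => ?_
    exact Submodule.subset_span ⟨_, rfl⟩
  | zero =>
    rw [der_zero]
    exact Submodule.zero_mem _
  | add f g _ _ hf hg =>
    rw [der_add]
    exact Submodule.add_mem _ hf hg
  | smul q f _ hf =>
    rw [der_smul]
    exact Submodule.smul_mem _ _ hf

end

end Pool.Agent.GG
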