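import Pool.Agent.Lib.GG.Rows

/-!
# Project G: antisymmetrisation
-/

set_option autoImplicit false

open scoped ComplexConjugate Matrix
open Complex Pool.Agent.HCM Pool.Agent.RAT

namespace Pool.Agent.GG

noncomputable section

theorem sign_mul_self_cast {m : ℕ} (σ : Equiv.Perm (Fin m)) :
    ((Equiv.Perm.sign σ : ℤ) : ℂ) * ((Equiv.Perm.sign σ : ℤ) : ℂ) = 1 := by
  rw [← Int.cast_mul, ← Units.val_mul, Int.units_mul_self]
  simp

theorem altB : ALTB := by
  intro Y R m N e f g
  classical
  have : Finite R := Finite.of_injective (fun r : R => e (Sum.inr r))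
    (e.injective.comp Sum.inr_injective)
  have := Fintype.ofFinite R
  set F : (Fin N → Y) → ℂ := fun t => f (fun i => t (e (Sum.inl i))) *
    g (fun i => t (e (Sum.inr i))) with hF
  let q : Equiv.Perm (Fin m) → Equiv.Perm (Fin N) := fun τ =>
    e.permCongr (Equiv.Perm.sumCongr τ 1)
  have hq1 : ∀ τ i, q τ (e (Sum.inl i)) = e (Sum.inl (τ i)) := by
    intro τ i
    simp [q, Equiv.permCongr_apply]
  have hq2 : ∀ τ i, q τ (e (Sum.inr i)) = e (Sum.inr i) := by
    intro τ i
    simp [q, Equiv.permCongr_apply]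
  have hs : ∀ τ, Equiv.Perm.sign (q τ) = Equiv.Perm.sign τ := by
    intro τ
    simp only [q]
    rw [Equiv.Perm.sign_permCongr, Equiv.Perm.sign_sumCongr, Equiv.Perm.sign_one, mul_one]
  funext t
  have h1 : ∀ τ : Equiv.Perm (Fin m), ∑ σ : Equiv.Perm (Fin N),
      ((Equiv.Perm.sign σ : ℤ) : ℂ) * (((Equiv.Perm.sign τ : ℤ) : ℂ) * F (t ∘ σ ∘ q τ)) =
      alt F t := by
    intro τ
    unfold alt
    rw [← Equiv.sum_comp (Equiv.mulRight (q τ)) (fun σ : Equiv.Perm (Fin N) =>
      ((Equiv.Perm.sign σ : ℤ) : ℂ) * F (t ∘ σ))]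
    refine Finset.sum_congr rfl fun σ _ => ?_
    rw [Equiv.coe_mulRight, Equiv.Perm.sign_mul, hs, Units.val_mul, Int.cast_mul, mul_assoc]
    rfl
  calc alt (fun t : Fin N → Y => alt f (fun i => t (e (Sum.inl i))) *
        g (fun i => t (e (Sum.inr i)))) t
      = ∑ σ : Equiv.Perm (Fin N), ∑ τ : Equiv.Perm (Fin m),
        ((Equiv.Perm.sign σ : ℤ) : ℂ) * (((Equiv.Perm.sign τ : ℤ) : ℂ) * F (t ∘ σ ∘ q τ)) := by
        conv_lhs => unfold alt
        refine Finset.sum_congr rfl fun σ _ => ?_
        rw [← Finset.mul_sum]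
        congr 1
        beta_reduce
        rw [Finset.sum_mul]
        refine Finset.sum_congr rfl fun τ _ => ?_
        have h2 : F (t ∘ σ ∘ q τ) = f ((fun i => t (σ (e (Sum.inl i)))) ∘ τ) *
            g fun i => t (σ (e (Sum.inr i))) := by
          simp only [hF, Function.comp, hq1, hq2]
          rfl
        rw [h2, ← mul_assoc]
        rfl
    _ = ∑ τ : Equiv.Perm (Fin m), alt F t := by
        rw [Finset.sum_comm]
        exact Finset.sum_congr rfl fun τ _ => h1 τ
    _ = (m.factorial : ℂ) * alt F t := by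
        rw [Finset.sum_const, Finset.card_univ, Fintype.card_perm, Fintype.card_fin, nsmul_eq_mul]

theorem altX : ALTX := by
  intro S Λ _ M G b ι K _ N u hu
  classical
  induction hu using Submodule.span_induction with
  | mem u hu =>
    obtain ⟨x, rfl⟩ := hu
    funext t
    have h1 : ∀ σ : Equiv.Perm (Fin N), torX (M := M) (G := G) b x (t ∘ σ) =
        ((Equiv.Perm.sign σ : ℤ) : ℂ) * torX (M := M) (G := G) b x t := by
      intro σ
      unfold torX
      rw [← Matrix.det_permute σ (Matrix.of fun a c => per b (t a) (x c))]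
      rfl
    unfold alt
    rw [Finset.sum_congr rfl fun σ _ => by rw [h1 σ, ← mul_assoc, sign_mul_self_cast, one_mul],
      Finset.sum_const, Finset.card_univ, Fintype.card_perm, Fintype.card_fin, nsmul_eq_mul]
  | zero =>
    funext t
    simp [alt]
  | add u v _ _ hu hv =>
    funext t
    have h1 := congrFun hu t
    have h2 := congrFun hv t
    unfold alt at h1 h2 ⊢
    rw [Pi.add_apply, mul_add, ← h1, ← h2, ← Finset.sum_add_distrib]
    refine Finset.sum_congr rfl fun σ _ => ?_
    rw [Pi.add_apply, mul_add]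
  | smul c u _ hu =>
    funext t
    have h1 := congrFun hu t
    unfold alt at h1 ⊢
    have h2 : (c • u) t = (c : ℂ) * u t := by
      rw [Pi.smul_apply, Rat.smul_def]
    rw [h2, mul_left_comm, ← h1, Finset.mul_sum]
    refine Finset.sum_congr rfl fun σ _ => ?_
    rw [Pi.smul_apply, Rat.smul_def]
    ring

end

end Pool.Agent.GG
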