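import Pool.Agent.Lib.GG.Rows

/-!
# Project G: row CMV from the generalized Hodge conjecture for CM type, rational form (helper27)
-/

set_option autoImplicit false
set_option linter.unusedSimpArgs false

open scoped ComplexConjugate Matrix
open Complex Pool.Agent.HCM Pool.Agent.RAT

namespace Pool.Agent.GG

noncomputable section

section

variable {ι : Type} {K : ι → Type} [∀ i, Field (K i)]

lemma alt_prod_perB {m : ℕ} (x : Fin m → ∀ i, K i) :
    alt (fun t : Fin m → Idx K => ∏ i ∈ Finset.univ, perB (t i) (x i)) = torusT x := by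
  funext t
  unfold alt torusT
  rw [Matrix.det_apply]
  refine Finset.sum_congr rfl fun σ _ => ?_
  rw [Units.smul_def, zsmul_eq_mul]
  rfl

lemma alt_mem_HT {m : ℕ} {v : (Fin m → Idx K) → ℂ}
    (hv : v ∈ RTn (perB (K := K)) (Finset.univ : Finset (Fin m))) : alt v ∈ HT K (Fin m) := by
  unfold RTn at hv
  induction hv using Submodule.span_induction with
  | mem y hy =>
    obtain ⟨x, rfl⟩ := hy
    refine Submodule.subset_span ⟨x, ?_⟩
    rw [← alt_prod_perB]
  | zero =>
    have : alt (0 : (Fin m → Idx K) → ℂ) = 0 := by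
      funext t
      simp [alt]
    rw [this]
    exact Submodule.zero_mem _
  | add y z _ _ hy hz =>
    have : alt (y + z) = alt y + alt z := by
      funext t
      simp only [alt, Pi.add_apply, mul_add, Finset.sum_add_distrib]
    rw [this]
    exact Submodule.add_mem _ hy hz
  | smul q y _ hy =>
    have : alt (q • y) = q • alt y := by
      funext t
      simp only [alt, Pi.smul_apply]
      rw [Finset.smul_sum]
      refine Finset.sum_congr rfl fun σ _ => ?_
      rw [mul_smul_comm]
    rw [this]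
    exact Submodule.smul_mem _ _ hy

end

theorem cmv_of (hG : GHODGEQ) : CMV := by
  intro ι _ K _ _ _ Φ c l' hΦ v hv hvc
  refine ⟨alt_mem_HT hv, fun hpos => hG c l' ι K Φ hpos hΦ _ (alt_mem_HT hv) ?_⟩
  intro t ht
  by_contra hne
  unfold alt at hne
  obtain ⟨σ, -, hσ⟩ := Finset.exists_ne_zero_of_sum_ne_zero hne
  have h1 : v (t ∘ σ) ≠ 0 := right_ne_zero_of_mul hσ
  obtain ⟨h2, h3⟩ := hvc _ h1
  unfold nF at h2
  unfold nT at h3
  have e1 : {i | ((t ∘ σ) i).2 ∈ Φ ((t ∘ σ) i).1} = σ ⁻¹' {a | (t a).2 ∈ Φ (t a).1} := rfl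
  have e2 : {i | ((t ∘ σ) i).2 ∉ Φ ((t ∘ σ) i).1} = σ ⁻¹' {a | (t a).2 ∈ Φ (t a).1}ᶜ := rfl
  rw [e1, Set.ncard_preimage_of_injective_subset_range σ.injective (by simp)] at h3
  rw [e2, Set.ncard_preimage_of_injective_subset_range σ.injective (by simp)] at h2
  have h4 := Set.ncard_add_ncard_compl {a | (t a).2 ∈ Φ (t a).1}
  rw [Nat.card_eq_fintype_card, Fintype.card_fin] at h4
  exact ht ⟨h3, by omega⟩

end

end Pool.Agent.GG
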