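import Pool.Agent.Lib.GG.Cmv
import Pool.Agent.Lib.RAT.Fin

/-!
# Project G: row CMV (helper27)
-/

set_option autoImplicit false

namespace Pool.Agent.GG

theorem rowCMV : CMV := cmv_of (Pool.Agent.RAT.ghodgeQ Pool.Agent.RAT.hodgeQ)

end Pool.Agent.GG
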