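import Pool.Agent.Lib.GG.Rows

/-!
# Project G, row CORE (helper44)
-/

set_option autoImplicit false

open scoped ComplexConjugate Matrix
open Complex

namespace Pool.Agent.GG

noncomputable section

namespace CoreRow

section lin

variable {P Y : Type}

/-- `der` as a linear map -/
def derL [Fintype Y] [DecidableEq P] (Q : Finset P) (Z : Matrix Y Y ℂ) :
    ((P → Y) → ℂ) →ₗ[ℂ] ((P → Y) → ℂ) where
  toFun := der Q Z
  map_add' f g := by
    funext t
    simp only [der, Pi.add_apply, mul_add, Finset.sum_add_distrib]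
  map_smul' c f := by
    funext t
    simp only [der, Pi.smul_apply, smul_eq_mul, RingHom.id_apply, Finset.mul_sum]
    exact Finset.sum_congr rfl fun i _ => Finset.sum_congr rfl fun y _ => by ring

variable {S : Type} {M G : S → Type}

/-- `partF` as a linear map -/
def partL (Q : Finset P) (m : ℕ) : ((P → AL M G) → ℂ) →ₗ[ℂ] ((P → AL M G) → ℂ) where
  toFun := partF Q m
  map_add' f g := by
    funext t
    simp only [partF, Pi.add_apply]
    split_ifs <;> simp
  map_smul' c f := by
    funext t
    simp only [partF, Pi.smul_apply, smul_eq_mul, RingHom.id_apply]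
    split_ifs <;> simp

/-- `ct` as a linear map -/
def ctL [DecidableEq P] [∀ s, Fintype (G s)] (s : S) (m m' : M s) (i j : P) :
    ((P → AL M G) → ℂ) →ₗ[ℂ] ((P → AL M G) → ℂ) where
  toFun := ct s m m' i j
  map_add' f g := by
    funext t
    simp only [ct, Pi.add_apply, ← Finset.sum_add_distrib]
    exact Finset.sum_congr rfl fun k _ => by ring
  map_smul' c f := by
    funext t
    simp only [ct, Pi.smul_apply, smul_eq_mul, RingHom.id_apply, Finset.mul_sum]
    exact Finset.sum_congr rfl fun k _ => by ring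

/-- multiplication by a function -/
def mulL (p : (P → Y) → ℂ) : ((P → Y) → ℂ) →ₗ[ℂ] ((P → Y) → ℂ) where
  toFun f := fun t => p t * f t
  map_add' f g := by funext t; simp only [Pi.add_apply]; ring
  map_smul' c f := by
    funext t; simp only [Pi.smul_apply, smul_eq_mul, RingHom.id_apply]; ring

/-- `Om` as a linear map -/
def omL [DecidableEq P] [Fintype S] [∀ s, Fintype (M s)] [∀ s, Fintype (G s)] (Q : Finset P) :
    ((P → AL M G) → ℂ) →ₗ[ℂ] ((P → AL M G) → ℂ) :=
  ∑ i ∈ Q, ∑ j ∈ Q.erase i, ∑ s : S, ∑ m : M s, ∑ m' : M s,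
    mulL (fun t => ps s m m' (t i) (t j)) ∘ₗ ctL s m m' i j

theorem omL_eq [DecidableEq P] [Fintype S] [∀ s, Fintype (M s)] [∀ s, Fintype (G s)]
    (Q : Finset P) (f : (P → AL M G) → ℂ) : omL Q f = Om Q f := by
  funext t
  simp only [omL, LinearMap.sum_apply, Finset.sum_apply, Om, LinearMap.comp_apply]
  rfl

end lin

section good

variable {P S : Type} {M G : S → Type} [DecidableEq P] [Fintype S] [∀ s, Fintype (M s)]
  [∀ s, Fintype (G s)]

/-- the hypotheses of the core lemma -/
structure Good (Q : Finset P) (j : ℕ) (U : Submodule ℂ ((P → AL M G) → ℂ)) : Prop where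
  dep : ∀ f ∈ U, DepOn Q f
  der : ∀ f ∈ U, ∀ s (a c : G s), GG.der Q (raise s a c) f ∈ U
  part : ∀ f ∈ U, ∀ n, partF Q n f ∈ U
  van : ∀ f ∈ U, ∀ t, cntF Q t < j → f t = 0

/-- the functions which depend only on `Q` -/
def depS (Q : Finset P) : Submodule ℂ ((P → AL M G) → ℂ) where
  carrier := {f | DepOn Q f}
  zero_mem' := fun _ _ _ => rfl
  add_mem' := fun {f g} hf hg t t' h => by
    simp only [Pi.add_apply]; rw [hf t t' h, hg t t' h]
  smul_mem' := fun c f hf t t' h => by
    simp only [Pi.smul_apply]; rw [hf t t' h]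

/-- the functions which vanish on words with few letters `F` -/
def vanS (Q : Finset P) (j : ℕ) : Submodule ℂ ((P → AL M G) → ℂ) where
  carrier := {f | ∀ t, cntF Q t < j → f t = 0}
  zero_mem' := fun _ _ => rfl
  add_mem' := fun {f g} hf hg t h => by
    simp only [Pi.add_apply]; rw [hf t h, hg t h, add_zero]
  smul_mem' := fun c f hf t h => by
    simp only [Pi.smul_apply]; rw [hf t h, smul_zero]

/-- the largest good submodule -/
def Umax (M G : S → Type) [∀ s, Fintype (M s)] [∀ s, Fintype (G s)] (Q : Finset P) (j : ℕ) :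
    Submodule ℂ ((P → AL M G) → ℂ) := sSup {U | Good Q j U}

theorem le_Umax {Q : Finset P} {j : ℕ} {U : Submodule ℂ ((P → AL M G) → ℂ)} (h : Good Q j U) :
    U ≤ Umax M G Q j := le_sSup h

theorem good_Umax (Q : Finset P) (j : ℕ) : Good Q j (Umax M G Q j) := by
  have key : ∀ T : ((P → AL M G) → ℂ) →ₗ[ℂ] ((P → AL M G) → ℂ),
      (∀ U, Good Q j U → ∀ f ∈ U, T f ∈ U) → ∀ f ∈ Umax M G Q j, T f ∈ Umax M G Q j := by
    intro T hT
    have : Umax M G Q j ≤ (Umax M G Q j).comap T := by
      refine sSup_le fun U hU => ?_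
      intro f hf
      exact le_Umax hU (hT U hU f hf)
    exact this
  refine ⟨?_, ?_, ?_, ?_⟩
  · have : Umax M G Q j ≤ depS Q := sSup_le fun U hU f hf => hU.dep f hf
    exact fun f hf => this hf
  · intro f hf s a c
    exact key (derL Q (raise s a c)) (fun U hU g hg => hU.der g hg s a c) f hf
  · intro f hf n
    exact key (partL Q n) (fun U hU g hg => hU.part g hg n) f hf
  · have : Umax M G Q j ≤ vanS Q j := sSup_le fun U hU f hf => hU.van f hf
    exact fun f hf => this hf

end good

section ops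

variable {P S : Type} {M G : S → Type} [DecidableEq P] [Fintype S] [∀ s, Fintype (M s)]
  [∀ s, Fintype (G s)]

omit [Fintype S] [∀ s, Fintype (M s)] in
/-- `ct f` does not depend on the positions `i`, `j` -/
theorem dep_ct {Q : Finset P} {f : (P → AL M G) → ℂ} (hf : DepOn Q f) (i j : P) (s : S)
    (m m' : M s) : DepOn ((Q.erase i).erase j) (ct s m m' i j f) := by
  intro t t' h
  have hu : ∀ y y' : AL M G, f (Function.update (Function.update t i y) j y') =
      f (Function.update (Function.update t' i y) j y') := by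
    intro y y'
    refine hf _ _ fun q hq => ?_
    by_cases hj : q = j
    · subst hj; simp
    · by_cases hi : q = i
      · subst hi; simp [Function.update_of_ne hj]
      · rw [Function.update_of_ne hj, Function.update_of_ne hj, Function.update_of_ne hi,
          Function.update_of_ne hi]
        exact h q (Finset.mem_erase.2 ⟨hj, Finset.mem_erase.2 ⟨hi, hq⟩⟩)
  simp only [ct]
  exact Finset.sum_congr rfl fun k _ => by rw [hu, hu]

omit [DecidableEq P] [Fintype S] [∀ s, Fintype (M s)] in
/-- `ps` vanishes at two letters `T` -/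
theorem ps_eq_zero (s : S) (m m' : M s) (y y' : AL M G) (hy : y.2 ≠ false) (hy' : y'.2 ≠ false) :
    ps s m m' y y' = 0 := by
  simp only [ps]
  refine Finset.sum_eq_zero fun k _ => ?_
  rw [if_neg, if_neg, sub_zero]
  · rintro ⟨h, _⟩; exact hy (by rw [h])
  · rintro ⟨_, h⟩; exact hy' (by rw [h])

omit [DecidableEq P] [Fintype S] [∀ s, Fintype (M s)] [∀ s, Fintype (G s)] in
theorem cntF_zero {Q : Finset P} {t : P → AL M G} (h : cntF Q t = 0) :
    ∀ i ∈ Q, (t i).2 ≠ false := by
  intro i hi h'
  have : i ∈ Q.filter fun i => (t i).2 = false := Finset.mem_filter.2 ⟨hi, h'⟩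
  rw [cntF, Finset.card_eq_zero] at h
  rw [h] at this
  exact absurd this (Finset.notMem_empty i)

/-- `Om f` vanishes without a letter `F` -/
theorem Om_zero {Q : Finset P} (f : (P → AL M G) → ℂ) {t : P → AL M G} (h : cntF Q t = 0) :
    Om Q f t = 0 := by
  simp only [Om]
  refine Finset.sum_eq_zero fun i hi => Finset.sum_eq_zero fun j hj =>
    Finset.sum_eq_zero fun s _ => Finset.sum_eq_zero fun m _ => Finset.sum_eq_zero fun m' _ => ?_
  rw [ps_eq_zero _ _ _ _ _ (cntF_zero h i hi) (cntF_zero h j (Finset.mem_of_mem_erase hj)),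
    zero_mul]

/-- `Om` kills the part without `F` -/
theorem Om_part_zero (Q : Finset P) (f : (P → AL M G) → ℂ) : Om Q (partF Q 0 f) = 0 := by
  funext t
  simp only [Om]
  refine Finset.sum_eq_zero fun i hi => Finset.sum_eq_zero fun j hj =>
    Finset.sum_eq_zero fun s _ => Finset.sum_eq_zero fun m _ => Finset.sum_eq_zero fun m' _ => ?_
  have hji : j ≠ i := (Finset.mem_erase.1 hj).1
  have hjQ : j ∈ Q := (Finset.mem_erase.1 hj).2
  have : ct s m m' i j (partF Q 0 f) t = 0 := by
    simp only [ct, partF]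
    refine Finset.sum_eq_zero fun k _ => ?_
    rw [if_neg, if_neg, sub_zero]
    · intro h
      refine cntF_zero h i hi ?_
      rw [Function.update_of_ne hji.symm, Function.update_self]
    · intro h
      refine cntF_zero h j hjQ ?_
      rw [Function.update_self]
  rw [this, mul_zero]

theorem part_zero_Om (Q : Finset P) (f : (P → AL M G) → ℂ) : partF Q 0 (Om Q f) = 0 := by
  funext t
  simp only [partF]
  split_ifs with h
  · exact Om_zero f h
  · rfl

/-- `Om` preserves the grading -/
theorem part_Om (hC : OPSC) (Q : Finset P) (f : (P → AL M G) → ℂ) (n : ℕ) :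
    partF Q (n + 1) (Om Q f) = Om Q (partF Q (n + 1) f) := by
  rw [← omL_eq, ← omL_eq]
  change partL Q (n + 1) (omL Q f) = _
  simp only [omL, LinearMap.sum_apply, map_sum, LinearMap.comp_apply]
  refine Finset.sum_congr rfl fun i hi => Finset.sum_congr rfl fun j hj =>
    Finset.sum_congr rfl fun s _ => Finset.sum_congr rfl fun m _ =>
      Finset.sum_congr rfl fun m' _ => ?_
  have hji : j ≠ i := (Finset.mem_erase.1 hj).1
  have hjQ : j ∈ Q := (Finset.mem_erase.1 hj).2
  have h1 := ((hC S M G P Q f n).2 i hi j hjQ hji.symm s m m').1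
  have h2 := ((hC S M G P Q (ct s m m' i j f) n).2 i hi j hjQ hji.symm s m m').2
  change partF Q (n + 1) (fun t => ps s m m' (t i) (t j) * ct s m m' i j f t) =
    fun t => ps s m m' (t i) (t j) * ct s m m' i j (partF Q (n + 1) f) t
  rw [h2, h1]

/-- `Om` commutes with the raising operators -/
theorem der_Om (hA : OPSA) (hB : OPSB) (Q : Finset P) (f : (P → AL M G) → ℂ) (hf : DepOn Q f)
    (s' : S) (a c : G s') :
    der Q (raise s' a c) (Om Q f) = Om Q (der Q (raise s' a c) f) := by
  rw [← omL_eq, ← omL_eq]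
  change derL Q (raise s' a c) (omL Q f) = _
  simp only [omL, LinearMap.sum_apply, map_sum, LinearMap.comp_apply]
  refine Finset.sum_congr rfl fun i hi => Finset.sum_congr rfl fun j hj =>
    Finset.sum_congr rfl fun s _ => Finset.sum_congr rfl fun m _ =>
      Finset.sum_congr rfl fun m' _ => ?_
  have hji : j ≠ i := (Finset.mem_erase.1 hj).1
  have hjQ : j ∈ Q := (Finset.mem_erase.1 hj).2
  have h1 := hA S M G P Q f i j hi hjQ hji.symm s' a c s m m'
  have h2 := hB S M G P Q (ct s m m' i j f) i j hi hjQ hji.symm (dep_ct hf i j s m m') s' a c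
    s m m'
  change der Q (raise s' a c) (fun t => ps s m m' (t i) (t j) * ct s m m' i j f t) =
    fun t => ps s m m' (t i) (t j) * ct s m m' i j (der Q (raise s' a c) f) t
  rw [h2, h1]

/-- `Om f` depends only on `Q` -/
theorem dep_Om {Q : Finset P} {f : (P → AL M G) → ℂ} (hf : DepOn Q f) : DepOn Q (Om Q f) := by
  intro t t' h
  simp only [Om]
  refine Finset.sum_congr rfl fun i hi => Finset.sum_congr rfl fun j hj =>
    Finset.sum_congr rfl fun s _ => Finset.sum_congr rfl fun m _ =>
      Finset.sum_congr rfl fun m' _ => ?_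
  have hjQ : j ∈ Q := (Finset.mem_erase.1 hj).2
  rw [h i hi, h j hjQ, dep_ct hf i j s m m' t t' fun q hq =>
    h q (Finset.mem_of_mem_erase (Finset.mem_of_mem_erase hq))]

omit [DecidableEq P] [Fintype S] [∀ s, Fintype (M s)] [∀ s, Fintype (G s)] in
/-- the part of `f` with few letters `F` vanishes -/
theorem part_van {Q : Finset P} {j n : ℕ} {f : (P → AL M G) → ℂ}
    (hf : ∀ t, cntF Q t < j → f t = 0) (hn : n < j) : partF Q n f = 0 := by
  funext t
  simp only [partF]
  split_ifs with h
  · exact hf t (h ▸ hn)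
  · rfl

/-- the image of a good submodule under `Om` is good -/
theorem good_map (hA : OPSA) (hB : OPSB) (hC : OPSC) {Q : Finset P} {j : ℕ}
    {U : Submodule ℂ ((P → AL M G) → ℂ)} (hU : Good Q j U) : Good Q j (U.map (omL Q)) := by
  refine ⟨?_, ?_, ?_, ?_⟩
  · rintro _ ⟨f, hf, rfl⟩
    rw [omL_eq]
    exact dep_Om (hU.dep f hf)
  · rintro _ ⟨f, hf, rfl⟩ s a c
    rw [omL_eq, der_Om hA hB Q f (hU.dep f hf), ← omL_eq]
    exact ⟨_, hU.der f hf s a c, rfl⟩
  · rintro _ ⟨f, hf, rfl⟩ n
    rw [omL_eq]
    rcases n with _ | n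
    · rw [part_zero_Om]; exact Submodule.zero_mem _
    · rw [part_Om hC, ← omL_eq]
      exact ⟨_, hU.part f hf _, rfl⟩
  · rintro _ ⟨f, hf, rfl⟩ t ht
    rw [omL_eq]
    have h1 : Om Q f t = partF Q (cntF Q t) (Om Q f) t := by simp [partF]
    rw [h1]
    rcases hn : cntF Q t with _ | n
    · rw [part_zero_Om]; rfl
    · rw [part_Om hC, part_van (hU.van f hf) (hn ▸ ht), ← omL_eq, map_zero]; rfl

/-- the kernel of `Om` on a good submodule is good -/
theorem good_ker (hA : OPSA) (hB : OPSB) (hC : OPSC) {Q : Finset P} {j : ℕ}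
    {U : Submodule ℂ ((P → AL M G) → ℂ)} (hU : Good Q j U) :
    Good Q j (U ⊓ LinearMap.ker (omL Q)) := by
  refine ⟨fun f hf => hU.dep f hf.1, ?_, ?_, fun f hf => hU.van f hf.1⟩
  · rintro f ⟨hf, hk⟩ s a c
    refine ⟨hU.der f hf s a c, ?_⟩
    have hk' : Om Q f = 0 := by rw [← omL_eq]; exact hk
    change omL Q _ = 0
    rw [omL_eq, ← der_Om hA hB Q f (hU.dep f hf), hk']
    exact (derL Q (raise s a c)).map_zero
  · rintro f ⟨hf, hk⟩ n
    refine ⟨hU.part f hf n, ?_⟩
    have hk' : Om Q f = 0 := by rw [← omL_eq]; exact hk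
    change omL Q _ = 0
    rw [omL_eq]
    rcases n with _ | n
    · exact Om_part_zero Q f
    · rw [← part_Om hC, hk']
      exact (partL Q (n + 1)).map_zero

/-- the contraction of a good submodule is good -/
theorem good_ct (hA : OPSA) (hC : OPSC) {Q : Finset P} {j : ℕ}
    {U : Submodule ℂ ((P → AL M G) → ℂ)} (hU : Good Q (j + 1) U) {i i' : P} (hi : i ∈ Q)
    (hi' : i' ∈ Q) (hne : i ≠ i') (s : S) (m m' : M s) :
    Good ((Q.erase i).erase i') j (U.map (ctL s m m' i i')) := by
  refine ⟨?_, ?_, ?_, ?_⟩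
  · rintro _ ⟨f, hf, rfl⟩
    exact dep_ct (hU.dep f hf) i i' s m m'
  · rintro _ ⟨f, hf, rfl⟩ s' a c
    have h1 := hA S M G P Q f i i' hi hi' hne s' a c s m m'
    exact ⟨_, hU.der f hf s' a c, h1⟩
  · rintro _ ⟨f, hf, rfl⟩ n
    have h1 := ((hC S M G P Q f n).2 i hi i' hi' hne s m m').1
    exact ⟨_, hU.part f hf (n + 1), h1.symm⟩
  · rintro _ ⟨f, hf, rfl⟩ t ht
    have h1 := ((hC S M G P Q f (cntF ((Q.erase i).erase i') t)).2 i hi i' hi' hne s m m').1
    change ct s m m' i i' f t = 0
    have h2 : ct s m m' i i' f t = partF ((Q.erase i).erase i')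
      (cntF ((Q.erase i).erase i') t) (ct s m m' i i' f) t := by simp [partF]
    rw [h2, h1, part_van (hU.van f hf) (by omega)]
    exact congrFun (ctL s m m' i i').map_zero t

/-- a good submodule (with `j ≥ 1`) on which `Om` vanishes is zero -/
theorem good_zero [Fintype P] (hC : OPSC) (hE : ENERGY) (hO : OMG) {Q : Finset P} {j : ℕ}
    {U : Submodule ℂ ((P → AL M G) → ℂ)} (hU : Good Q (j + 1) U)
    (h0 : ∀ f ∈ U, Om Q f = 0) : ∀ f ∈ U, f = 0 := by
  by_contra hcon
  push Not at hcon
  obtain ⟨f₀, hf₀, hne₀⟩ := hcon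
  have hex : ∃ n, ∃ f ∈ U, partF Q n f ≠ 0 := by
    obtain ⟨t, ht⟩ := Function.ne_iff.1 hne₀
    refine ⟨cntF Q t, f₀, hf₀, fun h => ht ?_⟩
    have := congrFun h t
    simpa [partF] using this
  classical
  obtain ⟨f, hf, hne⟩ := Nat.find_spec hex
  have hmin : ∀ m < Nat.find hex, ∀ g ∈ U, partF Q m g = 0 := by
    intro m hm g hg
    by_contra h
    exact Nat.find_min hex hm ⟨g, hg, h⟩
  revert hf hne hmin
  generalize Nat.find hex = n
  intro hf hne hmin
  have hg : partF Q n f ∈ U := hU.part f hf n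
  -- `partF n` is idempotent
  have hder : ∀ s (a c : G s), der Q (raise s a c) (partF Q n f) = 0 := by
    intro s a c
    rcases n with _ | n
    · -- no part of `der` survives
      funext t
      have h1 := (hC S M G P Q (partF Q 0 f) (cntF Q t)).1 s a c
      have h2 : partF Q (cntF Q t + 1) (partF Q 0 f) = 0 := by
        funext t'
        simp only [partF]
        split_ifs with h h'
        · omega
        · rfl
        · rfl
      rw [h2] at h1
      have h3 := congrFun h1 t
      simp only [partF, if_true] at h3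
      have h4 : der Q (raise s a c) (0 : (P → AL M G) → ℂ) = 0 := (derL Q (raise s a c)).map_zero
      rw [h4] at h3
      exact h3
    · have h1 := (hC S M G P Q f n).1 s a c
      rw [← h1]
      exact hmin n (Nat.lt_succ_self n) _ (hU.der f hf s a c)
  have hE' := hE S M G P Q (partF Q n f) (hO S M G P Q _ (h0 _ hg)) hder
  apply hne
  funext t
  by_cases h : ∃ i ∈ Q, (t i).2 = false
  · exact hE' t h
  · refine hU.van _ hg t ?_
    have : cntF Q t = 0 := by
      rw [cntF, Finset.card_eq_zero, Finset.filter_eq_empty_iff]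
      intro i hi h'
      exact h ⟨i, hi, h'⟩
    omega

omit [Fintype S] [∀ s, Fintype (M s)] in
/-- multiplication by `ps` -/
theorem ps_mul_mem {Q : Finset P} {j : ℕ} {i i' : P} (hi : i ∈ Q) (hi' : i' ∈ Q) (hne : i ≠ i')
    (s : S) (m m' : M s) (f : (P → AL M G) → ℂ) (hf : f ∈ PJ ((Q.erase i).erase i') j) :
    (fun t => ps s m m' (t i) (t i') * f t) ∈ PJ Q (j + 1) := by
  have hmain : PJ ((Q.erase i).erase i') j ≤
      (PJ (M := M) (G := G) Q (j + 1)).comap
        (mulL fun t : P → AL M G => ps s m m' (t i) (t i')) := by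
    refine Submodule.span_le.2 ?_
    rintro _ ⟨e, he, heQ, s₀, m₀, m₀', h, hh, rfl⟩
    refine Submodule.subset_span ?_
    have hni : ∀ x, e x ≠ i ∧ e x ≠ i' := fun x =>
      ⟨(Finset.mem_erase.1 (Finset.mem_of_mem_erase (heQ x))).1, (Finset.mem_erase.1 (heQ x)).1⟩
    refine ⟨fun x => Fin.cases (motive := fun _ => P) (if x.2 = 0 then i else i')
      (fun r => e (r, x.2)) x.1, ?_, ?_, Fin.cases s s₀, Fin.cases m m₀, Fin.cases m' m₀', h,
      ?_, ?_⟩
    · rintro ⟨r, a⟩ ⟨r', a'⟩ hx
      induction r using Fin.cases with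
      | zero =>
        induction r' using Fin.cases with
        | zero =>
          simp only [Fin.cases_zero] at hx
          fin_cases a <;> fin_cases a' <;> simp_all
        | succ r' =>
          simp only [Fin.cases_zero, Fin.cases_succ] at hx
          split_ifs at hx
          · exact absurd hx.symm (hni _).1
          · exact absurd hx.symm (hni _).2
      | succ r =>
        induction r' using Fin.cases with
        | zero =>
          simp only [Fin.cases_zero, Fin.cases_succ] at hx
          split_ifs at hx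
          · exact absurd hx (hni _).1
          · exact absurd hx (hni _).2
        | succ r' =>
          simp only [Fin.cases_succ] at hx
          have := he hx
          rw [Prod.mk.injEq] at this
          rw [this.1, this.2]
    · rintro ⟨r, a⟩
      induction r using Fin.cases with
      | zero => simp only [Fin.cases_zero]; split_ifs; exacts [hi, hi']
      | succ r =>
        simp only [Fin.cases_succ]
        exact Finset.mem_of_mem_erase (Finset.mem_of_mem_erase (heQ _))
    · intro t t' htt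
      refine hh t t' fun q hq => htt q ?_
      obtain ⟨hq1, hq2⟩ := Finset.mem_sdiff.1 hq
      refine Finset.mem_sdiff.2 ⟨Finset.mem_of_mem_erase (Finset.mem_of_mem_erase hq1), ?_⟩
      intro hq3
      obtain ⟨⟨r, a⟩, -, hra⟩ := Finset.mem_image.1 hq3
      induction r using Fin.cases with
      | zero =>
        simp only [Fin.cases_zero] at hra
        split_ifs at hra
        · exact (Finset.mem_erase.1 (Finset.mem_of_mem_erase hq1)).1 hra.symm
        · exact (Finset.mem_erase.1 hq1).1 hra.symm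
      | succ r =>
        simp only [Fin.cases_succ] at hra
        exact hq2 (Finset.mem_image.2 ⟨(r, a), Finset.mem_univ _, hra⟩)
    · funext t
      rw [Fin.prod_univ_succ]
      simp only [mulL, LinearMap.coe_mk, AddHom.coe_mk, Fin.cases_zero, Fin.cases_succ]
      simp only [if_true, show (1 : Fin 2) ≠ 0 from by decide, if_false]
      ring
  exact hmain hf

/-- `f = Om f'` is in `PJ` if the contractions of `f'` are -/
theorem Om_mem {Q : Finset P} {j : ℕ} (f : (P → AL M G) → ℂ)
    (hf : ∀ i ∈ Q, ∀ i' ∈ Q, i ≠ i' → ∀ (s : S) (m m' : M s),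
      ct s m m' i i' f ∈ PJ ((Q.erase i).erase i') j) : Om Q f ∈ PJ Q (j + 1) := by
  rw [← omL_eq]
  simp only [omL, LinearMap.sum_apply, LinearMap.comp_apply]
  refine Submodule.sum_mem _ fun i hi => Submodule.sum_mem _ fun i' hi' =>
    Submodule.sum_mem _ fun s _ => Submodule.sum_mem _ fun m _ => Submodule.sum_mem _ fun m' _ => ?_
  have hne : i' ≠ i := (Finset.mem_erase.1 hi').1
  have hiQ : i' ∈ Q := (Finset.mem_erase.1 hi').2
  exact ps_mul_mem hi hiQ hne.symm s m m' _ (hf i hi i' hiQ hne.symm s m m')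

omit [Fintype S] [∀ s, Fintype (M s)] in
/-- the case `j = 0` -/
theorem PJ_zero {Q : Finset P} (f : (P → AL M G) → ℂ) (hf : DepOn Q f) : f ∈ PJ Q 0 := by
  refine Submodule.subset_span ⟨fun x => x.1.elim0, fun x => x.1.elim0, fun x => x.1.elim0,
    fun r => r.elim0, fun r => r.elim0, fun r => r.elim0, f, ?_, ?_⟩
  · intro t t' h
    refine hf t t' fun i hi => h i (Finset.mem_sdiff.2 ⟨hi, ?_⟩)
    intro h'
    obtain ⟨x, -, -⟩ := Finset.mem_image.1 h'
    exact x.1.elim0
  · funext t
    simp

theorem Umax_le [Fintype P] (hA : OPSA) (hB : OPSB) (hC : OPSC) (hE : ENERGY) (hO : OMG)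
    (j : ℕ) : ∀ (Q : Finset P), Umax M G Q j ≤ PJ Q j := by
  induction j with
  | zero => exact fun Q f hf => PJ_zero f ((good_Umax Q 0).dep f hf)
  | succ j ih =>
    intro Q f hf
    have hU := good_Umax (M := M) (G := G) Q (j + 1)
    have hmaps : ∀ g ∈ Umax M G Q (j + 1), omL Q g ∈ Umax M G Q (j + 1) := fun g hg =>
      le_Umax (good_map hA hB hC hU) ⟨g, hg, rfl⟩
    have hinj : Function.Injective ((omL Q).restrict hmaps) := by
      rw [injective_iff_map_eq_zero]
      rintro ⟨g, hg⟩ h
      have h1 : omL Q g = 0 := congrArg Subtype.val h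
      have h2 := good_zero hC hE hO (good_ker hA hB hC hU) (fun f' hf' => by
        rw [← omL_eq]; exact hf'.2) g ⟨hg, h1⟩
      exact Subtype.ext h2
    have hsurj : Function.Surjective ((omL Q).restrict hmaps) :=
      (LinearMap.injective_iff_surjective).1 hinj
    obtain ⟨⟨f', hf'⟩, hff⟩ := hsurj ⟨f, hf⟩
    have hff' : Om Q f' = f := by rw [← omL_eq]; exact congrArg Subtype.val hff
    rw [← hff']
    refine Om_mem f' fun i hi i' hi' hne s m m' => ?_
    exact ih _ (le_Umax (good_ct hA hC hU hi hi' hne s m m') ⟨f', hf', rfl⟩)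

end ops

end CoreRow

/-- **row CORE** -/
theorem core (hA : OPSA) (hB : OPSB) (hC : OPSC) (hE : ENERGY) (hO : OMG) : CORE := by
  intro S _ M G _ _ P _ _ j Q U h1 h2 h3 h4
  exact le_trans (CoreRow.le_Umax ⟨h1, h2, h3, h4⟩) (CoreRow.Umax_le hA hB hC hE hO j Q)

end

end Pool.Agent.GG
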