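import Pool.Agent.Lib.GG.Rows

/-!
# Project G: row COREQ (helper27)
-/

set_option autoImplicit false
set_option linter.unusedSimpArgs false

open scoped ComplexConjugate Matrix
open Complex Pool.Agent.HCM Pool.Agent.RAT

namespace Pool.Agent.GG

noncomputable section

section mixl

variable {P S : Type} {M G : S → Type} {ι : Type} {K : ι → Type} [∀ i, Field (K i)] [DecidableEq P]

lemma mix_mem (Q : Finset P) (t : {i // i ∈ Q} → AL M G) (w : {i // i ∉ Q} → Idx K)
    (i : {i // i ∈ Q}) : mix Q t w (i : P) = Sum.inl (t i) := by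
  unfold mix
  rw [dif_pos i.2]

lemma mix_notMem (Q : Finset P) (t : {i // i ∈ Q} → AL M G) (w : {i // i ∉ Q} → Idx K)
    (i : {i // i ∉ Q}) : mix Q t w (i : P) = Sum.inr (w i) := by
  unfold mix
  rw [dif_neg i.2]

lemma mix_update (Q : Finset P) (t : {i // i ∈ Q} → AL M G) (w : {i // i ∉ Q} → Idx K)
    (i : {i // i ∈ Q}) (y : AL M G) :
    Function.update (mix Q t w) (i : P) (Sum.inl y) = mix Q (Function.update t i y) w := by
  funext r
  by_cases hr : r ∈ Q
  · rw [show mix Q (Function.update t i y) w r = Sum.inl (Function.update t i y ⟨r, hr⟩) from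
      mix_mem Q _ w ⟨r, hr⟩]
    by_cases h : r = i
    · subst h
      rw [Function.update_self]
      congr 1
      rw [Function.update_self]
    · rw [Function.update_of_ne h, Function.update_of_ne (fun h' => h (congrArg Subtype.val h'))]
      exact mix_mem Q t w ⟨r, hr⟩
  · have h : r ≠ i := fun h => hr (h ▸ i.2)
    rw [Function.update_of_ne h]
    exact (mix_notMem Q t w ⟨r, hr⟩).trans (mix_notMem Q _ w ⟨r, hr⟩).symm

lemma ncard_sum {α : Type} [Fintype α] (p : α → Prop) [DecidablePred p] :
    {a | p a}.ncard = ∑ a, if p a then 1 else 0 := by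
  rw [Set.ncard_eq_toFinset_card', Set.toFinset_ofPred, Finset.card_filter]

lemma sum_split {α A : Type} [Fintype α] [AddCommMonoid A] [DecidableEq α] (Q : Finset α) (f : α → A) :
    ∑ i, f i = ∑ i : {i // i ∈ Q}, f i + ∑ i : {i // i ∉ Q}, f i := by
  rw [← Fintype.sum_subtype_add_sum_subtype (fun i => i ∈ Q)]
  congr 1
  refine Finset.sum_congr ?_ fun _ _ => rfl
  ext
  simp

end mixl

lemma count_mix {S : Type} {M G : S → Type} {ι : Type} {K : ι → Type} [∀ i, Field (K i)] {N : ℕ}
    (Φ : ∀ i, Set (K i →+* ℂ)) (Q : Finset (Fin N)) (t : {i // i ∈ Q} → AL M G)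
    (w : {i // i ∉ Q} → Idx K) :
    cntT Φ (mix Q t w) + (cntF Finset.univ t + nF Φ w) = N ∧
    cntT Φ (mix Q t w) + cntF Finset.univ t = Q.card + nT Φ w := by
  classical
  have h1 : cntT Φ (mix Q t w) = (∑ i : {i // i ∈ Q}, if (t i).2 = true then 1 else 0) + nT Φ w := by
    unfold cntT nT
    rw [ncard_sum, ncard_sum, sum_split Q]
    congr 1
    · refine Finset.sum_congr rfl fun i _ => ?_
      rw [mix_mem Q t w i]
      by_cases h : (t i).2 = true
      · rw [if_pos h, if_pos (show IsT Φ (Sum.inl (t i) : Lt M G K) from h)]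
      · rw [if_neg h, if_neg (show ¬ IsT Φ (Sum.inl (t i) : Lt M G K) from h)]
    · refine Finset.sum_congr rfl fun i _ => ?_
      rw [mix_notMem Q t w i]
      rfl
  have h2 : cntF Finset.univ t = ∑ i : {i // i ∈ Q}, if (t i).2 = false then 1 else 0 := by
    unfold cntF
    rw [Finset.card_filter]
  have h3 : nT Φ w + nF Φ w = ∑ _i : {i // i ∉ Q}, 1 := by
    unfold nT nF
    rw [ncard_sum, ncard_sum, ← Finset.sum_add_distrib]
    refine Finset.sum_congr rfl fun i _ => ?_
    by_cases h : (w i).2 ∈ Φ (w i).1 <;> simp [h]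
  have h4 : (∑ i : {i // i ∈ Q}, if (t i).2 = true then 1 else 0) + cntF Finset.univ t =
      ∑ _i : {i // i ∈ Q}, 1 := by
    rw [h2, ← Finset.sum_add_distrib]
    refine Finset.sum_congr rfl fun i _ => ?_
    cases (t i).2 <;> simp
  have h5 : (∑ _i : {i // i ∈ Q}, 1) = Q.card := by simp
  have h6 : (∑ _i : {i // i ∈ Q}, 1) + (∑ _i : {i // i ∉ Q}, 1) = N := by
    have := sum_split Q (fun _ => (1 : ℕ))
    rw [← this]
    simp
  constructor
  · omega
  · omega

lemma der_mix {S : Type} [Fintype S] {M G : S → Type} [∀ s, Fintype (M s)] [∀ s, Fintype (G s)]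
    {ι : Type} [Fintype ι] {K : ι → Type} [∀ i, Field (K i)] [∀ i, NumberField (K i)] {N : ℕ}
    (Q : Finset (Fin N)) (Z : Matrix (AL M G) (AL M G) ℂ) (u : (Fin N → Lt M G K) → ℂ)
    (t : {i // i ∈ Q} → AL M G) (w : {i // i ∉ Q} → Idx K) :
    der Finset.univ (Matrix.fromBlocks Z 0 0 0) u (mix Q t w) =
      der Finset.univ Z (fun t => u (mix Q t w)) t := by
  classical
  unfold der
  have h0 : ∀ i : {i // i ∉ Q}, ∑ y' : Lt M G K,
      (Matrix.fromBlocks Z 0 0 0 : Matrix (Lt M G K) (Lt M G K) ℂ) (mix Q t w i) y' *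
        u (Function.update (mix Q t w) (i : Fin N) y') = 0 := by
    intro i
    refine Finset.sum_eq_zero fun y' _ => ?_
    rw [mix_notMem Q t w i]
    rcases y' with y' | y'
    · rw [Matrix.fromBlocks_apply₂₁, Matrix.zero_apply, zero_mul]
    · rw [Matrix.fromBlocks_apply₂₂, Matrix.zero_apply, zero_mul]
  rw [sum_split Q, Finset.sum_eq_zero (fun i _ => h0 i), add_zero]
  refine Finset.sum_congr rfl fun i _ => ?_
  rw [Fintype.sum_sum_type, mix_mem Q t w i]
  have h1 : ∑ y' : Idx K, (Matrix.fromBlocks Z 0 0 0 : Matrix (Lt M G K) (Lt M G K) ℂ)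
      (Sum.inl (t i)) (Sum.inr y') * u (Function.update (mix Q t w) (i : Fin N) (Sum.inr y')) = 0 := by
    refine Finset.sum_eq_zero fun y' _ => ?_
    rw [Matrix.fromBlocks_apply₁₂, Matrix.zero_apply, zero_mul]
  rw [h1, add_zero]
  refine Finset.sum_congr rfl fun y' _ => ?_
  rw [Matrix.fromBlocks_apply₁₁, mix_update]

theorem rowCOREQ (hC : CORE) (hS : STAB) : COREQ := by
  intro k l S Λ _ _ M G _ _ b ι _ K _ _ Φ R hsy hsub hcon u hu Q w
  classical
  -- the restriction to the words with the letters `w` outside of `Q`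
  obtain ⟨ρ, hρ⟩ : ∃ ρ : ((Fin (2 * k + l) → Lt M G K) → ℂ) →ₗ[ℂ] (({i // i ∈ Q} → AL M G) → ℂ),
      ∀ f, ρ f = fun t => f (mix Q t w) :=
    ⟨{ toFun := fun f t => f (mix Q t w), map_add' := fun _ _ => rfl, map_smul' := fun _ _ => rfl },
      fun _ => rfl⟩
  obtain ⟨V, hV⟩ : ∃ V : Submodule ℂ ((Fin (2 * k + l) → Lt M G K) → ℂ),
      V = Submodule.span ℂ (R : Set ((Fin (2 * k + l) → Lt M G K) → ℂ)) := ⟨_, rfl⟩
  have hpart : ∀ f ∈ V, ∀ p, part Φ p f ∈ V := by
    intro f hf p
    rw [hV] at hf ⊢
    induction hf using Submodule.span_induction with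
    | mem x hx => exact hsub.graded x hx p
    | zero =>
      have : part Φ p (0 : (Fin (2 * k + l) → Lt M G K) → ℂ) = 0 := by
        funext t
        simp [part]
      rw [this]
      exact Submodule.zero_mem _
    | add x y _ _ hx hy =>
      have : part Φ p (x + y) = part Φ p x + part Φ p y := by
        funext t
        simp only [part, Pi.add_apply]
        split_ifs <;> simp
      rw [this]
      exact Submodule.add_mem _ hx hy
    | smul c x _ hx =>
      have : part Φ p (c • x) = c • part Φ p x := by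
        funext t
        simp only [part, Pi.smul_apply, smul_eq_mul]
        split_ifs <;> simp
      rw [this]
      exact Submodule.smul_mem _ _ hx
  have hcon' : ∀ f ∈ V, ∀ t, ¬ (k ≤ cntT Φ t ∧ cntT Φ t ≤ k + l) → f t = 0 := by
    intro f hf t ht
    rw [hV] at hf
    induction hf using Submodule.span_induction with
    | mem x hx => exact hcon x hx t ht
    | zero => rfl
    | add x y _ _ hx hy => rw [Pi.add_apply, hx, hy, add_zero]
    | smul c x _ hx => rw [Pi.smul_apply, hx, smul_zero]
  have key : V.map ρ ≤ PJ Finset.univ (k - nF Φ w) := by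
    refine hC S M G {i // i ∈ Q} (k - nF Φ w) Finset.univ (V.map ρ) ?_ ?_ ?_ ?_
    · intro f _ t t' h
      have : t = t' := funext fun i => h i (Finset.mem_univ i)
      rw [this]
    · rintro _ ⟨f, hf, rfl⟩ s a c
      refine ⟨der Finset.univ (Matrix.fromBlocks (raise s a c) 0 0 0) f, ?_, ?_⟩
      · have := hS S Λ M G b ι K Φ (Fin (2 * k + l)) R hsy hsub s a c f (by rw [← hV]; exact hf)
        rw [hV]
        exact this
      · rw [hρ, hρ]
        funext t
        exact der_mix Q (raise s a c) f t w
    · rintro _ ⟨f, hf, rfl⟩ n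
      by_cases hn : n ≤ Q.card
      · refine ⟨part Φ (Q.card - n + nT Φ w) f, hpart f hf _, ?_⟩
        rw [hρ, hρ]
        funext t
        have hc := count_mix Φ Q t w
        have hle : cntF Finset.univ t ≤ Q.card := by
          unfold cntF
          refine (Finset.card_filter_le _ _).trans ?_
          simp
        simp only [part, partF]
        have hiff : cntT Φ (mix Q t w) = Q.card - n + nT Φ w ↔ cntF Finset.univ t = n := by omega
        by_cases h : cntF Finset.univ t = n
        · rw [if_pos h, if_pos (hiff.2 h)]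
        · rw [if_neg h, if_neg (fun h' => h (hiff.1 h'))]
      · have h0 : partF Finset.univ n (ρ f) = 0 := by
          funext t
          have hle : cntF Finset.univ t ≤ Q.card := by
            unfold cntF
            refine (Finset.card_filter_le _ _).trans ?_
            simp
          unfold partF
          rw [if_neg (by omega)]
          rfl
        rw [h0]
        exact Submodule.zero_mem _
    · rintro _ ⟨f, hf, rfl⟩ t ht
      rw [hρ]
      have hc := count_mix Φ Q t w
      exact hcon' f hf _ (by omega)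
  have hfin := key (Submodule.mem_map_of_mem (f := ρ) (p := V) (show u ∈ V by
    rw [hV]; exact Submodule.subset_span hu))
  rw [hρ] at hfin
  exact hfin

end

end Pool.Agent.GG
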