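import Pool.Agent.Lib.GG.Rows

/-!
# Project G, row DESC: linear algebra over `ℚ ⊂ ℂ`
-/

set_option autoImplicit false

open scoped ComplexConjugate Matrix
open Complex

namespace Pool.Agent.GG

section

variable {F : Type} [AddCommGroup F] [Module ℂ F] [Module ℚ F] [IsScalarTower ℚ ℂ F]

/-- Finitely many complex numbers are rational combinations of `ℚ`-independent ones. -/
lemma exists_qbasis {n : ℕ} (a : Fin n → ℂ) : ∃ (m : ℕ) (c : Fin m → ℂ) (q : Fin n → Fin m → ℚ),
    LinearIndependent ℚ c ∧ ∀ j, a j = ∑ i, (q j i : ℂ) * c i := by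
  classical
  set W : Submodule ℚ ℂ := Submodule.span ℚ (Set.range a) with hW
  have : FiniteDimensional ℚ W := FiniteDimensional.span_of_finite ℚ (Set.finite_range a)
  let b := Module.finBasis ℚ W
  have ha : ∀ j, a j ∈ W := fun j => Submodule.subset_span ⟨j, rfl⟩
  refine ⟨_, fun i => (b i : ℂ), fun j i => b.repr ⟨a j, ha j⟩ i, ?_, fun j => ?_⟩
  · exact b.linearIndependent.map' W.subtype (Submodule.ker_subtype W)
  · have h := congrArg (fun w : W => (w : ℂ)) (b.sum_repr ⟨a j, ha j⟩)
    simp only [Submodule.coe_sum, Submodule.coe_smul, Rat.smul_def] at h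
    exact h.symm

lemma rat_smul_eq (q : ℚ) (x : F) : ((q : ℂ) : ℂ) • x = q • x := by
  have : (q : ℂ) = q • (1 : ℂ) := by rw [Rat.smul_def, mul_one]
  rw [this, smul_assoc, one_smul]

theorem expa : EXPA := by
  intro F _ _ _ _ R z hz
  obtain ⟨n, f, g, hfg⟩ := (Submodule.mem_span_set' (R := ℂ)).1 hz
  obtain ⟨m, c, q, hc, hq⟩ := exists_qbasis f
  refine ⟨m, c, fun i => ∑ j, q j i • (g j : F), hc, fun i => ?_, ?_⟩
  · exact R.sum_mem fun j _ => R.smul_mem _ (g j).2
  · rw [← hfg]
    calc ∑ j, f j • (g j : F) = ∑ j, ∑ i, c i • (q j i • (g j : F)) := by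
          refine Finset.sum_congr rfl fun j _ => ?_
          rw [hq j, Finset.sum_smul]
          refine Finset.sum_congr rfl fun i _ => ?_
          rw [mul_comm, mul_smul, rat_smul_eq]
      _ = ∑ i, ∑ j, c i • (q j i • (g j : F)) := Finset.sum_comm
      _ = ∑ i, c i • ∑ j, q j i • (g j : F) := by
          refine Finset.sum_congr rfl fun i _ => ?_
          rw [Finset.smul_sum]

/-- A rational functional on `W` extends to a complex functional. -/
lemma QInd.exists_ext {W : Submodule ℚ F} (hW : QInd W) (φ : W →ₗ[ℚ] ℚ) :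
    ∃ g : F →ₗ[ℂ] ℂ, ∀ w : W, g (w : F) = (φ w : ℂ) := by
  classical
  obtain ⟨⟨ι, b⟩⟩ := Module.Free.exists_basis (R := ℚ) (M := W)
  have hb : LinearIndependent ℚ fun i => (b i : F) :=
    b.linearIndependent.map' W.subtype (Submodule.ker_subtype W)
  have hli : LinearIndependent ℂ fun i => (b i : F) := by
    rw [linearIndependent_iff_finset_linearIndependent]
    intro s
    let e := s.equivFin
    have h1 : LinearIndependent ℚ fun k : Fin s.card => (b (e.symm k) : F) :=
      hb.comp (fun k : Fin s.card => ((e.symm k : s) : ι))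
        (Subtype.val_injective.comp e.symm.injective)
    have h2 := hW _ _ (fun k => (b (e.symm k)).2) h1
    have h3 := h2.comp e e.injective
    convert h3 using 1
    funext k
    simp
  obtain ⟨g, hg⟩ := LinearMap.exists_extend
    ((Module.Basis.span hli).constr ℂ fun i => ((φ (b i) : ℚ) : ℂ))
  refine ⟨g, fun w => ?_⟩
  have hgb : ∀ i, g (b i : F) = (φ (b i) : ℂ) := by
    intro i
    have h1 : (b i : F) ∈ Submodule.span ℂ (Set.range fun i => (b i : F)) :=
      Submodule.subset_span ⟨i, rfl⟩
    have h2 := LinearMap.congr_fun hg ⟨(b i : F), h1⟩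
    have h3 : (⟨(b i : F), h1⟩ : Submodule.span ℂ (Set.range fun i => (b i : F))) =
        Module.Basis.span hli i := by
      apply Subtype.ext
      rw [Module.Basis.span_apply]
    rw [LinearMap.comp_apply, Submodule.subtype_apply] at h2
    rw [h2, h3, Module.Basis.constr_basis]
  have h4 : ((g.restrictScalars ℚ).comp W.subtype) =
      ((Algebra.linearMap ℚ ℂ).comp φ) := by
    apply b.ext
    intro i
    simp only [LinearMap.comp_apply, Submodule.subtype_apply, LinearMap.restrictScalars_apply,
      Algebra.linearMap_apply, hgb]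
    simp
  have h5 := LinearMap.congr_fun h4 w
  simpa using h5

theorem desc : DESC := by
  intro F _ _ _ _ W R hW hRW n c v hc hv hz i₀
  by_contra hne
  -- a functional on `W` vanishing on `R` and not at `v i₀`
  set R' : Submodule ℚ W := R.comap W.subtype with hR'
  have h1 : (⟨v i₀, hv i₀⟩ : W) ∉ R' := hne
  obtain ⟨φ, hφ1, hφ2⟩ := Submodule.exists_le_ker_of_notMem h1
  obtain ⟨g, hg⟩ := hW.exists_ext φ
  have hgR : ∀ x ∈ Submodule.span ℂ (R : Set F), g x = 0 := by
    intro x hx
    induction hx using Submodule.span_induction with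
    | mem x hx =>
      have h2 : (⟨x, hRW hx⟩ : W) ∈ R' := hx
      have h3 := hφ2 h2
      rw [LinearMap.mem_ker] at h3
      have h4 := hg ⟨x, hRW hx⟩
      rw [h3] at h4
      simpa using h4
    | zero => exact map_zero g
    | add x y _ _ hx hy => rw [map_add, hx, hy, add_zero]
    | smul a x _ hx => rw [map_smul, hx, smul_zero]
  have h5 := hgR _ hz
  rw [map_sum] at h5
  have h6 : ∑ i, (φ ⟨v i, hv i⟩) • c i = 0 := by
    rw [← h5]
    refine Finset.sum_congr rfl fun i _ => ?_
    rw [map_smul, hg ⟨v i, hv i⟩, Rat.smul_def, smul_eq_mul, mul_comm]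
  have h7 := Fintype.linearIndependent_iff.1 hc _ h6 i₀
  exact hφ1 h7

theorem qind : QIND := by
  intro F κ _ _ _ _ β hβ n v hv hli
  rw [Fintype.linearIndependent_iff]
  intro z hz
  obtain ⟨m, c, q, hc, hq⟩ := exists_qbasis z
  -- the rational vectors
  set w : Fin m → F := fun k => ∑ i, q i k • v i with hw
  have hwmem : ∀ k, w k ∈ Submodule.span ℚ (Set.range β) := fun k =>
    Submodule.sum_mem _ fun i _ => Submodule.smul_mem _ _ (hv i)
  have h1 : ∑ k, c k • w k = 0 := by
    rw [← hz]
    calc ∑ k, c k • w k = ∑ k, ∑ i, c k • (q i k • v i) := by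
          refine Finset.sum_congr rfl fun k _ => ?_
          rw [hw, Finset.smul_sum]
      _ = ∑ i, ∑ k, c k • (q i k • v i) := Finset.sum_comm
      _ = ∑ i, z i • v i := by
          refine Finset.sum_congr rfl fun i _ => ?_
          rw [hq i, Finset.sum_smul]
          refine Finset.sum_congr rfl fun k _ => ?_
          rw [mul_comm, mul_smul, rat_smul_eq]
  have h2 : ∀ k, ∃ a : κ →₀ ℚ, Finsupp.linearCombination ℚ β a = w k := fun k =>
    (Finsupp.mem_span_range_iff_exists_finsupp.1 (hwmem k)).imp fun a ha => ha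
  choose a ha using h2
  have h3 : ∀ k, w k = 0 := by
    have h4 : Finsupp.linearCombination ℂ β
        (∑ k, c k • (a k).mapRange (fun x : ℚ => (x : ℂ)) (by simp)) = 0 := by
      rw [map_sum, ← h1]
      refine Finset.sum_congr rfl fun k _ => ?_
      rw [map_smul, ← ha k]
      congr 1
      rw [Finsupp.linearCombination_apply, Finsupp.linearCombination_apply,
        Finsupp.sum_mapRange_index (by simp)]
      refine Finsupp.sum_congr fun j _ => ?_
      exact rat_smul_eq _ _
    have h5 := (linearIndependent_iff.1 hβ) _ h4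
    have h6 : ∀ j k, a k j = 0 := by
      intro j
      have h7 := DFunLike.congr_fun h5 j
      simp only [Finsupp.coe_finsetSum, Finsupp.coe_smul, Finset.sum_apply, Pi.smul_apply,
        Finsupp.mapRange_apply, smul_eq_mul, Finsupp.coe_zero, Pi.zero_apply] at h7
      have h8 : ∑ k, a k j • c k = 0 := by
        rw [← h7]
        refine Finset.sum_congr rfl fun k _ => ?_
        rw [Rat.smul_def, mul_comm]
      exact Fintype.linearIndependent_iff.1 hc _ h8
    intro k
    rw [← ha k, show a k = 0 from Finsupp.ext fun j => h6 j k, map_zero]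
  intro i
  rw [hq i]
  refine Finset.sum_eq_zero fun k _ => ?_
  have h9 : ∑ i, q i k • v i = 0 := h3 k
  rw [Fintype.linearIndependent_iff.1 hli _ h9 i]
  simp

end

end Pool.Agent.GG
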