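import Pool.Agent.Lib.GG.Rows

/-!
# Project G, row DECO: the decomposition for a fixed set of `A`-positions
-/

set_option autoImplicit false

open scoped ComplexConjugate Matrix
open Complex Pool.Agent.HCM Pool.Agent.RAT

namespace Pool.Agent.GG

noncomputable section

namespace DecoAux

theorem qind_mono {F : Type} [AddCommGroup F] [Module ℂ F] [Module ℚ F]
    {W W' : Submodule ℚ F} (h : QInd W) (hle : W' ≤ W) : QInd W' :=
  fun n v hv hl => h n v (fun i => hle (hv i)) hl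

variable {P : Type} {ι : Type} {K : ι → Type} [∀ i, Field (K i)]

/-- The conjugate word. -/
def cjw (w : P → Idx K) : P → Idx K := fun i => ⟨(w i).1, cj (w i).2⟩

theorem nF_cjw {Φ : ∀ i, Set (K i →+* ℂ)} (hΦ : ∀ i, IsCMType (Φ i)) (w : P → Idx K) :
    nF Φ (cjw w) = nT Φ w := by
  unfold nF nT
  congr 1
  ext i
  have h : cj (w i).2 ∈ Φ (w i).1 ↔ (w i).2 ∉ Φ (w i).1 := hΦ _ _
  show cj (w i).2 ∉ Φ (w i).1 ↔ (w i).2 ∈ Φ (w i).1
  constructor
  · intro h1
    by_contra h2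
    exact h1 (h.2 h2)
  · intro h1 h2
    exact h.1 h2 h1

theorem RTn_conj {Q : Finset P} {v : (P → Idx K) → ℂ} (hv : v ∈ RTn (perB (K := K)) Q)
    (w : P → Idx K) : v (cjw w) = conj (v w) := by
  refine Submodule.span_induction (p := fun v _ => v (cjw w) = conj (v w)) ?_ ?_ ?_ ?_ hv
  · rintro _ ⟨x, rfl⟩
    show ∏ i ∈ Q, perB (cjw w i) (x i) = conj (∏ i ∈ Q, perB (w i) (x i))
    rw [map_prod]
    exact Finset.prod_congr rfl fun i _ => rfl
  · simp
  · intro v1 v2 _ _ h1 h2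
    rw [Pi.add_apply, Pi.add_apply, h1, h2, map_add]
  · intro q v _ h
    rw [Pi.smul_apply, Pi.smul_apply, h, Rat.smul_def, Rat.smul_def, map_mul, map_ratCast]

end DecoAux

open DecoAux

theorem deco (h1 : COREQ) (h2 : PSQ) (h3 : PARTC) (h4 : MIXR) (h5 : HXR) (h6 : PERQ)
    (h7 : PERA) : DECO := by
  intro k l S Λ _ _ M G _ _ b ι _ K _ _ _ Φ R hΦ hsymp hsub hcon u hu Q
  have hps := fun j => h2 S Λ M G b {i // i ∈ Q} Finset.univ j hsymp
  have hWA : PJQ (M := M) (G := G) b (Finset.univ : Finset {i // i ∈ Q}) 0 ≤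
      RTn (perA b) Finset.univ := (hps 0).2.2.2
  have hq : QInd (RTn (perA (M := M) (G := G) b) (Finset.univ : Finset {i // i ∈ Q})) :=
    h6 {i // i ∈ Q} (AL M G) (Λ → ℚ) _ Finset.univ (h7 S Λ M G b)
  have hanti : Antitone fun j => PJQ (M := M) (G := G) b (Finset.univ : Finset {i // i ∈ Q}) j :=
    antitone_nat_of_succ_le fun j => (hps j).2.1
  have hmix := h4 S Λ M G b ι K (Fin (2 * k + l)) Q u (h5 S Λ M G b ι K _ (hsub.rat hu))
  have key := h3 ({i // i ∈ Q} → AL M G) ({i // i ∉ Q} → Idx K)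
    (fun j => PJQ b Finset.univ j) (RTn (perB (K := K)) Finset.univ) k (nF Φ)
    (fun t w => u (mix Q t w)) (qind_mono hq hWA) hanti
    (by
      refine Submodule.span_mono ?_ hmix
      rintro g ⟨p, hp, v, hv, rfl⟩
      exact ⟨p, (hps 0).2.2.1 hp, v, hv, rfl⟩)
    (fun w => (hps _).1 (h1 k l S Λ M G b ι K Φ R hsymp hsub hcon u hu Q w))
  refine Submodule.span_mono ?_ key
  rintro g ⟨j, hj, p, hp, v, hv, hvn, rfl⟩
  refine ⟨j, hj, p, hp, v, hv, fun w hw => ⟨hvn w hw, ?_⟩, rfl⟩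
  rw [← nF_cjw hΦ]
  refine hvn _ ?_
  rw [RTn_conj hv]
  exact (map_ne_zero _).2 hw

end

end Pool.Agent.GG
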