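import Pool.Agent.Lib.GG.Stat

/-!
# Project G, row ELL: products of elliptic curves without complex multiplication (helper59)

`A = ∏ₛ E_s^(M s)`, `E_s = ℂ / (ℤ + ℤ τ_s)`, is of `GL₂`-type if the `E_s` have no complex
multiplication and are pairwise not isogenous.
-/

set_option autoImplicit false

open scoped ComplexConjugate Matrix
open Complex Pool.Agent.HCM Pool.Agent.RAT

namespace Pool.Agent.GG

noncomputable section

/-- The coordinates of `∏ₛ E_s^(M s)`. -/
abbrev Ell {S : Type} (M : S → Type) : Type := Crd M fun _ => Unit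

section

variable {S : Type} {M : S → Type}

open Classical in
/-- The lattice of `∏ₛ E_s^(M s)`: `b (p, 0)` is the unit vector of the coordinate `p` and
`b (p, 1)` is `τ` times this vector. -/
def bEll (M : S → Type) (τ : S → ℂ) (i : Ell M × Fin 2) (q : Ell M) : ℂ :=
  if q = i.1 then (if i.2 = 0 then 1 else τ i.1.1) else 0

/-- `E_s` has no complex multiplication: `τ_s` is not a quadratic number. -/
def NoCM (τ : S → ℂ) : Prop := ∀ s (u v w : ℚ), (u : ℂ) * τ s ^ 2 + v * τ s + w = 0 → u = 0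

/-- The `E_s` are pairwise not isogenous. -/
def NoIsog (τ : S → ℂ) : Prop := ∀ s s', s ≠ s' → ∀ u v w x : ℚ,
  τ s * (w * τ s' + x) = u * τ s' + v → w = 0 ∧ x = 0

/-- `ℚ + ℚ τ_s` -/
def Lat (τ : S → ℂ) (s : S) (z : ℂ) : Prop := ∃ x y : ℚ, z = x + y * τ s

namespace ELLr

lemma lat_add {τ : S → ℂ} {s : S} {z z' : ℂ} (h : Lat τ s z) (h' : Lat τ s z') :
    Lat τ s (z + z') := by
  obtain ⟨x, y, rfl⟩ := h
  obtain ⟨x', y', rfl⟩ := h'
  exact ⟨x + x', y + y', by push_cast; ring⟩

lemma lat_smul {τ : S → ℂ} {s : S} {z : ℂ} (r : ℚ) (h : Lat τ s z) : Lat τ s (r • z) := by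
  obtain ⟨x, y, rfl⟩ := h
  refine ⟨r * x, r * y, ?_⟩
  rw [Rat.smul_def]
  push_cast
  ring

lemma lat_zero (τ : S → ℂ) (s : S) : Lat τ s 0 := ⟨0, 0, by simp⟩

lemma im_eq {τ : ℂ} (hτ : τ.im ≠ 0) {x y : ℝ} (h : (x : ℂ) + y * τ = 0) : x = 0 ∧ y = 0 := by
  have h1 := congrArg Complex.im h
  simp only [Complex.add_im, Complex.ofReal_im, Complex.mul_im, Complex.ofReal_re, zero_mul,
    add_zero, zero_add, Complex.zero_im] at h1
  have hy : y = 0 := (mul_eq_zero.1 h1).resolve_right hτ
  subst hy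
  have h2 : (x : ℂ) = 0 := by simpa using h
  exact ⟨by exact_mod_cast h2, rfl⟩

variable [Fintype S] [∀ s, Fintype (M s)]

lemma sum_bEll {R : Type*} [Semiring R] [Module R ℂ] (τ : S → ℂ) (g : Ell M × Fin 2 → R)
    (q : Ell M) : ∑ i, g i • bEll M τ i q = g (q, 0) • (1 : ℂ) + g (q, 1) • τ q.1 := by
  classical
  rw [Fintype.sum_prod_type, Finset.sum_eq_single q]
  · rw [Fin.sum_univ_two]
    simp [bEll]
  · intro p _ hp
    refine Finset.sum_eq_zero fun k _ => ?_
    rw [bEll, if_neg (Ne.symm hp), smul_zero]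
  · intro h
    exact absurd (Finset.mem_univ _) h

lemma mulVec_bEll (τ : S → ℂ) (Z : Matrix (Ell M) (Ell M) ℂ) (i : Ell M × Fin 2) (q : Ell M) :
    Z.mulVec (bEll M τ i) q = Z q i.1 * (if i.2 = 0 then 1 else τ i.1.1) := by
  classical
  rw [Matrix.mulVec, dotProduct, Finset.sum_eq_single i.1]
  · rw [bEll, if_pos rfl]
  · intro p _ hp
    rw [bEll, if_neg hp, mul_zero]
  · intro h
    exact absurd (Finset.mem_univ _) h

lemma lin (τ : S → ℂ) (hτ : ∀ s, (τ s).im ≠ 0) : LinearIndependent ℝ (bEll M τ) := by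
  classical
  rw [Fintype.linearIndependent_iff]
  intro g hg
  have h1 : ∀ q : Ell M, g (q, 0) = 0 ∧ g (q, 1) = 0 := by
    intro q
    have h2 := congrFun hg q
    rw [Finset.sum_apply] at h2
    have h3 := sum_bEll (M := M) τ g q
    simp only [Pi.smul_apply, Pi.zero_apply] at h2
    rw [h2] at h3
    refine im_eq (hτ q.1) ?_
    rw [h3]
    simp
  rintro ⟨q, k⟩
  match k with
  | 0 => exact (h1 q).1
  | 1 => exact (h1 q).2

/-- The basis. -/
def basis (τ : S → ℂ) (hτ : ∀ s, (τ s).im ≠ 0) :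
    Module.Basis (Ell M × Fin 2) ℝ (Ell M → ℂ) :=
  Module.Basis.mk (lin (M := M) τ hτ) (by
    have h4 : Module.finrank ℝ (Ell M → ℂ) = Fintype.card (Ell M) * 2 := by
      rw [← Module.finrank_mul_finrank ℝ ℂ (Ell M → ℂ), Complex.finrank_real_complex,
        Module.finrank_fintype_fun_eq_card, mul_comm]
    have h5 : Fintype.card (Ell M × Fin 2) = Module.finrank ℝ (Ell M → ℂ) := by
      rw [h4, Fintype.card_prod, Fintype.card_fin]
    exact ((lin (M := M) τ hτ).span_eq_top_of_card_eq_finrank' h5).ge)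

lemma basis_apply (τ : S → ℂ) (hτ : ∀ s, (τ s).im ≠ 0) :
    (basis (M := M) τ hτ : Ell M × Fin 2 → Ell M → ℂ) = bEll M τ :=
  Module.Basis.coe_mk _ _

/-- The rational span of the lattice. -/
lemma mem_span (τ : S → ℂ) (v : Ell M → ℂ) :
    v ∈ Submodule.span ℚ (Set.range (bEll M τ)) ↔ ∀ q, Lat τ q.1 (v q) := by
  classical
  constructor
  · intro hv
    induction hv using Submodule.span_induction with
    | mem x hx =>
      obtain ⟨i, rfl⟩ := hx
      intro q
      rw [bEll]
      split_ifs with h h'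
      · exact ⟨1, 0, by simp⟩
      · rw [h]
        exact ⟨0, 1, by simp⟩
      · exact lat_zero τ _
    | zero => exact fun q => lat_zero τ _
    | add x y _ _ hx hy => exact fun q => lat_add (hx q) (hy q)
    | smul r x _ hx => exact fun q => lat_smul r (hx q)
  · intro h
    choose x y hxy using h
    have h1 : v = ∑ i : Ell M × Fin 2, (if i.2 = 0 then x i.1 else y i.1) • bEll M τ i := by
      funext q
      rw [Finset.sum_apply]
      have h2 := sum_bEll (M := M) τ (fun i => if i.2 = 0 then x i.1 else y i.1) q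
      simp only [Pi.smul_apply]
      rw [h2, hxy q]
      simp only [Fin.isValue, if_true, one_ne_zero, if_false, Rat.smul_def]
      ring
    rw [h1]
    exact Submodule.sum_mem _ fun i _ => Submodule.smul_mem _ _
      (Submodule.subset_span (Set.mem_range_self i))

lemma mem_EndQ (τ : S → ℂ) (Z : Matrix (Ell M) (Ell M) ℂ) :
    Z ∈ EndQ (bEll M τ) ↔ ∀ p q : Ell M, Lat τ q.1 (Z q p) ∧ Lat τ q.1 (Z q p * τ p.1) := by
  constructor
  · intro h p q
    refine ⟨?_, ?_⟩
    · have h1 := (mem_span τ _).1 (h (p, 0)) q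
      rw [mulVec_bEll] at h1
      simpa using h1
    · have h1 := (mem_span τ _).1 (h (p, 1)) q
      rw [mulVec_bEll] at h1
      simpa using h1
  · intro h i
    refine (mem_span τ _).2 fun q => ?_
    rw [mulVec_bEll]
    split_ifs
    · simpa using (h i.1 q).1
    · exact (h i.1 q).2

end ELLr

open ELLr in
/-- **Products of powers of pairwise non isogenous elliptic curves without complex multiplication
are of `GL₂`-type.** -/
theorem isGL2_ell [Fintype S] [∀ s, Fintype (M s)] (τ : S → ℂ)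
    (h1 : NoCM τ) (h2 : NoIsog τ) : IsGL2 (M := M) (G := fun _ => Unit) (bEll M τ) := by
  classical
  refine ⟨fun _ => inferInstance, fun Z => ⟨fun hZ => ?_, fun hZ => ?_⟩⟩
  · induction hZ using Submodule.span_induction with
    | mem Z hZ =>
      rw [mem_EndQ] at hZ
      refine ⟨fun q p hqp => ?_, fun q p => ?_⟩
      · obtain ⟨⟨x, w, hxw⟩, ⟨v, u, huv⟩⟩ := hZ p q
        have h3 : τ p.1 * (w * τ q.1 + x) = u * τ q.1 + v := by
          have : τ p.1 * (w * τ q.1 + x) = Z q p * τ p.1 := by rw [hxw]; ring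
          rw [this, huv]; ring
        obtain ⟨hw, hx⟩ := h2 p.1 q.1 (Ne.symm hqp) u v w x h3
        rw [hxw, hw, hx]
        simp
      · by_cases hqp : q.1 = p.1
        · obtain ⟨⟨x, w, hxw⟩, ⟨v, u, huv⟩⟩ := hZ p q
          have h3 : (w : ℂ) * τ q.1 ^ 2 + ((x - u : ℚ) : ℂ) * τ q.1 + ((-v : ℚ) : ℂ) = 0 := by
            rw [← hqp, hxw] at huv
            push_cast
            linear_combination huv
          have hw := h1 q.1 w (x - u) (-v) h3
          rw [hxw, hw]
          simp
        · obtain ⟨⟨x, w, hxw⟩, ⟨v, u, huv⟩⟩ := hZ p q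
          have h3 : τ p.1 * (w * τ q.1 + x) = u * τ q.1 + v := by
            have : τ p.1 * (w * τ q.1 + x) = Z q p * τ p.1 := by rw [hxw]; ring
            rw [this, huv]; ring
          obtain ⟨hw, hx⟩ := h2 p.1 q.1 (Ne.symm hqp) u v w x h3
          rw [hxw, hw, hx]
          simp
    | zero => exact ⟨fun _ _ _ => rfl, fun _ _ => rfl⟩
    | add Z Z' _ _ hZ hZ' =>
      refine ⟨fun p q h => ?_, fun p q => ?_⟩
      · rw [Matrix.add_apply, hZ.1 p q h, hZ'.1 p q h, add_zero]
      · rw [Matrix.add_apply, Complex.add_im, hZ.2 p q, hZ'.2 p q, add_zero]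
    | smul r Z _ hZ =>
      refine ⟨fun p q h => ?_, fun p q => ?_⟩
      · rw [Matrix.smul_apply, hZ.1 p q h, smul_zero]
      · rw [Matrix.smul_apply, Complex.smul_im, hZ.2 p q, smul_zero]
  · have hsum : Z = ∑ p : Ell M, ∑ q : Ell M, (Z p q).re •
        (if p.1 = q.1 then Matrix.single p q (1 : ℂ) else 0) := by
      ext p q
      have h3 : (∑ p' : Ell M, ∑ q' : Ell M, (Z p' q').re •
          (if p'.1 = q'.1 then Matrix.single p' q' (1 : ℂ) else 0)) p q =
          (Z p q).re • (if p.1 = q.1 then Matrix.single p q (1 : ℂ) else 0) p q := by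
        rw [Matrix.sum_apply, Finset.sum_eq_single p]
        · rw [Matrix.sum_apply, Finset.sum_eq_single q]
          · rfl
          · intro q' _ hq'
            rw [Matrix.smul_apply]
            split_ifs
            · rw [Matrix.single_apply_of_col_ne _ _ hq', smul_zero]
            · rw [Matrix.zero_apply, smul_zero]
          · intro h
            exact absurd (Finset.mem_univ _) h
        · intro p' _ hp'
          rw [Matrix.sum_apply]
          refine Finset.sum_eq_zero fun q' _ => ?_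
          rw [Matrix.smul_apply]
          split_ifs
          · rw [Matrix.single_apply_of_row_ne hp' _ _, smul_zero]
          · rw [Matrix.zero_apply, smul_zero]
        · intro h
          exact absurd (Finset.mem_univ _) h
      rw [h3]
      by_cases hpq : p.1 = q.1
      · rw [if_pos hpq, Matrix.single_apply_same]
        apply Complex.ext
        · simp
        · simp [hZ.2 p q]
      · rw [if_neg hpq, hZ.1 p q hpq]
        simp
    rw [hsum]
    refine Submodule.sum_mem _ fun p _ => Submodule.sum_mem _ fun q _ =>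
      Submodule.smul_mem _ _ ?_
    split_ifs with hpq
    · refine Submodule.subset_span ((mem_EndQ τ _).2 fun p' q' => ?_)
      by_cases h : p = q' ∧ q = p'
      · obtain ⟨rfl, rfl⟩ := h
        rw [Matrix.single_apply_same, one_mul, ← hpq]
        exact ⟨⟨1, 0, by simp⟩, ⟨0, 1, by simp⟩⟩
      · rw [Matrix.single_apply_of_ne _ _ _ _ _ h, zero_mul]
        exact ⟨lat_zero τ _, lat_zero τ _⟩
    · exact Submodule.zero_mem _

end

/-- **The generalized Hodge conjecture for `∏ₛ E_s^(M s) × B`**, the `E_s` elliptic curves without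
complex multiplication, pairwise not isogenous, and `B` of CM type: no hypothesis on Hodge groups. -/
def ELLX : Prop :=
  ∀ (k l : ℕ) (S : Type) [Fintype S] (M : S → Type) [∀ s, Fintype (M s)] (τ : S → ℂ),
    (∀ s, (τ s).im ≠ 0) → NoCM τ → NoIsog τ → ∀ (ι : Type) [Finite ι] (K : ι → Type)
    [∀ i, Field (K i)] [∀ i, NumberField (K i)] [∀ i, NumberField.IsCMField (K i)]
    (Φ : ∀ i, Set (K i →+* ℂ)), (∀ i, IsCMType (Φ i)) →
    ∀ (R : Submodule ℚ ((Fin (2 * k + l) → Lt M (fun _ => Unit) K) → ℂ)),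
      IsSub (bEll M τ) Φ R → IsCon k l Φ R →
      ∀ u ∈ R, u ∈ Submodule.span ℚ {w | IsProd (bEll M τ) Φ k l w}

/-- Row ELL. -/
theorem ellx (h : GHX) : ELLX := by
  intro k l S _ M _ τ hτ h1 h2 ι _ K _ _ _ Φ hΦ R hR hC u hu
  have hb := ELLr.basis_apply (M := M) τ hτ
  have hg : IsGL2 (M := M) (G := fun _ => Unit) (ELLr.basis (M := M) τ hτ) := by
    rw [hb]
    exact isGL2_ell τ h1 h2
  have h3 := h k l S (Ell M × Fin 2) M (fun _ => Unit) (ELLr.basis (M := M) τ hτ) ι K Φ hΦ
    (Or.inr hg) R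
  rw [hb] at h3
  exact h3 hR hC u hu

end

end Pool.Agent.GG
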