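import Pool.Agent.Lib.GG.Rows

/-!
# Project G, row ENERGY

A traceless function which is killed by the raising operators vanishes on the words with a letter of
type `(0,1)`.
-/

set_option autoImplicit false

open scoped ComplexConjugate Matrix
open Complex Pool.Agent.HCM Pool.Agent.RAT

namespace Pool.Agent.GG

noncomputable section

namespace En

section

variable {P Y : Type} [Fintype P] [DecidableEq P] [Fintype Y] [DecidableEq Y]

/-- a fixed letter at one position -/
lemma card_mul_sum (i : P) (y : Y) (Ψ : (P → Y) → ℂ) :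
    (Fintype.card Y : ℂ) * ∑ t : P → Y, (if t i = y then Ψ t else 0) =
      ∑ t : P → Y, Ψ (Function.update t i y) := by
  have h1 : ∀ y' : Y, ∑ t : P → Y, (if t i = y' then Ψ (Function.update t i y) else 0) =
      ∑ t : P → Y, (if t i = y then Ψ t else 0) := by
    intro y'
    refine Fintype.sum_bijective (fun t : P → Y => Function.update t i (Equiv.swap y y' (t i)))
      ?_ _ _ ?_
    · refine Function.Involutive.bijective fun t => ?_
      funext j
      by_cases hj : j = i
      · subst hj
        simp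
      · simp [Function.update_of_ne hj]
    · intro t
      simp only [Function.update_self]
      by_cases h : t i = y'
      · rw [if_pos h, h, Equiv.swap_apply_right, if_pos rfl]
      · rw [if_neg h, if_neg]
        intro h'
        apply h
        have h2 := congrArg (Equiv.swap y y') h'
        rwa [Equiv.swap_apply_self, Equiv.swap_apply_left] at h2
  have h2 : ∑ t : P → Y, Ψ (Function.update t i y) =
      ∑ t : P → Y, ∑ y' : Y, (if t i = y' then Ψ (Function.update t i y) else 0) := by
    refine Finset.sum_congr rfl fun t _ => ?_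
    rw [Finset.sum_ite_eq Finset.univ (t i) fun _ => Ψ (Function.update t i y)]
    simp
  rw [h2, Finset.sum_comm, Finset.sum_congr rfl fun y' _ => h1 y', Finset.sum_const,
    Finset.card_univ, nsmul_eq_mul]

/-- fixed letters at two positions -/
lemma card_mul_sum_two {i j : P} (hij : i ≠ j) (y y' : Y) (Ψ : (P → Y) → ℂ) :
    (Fintype.card Y : ℂ) * ((Fintype.card Y : ℂ) *
      ∑ t : P → Y, (if t i = y ∧ t j = y' then Ψ t else 0)) =
      ∑ t : P → Y, Ψ (Function.update (Function.update t i y) j y') := by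
  rw [← card_mul_sum i y fun t => Ψ (Function.update t j y')]
  congr 1
  have h1 : ∀ t : P → Y, (if t i = y ∧ t j = y' then Ψ t else 0) =
      if t j = y' then (if t i = y then Ψ t else 0) else 0 := by
    intro t
    by_cases h1 : t i = y <;> by_cases h2 : t j = y' <;> simp [h1, h2]
  rw [Finset.sum_congr rfl fun t _ => h1 t, card_mul_sum j y' fun t => if t i = y then Ψ t else 0]
  refine Finset.sum_congr rfl fun t _ => ?_
  rw [Function.update_of_ne hij]

end

section

variable {S : Type} {M G : S → Type} [Fintype S] [∀ s, Fintype (M s)] [∀ s, Fintype (G s)]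

open Classical in
lemma sum_raise (s : S) (a c : G s) (y : AL M G) (g : AL M G → ℂ) :
    ∑ y' : AL M G, (@ite ℂ (∃ m : M s, y = (⟨s, (m, c)⟩, true) ∧ y' = (⟨s, (m, a)⟩, false))
      (Classical.propDecidable _) 1 0) * g y' =
      ∑ m : M s, if y = (⟨s, (m, c)⟩, true) then g (⟨s, (m, a)⟩, false) else 0 := by
  by_cases h : ∃ m : M s, y = (⟨s, (m, c)⟩, true)
  · obtain ⟨m0, rfl⟩ := h
    rw [Finset.sum_eq_single ((⟨s, (m0, a)⟩, false) : AL M G), Finset.sum_eq_single m0]
    · rw [if_pos ⟨m0, rfl, rfl⟩, if_pos rfl, one_mul]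
    · intro m _ hm
      rw [if_neg]
      intro h
      simp only [Prod.mk.injEq, Sigma.mk.injEq, heq_eq_eq, true_and, and_true] at h
      exact hm h.symm
    · intro h
      exact absurd (Finset.mem_univ _) h
    · intro y' _ hy'
      rw [if_neg, zero_mul]
      rintro ⟨m, h1, h2⟩
      simp only [Prod.mk.injEq, Sigma.mk.injEq, heq_eq_eq, true_and, and_true] at h1
      subst h1
      exact hy' h2
    · intro h
      exact absurd (Finset.mem_univ _) h
  · rw [Finset.sum_eq_zero, Finset.sum_eq_zero]
    · intro m _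
      rw [if_neg]
      intro h'
      exact h ⟨m, h'⟩
    · intro y' _
      rw [if_neg, zero_mul]
      rintro ⟨m, h1, -⟩
      exact h ⟨m, h1⟩

variable {P : Type} [Fintype P] [DecidableEq P]

open Classical in
/-- one term of the raising operator -/
def vt (f : (P → AL M G) → ℂ) (s : S) (i : P) (m : M s) (a c : G s) (t : P → AL M G) : ℂ :=
  if t i = (⟨s, (m, c)⟩, true) then f (Function.update t i (⟨s, (m, a)⟩, false)) else 0

omit [Fintype P] in
lemma der_raise (f : (P → AL M G) → ℂ) (Q : Finset P) (s : S) (a c : G s) (t : P → AL M G) :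
    der Q (raise s a c) f t =
      ∑ i ∈ Q, ∑ m : M s, vt f s i m a c t + ∑ i ∈ Q, ∑ m : M s, vt f s i m c a t := by
  unfold der raise
  rw [← Finset.sum_add_distrib]
  refine Finset.sum_congr rfl fun i _ => ?_
  simp only [Matrix.of_apply, add_mul]
  rw [Finset.sum_add_distrib]
  congr 1
  · exact sum_raise s a c (t i) fun y' => f (Function.update t i y')
  · exact sum_raise s c a (t i) fun y' => f (Function.update t i y')

open Classical in
/-- the terms with two different positions -/
lemma cross_nonneg {f : (P → AL M G) → ℂ} {Q : Finset P} (hT : Trl Q f) {s : S} {i j : P}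
    (hi : i ∈ Q) (hj : j ∈ Q) (hij : i ≠ j) (m m' : M s) :
    0 ≤ (∑ a : G s, ∑ c : G s, ∑ t : P → AL M G,
      conj (vt f s i m a c t) * vt f s j m' c a t).re := by
  set D : (P → AL M G) → ℂ := fun t => ∑ k : G s,
    f (Function.update (Function.update t i (⟨s, (m, k)⟩, true)) j (⟨s, (m', k)⟩, false)) with hD
  have hD' : ∀ t : P → AL M G, ∑ k : G s,
      f (Function.update (Function.update t i (⟨s, (m, k)⟩, false)) j (⟨s, (m', k)⟩, true)) =
        D t := by
    intro t
    have h1 : ct s m m' i j f t = 0 := by rw [hT i hi j hj hij s m m']; rfl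
    unfold ct at h1
    rw [Finset.sum_sub_distrib, sub_eq_zero] at h1
    exact h1.symm
  have hkey : (Fintype.card (AL M G) : ℂ) * ((Fintype.card (AL M G) : ℂ) *
      ∑ a : G s, ∑ c : G s, ∑ t : P → AL M G, conj (vt f s i m a c t) * vt f s j m' c a t) =
      ∑ t : P → AL M G, ((Complex.normSq (D t) : ℝ) : ℂ) := by
    have h1 : ∀ a c : G s, (Fintype.card (AL M G) : ℂ) * ((Fintype.card (AL M G) : ℂ) *
        ∑ t : P → AL M G, conj (vt f s i m a c t) * vt f s j m' c a t) =
        ∑ t : P → AL M G,
          conj (f (Function.update (Function.update t i (⟨s, (m, a)⟩, false)) j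
            (⟨s, (m', a)⟩, true))) *
          f (Function.update (Function.update t i (⟨s, (m, c)⟩, true)) j
            (⟨s, (m', c)⟩, false)) := by
      intro a c
      have h2 : ∀ t : P → AL M G, conj (vt f s i m a c t) * vt f s j m' c a t =
          if t i = (⟨s, (m, c)⟩, true) ∧ t j = (⟨s, (m', a)⟩, true) then
            conj (f (Function.update t i (⟨s, (m, a)⟩, false))) *
              f (Function.update t j (⟨s, (m', c)⟩, false)) else 0 := by
        intro t
        unfold vt
        by_cases h3 : t i = (⟨s, (m, c)⟩, true) <;> by_cases h4 : t j = (⟨s, (m', a)⟩, true) <;>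
          simp [h3, h4]
      rw [Finset.sum_congr rfl fun t _ => h2 t,
        card_mul_sum_two hij (Y := AL M G) (⟨s, (m, c)⟩, true) (⟨s, (m', a)⟩, true) fun t =>
          conj (f (Function.update t i (⟨s, (m, a)⟩, false))) *
              f (Function.update t j (⟨s, (m', c)⟩, false))]
      refine Finset.sum_congr rfl fun t _ => ?_
      have e1 : Function.update (Function.update (Function.update t i
          ((⟨s, (m, c)⟩, true) : AL M G)) j (⟨s, (m', a)⟩, true)) i (⟨s, (m, a)⟩, false) =
          Function.update (Function.update t i (⟨s, (m, a)⟩, false)) j (⟨s, (m', a)⟩, true) := by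
        rw [Function.update_comm hij.symm, Function.update_idem]
      have e2 : Function.update (Function.update (Function.update t i
          ((⟨s, (m, c)⟩, true) : AL M G)) j (⟨s, (m', a)⟩, true)) j (⟨s, (m', c)⟩, false) =
          Function.update (Function.update t i (⟨s, (m, c)⟩, true)) j (⟨s, (m', c)⟩, false) := by
        rw [Function.update_idem]
      rw [e1, e2]
    simp only [Finset.mul_sum] at h1 ⊢
    rw [Finset.sum_congr rfl fun a _ => Finset.sum_congr rfl fun c _ => h1 a c]
    have h3 : ∑ a : G s, ∑ c : G s, ∑ t : P → AL M G,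
        conj (f (Function.update (Function.update t i (⟨s, (m, a)⟩, false)) j
            (⟨s, (m', a)⟩, true))) *
          f (Function.update (Function.update t i (⟨s, (m, c)⟩, true)) j
            (⟨s, (m', c)⟩, false)) = ∑ t : P → AL M G, (∑ a : G s,
        conj (f (Function.update (Function.update t i (⟨s, (m, a)⟩, false)) j
            (⟨s, (m', a)⟩, true)))) * ∑ c : G s,
          f (Function.update (Function.update t i (⟨s, (m, c)⟩, true)) j
            (⟨s, (m', c)⟩, false)) := by
      rw [Finset.sum_congr rfl fun a _ => Finset.sum_comm, Finset.sum_comm]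
      refine Finset.sum_congr rfl fun t _ => ?_
      rw [Finset.sum_mul_sum]
    rw [h3]
    refine Finset.sum_congr rfl fun t _ => ?_
    rw [← map_sum, hD' t, mul_comm, Complex.mul_conj]
  rcases isEmpty_or_nonempty (G s) with hG | ⟨⟨k⟩⟩
  · simp
  have hcard : (0 : ℝ) < Fintype.card (AL M G) := by
    have : Nonempty (AL M G) := ⟨(⟨s, (m, k)⟩, true)⟩
    exact_mod_cast Fintype.card_pos
  have h1 := congrArg Complex.re hkey
  rw [Complex.re_sum] at h1
  simp only [Complex.ofReal_re] at h1
  rw [← Complex.ofReal_natCast, Complex.re_ofReal_mul, Complex.re_ofReal_mul] at h1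
  have h2 : 0 ≤ ∑ t : P → AL M G, Complex.normSq (D t) :=
    Finset.sum_nonneg fun t _ => Complex.normSq_nonneg _
  rw [← h1] at h2
  exact nonneg_of_mul_nonneg_right (nonneg_of_mul_nonneg_right h2 hcard) hcard

omit [Fintype S] [∀ s, Fintype (M s)] [∀ s, Fintype (G s)] [Fintype P] in
open Classical in
/-- the terms with one position -/
lemma diag_nonneg (f : (P → AL M G) → ℂ) (s : S) (i : P) (m m' : M s) (a c : G s)
    (t : P → AL M G) : 0 ≤ (conj (vt f s i m a c t) * vt f s i m' c a t).re := by
  unfold vt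
  by_cases h1 : t i = (⟨s, (m, c)⟩, true)
  · by_cases h2 : t i = (⟨s, (m', a)⟩, true)
    · have h3 := h1.symm.trans h2
      simp only [Prod.mk.injEq, Sigma.mk.injEq, heq_eq_eq, true_and, and_true] at h3
      obtain ⟨rfl, rfl⟩ := h3
      rw [if_pos h1, ← Complex.normSq_eq_conj_mul_self, Complex.ofReal_re]
      exact Complex.normSq_nonneg _
    · rw [if_neg h2, mul_zero, Complex.zero_re]
  · rw [if_neg h1, map_zero, zero_mul, Complex.zero_re]

lemma swap_sum {α β : Type} (A : Finset α) (B : Finset β) (v w : α → β → ℂ) :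
    ∑ p ∈ B, conj (∑ x ∈ A, v x p) * ∑ y ∈ A, w y p =
      ∑ x ∈ A, ∑ y ∈ A, ∑ p ∈ B, conj (v x p) * w y p := by
  simp only [map_sum, Finset.sum_mul_sum]
  rw [Finset.sum_comm]
  refine Finset.sum_congr rfl fun x _ => ?_
  rw [Finset.sum_comm]

end

end En

/-- **row ENERGY** -/
theorem energy : ENERGY := by
  classical
  intro S _ M G _ _ P _ _ Q f hT hR t0 ⟨i0, hi0, hb⟩
  obtain ⟨⟨s, m0, a0⟩, ht0⟩ : ∃ p : Crd M G, t0 i0 = (p, false) := ⟨(t0 i0).1, by rw [← hb]⟩
  have hu : ∀ (a c : G s) (t : P → AL M G), ∑ i ∈ Q, ∑ m : M s, En.vt f s i m a c t +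
      ∑ i ∈ Q, ∑ m : M s, En.vt f s i m c a t = 0 := by
    intro a c t
    rw [← En.der_raise, hR s a c]
    rfl
  set A : Finset (P × M s) := Q ×ˢ Finset.univ with hA
  set B : Finset (G s × G s × (P → AL M G)) := Finset.univ with hB
  have hsw := En.swap_sum A B (fun x p => En.vt f s x.1 x.2 p.1 p.2.1 p.2.2)
    (fun x p => En.vt f s x.1 x.2 p.2.1 p.1 p.2.2)
  have hle : (∑ p ∈ B, conj (∑ x ∈ A, En.vt f s x.1 x.2 p.1 p.2.1 p.2.2) *
      ∑ x ∈ A, En.vt f s x.1 x.2 p.2.1 p.1 p.2.2).re ≤ 0 := by
    rw [Complex.re_sum]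
    refine Finset.sum_nonpos fun p _ => ?_
    have h1 := hu p.1 p.2.1 p.2.2
    rw [add_comm, ← eq_neg_iff_add_eq_zero] at h1
    rw [hA, Finset.sum_product, Finset.sum_product, h1, mul_neg,
      ← Complex.normSq_eq_conj_mul_self, ← Complex.ofReal_neg, Complex.ofReal_re]
    exact neg_nonpos.2 (Complex.normSq_nonneg _)
  rw [hsw, Complex.re_sum] at hle
  simp only [Complex.re_sum] at hle
  -- every term is nonnegative
  have hterm : ∀ x ∈ A, ∀ y ∈ A,
      0 ≤ ∑ p ∈ B, (conj (En.vt f s x.1 x.2 p.1 p.2.1 p.2.2) *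
        En.vt f s y.1 y.2 p.2.1 p.1 p.2.2).re := by
    rintro ⟨i, m⟩ hx ⟨j, m'⟩ hy
    rw [hA, Finset.mem_product] at hx hy
    by_cases hij : i = j
    · subst hij
      exact Finset.sum_nonneg fun p _ => En.diag_nonneg f s i m m' p.1 p.2.1 p.2.2
    · have h1 := En.cross_nonneg hT hx.1 hy.1 hij m m' (s := s)
      rw [hB, Fintype.sum_prod_type]
      simp only [Complex.re_sum] at h1
      refine h1.trans (le_of_eq ?_)
      refine Finset.sum_congr rfl fun a _ => ?_
      rw [Fintype.sum_prod_type]
  have hx0 : (i0, m0) ∈ A := by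
    rw [hA, Finset.mem_product]
    exact ⟨hi0, Finset.mem_univ _⟩
  have h1 : ∑ p ∈ B, (conj (En.vt f s i0 m0 p.1 p.2.1 p.2.2) *
        En.vt f s i0 m0 p.2.1 p.1 p.2.2).re ≤ 0 := by
    refine le_trans ?_ hle
    refine le_trans ?_ (Finset.single_le_sum (fun x hx => Finset.sum_nonneg (hterm x hx)) hx0)
    exact Finset.single_le_sum (hterm _ hx0) hx0
  have h2 : (conj (En.vt f s i0 m0 a0 a0 (Function.update t0 i0 (⟨s, (m0, a0)⟩, true))) *
      En.vt f s i0 m0 a0 a0 (Function.update t0 i0 (⟨s, (m0, a0)⟩, true))).re ≤ 0 := by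
    refine le_trans ?_ h1
    exact Finset.single_le_sum (f := fun p : G s × G s × (P → AL M G) =>
      (conj (En.vt f s i0 m0 p.1 p.2.1 p.2.2) * En.vt f s i0 m0 p.2.1 p.1 p.2.2).re)
      (fun p _ => En.diag_nonneg f s i0 m0 m0 p.1 p.2.1 p.2.2)
      (Finset.mem_univ (a0, a0, Function.update t0 i0 (⟨s, (m0, a0)⟩, true)))
  have h3 : En.vt f s i0 m0 a0 a0 (Function.update t0 i0 (⟨s, (m0, a0)⟩, true)) = f t0 := by
    unfold En.vt
    rw [Function.update_self, if_pos rfl, Function.update_idem, ← ht0, Function.update_eq_self]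
  rw [h3, ← Complex.normSq_eq_conj_mul_self, Complex.ofReal_re] at h2
  exact Complex.normSq_eq_zero.1 (le_antisymm h2 (Complex.normSq_nonneg _))

end

end Pool.Agent.GG
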