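import Pool.Agent.Lib.GG.GlieC

/-!
# Row GLIE: tori of `GL₂`-type are of symplectic type
-/

set_option autoImplicit false

open scoped ComplexConjugate Matrix
open Complex Pool.Agent.HCM Pool.Agent.RAT

namespace Pool.Agent.GG.Glie

noncomputable section

variable {S Λ : Type} [Fintype S] [Fintype Λ] {M G : S → Type} [∀ s, Fintype (M s)]
  [∀ s, Fintype (G s)]

variable (M G) in
/-- the blocks which occur -/
abbrev SS : Type := {s : S // Nonempty (M s × G s)}

variable (M G) in
/-- families of matrices of trace zero -/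
abbrev Tr : Type := (SS M G → ℂ) × (SS M G → ℂ) × (SS M G → ℂ)

/-- the block of a coordinate -/
def idx (p : Crd M G) : SS M G := ⟨p.1, ⟨p.2⟩⟩

/-- the matrix `a b c -a` -/
def blk (a b c : ℂ) (u v : Bool) : ℂ := if u then (if v then a else b) else (if v then c else -a)

/-- the block at `p` -/
def bk (x : Tr M G) (p : Crd M G) (u v : Bool) : ℂ :=
  blk (x.1 (idx p)) (x.2.1 (idx p)) (x.2.2 (idx p)) u v

open Classical in
/-- the matrix with the blocks `bk` -/
def Psi : Tr M G →ₗ[ℂ] Matrix (AL M G) (AL M G) ℂ where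
  toFun x := Matrix.of fun y y' => if y.1 = y'.1 then bk x y.1 y.2 y'.2 else 0
  map_add' x x' := by
    ext y y'
    rw [Matrix.add_apply]
    simp only [Matrix.of_apply]
    by_cases h : y.1 = y'.1
    · simp only [h, if_true]
      simp only [bk, blk, Prod.fst_add, Prod.snd_add, Pi.add_apply]
      cases y.2 <;> cases y'.2 <;> simp <;> ring
    · simp [h]
  map_smul' r x := by
    ext y y'
    rw [Matrix.smul_apply]
    simp only [Matrix.of_apply]
    by_cases h : y.1 = y'.1
    · simp only [h, if_true]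
      simp only [bk, blk, Prod.smul_fst, Prod.smul_snd, Pi.smul_apply]
      cases y.2 <;> cases y'.2 <;> simp
    · simp [h]

lemma psi_apply [DecidableEq (Crd M G)] (x : Tr M G) (y y' : AL M G) :
    Psi x y y' = if y.1 = y'.1 then bk x y.1 y.2 y'.2 else 0 := by
  by_cases h : y.1 = y'.1
  · rw [if_pos h]
    exact if_pos h
  · rw [if_neg h]
    exact if_neg h

lemma psi_mul (x : Tr M G) (Z : Matrix (AL M G) (AL M G) ℂ) (p : Crd M G) (u : Bool) (y' : AL M G) :
    (Psi x * Z) (p, u) y' = bk x p u true * Z (p, true) y' + bk x p u false * Z (p, false) y' := by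
  classical
  rw [Matrix.mul_apply, Fintype.sum_prod_type, Finset.sum_eq_single p]
  · simp [psi_apply]
  · intro q _ hq
    simp [psi_apply, Ne.symm hq]
  · simp

lemma mul_psi (x : Tr M G) (Z : Matrix (AL M G) (AL M G) ℂ) (y : AL M G) (q : Crd M G) (v : Bool) :
    (Z * Psi x) y (q, v) = Z y (q, true) * bk x q true v + Z y (q, false) * bk x q false v := by
  classical
  rw [Matrix.mul_apply, Fintype.sum_prod_type, Finset.sum_eq_single q]
  · simp [psi_apply]
  · intro p _ hp
    simp [psi_apply, hp]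
  · simp

lemma psi_br (x y : Tr M G) : Psi x * Psi y - Psi y * Psi x =
    Psi (x.2.1 * y.2.2 - x.2.2 * y.2.1, 2 * (x.1 * y.2.1 - x.2.1 * y.1),
      2 * (x.2.2 * y.1 - x.1 * y.2.2)) := by
  classical
  ext ⟨p, u⟩ ⟨q, v⟩
  rw [Matrix.sub_apply, psi_mul, psi_mul]
  simp only [psi_apply]
  by_cases h : p = q
  · subst h
    simp only [if_true, bk, blk, Pi.sub_apply, Pi.mul_apply, Pi.ofNat_apply]
    cases u <;> cases v <;> simp <;> ring
  · simp [h]

/-- conjugation -/
def sg (Z : Matrix (AL M G) (AL M G) ℂ) : Matrix (AL M G) (AL M G) ℂ :=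
  Matrix.of fun y y' => conj (Z (y.1, !y.2) (y'.1, !y'.2))

lemma sg_psi (x : Tr M G) : sg (Psi x) =
    Psi (fun s => -conj (x.1 s), fun s => conj (x.2.2 s), fun s => conj (x.2.1 s)) := by
  classical
  ext ⟨p, u⟩ ⟨q, v⟩
  simp only [sg, Matrix.of_apply, psi_apply]
  by_cases h : p = q
  · subst h
    simp only [if_true, bk, blk]
    cases u <;> cases v <;> simp
  · simp [h]

/-! ### The invariants -/

lemma ps_spec (s : S) (m m' : M s) : ∃ φ : Crd M G → Crd M G → ℂ,
    (∀ p q, p.1 ≠ q.1 → φ p q = 0) ∧ ∀ p q u v, ps s m m' (p, u) (q, v) =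
      φ p q * (if u then (if v then 0 else 1) else (if v then -1 else 0)) := by
  classical
  refine ⟨fun p q => ∑ k, if p = ⟨s, (m, k)⟩ ∧ q = ⟨s, (m', k)⟩ then 1 else 0, ?_, ?_⟩
  · intro p q hpq
    refine Finset.sum_eq_zero fun k _ => if_neg ?_
    rintro ⟨rfl, rfl⟩
    exact hpq rfl
  · intro p q u v
    unfold ps
    rw [Finset.sum_mul]
    refine Finset.sum_congr rfl fun k _ => ?_
    simp only [Prod.mk.injEq]
    by_cases h : p = ⟨s, (m, k)⟩ ∧ q = ⟨s, (m', k)⟩
    · cases u <;> cases v <;> simp [h.1, h.2]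
    · cases u <;> cases v <;> simp [h]

lemma psi_ps (x : Tr M G) (s : S) (m m' : M s) :
    Psi x * Matrix.of (ps s m m' : AL M G → AL M G → ℂ) +
      Matrix.of (ps s m m' : AL M G → AL M G → ℂ) * (Psi x)ᵀ = 0 := by
  classical
  obtain ⟨φ, h0, hφ⟩ := ps_spec (M := M) (G := G) s m m'
  ext ⟨p, u⟩ ⟨q, v⟩
  have e2 : (Matrix.of (ps s m m' : AL M G → AL M G → ℂ) * (Psi x)ᵀ) (p, u) (q, v) =
      bk x q v true * ps s m m' (p, u) (q, true) + bk x q v false * ps s m m' (p, u) (q, false) := by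
    have e3 : (Matrix.of (ps s m m' : AL M G → AL M G → ℂ) * (Psi x)ᵀ) (p, u) (q, v) =
        (Psi x * (Matrix.of (ps s m m' : AL M G → AL M G → ℂ))ᵀ) (q, v) (p, u) := by
      rw [← Matrix.transpose_apply (Matrix.of (ps s m m' : AL M G → AL M G → ℂ) * (Psi x)ᵀ),
        Matrix.transpose_mul, Matrix.transpose_transpose]
    rw [e3, psi_mul]
    rfl
  rw [Matrix.add_apply, psi_mul, e2]
  simp only [Matrix.of_apply, hφ, Matrix.zero_apply]
  by_cases h : p.1 = q.1
  · have hi : idx p = idx q := Subtype.ext h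
    simp only [bk, blk, hi]
    cases u <;> cases v <;> simp <;> ring
  · simp [h0 p q h]

lemma hM_T : (hM : Matrix (AL M G) (AL M G) ℂ)ᵀ = hM := by
  classical
  unfold hM
  exact @Matrix.diagonal_transpose _ _ (_) _ _

lemma psi_hM : Psi ((1, 0, 0) : Tr M G) = hM := by
  classical
  ext ⟨p, u⟩ ⟨q, v⟩
  rw [psi_apply]
  unfold hM
  rw [Matrix.diagonal_apply]
  by_cases h : p = q
  · subst h
    cases u <;> cases v <;> simp [bk, blk]
  · simp [h]

variable {b : Λ → Crd M G → ℂ} {N' : Matrix Λ (AL M G) ℂ}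

section

variable [DecidableEq Λ] [DecidableEq (AL M G)]

lemma sp_br (h1 : N' * Nm b = 1) {𝔫 : Submodule ℚ (Matrix Λ Λ ℚ)}
    (h : ∀ X ∈ 𝔫, ∀ X' ∈ 𝔫, X * X' - X' * X ∈ 𝔫) {Z Z' : Matrix (AL M G) (AL M G) ℂ}
    (hZ : Z ∈ sp b N' 𝔫) (hZ' : Z' ∈ sp b N' 𝔫) : Z * Z' - Z' * Z ∈ sp b N' 𝔫 := by
  have a : ∀ X' ∈ 𝔫, ∀ Z ∈ sp b N' 𝔫,
      Z * rhoL b N' X' - rhoL b N' X' * Z ∈ sp b N' 𝔫 := by
    intro X' hX'
    refine sp_induction ((sp b N' 𝔫).comap (LinearMap.mulRight ℂ (rhoL b N' X') -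
      LinearMap.mulLeft ℂ (rhoL b N' X'))) ?_
    intro X hX
    show rhoL b N' X * rhoL b N' X' - rhoL b N' X' * rhoL b N' X ∈ sp b N' 𝔫
    rw [rho_mul h1, rho_mul h1, ← map_sub]
    exact rho_mem_sp (h X hX X' hX')
  exact sp_induction ((sp b N' 𝔫).comap (LinearMap.mulLeft ℂ Z - LinearMap.mulRight ℂ Z))
    (fun X' hX' => a X' hX' Z hZ) hZ'

lemma sp_sg (h1 : N' * Nm b = 1) (h2 : Nm b * N' = 1) {𝔫 : Submodule ℚ (Matrix Λ Λ ℚ)}
    {Z : Matrix (AL M G) (AL M G) ℂ} (hZ : Z ∈ sp b N' 𝔫) : sg Z ∈ sp b N' 𝔫 := by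
  let V : Submodule ℂ (Matrix (AL M G) (AL M G) ℂ) :=
    { carrier := {Z | sg Z ∈ sp b N' 𝔫}
      add_mem' := by
        intro a c ha hc
        have e : sg (a + c) = sg a + sg c := by
          ext y y'
          simp [sg]
        show sg (a + c) ∈ sp b N' 𝔫
        rw [e]
        exact Submodule.add_mem _ ha hc
      zero_mem' := by
        have e : sg (0 : Matrix (AL M G) (AL M G) ℂ) = 0 := by
          ext y y'
          simp [sg]
        show sg 0 ∈ sp b N' 𝔫
        rw [e]
        exact Submodule.zero_mem _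
      smul_mem' := by
        intro r a ha
        have e : sg (r • a) = conj r • sg a := by
          ext y y'
          simp [sg]
        show sg (r • a) ∈ sp b N' 𝔫
        rw [e]
        exact Submodule.smul_mem _ _ ha }
  refine sp_induction V (fun X hX => ?_) hZ
  have e : sg (rhoL b N' X) = rhoL b N' X := by
    ext ⟨p, u⟩ ⟨q, v⟩
    simp only [sg, Matrix.of_apply]
    rw [← rho_conj h1 h2, Bool.not_not, Bool.not_not]
  show sg (rhoL b N' X) ∈ sp b N' 𝔫
  rw [e]
  exact rho_mem_sp hX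

variable (hb : IsGL2 (M := M) (G := G) b)
  (h1 : N' * Nm b = 1) (h2 : Nm b * N' = 1)

include hb h1 h2 in
lemma exists_psi {𝔪 : Submodule ℚ (Matrix Λ Λ ℚ)} {X : Matrix Λ Λ ℚ} (hX : X ∈ m0 b N' 𝔪) :
    ∃ x : Tr M G, rhoL b N' X = Psi x := by
  classical
  obtain ⟨e1, e2, e3⟩ := m0_entries hb h1 h2 hX
  let pp : SS M G → Crd M G := fun s => ⟨s.1, s.2.some⟩
  refine ⟨(fun s => rhoL b N' X (pp s, true) (pp s, true),
    fun s => rhoL b N' X (pp s, true) (pp s, false),
    fun s => rhoL b N' X (pp s, false) (pp s, true)), ?_⟩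
  ext ⟨p, u⟩ ⟨q, v⟩
  rw [psi_apply]
  by_cases h : p = q
  · subst h
    have hp : p.1 = (pp (idx p)).1 := rfl
    simp only [if_true, bk, blk]
    cases u <;> cases v <;> simp only [Bool.false_eq_true, if_true, if_false]
    · rw [e2 p (pp (idx p)) false false hp]
      linear_combination e3 (pp (idx p))
    · exact e2 p (pp (idx p)) false true hp
    · exact e2 p (pp (idx p)) true false hp
    · exact e2 p (pp (idx p)) true true hp
  · rw [if_neg h]
    exact e1 p q u v h

include hb h1 h2 in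
lemma psi_mem (hx : EXPA) {𝔪 : Submodule ℚ (Matrix Λ Λ ℚ)}
    (h𝔪 : ∀ X ∈ 𝔪, ∀ X' ∈ 𝔪, X * X' - X' * X ∈ 𝔪) (h : hM ∈ sp b N' 𝔪) (x : Tr M G) :
    Psi x ∈ sp b N' (m0 b N' 𝔪) := by
  classical
  have h' := hM_mem hb h1 h2 hx h
  letI : Fintype (SS M G) := Fintype.ofFinite _
  have hsg : ∀ x ∈ (sp b N' (m0 b N' 𝔪)).comap (Psi (M := M) (G := G)),
      ((fun s => -conj (x.1 s), fun s => conj (x.2.2 s), fun s => conj (x.2.1 s)) : Tr M G) ∈
        (sp b N' (m0 b N' 𝔪)).comap (Psi (M := M) (G := G)) := by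
    intro x hx'
    rw [Submodule.mem_comap, ← sg_psi]
    exact sp_sg h1 h2 hx'
  have key := lie2 (SS M G) ((sp b N' (m0 b N' 𝔪)).comap (Psi (M := M) (G := G))) ?_ ?_ hsg ?_ ?_
  · have : x ∈ (sp b N' (m0 b N' 𝔪)).comap (Psi (M := M) (G := G)) := by rw [key]; trivial
    exact this
  · rw [Submodule.mem_comap, psi_hM]
    exact h'
  · intro x hx' y hy
    rw [Submodule.mem_comap, ← psi_br]
    exact sp_br h1 (fun X hX X' hX' => m0_comm h𝔪 hX hX') hx' hy
  · intro s
    by_contra hcon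
    push Not at hcon
    have hg : ∀ X ∈ m0 b N' 𝔪, Psi ((Pi.single s 1, 0, 0) : Tr M G) * rhoL b N' X =
        rhoL b N' X * Psi ((Pi.single s 1, 0, 0) : Tr M G) := by
      intro X hX
      obtain ⟨z, hz⟩ := exists_psi hb h1 h2 hX
      have hzm : z ∈ (sp b N' (m0 b N' 𝔪)).comap (Psi (M := M) (G := G)) := by
        rw [Submodule.mem_comap, ← hz]
        exact rho_mem_sp hX
      have z1 : z.2.1 s = 0 := hcon z hzm
      have z2 : z.2.2 s = 0 := by
        have := hcon _ (hsg z hzm)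
        simpa using this
      rw [hz, ← sub_eq_zero, psi_br]
      have e : (((0 : SS M G → ℂ) * z.2.2 - 0 * z.2.1,
          2 * ((Pi.single s 1 : SS M G → ℂ) * z.2.1 - 0 * z.1),
          2 * (0 * z.1 - (Pi.single s 1 : SS M G → ℂ) * z.2.2)) : Tr M G) = 0 := by
        refine Prod.ext ?_ (Prod.ext ?_ ?_)
        · simp
        · ext r
          by_cases hr : r = s
          · subst hr
            simp [z1]
          · simp [hr]
        · ext r
          by_cases hr : r = s
          · subst hr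
            simp [z2]
          · simp [Pi.single_apply, hr]
      show Psi _ = 0
      rw [show _ = (0 : Tr M G) from e, map_zero]
    have e := (commutant hb h1 h2 hx h' hg).2 ⟨s.1, s.2.some⟩ ⟨s.1, s.2.some⟩
    rw [psi_apply, psi_apply] at e
    have hi : idx (⟨s.1, s.2.some⟩ : Crd M G) = s := rfl
    simp only [bk, blk, hi, if_true, Pi.single_eq_same, Bool.false_eq_true, if_false] at e
    exact self_eq_neg.not.2 one_ne_zero e
  · rintro s s' hss ⟨c, hc, hcx⟩
    let p : Crd M G := ⟨s.1, s.2.some⟩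
    let p' : Crd M G := ⟨s'.1, s'.2.some⟩
    have hip : idx p = s := rfl
    have hip' : idx p' = s' := rfl
    let g : Matrix (AL M G) (AL M G) ℂ := Matrix.of fun y y' =>
      if y.1 = p' ∧ y'.1 = p ∧ y.2 = y'.2 then (if y.2 then c else 1) else 0
    have hg : ∀ X ∈ m0 b N' 𝔪, g * rhoL b N' X = rhoL b N' X * g := by
      intro X hX
      obtain ⟨z, hz⟩ := exists_psi hb h1 h2 hX
      have hzm : z ∈ (sp b N' (m0 b N' 𝔪)).comap (Psi (M := M) (G := G)) := by
        rw [Submodule.mem_comap, ← hz]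
        exact rho_mem_sp hX
      obtain ⟨z1, z2, z3⟩ := hcx z hzm
      rw [hz]
      ext ⟨a, u⟩ ⟨d, v⟩
      rw [psi_mul, mul_psi]
      simp only [g, Matrix.of_apply]
      by_cases ha : a = p'
      · by_cases hd : d = p
        · subst ha
          subst hd
          have hc' : c * c⁻¹ = 1 := mul_inv_cancel₀ hc
          cases u <;> cases v <;> simp [bk, blk, hip, hip', z1, z2, z3]
          · field_simp
          · ring
        · simp [hd]
      · simp [ha]
    have e := (commutant hb h1 h2 hx h' hg).1 p' p true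
      (fun h => hss (Subtype.ext (by exact h.symm)))
    simp only [g, Matrix.of_apply] at e
    simp at e
    exact hc e

include hb h1 h2 in
lemma ns (hx : EXPA) (s : S) (m m' : M s) :
    (ps s m m' : AL M G → AL M G → ℂ) ∈ Submodule.span ℂ (RT11 b) := by
  classical
  have hM0 : hM ∈ sp b N' (m0 b N' ⊤) := hM_mem hb h1 h2 hx (mem_span_rho h2 hM)
  let F : Matrix (AL M G) (AL M G) ℂ := Matrix.of (ps s m m' : AL M G → AL M G → ℂ)
  let D : Matrix Λ Λ ℂ := N' * F * N'ᵀ
  have hFD : F = Nm b * D * (Nm b)ᵀ := by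
    calc F = (Nm b * N') * F * (Nm b * N')ᵀ := by rw [h2]; simp
      _ = Nm b * D * (Nm b)ᵀ := by simp only [D, Matrix.transpose_mul, Matrix.mul_assoc]
  let rcL : Matrix Λ Λ ℚ →ₗ[ℚ] Matrix Λ Λ ℂ :=
    { toFun := rc
      map_add' := rc_add
      map_smul' := rc_smul }
  have hD : D ∈ Submodule.span ℂ ((LinearMap.range rcL : Submodule ℚ (Matrix Λ Λ ℂ)) :
      Set (Matrix Λ Λ ℂ)) := by
    have e : D = ∑ i, ∑ j, D i j • rc (Matrix.single i j (1 : ℚ)) := by
      conv_lhs => rw [Matrix.matrix_eq_sum_single D]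
      refine Finset.sum_congr rfl fun i _ => Finset.sum_congr rfl fun j _ => ?_
      ext i' j'
      rw [Matrix.smul_apply, rc_apply, Matrix.single_apply, Matrix.single_apply]
      split_ifs <;> simp
    rw [e]
    exact Submodule.sum_mem _ fun i _ => Submodule.sum_mem _ fun j _ =>
      Submodule.smul_mem _ _ (Submodule.subset_span ⟨_, rfl⟩)
  obtain ⟨n, c, v, hc, hv, he⟩ := hx _ _ _ hD
  choose E hE using hv
  have hE' : ∀ k, rc (E k) = v k := hE
  have he' : D = ∑ k, c k • rc (E k) := by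
    rw [he]
    exact Finset.sum_congr rfl fun k _ => by rw [hE']
  have hkill : ∀ X ∈ m0 b N' ⊤, ∀ k, X * E k + E k * Xᵀ = 0 := by
    intro X hX k
    obtain ⟨x, hxX⟩ := exists_psi hb h1 h2 hX
    have e := psi_ps x s m m'
    rw [← hxX] at e
    have e1 : Nm b * (rc X * D + D * (rc X)ᵀ) * (Nm b)ᵀ = 0 := by
      rw [← e]
      show _ = rhoL b N' X * F + F * (rhoL b N' X)ᵀ
      have e2 : rhoL b N' X * F = Nm b * (rc X * D) * (Nm b)ᵀ := by
        rw [hFD]
        calc rhoL b N' X * (Nm b * D * (Nm b)ᵀ) = (rhoL b N' X * Nm b) * D * (Nm b)ᵀ := by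
              simp only [Matrix.mul_assoc]
          _ = _ := by rw [rho_N h1]; simp only [Matrix.mul_assoc]
      have e3 : F * (rhoL b N' X)ᵀ = Nm b * (D * (rc X)ᵀ) * (Nm b)ᵀ := by
        rw [hFD]
        calc Nm b * D * (Nm b)ᵀ * (rhoL b N' X)ᵀ = Nm b * D * (rhoL b N' X * Nm b)ᵀ := by
              rw [Matrix.transpose_mul]
              simp only [Matrix.mul_assoc]
          _ = _ := by
              rw [rho_N h1, Matrix.transpose_mul]
              simp only [Matrix.mul_assoc]
      rw [e2, e3, Matrix.mul_add, Matrix.add_mul]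
    have e4 : rc X * D + D * (rc X)ᵀ = 0 := by
      have h1t : (Nm b)ᵀ * N'ᵀ = 1 := by
        rw [← Matrix.transpose_mul, h1, Matrix.transpose_one]
      calc rc X * D + D * (rc X)ᵀ = (N' * Nm b) * (rc X * D + D * (rc X)ᵀ) * ((Nm b)ᵀ * N'ᵀ) := by
            rw [h1, h1t]; simp
        _ = N' * (Nm b * (rc X * D + D * (rc X)ᵀ) * (Nm b)ᵀ) * N'ᵀ := by
            simp only [Matrix.mul_assoc]
        _ = 0 := by rw [e1]; simp
    refine rc_ind hc (fun k => X * E k + E k * Xᵀ) ?_ k
    rw [← e4, he', Matrix.mul_sum, Matrix.sum_mul, ← Finset.sum_add_distrib]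
    refine Finset.sum_congr rfl fun k _ => ?_
    have et : (rc X)ᵀ = rc Xᵀ := rfl
    rw [Matrix.mul_smul, Matrix.smul_mul, ← smul_add, et, ← rc_mul, ← rc_mul, ← rc_add]
  let δ : Fin n → AL M G → AL M G → ℂ := fun k y y' => (Nm b * rc (E k) * (Nm b)ᵀ) y y'
  have hmem : ∀ k, δ k ∈ RT11 b := by
    intro k
    constructor
    · have e : δ k = ∑ i, ∑ j, (E k i j) •
          fun y y' => perA b y (Pi.single i 1) * perA b y' (Pi.single j 1) := by
        have hs : ∀ y i, perA b y (Pi.single i 1) = Nm b y i := by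
          intro y i
          rw [perA_eq, Finset.sum_eq_single i]
          · simp
          · intro j _ hj
            simp [hj]
          · simp
        funext y y'
        simp only [Finset.sum_apply, Pi.smul_apply, hs]
        show (Nm b * rc (E k) * (Nm b)ᵀ) y y' = _
        rw [Matrix.mul_apply, Finset.sum_comm]
        refine Finset.sum_congr rfl fun j _ => ?_
        rw [Matrix.mul_apply, Finset.sum_mul]
        refine Finset.sum_congr rfl fun i _ => ?_
        rw [Rat.smul_def, Matrix.transpose_apply, rc_apply]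
        ring
      rw [e]
      exact Submodule.sum_mem _ fun i _ => Submodule.sum_mem _ fun j _ =>
        Submodule.smul_mem _ _ (Submodule.subset_span ⟨(Pi.single i 1, Pi.single j 1), rfl⟩)
    · intro y y' hy
      let V : Submodule ℂ (Matrix (AL M G) (AL M G) ℂ) :=
        { carrier := {Z | Z * (Nm b * rc (E k) * (Nm b)ᵀ) + (Nm b * rc (E k) * (Nm b)ᵀ) * Zᵀ = 0}
          add_mem' := by
            intro a d ha hd
            simp only [Set.mem_setOf_eq] at *
            rw [Matrix.transpose_add, Matrix.add_mul, Matrix.mul_add, add_add_add_comm, ha, hd,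
              add_zero]
          zero_mem' := by simp
          smul_mem' := by
            intro r a ha
            simp only [Set.mem_setOf_eq] at *
            rw [Matrix.transpose_smul, Matrix.smul_mul, Matrix.mul_smul, ← smul_add, ha, smul_zero] }
      have hV : hM ∈ V := by
        refine sp_induction V (fun X hX => ?_) hM0
        show rhoL b N' X * (Nm b * rc (E k) * (Nm b)ᵀ) +
          (Nm b * rc (E k) * (Nm b)ᵀ) * (rhoL b N' X)ᵀ = 0
        have et : (rc X)ᵀ = rc Xᵀ := rfl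
        have a1 : rhoL b N' X * (Nm b * rc (E k) * (Nm b)ᵀ) = Nm b * rc (X * E k) * (Nm b)ᵀ := by
          calc rhoL b N' X * (Nm b * rc (E k) * (Nm b)ᵀ) =
              (rhoL b N' X * Nm b) * rc (E k) * (Nm b)ᵀ := by simp only [Matrix.mul_assoc]
            _ = _ := by rw [rho_N h1, rc_mul]; simp only [Matrix.mul_assoc]
        have a2 : (Nm b * rc (E k) * (Nm b)ᵀ) * (rhoL b N' X)ᵀ = Nm b * rc (E k * Xᵀ) * (Nm b)ᵀ := by
          calc (Nm b * rc (E k) * (Nm b)ᵀ) * (rhoL b N' X)ᵀ =
              Nm b * rc (E k) * (rhoL b N' X * Nm b)ᵀ := by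
                rw [Matrix.transpose_mul]; simp only [Matrix.mul_assoc]
            _ = _ := by
                rw [rho_N h1, Matrix.transpose_mul, rc_mul, et]; simp only [Matrix.mul_assoc]
        rw [a1, a2, ← Matrix.add_mul, ← Matrix.mul_add, ← rc_add, hkill X hX k]
        have : rc (0 : Matrix Λ Λ ℚ) = 0 := by
          ext i j
          simp [rc_apply]
        rw [this]
        simp
      have e0 : hM * (Nm b * rc (E k) * (Nm b)ᵀ) +
          (Nm b * rc (E k) * (Nm b)ᵀ) * (hM : Matrix (AL M G) (AL M G) ℂ)ᵀ = 0 := hV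
      have e := congrFun (congrFun e0 y) y'
      rw [hM_T, Matrix.add_apply, hM_mul, mul_hM, hy, Matrix.zero_apply] at e
      show (Nm b * rc (E k) * (Nm b)ᵀ) y y' = 0
      have e5 : (2 * (if y'.2 then 1 else -1 : ℂ)) * (Nm b * rc (E k) * (Nm b)ᵀ) y y' = 0 := by
        linear_combination e
      refine (mul_eq_zero.1 e5).resolve_left ?_
      split_ifs <;> norm_num
  have hF : (ps s m m' : AL M G → AL M G → ℂ) =
      ∑ k, c k • δ k := by
    have e : F = ∑ k, c k • (Nm b * rc (E k) * (Nm b)ᵀ) := by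
      rw [hFD, he', Matrix.mul_sum, Matrix.sum_mul]
      exact Finset.sum_congr rfl fun k _ => by rw [Matrix.mul_smul, Matrix.smul_mul]
    funext y y'
    have e6 := congrFun (congrFun e y) y'
    rw [Matrix.sum_apply] at e6
    simp only [Finset.sum_apply, Pi.smul_apply]
    exact e6
  rw [hF]
  exact Submodule.sum_mem _ fun k _ => Submodule.smul_mem _ _ (Submodule.subset_span (hmem k))

lemma raise_eq (hG : ∀ s, Subsingleton (G s)) (s : S) (a c : G s) :
    (raise s a c : Matrix (AL M G) (AL M G) ℂ) =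
      Psi (by classical exact (0, (fun r => if r.1 = s then 2 else 0), 0)) := by
  classical
  haveI := hG s
  obtain rfl : a = c := Subsingleton.elim _ _
  ext ⟨p, u⟩ ⟨q, v⟩
  rw [psi_apply]
  unfold raise
  rw [Matrix.of_apply]
  by_cases h : p = q
  · subst h
    simp only [if_true, bk, blk, idx, Pi.zero_apply]
    by_cases hs : p.1 = s
    · obtain ⟨t, m, k⟩ := p
      obtain rfl : t = s := hs
      obtain rfl : a = k := Subsingleton.elim _ _
      cases u <;> cases v <;> simp
      norm_num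
    · have : ¬ ∃ m, ((p, u) : AL M G) = (⟨s, (m, a)⟩, true) ∧
          ((p, v) : AL M G) = (⟨s, (m, a)⟩, false) := by
        rintro ⟨m, h, -⟩
        exact hs (by rw [(Prod.mk.inj h).1])
      rw [if_neg this, if_neg hs]
      cases u <;> cases v <;> simp
  · rw [if_neg h]
    have : ¬ ∃ m, ((p, u) : AL M G) = (⟨s, (m, a)⟩, true) ∧
        ((q, v) : AL M G) = (⟨s, (m, a)⟩, false) := by
      rintro ⟨m, h3, h4⟩
      exact h ((Prod.mk.inj h3).1.trans (Prod.mk.inj h4).1.symm)
    rw [if_neg this, add_zero]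

end

end

end Glie

/-- **Row GLIE**: tori of `GL₂`-type are of symplectic type. -/
theorem glie (hx : EXPA) : GLIE := by
  classical
  intro S Λ _ _ M G _ _ b hb
  obtain ⟨N', h1, h2⟩ := Glie.exists_inv b
  refine ⟨fun s m m' => Glie.ns hb h1 h2 hx s m m', ?_⟩
  intro 𝔪 h𝔪 h s a c
  rw [Glie.set_eq h1 h2] at h ⊢
  rw [Glie.raise_eq hb.1]
  exact Glie.sp_mono (Glie.m0_le 𝔪) (Glie.psi_mem hb h1 h2 hx h𝔪 h _)

end Pool.Agent.GG
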