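import Pool.Agent.Lib.GG.Rows

/-!
# Project G, rows MIXR, HXR (helper49)
-/

set_option autoImplicit false

open scoped ComplexConjugate Matrix
open Complex Pool.Agent.HCM Pool.Agent.RAT

namespace Pool.Agent.GG

noncomputable section

/-! ### MIXR, HXR -/

theorem mixr : MIXR := by
  intro S Λ _ M G b ι K _ P _ _ Q u hu
  unfold RTn at hu
  induction hu using Submodule.span_induction with
  | mem u hu =>
    obtain ⟨x, rfl⟩ := hu
    refine Submodule.subset_span ⟨fun t => ∏ i, perA b (t i) (x i.1).1,
      Submodule.subset_span ⟨fun i => (x i.1).1, rfl⟩, fun w => ∏ i, perB (w i) (x i.1).2,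
      Submodule.subset_span ⟨fun i => (x i.1).2, rfl⟩, ?_⟩
    funext t w
    refine (Fintype.prod_subtype_mul_prod_subtype (fun i => i ∈ Q)
      (fun i => per b (mix Q t w i) (x i))).symm.trans ?_
    refine congrArg₂ (· * ·) ?_ ?_
    · refine Finset.prod_congr (Finset.ext fun _ => by simp) fun i _ => ?_
      unfold mix
      rw [dif_pos i.2]
      rfl
    · refine Finset.prod_congr (Finset.ext fun _ => by simp) fun i _ => ?_
      unfold mix
      rw [dif_neg i.2]
      rfl
  | zero => exact Submodule.zero_mem _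
  | add f g _ _ hf hg => exact Submodule.add_mem _ hf hg
  | smul q f _ hf => exact Submodule.smul_mem _ q hf

theorem hxr : HXR := by
  intro S Λ _ M G b ι K _ T _ _
  unfold HX
  rw [Submodule.span_le]
  rintro _ ⟨x, rfl⟩
  have h : torX b x = ∑ σ : Equiv.Perm T, ((Equiv.Perm.sign σ : ℤ) : ℚ) •
      fun t : T → Lt M G K => ∏ i, per b (t i) (x (σ i)) := by
    funext t
    unfold torX
    rw [← Matrix.det_transpose, Matrix.det_apply', Finset.sum_apply]
    refine Finset.sum_congr rfl fun σ _ => ?_
    rw [Pi.smul_apply, Rat.smul_def]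
    push_cast
    rfl
  rw [h]
  exact Submodule.sum_mem _ fun σ _ => Submodule.smul_mem _ _ (Submodule.subset_span ⟨_, rfl⟩)

end

end Pool.Agent.GG
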