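import Pool.Agent.Lib.GG.Rows

/-!
# Project G, row OPS (helper49): contractions, raising operators, gradings
-/

set_option autoImplicit false

open scoped ComplexConjugate Matrix
open Complex Pool.Agent.HCM Pool.Agent.RAT

namespace Pool.Agent.GG

noncomputable section

section ops

variable {S : Type} {M G : S → Type}

open Classical in
/-- The nonzero entries of a raising operator. -/
theorem raise_apply (s : S) (a c : G s) (y y' : AL M G) : raise s a c y y' =
    (if ∃ m, y = (⟨s, (m, c)⟩, true) ∧ y' = (⟨s, (m, a)⟩, false) then 1 else 0) +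
    (if ∃ m, y = (⟨s, (m, a)⟩, true) ∧ y' = (⟨s, (m, c)⟩, false) then 1 else 0) := rfl

theorem raise_ne_zero {s : S} {a c : G s} {y y' : AL M G} (h : raise s a c y y' ≠ 0) :
    y.2 = true ∧ y'.2 = false := by
  by_contra hcon
  apply h
  rw [raise_apply, if_neg, if_neg, add_zero]
  · rintro ⟨m, h1, h2⟩
    exact hcon ⟨by rw [h1], by rw [h2]⟩
  · rintro ⟨m, h1, h2⟩
    exact hcon ⟨by rw [h1], by rw [h2]⟩

theorem raise_false {s : S} {a c : G s} (p : Crd M G) (y' : AL M G) :
    raise s a c (p, false) y' = 0 := by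
  by_contra h
  exact Bool.false_ne_true (raise_ne_zero h).1

open Classical in
/-- A raising operator applied to a function. -/
theorem raise_sum [Fintype S] [∀ s, Fintype (M s)] [∀ s, Fintype (G s)] (s : S) (a c : G s)
    (y : AL M G) (g : AL M G → ℂ) : ∑ y', raise s a c y y' * g y' =
      ∑ m : M s, ((if y = (⟨s, (m, c)⟩, true) then (1 : ℂ) else 0) *
          g (⟨s, (m, a)⟩, false) +
        (if y = (⟨s, (m, a)⟩, true) then (1 : ℂ) else 0) *
          g (⟨s, (m, c)⟩, false)) := by
  have key : ∀ a c : G s, ∑ y' : AL M G,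
      (if ∃ m, y = (⟨s, (m, c)⟩, true) ∧ y' = (⟨s, (m, a)⟩, false) then (1 : ℂ) else 0) * g y' =
      ∑ m : M s, (if y = (⟨s, (m, c)⟩, true) then (1 : ℂ) else 0) *
        g (⟨s, (m, a)⟩, false) := by
    intro a c
    by_cases hy : ∃ m0 : M s, y = (⟨s, (m0, c)⟩, true)
    · obtain ⟨m0, rfl⟩ := hy
      rw [Finset.sum_eq_single ((⟨s, (m0, a)⟩, false) : AL M G),
        Finset.sum_eq_single m0]
      · rw [if_pos ⟨m0, rfl, rfl⟩, if_pos rfl]
      · intro m _ hm
        rw [if_neg, zero_mul]
        intro h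
        apply hm
        have h1 := congrArg Prod.fst h
        have h2 := eq_of_heq (Sigma.mk.inj h1).2
        exact (congrArg Prod.fst h2).symm
      · intro h; exact absurd (Finset.mem_univ _) h
      · intro y' _ hy'
        rw [if_neg, zero_mul]
        rintro ⟨m, h1, h2⟩
        apply hy'
        have h3 := eq_of_heq (Sigma.mk.inj (congrArg Prod.fst h1)).2
        have h4 : m0 = m := congrArg Prod.fst h3
        rw [h2, h4]
      · intro h; exact absurd (Finset.mem_univ _) h
    · rw [Finset.sum_eq_zero, Finset.sum_eq_zero]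
      · intro m _
        rw [if_neg, zero_mul]
        exact fun h => hy ⟨m, h⟩
      · intro y' _
        rw [if_neg, zero_mul]
        rintro ⟨m, h1, -⟩
        exact hy ⟨m, h1⟩
  simp only [raise_apply, add_mul, Finset.sum_add_distrib]
  refine Eq.trans ?_ (congrArg₂ (· + ·) (key a c) (key c a))
  congr!

open Classical in
theorem ps_apply [∀ s, Fintype (G s)] (s : S) (m m' : M s) (y y' : AL M G) : ps s m m' y y' =
    ∑ k, ((if y = (⟨s, (m, k)⟩, true) ∧ y' = (⟨s, (m', k)⟩, false) then (1 : ℂ) else 0) -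
      (if y = (⟨s, (m, k)⟩, false) ∧ y' = (⟨s, (m', k)⟩, true) then (1 : ℂ) else 0)) := rfl

theorem ps_ne_zero [∀ s, Fintype (G s)] {s : S} {m m' : M s} {y y' : AL M G}
    (h : ps s m m' y y' ≠ 0) : (y.2 = true ∧ y'.2 = false) ∨ (y.2 = false ∧ y'.2 = true) := by
  by_contra hcon
  apply h
  rw [ps_apply]
  refine Finset.sum_eq_zero fun k _ => ?_
  rw [if_neg, if_neg, sub_zero]
  · rintro ⟨h1, h2⟩
    exact hcon (Or.inr ⟨by rw [h1], by rw [h2]⟩)
  · rintro ⟨h1, h2⟩
    exact hcon (Or.inl ⟨by rw [h1], by rw [h2]⟩)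

open Classical in
theorem ps_left_false [∀ s, Fintype (G s)] (s : S) (m m' m1 : M s) (a : G s) (w : AL M G) :
    ps s m m' (⟨s, (m1, a)⟩, false) w =
      (if m1 = m ∧ w = (⟨s, (m', a)⟩, true) then (-1 : ℂ) else 0) := by
  rw [ps_apply]
  by_cases h : m1 = m ∧ w = (⟨s, (m', a)⟩, true)
  · obtain ⟨rfl, rfl⟩ := h
    rw [if_pos ⟨rfl, rfl⟩, Finset.sum_eq_single a]
    · rw [if_neg, if_pos ⟨rfl, rfl⟩, zero_sub]
      rintro ⟨h1, -⟩
      exact absurd (congrArg Prod.snd h1) (by simp)
    · intro k _ hk
      rw [if_neg, if_neg, sub_zero]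
      · rintro ⟨h1, -⟩
        have h2 := eq_of_heq (Sigma.mk.inj (congrArg Prod.fst h1)).2
        exact hk (congrArg Prod.snd h2).symm
      · rintro ⟨h1, -⟩
        exact absurd (congrArg Prod.snd h1) (by simp)
    · intro h; exact absurd (Finset.mem_univ _) h
  · rw [if_neg h]
    refine Finset.sum_eq_zero fun k _ => ?_
    rw [if_neg, if_neg, sub_zero]
    · rintro ⟨h1, h2⟩
      have h3 := eq_of_heq (Sigma.mk.inj (congrArg Prod.fst h1)).2
      have h4 : m1 = m := congrArg Prod.fst h3
      have h5 : a = k := congrArg Prod.snd h3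
      exact h ⟨h4, by rw [h2, h5]⟩
    · rintro ⟨h1, -⟩
      exact absurd (congrArg Prod.snd h1) (by simp)

open Classical in
theorem ps_right_false [∀ s, Fintype (G s)] (s : S) (m m' m1 : M s) (a : G s) (w : AL M G) :
    ps s m m' w (⟨s, (m1, a)⟩, false) =
      (if m1 = m' ∧ w = (⟨s, (m, a)⟩, true) then (1 : ℂ) else 0) := by
  rw [ps_apply]
  by_cases h : m1 = m' ∧ w = (⟨s, (m, a)⟩, true)
  · obtain ⟨rfl, rfl⟩ := h
    rw [if_pos ⟨rfl, rfl⟩, Finset.sum_eq_single a]
    · rw [if_pos ⟨rfl, rfl⟩, if_neg, sub_zero]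
      rintro ⟨h1, -⟩
      exact absurd (congrArg Prod.snd h1) (by simp)
    · intro k _ hk
      rw [if_neg, if_neg, sub_zero]
      · rintro ⟨-, h1⟩
        exact absurd (congrArg Prod.snd h1) (by simp)
      · rintro ⟨-, h1⟩
        have h2 := eq_of_heq (Sigma.mk.inj (congrArg Prod.fst h1)).2
        exact hk (congrArg Prod.snd h2).symm
    · intro h; exact absurd (Finset.mem_univ _) h
  · rw [if_neg h]
    refine Finset.sum_eq_zero fun k _ => ?_
    rw [if_neg, if_neg, sub_zero]
    · rintro ⟨-, h1⟩
      exact absurd (congrArg Prod.snd h1) (by simp)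
    · rintro ⟨h2, h1⟩
      have h3 := eq_of_heq (Sigma.mk.inj (congrArg Prod.fst h1)).2
      have h4 : m1 = m' := congrArg Prod.fst h3
      have h5 : a = k := congrArg Prod.snd h3
      exact h ⟨h4, by rw [h2, h5]⟩

theorem ps_ne [∀ s, Fintype (G s)] {s s' : S} (hs : s' ≠ s) (m m' : M s) (x : M s' × G s')
    (b : Bool) (w : AL M G) :
    ps s m m' (⟨s', x⟩, b) w = 0 ∧ ps s m m' w (⟨s', x⟩, b) = 0 := by
  classical
  constructor
  · rw [ps_apply]
    refine Finset.sum_eq_zero fun k _ => ?_
    rw [if_neg, if_neg, sub_zero]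
    · rintro ⟨h1, -⟩
      exact hs (congrArg (fun p : AL M G => p.1.1) h1)
    · rintro ⟨h1, -⟩
      exact hs (congrArg (fun p : AL M G => p.1.1) h1)
  · rw [ps_apply]
    refine Finset.sum_eq_zero fun k _ => ?_
    rw [if_neg, if_neg, sub_zero]
    · rintro ⟨-, h1⟩
      exact hs (congrArg (fun p : AL M G => p.1.1) h1)
    · rintro ⟨-, h1⟩
      exact hs (congrArg (fun p : AL M G => p.1.1) h1)

/-- `ps` is invariant under the raising operators. -/
theorem raise_ps [Fintype S] [∀ s, Fintype (M s)] [∀ s, Fintype (G s)] (s' : S) (a c : G s')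
    (s : S) (m m' : M s) (y w : AL M G) :
    ∑ y', raise s' a c y y' * ps s m m' y' w + ∑ y', raise s' a c w y' * ps s m m' y y' = 0 := by
  classical
  rw [raise_sum, raise_sum]
  by_cases hs : s' = s
  · subst hs
    simp only [ps_left_false, ps_right_false]
    have e1 : ∀ (a c : G s') (y w : AL M G),
        ∑ x : M s', (if y = (⟨s', (x, c)⟩, true) then (1 : ℂ) else 0) *
          (if x = m ∧ w = (⟨s', (m', a)⟩, true) then (-1 : ℂ) else 0) =
        - ((if y = (⟨s', (m, c)⟩, true) then (1 : ℂ) else 0) *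
          (if w = (⟨s', (m', a)⟩, true) then (1 : ℂ) else 0)) := by
      intro a c y w
      rw [Finset.sum_eq_single m]
      · by_cases hw : w = (⟨s', (m', a)⟩, true)
        · rw [if_pos (show m = m ∧ w = (⟨s', (m', a)⟩, true) from ⟨rfl, hw⟩), if_pos hw]
          ring
        · rw [if_neg (show ¬(m = m ∧ w = (⟨s', (m', a)⟩, true)) from fun h => hw h.2), if_neg hw]
          ring
      · intro x _ hx
        rw [if_neg (show ¬(x = m ∧ w = (⟨s', (m', a)⟩, true)) from fun h => hx h.1), mul_zero]
      · intro h; exact absurd (Finset.mem_univ _) h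
    have e2 : ∀ (a c : G s') (y w : AL M G),
        ∑ x : M s', (if w = (⟨s', (x, c)⟩, true) then (1 : ℂ) else 0) *
          (if x = m' ∧ y = (⟨s', (m, a)⟩, true) then (1 : ℂ) else 0) =
        (if w = (⟨s', (m', c)⟩, true) then (1 : ℂ) else 0) *
          (if y = (⟨s', (m, a)⟩, true) then (1 : ℂ) else 0) := by
      intro a c y w
      rw [Finset.sum_eq_single m']
      · by_cases hy : y = (⟨s', (m, a)⟩, true)
        · rw [if_pos (show m' = m' ∧ y = (⟨s', (m, a)⟩, true) from ⟨rfl, hy⟩), if_pos hy]
        · rw [if_neg (show ¬(m' = m' ∧ y = (⟨s', (m, a)⟩, true)) from fun h => hy h.2),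
            if_neg hy]
      · intro x _ hx
        rw [if_neg (show ¬(x = m' ∧ y = (⟨s', (m, a)⟩, true)) from fun h => hx h.1), mul_zero]
      · intro h; exact absurd (Finset.mem_univ _) h
    rw [Finset.sum_add_distrib, Finset.sum_add_distrib, e1, e1, e2, e2]
    ring
  · have h1 : ∀ x b, ps s m m' ((⟨s', x⟩, b) : AL M G) w = 0 := fun x b => (ps_ne hs m m' x b w).1
    have h2 : ∀ x b, ps s m m' y ((⟨s', x⟩, b) : AL M G) = 0 := fun x b => (ps_ne hs m m' x b y).2
    simp only [h1, h2, mul_zero, add_zero, Finset.sum_const_zero]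

end ops

section words

variable {P S : Type} {M G : S → Type} [DecidableEq P]

theorem upd_comm {Y : Type} {t : P → Y} {p q : P} (h : p ≠ q) (x y : Y) :
    Function.update (Function.update t p x) q y = Function.update (Function.update t q y) p x :=
  Function.update_comm h _ _ _

/-- the word with the letters `x`, `y` at the positions `i`, `j` -/
def up2 {Y : Type} (t : P → Y) (i j : P) (x y : Y) : P → Y :=
  Function.update (Function.update t i x) j y

theorem up2_left {Y : Type} (t : P → Y) {i j : P} (h : i ≠ j) (x y : Y) :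
    up2 t i j x y i = x := by
  unfold up2
  rw [Function.update_of_ne h, Function.update_self]

theorem up2_right {Y : Type} (t : P → Y) (i j : P) (x y : Y) : up2 t i j x y j = y := by
  unfold up2
  rw [Function.update_self]

theorem up2_of_ne {Y : Type} (t : P → Y) {i j p : P} (hi : p ≠ i) (hj : p ≠ j) (x y : Y) :
    up2 t i j x y p = t p := by
  unfold up2
  rw [Function.update_of_ne hj, Function.update_of_ne hi]

theorem update_up2 {Y : Type} (t : P → Y) {i j p : P} (hi : p ≠ i) (hj : p ≠ j) (x y z : Y) :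
    Function.update (up2 t i j x y) p z = up2 (Function.update t p z) i j x y := by
  unfold up2
  rw [upd_comm hj.symm, upd_comm hi.symm]

theorem update_up2_left {Y : Type} (t : P → Y) {i j : P} (h : i ≠ j) (x y z : Y) :
    Function.update (up2 t i j x y) i z = up2 t i j z y := by
  unfold up2
  rw [upd_comm h.symm, Function.update_idem]

theorem update_up2_right {Y : Type} (t : P → Y) (i j : P) (x y z : Y) :
    Function.update (up2 t i j x y) j z = up2 t i j x z := by
  unfold up2
  rw [Function.update_idem]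

/-- split off two positions -/
theorem sum_two {Q : Finset P} {i j : P} (hi : i ∈ Q) (hj : j ∈ Q) (h : i ≠ j) (g : P → ℂ) :
    ∑ p ∈ Q, g p = g i + g j + ∑ p ∈ (Q.erase i).erase j, g p := by
  rw [← Finset.add_sum_erase Q g hi, ← Finset.add_sum_erase (Q.erase i) g
    (Finset.mem_erase.2 ⟨h.symm, hj⟩)]
  ring

theorem ct_apply [∀ s, Fintype (G s)] (s : S) (m m' : M s) (i j : P)
    (f : (P → AL M G) → ℂ) (t : P → AL M G) : ct s m m' i j f t =
    ∑ k, (f (up2 t i j (⟨s, (m, k)⟩, true) (⟨s, (m', k)⟩, false)) -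
      f (up2 t i j (⟨s, (m, k)⟩, false) (⟨s, (m', k)⟩, true))) := rfl

end words

theorem opsA : OPSA := by
  classical
  intro S _ M G _ _ P _ Q f i j hi hj hij s' a c s m m'
  funext t
  rw [ct_apply]
  set Z := (raise s' a c : Matrix (AL M G) (AL M G) ℂ) with hZ
  have hD : ∀ u, der Q Z f u = ∑ y', Z (u i) y' * f (Function.update u i y') +
      ∑ y', Z (u j) y' * f (Function.update u j y') +
      der ((Q.erase i).erase j) Z f u := fun u =>
    sum_two hi hj hij fun p => ∑ y', Z (u p) y' * f (Function.update u p y')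
  simp only [hD]
  have hrest : ∀ k, der ((Q.erase i).erase j) Z f
      (up2 t i j (⟨s, (m, k)⟩, true) (⟨s, (m', k)⟩, false)) =
      ∑ p ∈ (Q.erase i).erase j, ∑ y', Z (t p) y' *
        f (up2 (Function.update t p y') i j (⟨s, (m, k)⟩, true) (⟨s, (m', k)⟩, false)) := by
    intro k
    unfold der
    refine Finset.sum_congr rfl fun p hp => Finset.sum_congr rfl fun y' _ => ?_
    have hpj := (Finset.mem_erase.1 hp).1
    have hpi := (Finset.mem_erase.1 (Finset.mem_erase.1 hp).2).1
    rw [up2_of_ne t hpi hpj, update_up2 t hpi hpj]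
  have hrest' : ∀ k, der ((Q.erase i).erase j) Z f
      (up2 t i j (⟨s, (m, k)⟩, false) (⟨s, (m', k)⟩, true)) =
      ∑ p ∈ (Q.erase i).erase j, ∑ y', Z (t p) y' *
        f (up2 (Function.update t p y') i j (⟨s, (m, k)⟩, false) (⟨s, (m', k)⟩, true)) := by
    intro k
    unfold der
    refine Finset.sum_congr rfl fun p hp => Finset.sum_congr rfl fun y' _ => ?_
    have hpj := (Finset.mem_erase.1 hp).1
    have hpi := (Finset.mem_erase.1 (Finset.mem_erase.1 hp).2).1
    rw [up2_of_ne t hpi hpj, update_up2 t hpi hpj]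
  have hR : der ((Q.erase i).erase j) Z (ct s m m' i j f) t =
      ∑ k, (der ((Q.erase i).erase j) Z f
        (up2 t i j (⟨s, (m, k)⟩, true) (⟨s, (m', k)⟩, false)) -
        der ((Q.erase i).erase j) Z f
        (up2 t i j (⟨s, (m, k)⟩, false) (⟨s, (m', k)⟩, true))) := by
    simp only [hrest, hrest']
    rw [Finset.sum_sub_distrib, Finset.sum_comm, Finset.sum_comm (s := Finset.univ) (t :=
      (Q.erase i).erase j), ← Finset.sum_sub_distrib]
    unfold der
    refine Finset.sum_congr rfl fun p _ => ?_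
    rw [Finset.sum_comm, Finset.sum_comm (s := Finset.univ) (t := Finset.univ) (f := fun x y =>
      Z (t p) y * f (up2 (Function.update t p y) i j (⟨s, (m, x)⟩, false) (⟨s, (m', x)⟩, true))),
      ← Finset.sum_sub_distrib]
    refine Finset.sum_congr rfl fun y' _ => ?_
    rw [ct_apply, Finset.mul_sum, ← Finset.sum_sub_distrib]
    exact Finset.sum_congr rfl fun k _ => by ring
  rw [hR]
  have hFT : ∀ k : G s, ∑ y', Z ((⟨s, (m, k)⟩, false) : AL M G) y' *
      f (up2 t i j y' (⟨s, (m', k)⟩, true)) = 0 := fun k =>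
    Finset.sum_eq_zero fun y' _ => by rw [hZ, raise_false, zero_mul]
  have hTF : ∀ k : G s, ∑ y', Z ((⟨s, (m', k)⟩, false) : AL M G) y' *
      f (up2 t i j (⟨s, (m, k)⟩, true) y') = 0 := fun k =>
    Finset.sum_eq_zero fun y' _ => by rw [hZ, raise_false, zero_mul]
  simp only [up2_left t hij, up2_right t i j, hFT, hTF, add_zero, zero_add,
    update_up2_left t hij, update_up2_right]
  have key : ∑ k, ∑ y', Z ((⟨s, (m, k)⟩, true) : AL M G) y' *
        f (up2 t i j y' (⟨s, (m', k)⟩, false)) =
      ∑ k, ∑ y', Z ((⟨s, (m', k)⟩, true) : AL M G) y' *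
        f (up2 t i j (⟨s, (m, k)⟩, false) y') := by
    rw [hZ]
    have e1 := fun k : G s => raise_sum s' a c ((⟨s, (m, k)⟩, true) : AL M G)
      (fun y' => f (up2 t i j y' (⟨s, (m', k)⟩, false)))
    have e2 := fun k : G s => raise_sum s' a c ((⟨s, (m', k)⟩, true) : AL M G)
      (fun y' => f (up2 t i j (⟨s, (m, k)⟩, false) y'))
    simp only [e1, e2]
    by_cases hs : s' = s
    · subst hs
      have g1 : ∀ (m0 : M s') (k x : G s') (F : M s' → ℂ), ∑ m1 : M s',
          (if ((⟨s', (m0, k)⟩, true) : AL M G) = (⟨s', (m1, x)⟩, true) then (1 : ℂ) else 0) *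
            F m1 = if k = x then F m0 else 0 := by
        intro m0 k x F
        rw [Finset.sum_eq_single m0]
        · by_cases hk : k = x
          · subst hk
            rw [if_pos rfl, if_pos rfl, one_mul]
          · rw [if_neg, if_neg hk, zero_mul]
            intro h
            have h2 := eq_of_heq (Sigma.mk.inj (congrArg Prod.fst h)).2
            exact hk (congrArg Prod.snd h2)
        · intro m1 _ hm
          rw [if_neg, zero_mul]
          intro h
          have h2 := eq_of_heq (Sigma.mk.inj (congrArg Prod.fst h)).2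
          exact hm (congrArg Prod.fst h2).symm
        · intro h; exact absurd (Finset.mem_univ _) h
      simp only [Finset.sum_add_distrib, g1, Finset.sum_ite_eq', Finset.mem_univ, if_true]
      ring
    · have g2 : ∀ (m0 : M s) (k : G s) (x : M s' × G s'),
          ((⟨s, (m0, k)⟩, true) : AL M G) ≠ (⟨s', x⟩, true) := by
        intro m0 k x h
        exact hs (congrArg (fun p : AL M G => p.1.1) h).symm
      simp only [g2, if_false, zero_mul, add_zero, Finset.sum_const_zero]
  rw [Finset.sum_sub_distrib, Finset.sum_add_distrib, Finset.sum_add_distrib, key,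
    Finset.sum_sub_distrib]
  ring

theorem opsB : OPSB := by
  classical
  intro S _ M G _ _ P _ Q h i j hi hj hij hdep s' a c s m m'
  funext t
  set Z := (raise s' a c : Matrix (AL M G) (AL M G) ℂ) with hZ
  have hD := sum_two hi hj hij fun p => ∑ y', Z (t p) y' *
    (ps s m m' (Function.update t p y' i) (Function.update t p y' j) * h (Function.update t p y'))
  have hl : der Q Z (fun t => ps s m m' (t i) (t j) * h t) t = ∑ p ∈ Q, ∑ y', Z (t p) y' *
    (ps s m m' (Function.update t p y' i) (Function.update t p y' j) *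
      h (Function.update t p y')) := rfl
  rw [hl, hD]
  have hi' : i ∉ (Q.erase i).erase j := fun hm =>
    (Finset.mem_erase.1 (Finset.mem_erase.1 hm).2).1 rfl
  have hj' : j ∉ (Q.erase i).erase j := fun hm => (Finset.mem_erase.1 hm).1 rfl
  have h1 : ∀ y', h (Function.update t i y') = h t := fun y' =>
    hdep _ _ fun p hp => Function.update_of_ne (fun e => hi' (by rwa [e] at hp)) _ _
  have h2 : ∀ y', h (Function.update t j y') = h t := fun y' =>
    hdep _ _ fun p hp => Function.update_of_ne (fun e => hj' (by rwa [e] at hp)) _ _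
  have e1 : ∑ y', Z (t i) y' * (ps s m m' (Function.update t i y' i)
      (Function.update t i y' j) * h (Function.update t i y')) =
      (∑ y', Z (t i) y' * ps s m m' y' (t j)) * h t := by
    rw [Finset.sum_mul]
    refine Finset.sum_congr rfl fun y' _ => ?_
    rw [h1, Function.update_self, Function.update_of_ne hij.symm]
    ring
  have e2 : ∑ y', Z (t j) y' * (ps s m m' (Function.update t j y' i)
      (Function.update t j y' j) * h (Function.update t j y')) =
      (∑ y', Z (t j) y' * ps s m m' (t i) y') * h t := by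
    rw [Finset.sum_mul]
    refine Finset.sum_congr rfl fun y' _ => ?_
    rw [h2, Function.update_self, Function.update_of_ne hij]
    ring
  rw [e1, e2, ← add_mul, hZ, raise_ps, zero_mul, zero_add]
  unfold der
  rw [Finset.mul_sum]
  refine Finset.sum_congr rfl fun p hp => ?_
  rw [Finset.mul_sum]
  refine Finset.sum_congr rfl fun y' _ => ?_
  have hpj := (Finset.mem_erase.1 hp).1
  have hpi := (Finset.mem_erase.1 (Finset.mem_erase.1 hp).2).1
  rw [Function.update_of_ne hpi.symm, Function.update_of_ne hpj.symm]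
  ring

section cnt

variable {P S : Type} {M G : S → Type}

theorem cntF_eq_sum (Q : Finset P) (t : P → AL M G) :
    cntF Q t = ∑ p ∈ Q, if (t p).2 = false then 1 else 0 := by
  unfold cntF
  rw [Finset.card_filter]

variable [DecidableEq P]

theorem cntF_update {Q : Finset P} {p : P} (hp : p ∈ Q) (t : P → AL M G) (y : AL M G)
    (h1 : (t p).2 = true) (h2 : y.2 = false) : cntF Q (Function.update t p y) = cntF Q t + 1 := by
  rw [cntF_eq_sum, cntF_eq_sum, ← Finset.add_sum_erase Q _ hp, ← Finset.add_sum_erase Q _ hp]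
  rw [Function.update_self, if_pos h2, if_neg (by rw [h1]; decide), zero_add, add_comm]
  congr 1
  refine Finset.sum_congr rfl fun q hq => ?_
  rw [Function.update_of_ne (Finset.ne_of_mem_erase hq)]

theorem cntF_erase {Q : Finset P} {i j : P} (hi : i ∈ Q) (hj : j ∈ Q) (hij : i ≠ j)
    (t u : P → AL M G) (hu : ∀ p, p ≠ i → p ≠ j → u p = t p)
    (h : ((u i).2 = true ∧ (u j).2 = false) ∨ ((u i).2 = false ∧ (u j).2 = true)) :
    cntF Q u = cntF ((Q.erase i).erase j) t + 1 := by
  rw [cntF_eq_sum, cntF_eq_sum, ← Finset.add_sum_erase Q _ hi,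
    ← Finset.add_sum_erase (Q.erase i) _ (Finset.mem_erase.2 ⟨hij.symm, hj⟩)]
  have e : ∑ p ∈ (Q.erase i).erase j, (if (u p).2 = false then 1 else 0) =
      ∑ p ∈ (Q.erase i).erase j, (if (t p).2 = false then 1 else 0) := by
    refine Finset.sum_congr rfl fun q hq => ?_
    have hqj := (Finset.mem_erase.1 hq).1
    have hqi := (Finset.mem_erase.1 (Finset.mem_erase.1 hq).2).1
    rw [hu q hqi hqj]
  rw [e]
  rcases h with ⟨h1, h2⟩ | ⟨h1, h2⟩
  · rw [h1, h2, if_neg (show ¬true = false by decide), if_pos rfl]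
    omega
  · rw [h1, h2, if_pos rfl, if_neg (show ¬true = false by decide)]
    omega

end cnt

theorem opsC : OPSC := by
  classical
  intro S _ M G _ _ P _ Q f n
  refine ⟨fun s' a c => ?_, fun i hi j hj hij s m m' => ⟨?_, ?_⟩⟩
  · funext t
    have e1 : partF Q n (der Q (raise s' a c) f) t = if cntF Q t = n then
      ∑ p ∈ Q, ∑ y', raise s' a c (t p) y' * f (Function.update t p y') else 0 := rfl
    have e2 : der Q (raise s' a c) (partF Q (n + 1) f) t = ∑ p ∈ Q, ∑ y', raise s' a c (t p) y' *
      (if cntF Q (Function.update t p y') = n + 1 then f (Function.update t p y') else 0) := rfl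
    rw [e1, e2]
    by_cases h : cntF Q t = n
    · rw [if_pos h]
      refine Finset.sum_congr rfl fun p hp => Finset.sum_congr rfl fun y' _ => ?_
      by_cases h0 : raise s' a c (t p) y' = 0
      · rw [h0, zero_mul, zero_mul]
      · have h1 := raise_ne_zero h0
        rw [if_pos (by rw [cntF_update hp t y' h1.1 h1.2, h])]
    · rw [if_neg h]
      symm
      refine Finset.sum_eq_zero fun p hp => Finset.sum_eq_zero fun y' _ => ?_
      by_cases h0 : raise s' a c (t p) y' = 0
      · rw [h0, zero_mul]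
      · have h1 := raise_ne_zero h0
        rw [if_neg (by rw [cntF_update hp t y' h1.1 h1.2]; omega), mul_zero]
  · funext t
    have key : ∀ x y : AL M G, ((x.2 = true ∧ y.2 = false) ∨ (x.2 = false ∧ y.2 = true)) →
        cntF Q (up2 t i j x y) = cntF ((Q.erase i).erase j) t + 1 := by
      intro x y hxy
      refine cntF_erase hi hj hij t _ (fun p hpi hpj => up2_of_ne t hpi hpj _ _) ?_
      rw [up2_left t hij, up2_right]
      exact hxy
    rw [ct_apply]
    unfold partF
    by_cases h : cntF ((Q.erase i).erase j) t = n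
    · rw [if_pos h, ct_apply]
      refine Finset.sum_congr rfl fun k _ => ?_
      rw [if_pos (by rw [key _ _ (Or.inl ⟨rfl, rfl⟩), h]),
        if_pos (by rw [key _ _ (Or.inr ⟨rfl, rfl⟩), h])]
    · rw [if_neg h]
      symm
      refine Finset.sum_eq_zero fun k _ => ?_
      rw [if_neg (by rw [key _ _ (Or.inl ⟨rfl, rfl⟩)]; omega),
        if_neg (by rw [key _ _ (Or.inr ⟨rfl, rfl⟩)]; omega), sub_zero]
  · funext t
    have e1 : partF Q (n + 1) (fun t => ps s m m' (t i) (t j) * f t) t = if cntF Q t = n + 1 then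
      ps s m m' (t i) (t j) * f t else 0 := rfl
    have e2 : partF ((Q.erase i).erase j) n f t =
      if cntF ((Q.erase i).erase j) t = n then f t else 0 := rfl
    rw [e1, e2]
    by_cases h0 : ps s m m' (t i) (t j) = 0
    · rw [h0, zero_mul, zero_mul, ite_self]
    · have h1 := cntF_erase hi hj hij t t (fun _ _ _ => rfl) (ps_ne_zero h0)
      by_cases h : cntF ((Q.erase i).erase j) t = n
      · rw [if_pos (by omega), if_pos h]
      · rw [if_neg (by omega), if_neg h, mul_zero]

end

end Pool.Agent.GG
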