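import Pool.Agent.Lib.GG.Rows

/-!
# Project G, row OMG: the kernel of `Ω`
-/

set_option autoImplicit false

open scoped ComplexConjugate Matrix
open Complex

namespace Pool.Agent.GG

namespace Omg

/-- Averaging over the letter at the position `i`. -/
theorem sum_update {P Y : Type} [Fintype P] [DecidableEq P] [Fintype Y] (i : P)
    (F : (P → Y) → ℂ) :
    ∑ t : P → Y, ∑ y : Y, F (Function.update t i y) = (Fintype.card Y : ℂ) * ∑ t, F t := by
  rw [← Fintype.sum_prod_type']
  have h : ∑ x : (P → Y) × Y, F (Function.update x.1 i x.2) = ∑ x : (P → Y) × Y, F x.1 := by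
    refine Fintype.sum_bijective (fun x : (P → Y) × Y => (Function.update x.1 i x.2, x.1 i))
      (Function.Involutive.bijective ?_) _ _ fun x => rfl
    rintro ⟨t, y⟩
    simp
  rw [h, Fintype.sum_prod_type]
  simp only [Finset.sum_const, Finset.card_univ, nsmul_eq_mul]
  rw [← Finset.mul_sum]

theorem sum_update2 {P Y : Type} [Fintype P] [DecidableEq P] [Fintype Y] (i j : P)
    (F : (P → Y) → ℂ) :
    ∑ t : P → Y, ∑ y : Y, ∑ y' : Y, F (Function.update (Function.update t i y) j y') =
      (Fintype.card Y : ℂ) ^ 2 * ∑ t, F t := by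
  rw [sum_update i (fun t => ∑ y', F (Function.update t j y')), sum_update j F]
  ring

theorem upd4 {P Y : Type} [DecidableEq P] {i j : P} (hij : i ≠ j) (t : P → Y) (y y' a b : Y) :
    Function.update (Function.update (Function.update (Function.update t i y) j y') i a) j b =
      Function.update (Function.update t i a) j b := by
  ext p
  by_cases hj : p = j
  · subst hj; simp
  · by_cases hi : p = i
    · subst hi; simp [hj]
    · simp [hi, hj]

variable {S : Type} [Fintype S] {M G : S → Type} [∀ s, Fintype (M s)] [∀ s, Fintype (G s)]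
  {P : Type} [Fintype P] [DecidableEq P]

omit [Fintype S] [∀ s, Fintype (M s)] [Fintype P] in
theorem ct_upd {i j : P} (hij : i ≠ j) (s : S) (m m' : M s) (f : (P → AL M G) → ℂ)
    (t : P → AL M G) (y y' : AL M G) :
    ct s m m' i j f (Function.update (Function.update t i y) j y') = ct s m m' i j f t := by
  unfold ct
  refine Finset.sum_congr rfl fun k _ => ?_
  rw [upd4 hij, upd4 hij]

omit [Fintype P] in
theorem sum_ps (i j : P) (s : S) (m m' : M s) (f : (P → AL M G) → ℂ) (t : P → AL M G) :
    ∑ y, ∑ y', ps s m m' y y' * conj (f (Function.update (Function.update t i y) j y')) =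
      conj (ct s m m' i j f t) := by
  classical
  unfold ps ct
  rw [map_sum]
  have h1 : ∀ y y' : AL M G, (∑ k, ((if y = ((⟨s, (m, k)⟩, true) : AL M G) ∧
      y' = ((⟨s, (m', k)⟩, false) : AL M G) then (1 : ℂ) else 0) -
      (if y = ((⟨s, (m, k)⟩, false) : AL M G) ∧ y' = ((⟨s, (m', k)⟩, true) : AL M G) then 1
        else 0))) * conj (f (Function.update (Function.update t i y) j y')) =
      ∑ k : G s, ((if y = ((⟨s, (m, k)⟩, true) : AL M G) then (if y' = ((⟨s, (m', k)⟩, false) :
        AL M G) then conj (f (Function.update (Function.update t i y) j y')) else 0) else 0) -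
        (if y = ((⟨s, (m, k)⟩, false) : AL M G) then (if y' = ((⟨s, (m', k)⟩, true) : AL M G) then
          conj (f (Function.update (Function.update t i y) j y')) else 0) else 0)) := by
    intro y y'
    rw [Finset.sum_mul]
    refine Finset.sum_congr rfl fun k _ => ?_
    rw [sub_mul, ite_and, ite_and]
    simp only [ite_mul, one_mul, zero_mul]
  simp only [h1]
  rw [Finset.sum_congr rfl fun y _ => Finset.sum_comm, Finset.sum_comm]
  refine Finset.sum_congr rfl fun k _ => ?_
  simp only [Finset.sum_sub_distrib, Finset.sum_ite_irrel, Finset.sum_ite_eq', Finset.sum_const_zero,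
    Finset.mem_univ, if_true, map_sub]

theorem key {i j : P} (hij : i ≠ j) (s : S) (m m' : M s) (f : (P → AL M G) → ℂ) :
    (Fintype.card (AL M G) : ℂ) ^ 2 *
      ∑ t, conj (f t) * (ps s m m' (t i) (t j) * ct s m m' i j f t) =
      ∑ t, conj (ct s m m' i j f t) * ct s m m' i j f t := by
  rw [← sum_update2 i j]
  refine Finset.sum_congr rfl fun t _ => ?_
  rw [← sum_ps, Finset.sum_mul]
  refine Finset.sum_congr rfl fun y _ => ?_
  rw [Finset.sum_mul]
  refine Finset.sum_congr rfl fun y' _ => ?_
  rw [ct_upd hij]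
  simp only [Function.update_self, Function.update_of_ne hij]
  ring

end Omg

theorem omg : OMG := by
  intro S _ M G _ _ P _ _ Q f hf
  have hc : (Fintype.card (AL M G) : ℂ) ^ 2 * ∑ t, conj (f t) * Om Q f t =
      ∑ i ∈ Q, ∑ j ∈ Q.erase i, ∑ s, ∑ m, ∑ m', ∑ t,
        conj (ct s m m' i j f t) * ct s m m' i j f t := by
    have h1 : ∀ t, conj (f t) * Om Q f t = ∑ i ∈ Q, ∑ j ∈ Q.erase i, ∑ s, ∑ m, ∑ m',
        conj (f t) * (ps s m m' (t i) (t j) * ct s m m' i j f t) := by
      intro t
      unfold Om
      simp only [Finset.mul_sum]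
    simp only [h1]
    rw [Finset.sum_comm, Finset.mul_sum]
    refine Finset.sum_congr rfl fun i _ => ?_
    rw [Finset.sum_comm, Finset.mul_sum]
    refine Finset.sum_congr rfl fun j hj => ?_
    rw [Finset.sum_comm, Finset.mul_sum]
    refine Finset.sum_congr rfl fun s _ => ?_
    rw [Finset.sum_comm, Finset.mul_sum]
    refine Finset.sum_congr rfl fun m _ => ?_
    rw [Finset.sum_comm, Finset.mul_sum]
    refine Finset.sum_congr rfl fun m' _ => ?_
    exact Omg.key (Finset.ne_of_mem_erase hj).symm s m m' f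
  have h0 : ∑ t, conj (f t) * Om Q f t = 0 := by
    refine Finset.sum_eq_zero fun t _ => ?_
    rw [hf]
    simp
  rw [h0, mul_zero] at hc
  have hn : ∀ z : ℂ, conj z * z = ((‖z‖ ^ 2 : ℝ) : ℂ) := by
    intro z
    rw [← Complex.normSq_eq_conj_mul_self, Complex.normSq_eq_norm_sq]
  simp only [hn] at hc
  have hr : ∑ i ∈ Q, ∑ j ∈ Q.erase i, ∑ s, ∑ m, ∑ m', ∑ t,
      ‖ct s m m' i j f t‖ ^ 2 = 0 := by
    exact_mod_cast hc.symm
  intro i hi j hj hij s m m'
  have e1 := (Finset.sum_eq_zero_iff_of_nonneg fun i _ => by positivity).1 hr i hi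
  have e2 := (Finset.sum_eq_zero_iff_of_nonneg fun i _ => by positivity).1 e1 j
    (Finset.mem_erase.2 ⟨hij.symm, hj⟩)
  have e3 := (Finset.sum_eq_zero_iff_of_nonneg fun i _ => by positivity).1 e2 s (Finset.mem_univ _)
  have e4 := (Finset.sum_eq_zero_iff_of_nonneg fun i _ => by positivity).1 e3 m (Finset.mem_univ _)
  have e5 := (Finset.sum_eq_zero_iff_of_nonneg fun i _ => by positivity).1 e4 m' (Finset.mem_univ _)
  funext t
  have e6 := (Finset.sum_eq_zero_iff_of_nonneg fun i _ => by positivity).1 e5 t (Finset.mem_univ _)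
  simpa using e6

end Pool.Agent.GG
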