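import Pool.Agent.Lib.GG.Rows

/-!
# Project G, row PERAB: `PERA`, `PERB`, `PERX` (helper62)
-/

set_option autoImplicit false

open scoped ComplexConjugate Matrix
open Complex Pool.Agent.HCM Pool.Agent.RAT NumberField

namespace Pool.Agent.GG

noncomputable section

namespace PERABx

theorem isPer_prod {Y1 Y2 V1 V2 : Type} [AddCommGroup V1] [Module ℚ V1] [AddCommGroup V2]
    [Module ℚ V2] {p1 : Y1 → V1 → ℂ} {p2 : Y2 → V2 → ℂ} (h1 : IsPer p1) (h2 : IsPer p2) :
    IsPer (fun (y : Y1 ⊕ Y2) (x : V1 × V2) =>
      Sum.elim (fun a => p1 a x.1) (fun q => p2 q x.2) y) := by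
  obtain ⟨a1, s1, E1, _, β1, sp1, li1⟩ := h1
  obtain ⟨a2, s2, E2, _, β2, sp2, li2⟩ := h2
  have z1 : ∀ y, p1 y 0 = 0 := by
    intro y
    have := s1 y 0 0
    rw [zero_smul] at this
    rw [this]
    simp
  have z2 : ∀ y, p2 y 0 = 0 := by
    intro y
    have := s2 y 0 0
    rw [zero_smul] at this
    rw [this]
    simp
  refine ⟨?_, ?_, E1 ⊕ E2, inferInstance,
    Sum.elim (fun e => (β1 e, 0)) (fun e => (0, β2 e)), ?_, ?_⟩
  · rintro (y | y) x x'
    · exact a1 _ _ _
    · exact a2 _ _ _
  · rintro (y | y) q x
    · exact s1 _ _ _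
    · exact s2 _ _ _
  · rintro ⟨x, x'⟩ -
    have e1 : ((x, x') : V1 × V2) = LinearMap.inl ℚ V1 V2 x + LinearMap.inr ℚ V1 V2 x' := by
      simp
    rw [e1]
    refine Submodule.add_mem _ ?_ ?_
    · have h : LinearMap.inl ℚ V1 V2 x ∈
          (Submodule.span ℚ (Set.range β1)).map (LinearMap.inl ℚ V1 V2) :=
        Submodule.mem_map_of_mem (sp1 Submodule.mem_top)
      rw [Submodule.map_span] at h
      refine Submodule.span_mono ?_ h
      rintro _ ⟨_, ⟨e, rfl⟩, rfl⟩
      exact ⟨Sum.inl e, rfl⟩
    · have h : LinearMap.inr ℚ V1 V2 x' ∈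
          (Submodule.span ℚ (Set.range β2)).map (LinearMap.inr ℚ V1 V2) :=
        Submodule.mem_map_of_mem (sp2 Submodule.mem_top)
      rw [Submodule.map_span] at h
      refine Submodule.span_mono ?_ h
      rintro _ ⟨_, ⟨e, rfl⟩, rfl⟩
      exact ⟨Sum.inr e, rfl⟩
  · rw [Fintype.linearIndependent_iff] at li1 li2 ⊢
    intro g hg
    rw [Fintype.sum_sum_type] at hg
    have k1 := li1 (fun e => g (Sum.inl e)) (by
      ext y
      have := congrFun hg (Sum.inl y)
      simpa [z1] using this)
    have k2 := li2 (fun e => g (Sum.inr e)) (by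
      ext y
      have := congrFun hg (Sum.inr y)
      simpa [z2] using this)
    rintro (e | e)
    · exact k1 e
    · exact k2 e

end PERABx

theorem pera : PERA := by
  intro S Λ _ _ M G _ _ b
  classical
  refine ⟨?_, ?_, Λ, inferInstance, fun i => Pi.single i 1, ?_, ?_⟩
  · intro y x x'
    unfold perA
    split_ifs
    · simp [add_mul, Finset.sum_add_distrib]
    · simp [add_mul, Finset.sum_add_distrib]
  · intro y q x
    unfold perA
    split_ifs
    · simp [mul_assoc, Finset.mul_sum]
    · simp [mul_assoc, Finset.mul_sum]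
  · intro x _
    rw [pi_eq_sum_univ' x]
    refine Submodule.sum_mem _ fun i _ => Submodule.smul_mem _ _ (Submodule.subset_span ⟨i, ?_⟩)
    ext j
    simp [Pi.single_apply, eq_comm]
  · rw [Fintype.linearIndependent_iff]
    intro g hg
    have h1 : ∀ p : Crd M G, ∑ i, g i * b i p = 0 := by
      intro p
      have := congrFun hg (p, true)
      simpa [perA, Pi.single_apply, apply_ite (Rat.cast : ℚ → ℂ)] using this
    have h2 : ∀ p : Crd M G, ∑ i, conj (g i) * b i p = 0 := by
      intro p
      have := congrArg conj (congrFun hg (p, false))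
      simpa [perA, Pi.single_apply, apply_ite (Rat.cast : ℚ → ℂ)] using this
    have hb := b.linearIndependent
    rw [Fintype.linearIndependent_iff] at hb
    have h3 : ∀ i, (g i).re = 0 := by
      refine hb (fun i => (g i).re) ?_
      ext p
      have e1 : ∀ i, ((g i).re : ℂ) = (g i + conj (g i)) / 2 := by
        intro i
        rw [Complex.add_conj]
        push_cast
        ring
      simp only [Finset.sum_apply, Pi.smul_apply, Complex.real_smul, Pi.zero_apply]
      simp only [e1]
      have : ∀ i, (g i + conj (g i)) / 2 * b i p = (g i * b i p + conj (g i) * b i p) / 2 := by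
        intro i; ring
      simp only [this]
      rw [← Finset.sum_div, Finset.sum_add_distrib, h1, h2]
      simp
    have h4 : ∀ i, (g i).im = 0 := by
      refine hb (fun i => (g i).im) ?_
      ext p
      have e1 : ∀ i, ((g i).im : ℂ) = (g i - conj (g i)) / (2 * I) := by
        intro i
        rw [Complex.sub_conj]
        push_cast
        field_simp
      simp only [Finset.sum_apply, Pi.smul_apply, Complex.real_smul, Pi.zero_apply]
      simp only [e1]
      have : ∀ i, (g i - conj (g i)) / (2 * I) * b i p =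
          (g i * b i p - conj (g i) * b i p) / (2 * I) := by
        intro i; ring
      simp only [this]
      rw [← Finset.sum_div, Finset.sum_sub_distrib, h1, h2]
      simp
    intro i
    exact Complex.ext (h3 i) (h4 i)

theorem perb : PERB := by
  intro ι _ K _ _
  classical
  have := Fintype.ofFinite ι
  refine ⟨?_, ?_, Σ i, Module.Free.ChooseBasisIndex ℤ (𝓞 (K i)), inferInstance,
    fun e => Pi.single e.1 (integralBasis (K e.1) e.2), ?_, ?_⟩
  · intro y x x'
    exact map_add y.2 _ _
  · intro y q x
    unfold perB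
    rw [Pi.smul_apply, Rat.smul_def, map_mul, map_ratCast]
  · intro x _
    have e1 : x = ∑ i, Pi.single i (x i) := by
      ext j
      simp
    rw [e1]
    refine Submodule.sum_mem _ fun i _ => ?_
    have h : LinearMap.single ℚ K i (x i) ∈
        (Submodule.span ℚ (Set.range (integralBasis (K i)))).map (LinearMap.single ℚ K i) := by
      refine Submodule.mem_map_of_mem ?_
      rw [Module.Basis.span_eq]
      exact Submodule.mem_top
    rw [Submodule.map_span] at h
    refine Submodule.span_mono ?_ h
    rintro _ ⟨_, ⟨e, rfl⟩, rfl⟩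
    exact ⟨⟨i, e⟩, rfl⟩
  · rw [Fintype.linearIndependent_iff]
    rintro g hg ⟨i, j⟩
    have hb := (canonicalEmbedding.latticeBasis (K i)).linearIndependent
    rw [Fintype.linearIndependent_iff] at hb
    refine hb (fun j => g ⟨i, j⟩) ?_ j
    ext τ
    have h := congrFun hg ⟨i, τ⟩
    rw [Fintype.sum_sigma] at h
    simp only [Finset.sum_apply, Pi.smul_apply, smul_eq_mul, Pi.zero_apply] at h ⊢
    rw [← h, Finset.sum_eq_single i]
    · refine Finset.sum_congr rfl fun j _ => ?_
      rw [canonicalEmbedding.latticeBasis_apply, canonicalEmbedding.apply_at]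
      simp [perB]
    · intro i' _ hi
      refine Finset.sum_eq_zero fun j _ => ?_
      simp [perB, Pi.single_eq_of_ne hi.symm]
    · intro h
      exact absurd (Finset.mem_univ _) h

theorem perx : PERX := by
  intro S Λ _ _ M G _ _ b ι _ K _ _
  exact PERABx.isPer_prod (pera S Λ M G b) (perb ι K)

end

end Pool.Agent.GG
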