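import Pool.Agent.Lib.GG.Rows

/-!
# Project G, row PERQ: the rational tensors are `ℂ`-independent
-/

set_option autoImplicit false

open scoped ComplexConjugate Matrix
open Complex

namespace Pool.Agent.GG

/-- The dual family of a finite independent family of functions on a finite set. -/
lemma exists_dualFam {E Y : Type} [Fintype Y] [DecidableEq E] (g : E → Y → ℂ)
    (hg : LinearIndependent ℂ g) :
    ∃ d : E → Y → ℂ, ∀ e e', ∑ y, d e y * g e' y = if e = e' then 1 else 0 := by
  classical
  have h1 : ∀ e : E, ∃ φ : (Y → ℂ) →ₗ[ℂ] ℂ, ∀ e', φ (g e') = if e = e' then 1 else 0 := by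
    intro e
    obtain ⟨φ, hφ⟩ := LinearMap.exists_extend ((Module.Basis.span hg).coord e)
    refine ⟨φ, fun e' => ?_⟩
    have h2 : g e' ∈ Submodule.span ℂ (Set.range g) := Submodule.subset_span ⟨e', rfl⟩
    have h3 := LinearMap.congr_fun hφ ⟨g e', h2⟩
    have h4 : (⟨g e', h2⟩ : Submodule.span ℂ (Set.range g)) = Module.Basis.span hg e' := by
      apply Subtype.ext
      rw [Module.Basis.span_apply]
    rw [LinearMap.comp_apply, Submodule.subtype_apply] at h3
    rw [h3, h4, Module.Basis.coord_apply, Module.Basis.repr_self, Finsupp.single_apply]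
    simp only [eq_comm]
  choose φ hφ using h1
  refine ⟨fun e y => φ e (Pi.single y 1), fun e e' => ?_⟩
  rw [← hφ e e', LinearMap.pi_apply_eq_sum_univ (φ e) (g e')]
  refine Finset.sum_congr rfl fun y _ => ?_
  have h2 : (fun j => if y = j then (1 : ℂ) else 0) = Pi.single y 1 := by
    funext j
    rw [Pi.single_apply]
    simp only [eq_comm]
  rw [smul_eq_mul, mul_comm, h2]

/-- Products of independent functions at the positions in `Q` are independent. -/
lemma prod_indep {P E Y : Type} [Fintype E] [Fintype Y] (Q : Finset P) (y₀ : Y) (g : E → Y → ℂ)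
    (hg : LinearIndependent ℂ g) :
    LinearIndependent ℂ fun (ε : {i // i ∈ Q} → E) (t : P → Y) => ∏ i : {i // i ∈ Q},
      g (ε i) (t i) := by
  classical
  obtain ⟨d, hd⟩ := exists_dualFam g hg
  rw [Fintype.linearIndependent_iff]
  intro c hc ε
  -- apply the dual functional
  have h1 : ∀ ε' : {i // i ∈ Q} → E, ∑ s : {i // i ∈ Q} → Y, (∏ i, d (ε i) (s i)) *
      (∏ i : {i // i ∈ Q}, g (ε' i) ((fun p : P => if h : p ∈ Q then s ⟨p, h⟩ else y₀) i)) =
      if ε = ε' then 1 else 0 := by
    intro ε'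
    have h2 : ∀ s : {i // i ∈ Q} → Y, (∏ i, d (ε i) (s i)) *
        (∏ i : {i // i ∈ Q}, g (ε' i) ((fun p : P => if h : p ∈ Q then s ⟨p, h⟩ else y₀) i)) =
        ∏ i, (d (ε i) (s i) * g (ε' i) (s i)) := by
      intro s
      rw [Finset.prod_mul_distrib]
      congr 1
      refine Finset.prod_congr rfl fun i _ => ?_
      simp
    simp only [h2]
    rw [← Fintype.prod_sum fun (i : {i // i ∈ Q}) (y : Y) => d (ε i) y * g (ε' i) y]
    simp only [hd]
    by_cases h : ε = ε'
    · subst h
      simp
    · rw [if_neg h]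
      obtain ⟨i, hi⟩ := Function.ne_iff.1 h
      exact Finset.prod_eq_zero (Finset.mem_univ i) (if_neg hi)
  have h3 : ∑ s : {i // i ∈ Q} → Y, (∏ i, d (ε i) (s i)) *
      (∑ ε', c ε' • fun (t : P → Y) => ∏ i : {i // i ∈ Q}, g (ε' i) (t i))
        (fun p : P => if h : p ∈ Q then s ⟨p, h⟩ else y₀) = 0 := by
    rw [hc]
    simp
  rw [← h3]
  have h4 : ∀ s : {i // i ∈ Q} → Y, (∏ i, d (ε i) (s i)) *
      (∑ ε', c ε' • fun (t : P → Y) => ∏ i : {i // i ∈ Q}, g (ε' i) (t i))
        (fun p : P => if h : p ∈ Q then s ⟨p, h⟩ else y₀) =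
      ∑ ε', c ε' * ((∏ i, d (ε i) (s i)) * (∏ i : {i // i ∈ Q},
        g (ε' i) ((fun p : P => if h : p ∈ Q then s ⟨p, h⟩ else y₀) i))) := by
    intro s
    rw [Finset.sum_apply, Finset.mul_sum]
    refine Finset.sum_congr rfl fun ε' _ => ?_
    rw [Pi.smul_apply, smul_eq_mul]
    ring
  rw [Finset.sum_congr rfl fun s _ => h4 s, Finset.sum_comm]
  simp only [← Finset.mul_sum, h1]
  simp

lemma QInd.mono {F : Type} [AddCommGroup F] [Module ℂ F] [Module ℚ F] [IsScalarTower ℚ ℂ F]
    {W W' : Submodule ℚ F} (h : QInd W) (h' : W' ≤ W) : QInd W' :=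
  fun n v hv hli => h n v (fun i => h' (hv i)) hli

theorem perq (hQ : QIND) : PERQ := by
  classical
  intro P Y V _ _ _ _ p Q hp
  obtain ⟨hadd, hsmul, E, _, β, hβ, hli⟩ := hp
  have := Fintype.ofFinite Y
  rcases isEmpty_or_nonempty (P → Y) with hE | hE
  · -- no words
    intro n v _ h
    have : Subsingleton ((P → Y) → ℂ) := ⟨fun f g => funext fun t => hE.elim t⟩
    have hn : IsEmpty (Fin n) := ⟨fun i => h.ne_zero i (Subsingleton.elim _ _)⟩
    exact linearIndependent_empty_type
  · rcases Q.eq_empty_or_nonempty with hQe | ⟨i₀, hi₀⟩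
    · -- `Q` empty: constants
      subst hQe
      have h1 : LinearIndependent ℂ fun (_ : Unit) (_ : P → Y) => (1 : ℂ) := by
        rw [linearIndependent_unique_iff]
        obtain ⟨t⟩ := hE
        intro h
        exact one_ne_zero (congrFun h t)
      refine (hQ _ _ _ h1).mono ?_
      unfold RTn
      rw [Submodule.span_le]
      rintro _ ⟨x, rfl⟩
      simp only [Finset.prod_empty]
      exact Submodule.subset_span ⟨(), rfl⟩
    · obtain ⟨t₀⟩ := hE
      have h1 := prod_indep Q (t₀ i₀) _ hli
      refine (hQ _ _ _ h1).mono ?_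
      unfold RTn
      rw [Submodule.span_le]
      rintro _ ⟨x, rfl⟩
      have h2 : ∀ v : V, ∃ q : E → ℚ, ∑ e, q e • β e = v := by
        intro v
        have h3 : v ∈ Submodule.span ℚ (Set.range β) := hβ trivial
        exact (Submodule.mem_span_range_iff_exists_fun ℚ).1 h3
      choose q hq using h2
      let pl : ∀ y : Y, V →+ ℂ := fun y => AddMonoidHom.mk' (p y) (hadd y)
      have h4 : ∀ y v, p y v = ∑ e, (q v e : ℂ) * p y (β e) := by
        intro y v
        have h5 : pl y v = ∑ e, pl y (q v e • β e) := by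
          rw [← map_sum, hq v]
        have h6 : ∀ e, pl y (q v e • β e) = (q v e : ℂ) * p y (β e) := fun e => hsmul y _ _
        rw [Finset.sum_congr rfl fun e _ => h6 e] at h5
        exact h5
      have h7 : (fun t : P → Y => ∏ i ∈ Q, p (t i) (x i)) =
          ∑ ε : {i // i ∈ Q} → E, (∏ i : {i // i ∈ Q}, q (x i) (ε i)) •
            fun t : P → Y => ∏ i : {i // i ∈ Q}, p (t i) (β (ε i)) := by
        funext t
        rw [Finset.sum_apply, ← Finset.prod_coe_sort]
        simp only [Pi.smul_apply]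
        calc ∏ i : {i // i ∈ Q}, p (t i) (x i)
            = ∏ i : {i // i ∈ Q}, ∑ e, (q (x i) e : ℂ) * p (t i) (β e) :=
              Finset.prod_congr rfl fun i _ => h4 _ _
          _ = ∑ ε : {i // i ∈ Q} → E, ∏ i : {i // i ∈ Q},
                ((q (x i) (ε i) : ℂ) * p (t i) (β (ε i))) := Fintype.prod_sum _
          _ = _ := by
              refine Finset.sum_congr rfl fun ε _ => ?_
              rw [Finset.prod_mul_distrib, Rat.smul_def]
              push_cast
              rfl
      simp only [SetLike.mem_coe]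
      rw [h7]
      exact Submodule.sum_mem _ fun ε _ => Submodule.smul_mem _ _ (Submodule.subset_span ⟨ε, rfl⟩)

end Pool.Agent.GG
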