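import Pool.Agent.Lib.GG.Rows

/-!
# Project G, row PSQ (helper59)
-/

set_option autoImplicit false

open scoped ComplexConjugate Matrix
open Complex Pool.Agent.HCM Pool.Agent.RAT

namespace Pool.Agent.GG

noncomputable section

namespace PSQr

/-- Multilinear expansion of a product. -/
lemma prod_mem {R A : Type*} [CommSemiring R] [CommSemiring A] [Algebra R A] {κ : Type*}
    (s : Finset κ) (S : κ → Set A) (f : κ → A) (hf : ∀ i ∈ s, f i ∈ Submodule.span R (S i)) :
    ∏ i ∈ s, f i ∈
      Submodule.span R {a : A | ∃ g : κ → A, (∀ i ∈ s, g i ∈ S i) ∧ a = ∏ i ∈ s, g i} := by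
  classical
  induction s using Finset.induction_on with
  | empty =>
    refine Submodule.subset_span ⟨fun _ => 1, by simp, by simp⟩
  | insert a s ha ih =>
    rw [Finset.prod_insert ha]
    have h1 := hf a (Finset.mem_insert_self a s)
    have h2 := ih fun i hi => hf i (Finset.mem_insert_of_mem hi)
    have h3 := Submodule.mul_mem_mul h1 h2
    rw [Submodule.span_mul_span] at h3
    refine Submodule.span_mono ?_ h3
    rintro x ⟨y, hy, z, ⟨g, hg, rfl⟩, rfl⟩
    refine ⟨Function.update g a y, ?_, ?_⟩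
    · intro i hi
      by_cases h : i = a
      · subst h
        simpa using hy
      · rw [Function.update_of_ne h]
        exact hg i ((Finset.mem_insert.1 hi).resolve_left h)
    · rw [Finset.prod_insert ha, Function.update_self]
      congr 1
      refine Finset.prod_congr rfl fun i hi => ?_
      rw [Function.update_of_ne]
      rintro rfl
      exact ha hi

section

variable {P Y : Type}

/-- `δ ↦ (t ↦ δ (t a) (t c))`. -/
def two (R : Type*) [CommSemiring R] [Module R ℂ] (a c : P) :
    (Y → Y → ℂ) →ₗ[R] ((P → Y) → ℂ) where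
  toFun δ := fun t => δ (t a) (t c)
  map_add' _ _ := rfl
  map_smul' _ _ := rfl

/-- `δ ↦ (t ↦ δ (t a))`. -/
def one (R : Type*) [CommSemiring R] [Module R ℂ] (a : P) :
    (Y → ℂ) →ₗ[R] ((P → Y) → ℂ) where
  toFun δ := fun t => δ (t a)
  map_add' _ _ := rfl
  map_smul' _ _ := rfl

lemma map_mem {R E F : Type*} [CommSemiring R] [AddCommMonoid E] [Module R E] [AddCommMonoid F]
    [Module R F] (L : E →ₗ[R] F) (S : Set E) (x : E) (hx : x ∈ Submodule.span R S) :
    L x ∈ Submodule.span R (L '' S) := by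
  rw [← Submodule.map_span]
  exact Submodule.mem_map_of_mem hx

end

section

variable {S Λ : Type} [Fintype S] [Fintype Λ] {M G : S → Type} [∀ s, Fintype (M s)]
  [∀ s, Fintype (G s)]

/-- one position: the periods span. -/
lemma span_one (hA : PERA) (b : Module.Basis Λ ℝ (Crd M G → ℂ)) (δ : AL M G → ℂ) :
    δ ∈ Submodule.span ℂ (Set.range fun (x : Λ → ℚ) (y : AL M G) => perA (M := M) (G := G) b y x) := by
  classical
  obtain ⟨-, -, E, hE, β, hβ, hlin⟩ := hA S Λ M G b
  have h1 : Fintype.card Λ ≤ Fintype.card E := by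
    have h2 := finrank_span_le_card (R := ℚ) (Set.range β)
    have h3 : Submodule.span ℚ (Set.range β) = ⊤ := top_le_iff.1 hβ
    rw [h3, finrank_top, Module.finrank_fintype_fun_eq_card] at h2
    refine h2.trans ?_
    rw [Set.toFinset_range]
    exact Finset.card_image_le
  have h2 : Fintype.card Λ = Fintype.card (AL M G) := by
    have h3 := Module.finrank_eq_card_basis b
    rw [← h3]
    have h4 : Module.finrank ℝ (Crd M G → ℂ) = Fintype.card (Crd M G) * 2 := by
      rw [← Module.finrank_mul_finrank ℝ ℂ (Crd M G → ℂ), Complex.finrank_real_complex,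
        Module.finrank_fintype_fun_eq_card, mul_comm]
    rw [h4, Fintype.card_prod, Fintype.card_bool]
  have h3 : Module.finrank ℂ (AL M G → ℂ) ≤ Fintype.card E := by
    rw [Module.finrank_fintype_fun_eq_card, ← h2]
    exact h1
  have h4 : Submodule.span ℂ (Set.range fun (e : E) (y : AL M G) =>
      perA (M := M) (G := G) b y (β e)) = ⊤ := by
    have h5 : Fintype.card E = Module.finrank ℂ (AL M G → ℂ) :=
      le_antisymm hlin.fintype_card_le_finrank h3
    exact hlin.span_eq_top_of_card_eq_finrank' h5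
  have h5 : δ ∈ Submodule.span ℂ (Set.range fun (e : E) (y : AL M G) =>
      perA (M := M) (G := G) b y (β e)) := by
    rw [h4]; trivial
  refine Submodule.span_mono ?_ h5
  rintro _ ⟨e, rfl⟩
  exact ⟨β e, rfl⟩

/-- functions of the letters at the positions in `Q`. -/
lemma span_dep (hA : PERA) (b : Module.Basis Λ ℝ (Crd M G → ℂ)) {P : Type} [Fintype P]
    [DecidableEq P] (Q : Finset P) (h : (P → AL M G) → ℂ) (hh : DepOn Q h) :
    h ∈ Submodule.span ℂ (Set.range fun (x : P → Λ → ℚ) (t : P → AL M G) =>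
      ∏ i ∈ Q, perA (M := M) (G := G) b (t i) (x i)) := by
  classical
  set res : (P → AL M G) → ({i // i ∈ Q} → AL M G) := fun t i => t i.1 with hres
  set c : ({i // i ∈ Q} → AL M G) → ℂ := Function.extend res h 0 with hc
  have hfac : Function.FactorsThrough h res := by
    intro t t' htt
    refine hh t t' fun i hi => ?_
    exact congrFun htt ⟨i, hi⟩
  have hcr : ∀ t, c (res t) = h t := fun t => hfac.extend_apply 0 t
  have hsum : h = ∑ w : {i // i ∈ Q} → AL M G,
      c w • ∏ i : {i // i ∈ Q}, one ℂ i.1 (fun y : AL M G => if y = w i then (1 : ℂ) else 0) := by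
    funext t
    rw [Finset.sum_apply, Finset.sum_eq_single (res t)]
    · rw [Pi.smul_apply, hcr, Finset.prod_apply, Finset.prod_eq_one, smul_eq_mul, mul_one]
      intro i _
      show (if t i.1 = res t i then (1 : ℂ) else 0) = 1
      rw [if_pos rfl]
    · intro w _ hw
      obtain ⟨i, hi⟩ : ∃ i, res t i ≠ w i := by
        by_contra hcon
        push Not at hcon
        exact hw (funext fun i => (hcon i).symm)
      rw [Pi.smul_apply, Finset.prod_apply, Finset.prod_eq_zero (Finset.mem_univ i), smul_zero]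
      show (if t i.1 = w i then (1 : ℂ) else 0) = 0
      exact if_neg hi
    · intro h
      exact absurd (Finset.mem_univ _) h
  rw [hsum]
  refine Submodule.sum_mem _ fun w _ => Submodule.smul_mem _ _ ?_
  have h1 := prod_mem (R := ℂ) (A := (P → AL M G) → ℂ) (Finset.univ : Finset {i // i ∈ Q})
    (fun i => one ℂ i.1 '' Set.range fun (x : Λ → ℚ) (y : AL M G) =>
      perA (M := M) (G := G) b y x)
    (fun i => one ℂ i.1 (fun y : AL M G => if y = w i then (1 : ℂ) else 0))
    (fun i _ => map_mem _ _ _ (span_one hA b _))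
  refine Submodule.span_mono ?_ h1
  rintro _ ⟨g, hg, rfl⟩
  have h2 : ∀ i : {i // i ∈ Q}, ∃ x : Λ → ℚ, g i = fun t => perA (M := M) (G := G) b (t i.1) x := by
    intro i
    obtain ⟨_, ⟨x, rfl⟩, hx⟩ := hg i (Finset.mem_univ i)
    exact ⟨x, hx.symm⟩
  choose x hx using h2
  refine ⟨fun i => if hi : i ∈ Q then x ⟨i, hi⟩ else 0, ?_⟩
  funext t
  show ∏ i ∈ Q, perA (M := M) (G := G) b (t i) (if hi : i ∈ Q then x ⟨i, hi⟩ else 0) =
    (∏ i : {i // i ∈ Q}, g i) t
  rw [Finset.prod_apply, ← Finset.prod_coe_sort]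
  refine Finset.prod_congr rfl fun i _ => ?_
  rw [hx i, dif_pos i.2]

/-- gluing the loops. -/
lemma glue (b : Λ → Crd M G → ℂ) {P : Type} [DecidableEq P] (Q : Finset P) (j : ℕ)
    (e : Fin j × Fin 2 → P) (he : Function.Injective e) (heQ : ∀ x, e x ∈ Q)
    (X : Fin j → Fin 2 → Λ → ℚ) (x : P → Λ → ℚ) : ∃ z : P → Λ → ℚ, ∀ t : P → AL M G,
      (∏ r, perA b (t (e (r, 0))) (X r 0) * perA b (t (e (r, 1))) (X r 1)) *
        ∏ i ∈ Q \ Finset.univ.image e, perA b (t i) (x i) = ∏ i ∈ Q, perA b (t i) (z i) := by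
  classical
  refine ⟨fun i => if h : ∃ y, e y = i then X h.choose.1 h.choose.2 else x i, fun t => ?_⟩
  have hsub : Finset.univ.image e ⊆ Q := by
    intro i hi
    obtain ⟨y, -, rfl⟩ := Finset.mem_image.1 hi
    exact heQ y
  rw [← Finset.prod_sdiff hsub, mul_comm]
  congr 1
  · refine Finset.prod_congr rfl fun i hi => ?_
    have h : ¬ ∃ y, e y = i := by
      rintro ⟨y, hy⟩
      exact (Finset.mem_sdiff.1 hi).2 (Finset.mem_image.2 ⟨y, Finset.mem_univ _, hy⟩)
    beta_reduce
    rw [dif_neg h]
  · rw [Finset.prod_image fun y _ y' _ hy => he hy, Fintype.prod_prod_type]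
    refine Finset.prod_congr rfl fun r _ => ?_
    have h : ∀ y : Fin j × Fin 2, (if h : ∃ y', e y' = e y then X h.choose.1 h.choose.2 else
        x (e y)) = X y.1 y.2 := by
      intro y
      have h1 : ∃ y', e y' = e y := ⟨y, rfl⟩
      rw [dif_pos h1, he h1.choose_spec]
    rw [Fin.prod_univ_two]
    beta_reduce
    rw [h, h]

end

end PSQr

open PSQr in
/-- Row PSQ. -/
theorem psq (hA : PERA) : PSQ := by
  classical
  intro S Λ _ _ M G _ _ b P _ _ Q j hb
  refine ⟨?_, ?_, ?_, ?_⟩
  · -- over `ℂ`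
    refine Submodule.span_le.2 ?_
    rintro f ⟨e, he, heQ, s, m, m', h, hh, rfl⟩
    have h1 := prod_mem (R := ℂ) (A := (P → AL M G) → ℂ) (Finset.univ : Finset (Fin j))
      (fun r => two ℂ (e (r, 0)) (e (r, 1)) '' RT11 (M := M) (G := G) b)
      (fun r => two ℂ (e (r, 0)) (e (r, 1)) (ps (s r) (m r) (m' r)))
      (fun r _ => map_mem _ _ _ (hb.ns (s r) (m r) (m' r)))
    have h2 := span_dep hA b (Q \ Finset.univ.image e) h hh
    have h3 := Submodule.mul_mem_mul h1 h2
    rw [Submodule.span_mul_span] at h3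
    have h4 : (fun t : P → AL M G => (∏ r, ps (s r) (m r) (m' r) (t (e (r, 0))) (t (e (r, 1)))) *
        h t) = (∏ r, two ℂ (e (r, 0)) (e (r, 1)) (ps (s r) (m r) (m' r))) * h := by
      funext t
      rw [Pi.mul_apply, Finset.prod_apply]
      rfl
    rw [SetLike.mem_coe, h4]
    refine Submodule.span_mono ?_ h3
    rintro _ ⟨_, ⟨g, hg, rfl⟩, _, ⟨x, rfl⟩, rfl⟩
    have h5 : ∀ r : Fin j, ∃ δ ∈ RT11 (M := M) (G := G) b,
        g r = fun t => δ (t (e (r, 0))) (t (e (r, 1))) := by
      intro r
      obtain ⟨δ, hδ, hx⟩ := hg r (Finset.mem_univ r)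
      exact ⟨δ, hδ, hx.symm⟩
    choose δ hδ hδg using h5
    refine Submodule.subset_span ⟨e, he, heQ, δ, x, hδ, ?_⟩
    funext t
    show (∏ r, g r) t * _ = _
    rw [Finset.prod_apply]
    congr 1
    exact Finset.prod_congr rfl fun r _ => by rw [hδg r]
  · -- one pair less
    refine Submodule.span_le.2 ?_
    rintro f ⟨e, he, heQ, δ, x, hδ, rfl⟩
    set a := e (Fin.last j, 0) with ha
    set c := e (Fin.last j, 1) with hc
    set e' : Fin j × Fin 2 → P := fun y => e (y.1.castSucc, y.2) with he'
    have he'i : Function.Injective e' := by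
      intro y y' hy
      have := he hy
      simp only [Prod.mk.injEq, Fin.castSucc_inj] at this
      exact Prod.ext this.1 this.2
    have hac : a ≠ c := fun h => by
      have := he h
      simp at this
    set Q' := Q \ Finset.univ.image e with hQ'
    have haQ : a ∉ Q' := fun h =>
      (Finset.mem_sdiff.1 h).2 (Finset.mem_image.2 ⟨_, Finset.mem_univ _, rfl⟩)
    have hcQ : c ∉ Q' := fun h =>
      (Finset.mem_sdiff.1 h).2 (Finset.mem_image.2 ⟨_, Finset.mem_univ _, rfl⟩)
    have hQ2 : Q \ Finset.univ.image e' = insert a (insert c Q') := by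
      ext i
      simp only [Finset.mem_sdiff, Finset.mem_insert, hQ', Finset.mem_image, Finset.mem_univ,
        true_and]
      constructor
      · rintro ⟨h1, h2⟩
        by_cases hia : i = a
        · exact Or.inl hia
        by_cases hic : i = c
        · exact Or.inr (Or.inl hic)
        refine Or.inr (Or.inr ⟨h1, ?_⟩)
        rintro ⟨⟨r, k⟩, rfl⟩
        induction r using Fin.lastCases with
        | last =>
          match k with
          | 0 => exact hia rfl
          | 1 => exact hic rfl
        | cast r => exact h2 ⟨(r, k), rfl⟩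
      · rintro (rfl | rfl | ⟨h1, h2⟩)
        · refine ⟨heQ _, ?_⟩
          rintro ⟨y, hy⟩
          have := he hy
          simp only [Prod.mk.injEq] at this
          exact (Fin.castSucc_lt_last y.1).ne this.1
        · refine ⟨heQ _, ?_⟩
          rintro ⟨y, hy⟩
          have := he hy
          simp only [Prod.mk.injEq] at this
          exact (Fin.castSucc_lt_last y.1).ne this.1
        · exact ⟨h1, fun ⟨y, hy⟩ => h2 ⟨_, hy⟩⟩
    have h1 := map_mem (two ℚ a c) _ _ (hδ (Fin.last j)).1
    set rest : (P → AL M G) → ℂ := fun t =>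
      (∏ r : Fin j, δ r.castSucc (t (e (r.castSucc, 0))) (t (e (r.castSucc, 1)))) *
        ∏ i ∈ Q', perA (M := M) (G := G) b (t i) (x i) with hrest
    have h2 : (fun t : P → AL M G => (∏ r, δ r (t (e (r, 0))) (t (e (r, 1)))) *
        ∏ i ∈ Q', perA (M := M) (G := G) b (t i) (x i)) =
        two ℚ a c (δ (Fin.last j)) * rest := by
      funext t
      rw [Pi.mul_apply, Fin.prod_univ_castSucc, hrest]
      show _ = δ (Fin.last j) (t a) (t c) * _
      ring
    rw [SetLike.mem_coe, h2]
    have h3 : two ℚ a c (δ (Fin.last j)) * rest ∈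
        Submodule.span ℚ (two ℚ a c '' (Set.range fun x : (Λ → ℚ) × (Λ → ℚ) => fun y y' =>
          perA (M := M) (G := G) b y x.1 * perA (M := M) (G := G) b y' x.2)) *
        Submodule.span ℚ {rest} :=
      Submodule.mul_mem_mul h1 (Submodule.mem_span_singleton_self rest)
    rw [Submodule.span_mul_span] at h3
    refine Submodule.span_mono ?_ h3
    rintro _ ⟨_, ⟨_, ⟨⟨x1, x2⟩, rfl⟩, rfl⟩, _, rfl, rfl⟩
    refine ⟨e', he'i, fun y => heQ _, fun r => δ r.castSucc,
      Function.update (Function.update x c x2) a x1, fun r => hδ _, ?_⟩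
    funext t
    rw [hQ2, Finset.prod_insert, Finset.prod_insert hcQ]
    · have h4 : ∏ i ∈ Q', perA (M := M) (G := G) b (t i)
          (Function.update (Function.update x c x2) a x1 i) =
          ∏ i ∈ Q', perA (M := M) (G := G) b (t i) (x i) := by
        refine Finset.prod_congr rfl fun i hi => ?_
        rw [Function.update_of_ne, Function.update_of_ne]
        · rintro rfl; exact hcQ hi
        · rintro rfl; exact haQ hi
      rw [h4, Function.update_self, Function.update_of_ne hac.symm, Function.update_self]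
      show perA (M := M) (G := G) b (t a) x1 * perA (M := M) (G := G) b (t c) x2 * rest t = _
      rw [hrest]
      ring
    · rw [Finset.mem_insert]
      exact not_or.2 ⟨hac, haQ⟩
  · -- no pair
    refine Submodule.span_mono ?_
    rintro _ ⟨x, rfl⟩
    refine ⟨fun y => y.1.elim0, fun y => y.1.elim0, fun y => y.1.elim0, fun r => r.elim0, x,
      fun r => r.elim0, ?_⟩
    funext t
    simp
  · -- rational tensors
    refine Submodule.span_le.2 ?_
    rintro f ⟨e, he, heQ, δ, x, hδ, rfl⟩
    have h1 := prod_mem (R := ℚ) (A := (P → AL M G) → ℂ) (Finset.univ : Finset (Fin j))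
      (fun r => two ℚ (e (r, 0)) (e (r, 1)) '' (Set.range fun x : (Λ → ℚ) × (Λ → ℚ) => fun y y' =>
          perA (M := M) (G := G) b y x.1 * perA (M := M) (G := G) b y' x.2))
      (fun r => two ℚ (e (r, 0)) (e (r, 1)) (δ r))
      (fun r _ => map_mem _ _ _ (hδ r).1)
    set h : (P → AL M G) → ℂ := fun t =>
      ∏ i ∈ Q \ Finset.univ.image e, perA (M := M) (G := G) b (t i) (x i) with hh
    have h3 := Submodule.mul_mem_mul h1 (Submodule.mem_span_singleton_self (R := ℚ) h)
    rw [Submodule.span_mul_span] at h3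
    have h4 : (fun t : P → AL M G => (∏ r, δ r (t (e (r, 0))) (t (e (r, 1)))) *
        ∏ i ∈ Q \ Finset.univ.image e, perA (M := M) (G := G) b (t i) (x i)) =
        (∏ r, two ℚ (e (r, 0)) (e (r, 1)) (δ r)) * h := by
      funext t
      rw [Pi.mul_apply, Finset.prod_apply]
      rfl
    rw [SetLike.mem_coe, h4]
    refine Submodule.span_mono ?_ h3
    rintro _ ⟨_, ⟨g, hg, rfl⟩, _, rfl, rfl⟩
    have h5 : ∀ r : Fin j, ∃ X : Fin 2 → Λ → ℚ,
        g r = fun t => perA (M := M) (G := G) b (t (e (r, 0))) (X 0) *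
          perA (M := M) (G := G) b (t (e (r, 1))) (X 1) := by
      intro r
      obtain ⟨_, ⟨⟨x1, x2⟩, rfl⟩, hx⟩ := hg r (Finset.mem_univ r)
      exact ⟨![x1, x2], hx.symm⟩
    choose X hX using h5
    obtain ⟨z, hz⟩ := glue (M := M) (G := G) b Q j e he heQ X x
    refine ⟨z, ?_⟩
    funext t
    refine (hz t).symm.trans ?_
    show _ = (∏ r, g r) t * _
    rw [Finset.prod_apply]
    congr 1
    exact Finset.prod_congr rfl fun r _ => by rw [hX r]

end

end Pool.Agent.GG
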