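import Pool.Agent.Lib.GG.Rows

/-!
# Project G, row PARTC: the filtration lemma
-/

set_option autoImplicit false

open scoped ComplexConjugate Matrix
open Complex Pool.Agent.HCM Pool.Agent.RAT

namespace Pool.Agent.GG

noncomputable section

namespace PartcAux

section gen

variable {F : Type} [AddCommGroup F] [Module ℂ F] [Module ℚ F] [IsScalarTower ℚ ℂ F]

omit [IsScalarTower ℚ ℂ F] in
theorem qind_gen {W : Submodule ℚ F} (hW : QInd W) {ι : Type*} (v : ι → F) (hv : ∀ i, v i ∈ W)
    (h : LinearIndependent ℚ v) : LinearIndependent ℂ v := by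
  rw [linearIndependent_iff_finset_linearIndependent]
  intro s
  have e : Fin s.card ≃ s := s.equivFin.symm
  have h1 : LinearIndependent ℚ (fun i : Fin s.card => v (e i)) :=
    h.comp _ (Subtype.val_injective.comp e.injective)
  have h2 := hW s.card _ (fun i => hv _) h1
  have h3 := h2.comp e.symm e.symm.injective
  have h4 : ((fun i : Fin s.card => v (e i)) ∘ e.symm) = v ∘ ((↑) : s → ι) := by
    funext i
    simp
  rw [← h4]
  exact h3

/-- Disjoint rational subspaces span disjoint complex subspaces. -/
theorem disj {W C A : Submodule ℚ F} (hW : QInd W) (hC : C ≤ W) (hA : A ≤ W)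
    (hd : Disjoint C A) :
    Disjoint (Submodule.span ℂ (C : Set F)) (Submodule.span ℂ (A : Set F)) := by
  have bC := Module.Basis.ofVectorSpace ℚ C
  have bA := Module.Basis.ofVectorSpace ℚ A
  have hsC : Submodule.span ℚ (Set.range fun i => (bC i : F)) = C := by
    have := bC.span_eq
    have h2 := congrArg (Submodule.map C.subtype) this
    rw [Submodule.map_span, Submodule.map_top, Submodule.range_subtype] at h2
    refine Eq.trans ?_ h2
    rw [← Set.range_comp]
    rfl
  have hsA : Submodule.span ℚ (Set.range fun i => (bA i : F)) = A := by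
    have := bA.span_eq
    have h2 := congrArg (Submodule.map A.subtype) this
    rw [Submodule.map_span, Submodule.map_top, Submodule.range_subtype] at h2
    refine Eq.trans ?_ h2
    rw [← Set.range_comp]
    rfl
  have hiC : LinearIndependent ℚ fun i => (bC i : F) :=
    bC.linearIndependent.map' C.subtype C.ker_subtype
  have hiA : LinearIndependent ℚ fun i => (bA i : F) :=
    bA.linearIndependent.map' A.subtype A.ker_subtype
  have hq : LinearIndependent ℚ (Sum.elim (fun i => (bC i : F)) fun i => (bA i : F)) := by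
    rw [linearIndependent_sum]
    refine ⟨by simpa using hiC, by simpa using hiA, ?_⟩
    simp only [Sum.elim_comp_inl, Sum.elim_comp_inr]
    rw [hsC, hsA]
    exact hd
  have hc := qind_gen hW _ (by
    rintro (i | i)
    · exact hC (bC i).2
    · exact hA (bA i).2) hq
  rw [linearIndependent_sum] at hc
  have h3 := hc.2.2
  simp only [Sum.elim_comp_inl, Sum.elim_comp_inr] at h3
  have key : ∀ (D : Submodule ℚ F) {κ : Type} (b : κ → F),
      Submodule.span ℚ (Set.range b) = D →
      Submodule.span ℂ (D : Set F) ≤ Submodule.span ℂ (Set.range b) := by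
    intro D κ b hb
    rw [Submodule.span_le]
    intro x hx
    rw [← hb] at hx
    exact (Submodule.span_le_restrictScalars ℚ ℂ (Set.range b)) hx
  exact h3.mono (key C _ hsC) (key A _ hsA)

end gen

variable {X Y : Type}

/-- the products -/
def TT (A : Submodule ℚ (X → ℂ)) (B : Submodule ℚ (Y → ℂ)) : Submodule ℚ (X → Y → ℂ) :=
  Submodule.span ℚ {g | ∃ p ∈ A, ∃ v ∈ B, g = fun x y => p x * v y}

theorem TT_fin {A : Submodule ℚ (X → ℂ)} {B : Submodule ℚ (Y → ℂ)} {f : X → Y → ℂ}
    (hf : f ∈ TT A B) {ι : Type*} (b : Module.Basis ι ℚ A) :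
    ∃ g : ι →₀ (Y → ℂ), (∀ i, g i ∈ B) ∧
      f = g.sum fun i v => (fun x y => (b i : X → ℂ) x * v y : X → Y → ℂ) := by
  classical
  induction hf using Submodule.span_induction with
  | mem f hf =>
    obtain ⟨p, hp, v, hv, rfl⟩ := hf
    refine ⟨(b.repr ⟨p, hp⟩).mapRange (fun q : ℚ => q • v) (zero_smul _ _), fun i => ?_, ?_⟩
    · rw [Finsupp.mapRange_apply]
      exact B.smul_mem _ hv
    · rw [Finsupp.sum_mapRange_index]
      · have h1 : p = (b.repr ⟨p, hp⟩).sum fun i q => q • (b i : X → ℂ) := by
          have h2 := b.linearCombination_repr ⟨p, hp⟩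
          have h3 := congrArg (Subtype.val) h2
          rw [Finsupp.linearCombination_apply] at h3
          simp only [Finsupp.sum, AddSubmonoidClass.coe_finsetSum, SetLike.val_smul] at h3
          simp only [Finsupp.sum]
          exact h3.symm
        funext x y
        conv_lhs => rw [h1]
        simp only [Finsupp.sum, Finset.sum_apply, Pi.smul_apply, Finset.sum_mul]
        refine Finset.sum_congr rfl fun i _ => ?_
        rw [smul_mul_assoc, mul_smul_comm]
      · intro i
        funext x y
        simp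
  | zero => exact ⟨0, fun i => B.zero_mem, by simp⟩
  | add f1 f2 _ _ h1 h2 =>
    obtain ⟨g1, hg1, e1⟩ := h1
    obtain ⟨g2, hg2, e2⟩ := h2
    refine ⟨g1 + g2, fun i => B.add_mem (hg1 i) (hg2 i), ?_⟩
    rw [Finsupp.sum_add_index', ← e1, ← e2]
    · intro i
      funext x y
      simp
    · intro i v w
      funext x y
      simp [mul_add]
  | smul q f _ h1 =>
    obtain ⟨g1, hg1, e1⟩ := h1
    refine ⟨q • g1, fun i => B.smul_mem q (hg1 i), ?_⟩
    rw [Finsupp.sum_smul_index', e1, Finsupp.smul_sum]
    · refine Finset.sum_congr rfl fun i _ => ?_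
      funext x y
      simp only [Pi.smul_apply]
      rw [mul_smul_comm]
    · intro i
      funext x y
      simp

theorem TT_slice {A : Submodule ℚ (X → ℂ)} {B : Submodule ℚ (Y → ℂ)} {f : X → Y → ℂ}
    (hf : f ∈ TT A B) (y : Y) : (fun x => f x y) ∈ Submodule.span ℂ (A : Set (X → ℂ)) := by
  induction hf using Submodule.span_induction with
  | mem f hf =>
    obtain ⟨p, hp, v, hv, rfl⟩ := hf
    have : (fun x => p x * v y) = v y • p := by
      funext x
      simp [mul_comm]
    rw [this]
    exact Submodule.smul_mem _ _ (Submodule.subset_span hp)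
  | zero => exact Submodule.zero_mem _
  | add f1 f2 _ _ h1 h2 => exact Submodule.add_mem _ h1 h2
  | smul q f _ h1 =>
    have : (fun x => (q • f) x y) = (q : ℂ) • fun x => f x y := by
      funext x
      simp [Rat.smul_def]
    rw [this]
    exact Submodule.smul_mem _ _ h1

theorem step {W0 A A' : Submodule ℚ (X → ℂ)} {B : Submodule ℚ (Y → ℂ)} (hW : QInd W0)
    (hA : A ≤ W0) (hAA : A' ≤ A) {h : X → Y → ℂ} (hh : h ∈ TT A B) (S : Set Y)
    (hS : ∀ y ∈ S, (fun x => h x y) ∈ Submodule.span ℂ (A' : Set (X → ℂ))) :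
    h ∈ Submodule.span ℚ {g : X → Y → ℂ | ∃ p ∈ A, ∃ v ∈ B, (∀ y ∈ S, v y = 0) ∧
      g = fun x y => p x * v y} ⊔ TT A' B := by
  obtain ⟨C', hC'⟩ := A'.exists_isCompl
  set C : Submodule ℚ (X → ℂ) := C' ⊓ A with hC
  have hsup : A ≤ A' ⊔ C := by
    intro x hx
    have : x ∈ A' ⊔ C' := by
      rw [hC'.sup_eq_top]
      trivial
    obtain ⟨a, ha, c, hc, rfl⟩ := Submodule.mem_sup.1 this
    refine Submodule.add_mem_sup ha ⟨hc, ?_⟩
    have := A.sub_mem hx (hAA ha)
    simpa using this
  have h1 : TT A B ≤ TT C B ⊔ TT A' B := by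
    unfold TT
    rw [Submodule.span_le]
    rintro _ ⟨p, hp, v, hv, rfl⟩
    obtain ⟨a, ha, c, hc, rfl⟩ := Submodule.mem_sup.1 (hsup hp)
    have : (fun x y => (a + c) x * v y : X → Y → ℂ) =
        (fun x y => c x * v y) + fun x y => a x * v y := by
      funext x y
      simp only [Pi.add_apply]
      ring
    rw [this]
    exact Submodule.add_mem_sup (Submodule.subset_span ⟨c, hc, v, hv, rfl⟩)
      (Submodule.subset_span ⟨a, ha, v, hv, rfl⟩)
  obtain ⟨h1', hh1, h2', hh2, rfl⟩ := Submodule.mem_sup.1 (h1 hh)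
  refine Submodule.add_mem_sup ?_ hh2
  have b := Module.Basis.ofVectorSpace ℚ C
  obtain ⟨g, hg, hge⟩ := TT_fin hh1 b
  have hCA : C ≤ A := inf_le_right
  have hCW : C ≤ W0 := hCA.trans hA
  have hdis : Disjoint C A' := (hC'.disjoint.symm).mono_left inf_le_left
  have hdisC := disj hW hCW (hAA.trans hA) hdis
  have hiC : LinearIndependent ℂ fun i => (b i : X → ℂ) :=
    qind_gen hW _ (fun i => hCW (b i).2) (b.linearIndependent.map' C.subtype C.ker_subtype)
  have hz : ∀ y ∈ S, ∀ i, g i y = 0 := by
    intro y hy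
    have h3 : (fun x => h1' x y) ∈ Submodule.span ℂ (A' : Set (X → ℂ)) := by
      have h4 := Submodule.sub_mem _ (hS y hy) (TT_slice hh2 y)
      have h5 : ((fun x => (h1' + h2') x y) - fun x => h2' x y) = fun x => h1' x y := by
        funext x
        simp
      rw [h5] at h4
      exact h4
    have h4 : (fun x => h1' x y) = 0 := by
      have := Submodule.disjoint_def.1 hdisC _ (TT_slice hh1 y) h3
      exact this
    have h5 : ∑ i ∈ g.support, g i y • (b i : X → ℂ) = 0 := by
      rw [← h4, hge]
      funext x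
      simp only [Finsupp.sum, Finset.sum_apply, Pi.smul_apply, smul_eq_mul]
      exact Finset.sum_congr rfl fun i _ => mul_comm _ _
    have h6 := linearIndependent_iff'.1 hiC g.support (fun i => g i y) h5
    intro i
    by_cases hi : i ∈ g.support
    · exact h6 i hi
    · rw [Finsupp.notMem_support_iff.1 hi]
      rfl
  rw [hge]
  refine Submodule.sum_mem _ fun i _ => Submodule.subset_span ?_
  exact ⟨b i, hCA (b i).2, g i, hg i, fun y hy => hz y hy i, rfl⟩

end PartcAux

open PartcAux

theorem partc : PARTC := by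
  intro X Y WA WB k n f hQ hanti hf hy
  set G : ℕ → Set (X → Y → ℂ) := fun J => {g | ∃ j, j < J ∧ j ≤ k ∧ ∃ p ∈ WA j, ∃ v ∈ WB,
    (∀ y, v y ≠ 0 → k - j ≤ n y) ∧ g = fun x y => p x * v y} with hG
  have main : ∀ J ≤ k, f ∈ Submodule.span ℚ (G J) ⊔ TT (WA J) WB := by
    intro J
    induction J with
    | zero =>
      intro _
      exact Submodule.mem_sup_right hf
    | succ J ih =>
      intro hJ
      obtain ⟨g, hg, h, hh, hgh⟩ := Submodule.mem_sup.1 (ih (by omega))
      have hgz : ∀ y, n y < k - J → ∀ x, g x y = 0 := by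
        intro y hny x
        refine Submodule.span_induction (p := fun g _ => g x y = 0) ?_ rfl ?_ ?_ hg
        · rintro g ⟨j, hj, hjk, p, _, v, _, hv, rfl⟩
          by_cases h0 : v y = 0
          · simp [h0]
          · exfalso
            have := hv y h0
            omega
        · intro g1 g2 _ _ h1 h2
          rw [Pi.add_apply, Pi.add_apply, h1, h2, add_zero]
        · intro q g _ h1
          rw [Pi.smul_apply, Pi.smul_apply, h1, smul_zero]
      have hst := step hQ (hanti (Nat.zero_le J)) (hanti (Nat.le_succ J)) hh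
        {y | n y < k - J} (by
          intro y hny
          have h1 : (fun x => h x y) = fun x => f x y := by
            funext x
            rw [← hgh, Pi.add_apply, Pi.add_apply, hgz y hny x, zero_add]
          rw [h1]
          refine Submodule.span_mono ?_ (hy y)
          refine hanti ?_
          have : n y < k - J := hny
          omega)
      rw [← hgh]
      have hGm : Submodule.span ℚ (G J) ≤ Submodule.span ℚ (G (J + 1)) := by
        refine Submodule.span_mono ?_
        rintro g ⟨j, hj, h⟩
        exact ⟨j, by omega, h⟩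
      refine Submodule.add_mem _ (Submodule.mem_sup_left (hGm hg)) ?_
      have hle : Submodule.span ℚ {g : X → Y → ℂ | ∃ p ∈ WA J, ∃ v ∈ WB,
          (∀ y ∈ {y | n y < k - J}, v y = 0) ∧ g = fun x y => p x * v y} ≤
          Submodule.span ℚ (G (J + 1)) := by
        refine Submodule.span_mono ?_
        rintro g ⟨p, hp, v, hv, hz, rfl⟩
        refine ⟨J, by omega, by omega, p, hp, v, hv, fun y hy0 => ?_, rfl⟩
        by_contra hcon
        exact hy0 (hz y (by
          show n y < k - J
          omega))
      exact (sup_le_sup_right hle (TT (WA (J + 1)) WB)) hst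
  have h := main k le_rfl
  have h2 : Submodule.span ℚ (G k) ⊔ TT (WA k) WB ≤
      Submodule.span ℚ {g : X → Y → ℂ | ∃ j ≤ k, ∃ p ∈ WA j, ∃ v ∈ WB,
        (∀ y, v y ≠ 0 → k - j ≤ n y) ∧ g = fun x y => p x * v y} := by
    refine sup_le (Submodule.span_mono ?_) (Submodule.span_mono ?_)
    · rintro g ⟨j, _, hj, h⟩
      exact ⟨j, hj, h⟩
    · rintro g ⟨p, hp, v, hv, rfl⟩
      exact ⟨k, le_rfl, p, hp, v, hv, fun y _ => by omega, rfl⟩
  exact h2 h

end

end Pool.Agent.GG
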