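import Pool.Agent.Lib.GG.Rows
import Pool.Agent.Lib.HCM.GDual

/-!
# Project G, row STAB: stability under the raising operators
-/

set_option autoImplicit false
set_option linter.unusedSectionVars false

open scoped ComplexConjugate Matrix
open Complex Pool.Agent.HCM Pool.Agent.RAT

namespace Pool.Agent.GG

namespace Stab

section gen

variable {P Y : Type} [Fintype Y] [DecidableEq P]

/-- `der` as a linear map. -/
noncomputable def derL (Q : Finset P) (Z : Matrix Y Y ℂ) : ((P → Y) → ℂ) →ₗ[ℂ] ((P → Y) → ℂ) where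
  toFun := der Q Z
  map_add' f g := by
    funext t
    simp only [der, Pi.add_apply, mul_add, Finset.sum_add_distrib]
  map_smul' c f := by
    funext t
    simp only [der, Pi.smul_apply, smul_eq_mul, RingHom.id_apply, Finset.mul_sum]
    refine Finset.sum_congr rfl fun i _ => Finset.sum_congr rfl fun y _ => ?_
    ring

@[simp] theorem derL_apply (Q : Finset P) (Z : Matrix Y Y ℂ) (f : (P → Y) → ℂ) :
    derL Q Z f = der Q Z f := rfl

theorem der_add (Q : Finset P) (Z Z' : Matrix Y Y ℂ) (f : (P → Y) → ℂ) :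
    der Q (Z + Z') f = der Q Z f + der Q Z' f := by
  funext t
  simp only [der, Pi.add_apply, Matrix.add_apply, add_mul, Finset.sum_add_distrib]

theorem der_smul (Q : Finset P) (c : ℂ) (Z : Matrix Y Y ℂ) (f : (P → Y) → ℂ) :
    der Q (c • Z) f = c • der Q Z f := by
  funext t
  simp only [der, Pi.smul_apply, Matrix.smul_apply, smul_eq_mul, Finset.mul_sum]
  refine Finset.sum_congr rfl fun i _ => Finset.sum_congr rfl fun y _ => ?_
  ring

theorem der_zero (Q : Finset P) (f : (P → Y) → ℂ) : der Q (0 : Matrix Y Y ℂ) f = 0 := by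
  funext t
  simp [der]

/-- `der` is linear in the matrix. -/
noncomputable def derM (Q : Finset P) (f : (P → Y) → ℂ) : Matrix Y Y ℂ →ₗ[ℂ] ((P → Y) → ℂ) where
  toFun Z := der Q Z f
  map_add' Z Z' := der_add Q Z Z' f
  map_smul' c Z := der_smul Q c Z f

theorem der_comm (Q : Finset P) (Z Z' : Matrix Y Y ℂ) (f : (P → Y) → ℂ) :
    der Q Z (der Q Z' f) - der Q Z' (der Q Z f) = der Q (Z * Z' - Z' * Z) f := by
  funext t
  simp only [Pi.sub_apply]
  have hA : ∀ (Z Z' : Matrix Y Y ℂ), der Q Z (der Q Z' f) t = ∑ i ∈ Q, ∑ j ∈ Q, ∑ y, ∑ y',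
      Z (t i) y * (Z' (Function.update t i y j) y' *
        f (Function.update (Function.update t i y) j y')) := by
    intro Z Z'
    simp only [der, Finset.mul_sum]
    refine Finset.sum_congr rfl fun i _ => ?_
    exact Finset.sum_comm
  rw [hA Z Z', hA Z' Z, Finset.sum_comm (s := Q) (t := Q) (f := fun i j => ∑ y, ∑ y',
      Z' (t i) y * (Z (Function.update t i y j) y' *
        f (Function.update (Function.update t i y) j y')))]
  rw [← Finset.sum_sub_distrib]
  refine Finset.sum_congr rfl fun i hi => ?_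
  rw [← Finset.sum_sub_distrib, Finset.sum_eq_single i]
  · simp only [Function.update_self, Function.update_idem]
    have h1 : ∀ (A B : Matrix Y Y ℂ), ∑ y, ∑ y', A (t i) y * (B y y' * f (Function.update t i y'))
        = ∑ y', (A * B) (t i) y' * f (Function.update t i y') := by
      intro A B
      rw [Finset.sum_comm]
      refine Finset.sum_congr rfl fun y' _ => ?_
      rw [Matrix.mul_apply, Finset.sum_mul]
      refine Finset.sum_congr rfl fun y _ => ?_
      ring
    rw [h1, h1, ← Finset.sum_sub_distrib]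
    refine Finset.sum_congr rfl fun y' _ => ?_
    rw [Matrix.sub_apply]
    ring
  · intro j hj hij
    rw [sub_eq_zero, Finset.sum_comm]
    refine Finset.sum_congr rfl fun y' _ => Finset.sum_congr rfl fun y _ => ?_
    rw [Function.update_of_ne hij, Function.update_of_ne hij.symm, Function.update_comm hij.symm]
    ring
  · intro h
    exact absurd hi h

end gen

section main

variable {S Λ : Type} [Fintype S] [Fintype Λ] {M G : S → Type} [∀ s, Fintype (M s)]
  [∀ s, Fintype (G s)] {ι : Type} [Fintype ι] {K : ι → Type} [∀ i, Field (K i)]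
  [∀ i, NumberField (K i)]

open Classical in
/-- The Hodge structure on `H_1(A × B)`. -/
noncomputable def HH (Φ : ∀ i, Set (K i →+* ℂ)) : Matrix (Lt M G K) (Lt M G K) ℂ :=
  Matrix.fromBlocks hM 0 0 (Matrix.diagonal fun q => if q.2 ∈ Φ q.1 then 1 else -1)

open Classical in
theorem HH_eq (Φ : ∀ i, Set (K i →+* ℂ)) : (HH Φ : Matrix (Lt M G K) (Lt M G K) ℂ) =
    Matrix.diagonal fun y => if IsT Φ y then 1 else -1 := by
  unfold HH hM
  rw [Matrix.fromBlocks_diagonal]
  congr 1
  funext y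
  rcases y with y | y
  · by_cases h : y.2 = true <;> simp [IsT, h]
  · by_cases h : y.2 ∈ Φ y.1 <;> simp [IsT, h]

open Classical in
theorem der_HH {T : Type} [Fintype T] [DecidableEq T] (Φ : ∀ i, Set (K i →+* ℂ))
    (u : (T → Lt M G K) → ℂ) :
    der Finset.univ (HH Φ) u = ∑ p ∈ Finset.range (Fintype.card T + 1),
      (2 * (p : ℂ) - Fintype.card T) • part Φ p u := by
  funext t
  have h1 : der Finset.univ (HH Φ) u t = (∑ i, if IsT Φ (t i) then (1 : ℂ) else -1) * u t := by
    unfold der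
    rw [Finset.sum_mul]
    refine Finset.sum_congr rfl fun i _ => ?_
    rw [HH_eq, Finset.sum_eq_single (t i)]
    · rw [Matrix.diagonal_apply_eq, Function.update_eq_self]
    · intro y _ hy
      rw [Matrix.diagonal_apply_ne _ hy.symm, zero_mul]
    · intro h
      exact absurd (Finset.mem_univ _) h
  have h2 : cntT Φ t = (Finset.univ.filter fun i => IsT Φ (t i)).card := by
    unfold cntT
    rw [Set.ncard_eq_toFinset_card']
    congr 1
    ext i
    simp
  have h3 : (∑ i, if IsT Φ (t i) then (1 : ℂ) else -1) = 2 * (cntT Φ t : ℂ) - Fintype.card T := by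
    rw [h2, Finset.sum_ite, Finset.sum_const, Finset.sum_const, nsmul_eq_mul, nsmul_eq_mul]
    have h4 : ((Finset.univ.filter fun i => IsT Φ (t i)).card : ℂ) +
        ((Finset.univ.filter fun i => ¬ IsT Φ (t i)).card : ℂ) = Fintype.card T := by
      rw [← Nat.cast_add, Finset.card_filter_add_card_filter_not, Finset.card_univ]
    linear_combination -h4
  rw [h1, h3]
  simp only [Finset.sum_apply, Pi.smul_apply, smul_eq_mul, part]
  rw [Finset.sum_eq_single (cntT Φ t)]
  · simp
  · intro p _ hp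
    rw [if_neg (Ne.symm hp), mul_zero]
  · intro h
    exfalso
    apply h
    rw [Finset.mem_range, Nat.lt_succ_iff, h2]
    exact Finset.card_le_univ _

theorem graded {T : Type} [Fintype T] [DecidableEq T] {b : Λ → Crd M G → ℂ}
    {Φ : ∀ i, Set (K i →+* ℂ)} {R : Submodule ℚ ((T → Lt M G K) → ℂ)} (h : IsSub b Φ R)
    {u : (T → Lt M G K) → ℂ} (hu : u ∈ Submodule.span ℂ (R : Set ((T → Lt M G K) → ℂ))) :
    der Finset.univ (HH Φ) u ∈ Submodule.span ℂ (R : Set ((T → Lt M G K) → ℂ)) := by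
  have h1 : Submodule.span ℂ (R : Set ((T → Lt M G K) → ℂ)) ≤
      (Submodule.span ℂ (R : Set ((T → Lt M G K) → ℂ))).comap (derL Finset.univ (HH Φ)) := by
    rw [Submodule.span_le]
    intro r hr
    change der Finset.univ (HH Φ) r ∈ Submodule.span ℂ (R : Set ((T → Lt M G K) → ℂ))
    rw [der_HH]
    exact Submodule.sum_mem _ fun p _ => Submodule.smul_mem _ _ (h.graded r hr p)
  exact h1 hu

/-! ### Rational endomorphisms -/

theorem isRep_add {b : Λ → Crd M G → ℂ} {X X' : Matrix Λ Λ ℚ} {Z Z' : Matrix (AL M G) (AL M G) ℂ}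
    (h : IsRep b X Z) (h' : IsRep b X' Z') : IsRep b (X + X') (Z + Z') := by
  intro y x
  have e : ∀ x x' : Λ → ℚ, perA b y (x + x') = perA b y x + perA b y x' := by
    intro x x'
    unfold perA
    split_ifs <;> simp [add_mul, Finset.sum_add_distrib]
  rw [Matrix.add_mulVec, e, h y x, h' y x, ← Finset.sum_add_distrib]
  refine Finset.sum_congr rfl fun y' _ => ?_
  rw [Matrix.add_apply]
  ring

theorem isRep_smul {b : Λ → Crd M G → ℂ} {X : Matrix Λ Λ ℚ} {Z : Matrix (AL M G) (AL M G) ℂ}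
    (q : ℚ) (h : IsRep b X Z) : IsRep b (q • X) ((q : ℂ) • Z) := by
  intro y x
  have e : ∀ x : Λ → ℚ, perA b y (q • x) = q * perA b y x := by
    intro x
    unfold perA
    split_ifs
    · rw [Finset.mul_sum]
      refine Finset.sum_congr rfl fun i _ => ?_
      simp [mul_assoc]
    · simp only [map_sum, map_mul, Pi.smul_apply, smul_eq_mul, Rat.cast_mul, Finset.mul_sum]
      refine Finset.sum_congr rfl fun i _ => ?_
      simp [mul_assoc]
  rw [Matrix.smul_mulVec, e, h y x, Finset.mul_sum]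
  refine Finset.sum_congr rfl fun y' _ => ?_
  rw [Matrix.smul_apply, smul_eq_mul]
  ring

theorem isRep_mul {b : Λ → Crd M G → ℂ} {X X' : Matrix Λ Λ ℚ} {Z Z' : Matrix (AL M G) (AL M G) ℂ}
    (h : IsRep b X Z) (h' : IsRep b X' Z') : IsRep b (X * X') (Z * Z') := by
  intro y x
  rw [← Matrix.mulVec_mulVec, h y]
  have h2 : ∀ y, perA b y (X'.mulVec x) = ∑ y', Z' y y' * perA b y' x := fun y => h' y x
  simp only [h2, Finset.mul_sum]
  rw [Finset.sum_comm]
  refine Finset.sum_congr rfl fun y' _ => ?_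
  rw [Matrix.mul_apply, Finset.sum_mul]
  refine Finset.sum_congr rfl fun y'' _ => ?_
  ring

theorem isRep_zero {b : Λ → Crd M G → ℂ} : IsRep b 0 (0 : Matrix (AL M G) (AL M G) ℂ) := by
  intro y x
  simp [perA]

omit [Fintype ι] in
theorem cmM_add (y y' : ∀ i, K i) : cmM (y + y') = cmM y + cmM y' := by
  classical
  unfold cmM
  rw [Matrix.diagonal_add]
  congr 1
  funext q
  simp

omit [Fintype ι] in
theorem cmM_smul (q : ℚ) (y : ∀ i, K i) : cmM (q • y) = (q : ℂ) • cmM y := by
  classical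
  unfold cmM
  rw [← Matrix.diagonal_smul]
  congr 1
  funext p
  simp only [Pi.smul_apply, smul_eq_mul]
  rw [Rat.smul_def, map_mul, map_ratCast]

omit [Fintype ι] in
theorem cmM_zero : cmM (0 : ∀ i, K i) = 0 := by
  unfold cmM
  ext p p'
  simp [Matrix.diagonal]

/-- `v` is the endomorphism of `H_1(A × B, ℂ)` given by `X` on `A` and a multiplication on `B`. -/
def IsE (b : Λ → Crd M G → ℂ) (v : Matrix (Lt M G K) (Lt M G K) ℂ) (X : Matrix Λ Λ ℚ) : Prop :=
  ∃ Z y, IsRep b X Z ∧ v = Matrix.fromBlocks Z 0 0 (cmM y)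

theorem isE_add {b : Λ → Crd M G → ℂ} {v v' : Matrix (Lt M G K) (Lt M G K) ℂ}
    {X X' : Matrix Λ Λ ℚ} (h : IsE b v X) (h' : IsE b v' X') : IsE b (v + v') (X + X') := by
  obtain ⟨Z, y, h1, rfl⟩ := h
  obtain ⟨Z', y', h1', rfl⟩ := h'
  refine ⟨Z + Z', y + y', isRep_add h1 h1', ?_⟩
  rw [Matrix.fromBlocks_add, cmM_add, add_zero, add_zero]

theorem isE_smul {b : Λ → Crd M G → ℂ} {v : Matrix (Lt M G K) (Lt M G K) ℂ}
    {X : Matrix Λ Λ ℚ} (q : ℚ) (h : IsE b v X) : IsE b (q • v) (q • X) := by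
  obtain ⟨Z, y, h1, rfl⟩ := h
  refine ⟨(q : ℂ) • Z, q • y, isRep_smul q h1, ?_⟩
  rw [← Rat.cast_smul_eq_qsmul ℂ, Matrix.fromBlocks_smul, cmM_smul, smul_zero, smul_zero]

theorem isE_zero {b : Λ → Crd M G → ℂ} : IsE b (0 : Matrix (Lt M G K) (Lt M G K) ℂ) 0 :=
  ⟨0, 0, isRep_zero, by rw [cmM_zero, Matrix.fromBlocks_zero]⟩

theorem isE_comm {b : Λ → Crd M G → ℂ} {v v' : Matrix (Lt M G K) (Lt M G K) ℂ}
    {X X' : Matrix Λ Λ ℚ} (h : IsE b v X) (h' : IsE b v' X') :
    IsE b (v * v' - v' * v) (X * X' - X' * X) := by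
  obtain ⟨Z, y, h1, rfl⟩ := h
  obtain ⟨Z', y', h1', rfl⟩ := h'
  refine ⟨Z * Z' - Z' * Z, 0, ?_, ?_⟩
  · have h3 := isRep_add (isRep_mul h1 h1') (isRep_smul (-1) (isRep_mul h1' h1))
    have e1 : X * X' + (-1 : ℚ) • (X' * X) = X * X' - X' * X := by
      rw [neg_one_smul, sub_eq_add_neg]
    have e2 : Z * Z' + ((-1 : ℚ) : ℂ) • (Z' * Z) = Z * Z' - Z' * Z := by
      rw [Rat.cast_neg, Rat.cast_one, neg_one_smul, sub_eq_add_neg]
    rwa [e1, e2] at h3
  · rw [Matrix.fromBlocks_multiply, Matrix.fromBlocks_multiply, cmM_zero]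
    simp only [Matrix.mul_zero, Matrix.zero_mul, add_zero, zero_add]
    have e : (cmM y : Matrix (Idx K) (Idx K) ℂ) * cmM y' = cmM y' * cmM y := by
      classical
      unfold cmM
      rw [Matrix.diagonal_mul_diagonal, Matrix.diagonal_mul_diagonal]
      congr 1
      funext q
      exact mul_comm _ _
    rw [e]
    ext p p'
    rcases p with p | p <;> rcases p' with p' | p' <;> simp

/-- All these endomorphisms. -/
def EE (b : Λ → Crd M G → ℂ) : Submodule ℚ (Matrix (Lt M G K) (Lt M G K) ℂ) where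
  carrier := {v | ∃ X, IsE b v X}
  add_mem' := fun ⟨X, h⟩ ⟨X', h'⟩ => ⟨X + X', isE_add h h'⟩
  zero_mem' := ⟨0, isE_zero⟩
  smul_mem' := fun q _ ⟨X, h⟩ => ⟨q • X, isE_smul q h⟩

variable {T : Type} [Fintype T] [DecidableEq T]

theorem der_qsmul (q : ℚ) (v : Matrix (Lt M G K) (Lt M G K) ℂ) (f : (T → Lt M G K) → ℂ) :
    der Finset.univ (q • v) f = q • der Finset.univ v f := by
  rw [← Rat.cast_smul_eq_qsmul ℂ, der_smul, Rat.cast_smul_eq_qsmul]

/-- The endomorphisms which preserve `R`. -/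
def PR (b : Λ → Crd M G → ℂ) (R : Submodule ℚ ((T → Lt M G K) → ℂ)) :
    Submodule ℚ (Matrix (Lt M G K) (Lt M G K) ℂ) where
  carrier := {v | (∃ X, IsE b v X) ∧ ∀ r ∈ R, der Finset.univ v r ∈ R}
  add_mem' := by
    rintro v v' ⟨⟨X, h⟩, h2⟩ ⟨⟨X', h'⟩, h2'⟩
    refine ⟨⟨X + X', isE_add h h'⟩, fun r hr => ?_⟩
    rw [der_add]
    exact R.add_mem (h2 r hr) (h2' r hr)
  zero_mem' := by
    refine ⟨⟨0, isE_zero⟩, fun r _ => ?_⟩
    rw [der_zero]
    exact R.zero_mem
  smul_mem' := by
    rintro q v ⟨⟨X, h⟩, h2⟩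
    refine ⟨⟨q • X, isE_smul q h⟩, fun r hr => ?_⟩
    rw [der_qsmul]
    exact R.smul_mem q (h2 r hr)

/-- The rational endomorphisms of `H_1(A)` which occur. -/
def MM (b : Λ → Crd M G → ℂ) (R : Submodule ℚ ((T → Lt M G K) → ℂ)) :
    Submodule ℚ (Matrix Λ Λ ℚ) where
  carrier := {X | ∃ v, IsE b v X ∧ ∀ r ∈ R, der Finset.univ v r ∈ R}
  add_mem' := by
    rintro X X' ⟨v, h, h2⟩ ⟨v', h', h2'⟩
    refine ⟨v + v', isE_add h h', fun r hr => ?_⟩
    rw [der_add]
    exact R.add_mem (h2 r hr) (h2' r hr)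
  zero_mem' := by
    refine ⟨0, isE_zero, fun r _ => ?_⟩
    rw [der_zero]
    exact R.zero_mem
  smul_mem' := by
    rintro q X ⟨v, h, h2⟩
    refine ⟨q • v, isE_smul q h, fun r hr => ?_⟩
    rw [der_qsmul]
    exact R.smul_mem q (h2 r hr)

theorem MM_comm {b : Λ → Crd M G → ℂ} {R : Submodule ℚ ((T → Lt M G K) → ℂ)} :
    ∀ X ∈ MM b R, ∀ X' ∈ MM b R, X * X' - X' * X ∈ MM b R := by
  rintro X ⟨v, h, h2⟩ X' ⟨v', h', h2'⟩
  refine ⟨v * v' - v' * v, isE_comm h h', fun r hr => ?_⟩
  rw [← der_comm]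
  exact R.sub_mem (h2 _ (h2' r hr)) (h2' _ (h2 r hr))

/-- `Z ↦ (Z, 0)`. -/
noncomputable def inA : Matrix (AL M G) (AL M G) ℂ →ₗ[ℂ] Matrix (Lt M G K) (Lt M G K) ℂ where
  toFun Z := Matrix.fromBlocks Z 0 0 0
  map_add' Z Z' := by
    rw [Matrix.fromBlocks_add, add_zero, add_zero, add_zero]
  map_smul' c Z := by
    rw [RingHom.id_apply, Matrix.fromBlocks_smul, smul_zero, smul_zero, smul_zero]

open Classical in
theorem single_mem (b : Λ → Crd M G → ℂ) (q' : Idx K) :
    (Matrix.fromBlocks 0 0 0 (Matrix.diagonal fun q => if q = q' then 1 else 0) :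
      Matrix (Lt M G K) (Lt M G K) ℂ) ∈
      Submodule.span ℂ (EE (K := K) b : Set (Matrix (Lt M G K) (Lt M G K) ℂ)) := by
  obtain ⟨i', τ'⟩ := q'
  obtain ⟨d, e, e', he⟩ := exists_dual (K i')
  have h0 : (Matrix.diagonal fun q => if q = (⟨i', τ'⟩ : Idx K) then (1 : ℂ) else 0) =
      ∑ r, τ' (e' r) • (cmM (Pi.single i' (e r)) : Matrix (Idx K) (Idx K) ℂ) := by
    unfold cmM
    ext p p'
    rw [Matrix.sum_apply]
    simp only [Matrix.smul_apply, smul_eq_mul]
    by_cases h : p = p'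
    · subst h
      simp only [Matrix.diagonal_apply_eq]
      obtain ⟨i, τ⟩ := p
      by_cases hi : i = i'
      · subst hi
        have h2 := he τ τ'
        simp only [Pi.single_eq_same]
        rw [Finset.sum_congr rfl fun r _ => mul_comm (τ' (e' r)) (τ (e r)), h2]
        by_cases h3 : τ = τ'
        · subst h3
          simp
        · have h4 : (⟨i, τ⟩ : Idx K) ≠ ⟨i, τ'⟩ := by
            intro h5
            apply h3
            exact eq_of_heq (Sigma.mk.inj h5).2
          rw [if_neg h3, if_neg h4]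
      · have h4 : (⟨i, τ⟩ : Idx K) ≠ ⟨i', τ'⟩ := by
          intro h5
          exact hi (Sigma.mk.inj h5).1
        rw [if_neg h4]
        symm
        refine Finset.sum_eq_zero fun r _ => ?_
        rw [Pi.single_eq_of_ne hi, map_zero, mul_zero]
    · simp only [Matrix.diagonal_apply_ne _ h, mul_zero, Finset.sum_const_zero]
  have h1 : (Matrix.fromBlocks 0 0 0
      (∑ r, τ' (e' r) • (cmM (Pi.single i' (e r)) : Matrix (Idx K) (Idx K) ℂ)) :
      Matrix (Lt M G K) (Lt M G K) ℂ) =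
      ∑ r, τ' (e' r) • (Matrix.fromBlocks 0 0 0 (cmM (Pi.single i' (e r))) :
        Matrix (Lt M G K) (Lt M G K) ℂ) := by
    ext p p'
    rw [Matrix.sum_apply]
    rcases p with p | p <;> rcases p' with p' | p' <;> simp [Matrix.sum_apply]
  rw [h0, h1]
  refine Submodule.sum_mem _ fun r _ => Submodule.smul_mem _ _ (Submodule.subset_span ?_)
  exact ⟨0, 0, _, isRep_zero, rfl⟩

open Classical in
theorem diag_mem (b : Λ → Crd M G → ℂ) (D : Idx K → ℂ) :
    (Matrix.fromBlocks 0 0 0 (Matrix.diagonal D) : Matrix (Lt M G K) (Lt M G K) ℂ) ∈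
      Submodule.span ℂ (EE (K := K) b : Set (Matrix (Lt M G K) (Lt M G K) ℂ)) := by
  have h1 : (Matrix.fromBlocks 0 0 0 (Matrix.diagonal D) : Matrix (Lt M G K) (Lt M G K) ℂ) =
      ∑ q', D q' • (Matrix.fromBlocks 0 0 0 (Matrix.diagonal fun q => if q = q' then 1 else 0) :
        Matrix (Lt M G K) (Lt M G K) ℂ) := by
    ext p p'
    rw [Matrix.sum_apply]
    rcases p with p | p <;> rcases p' with p' | p' <;> simp [Matrix.diagonal_apply]
  rw [h1]
  exact Submodule.sum_mem _ fun q' _ => Submodule.smul_mem _ _ (single_mem b q')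

theorem HH_mem (hR : REPS) (b : Module.Basis Λ ℝ (Crd M G → ℂ)) (Φ : ∀ i, Set (K i →+* ℂ)) :
    (HH Φ : Matrix (Lt M G K) (Lt M G K) ℂ) ∈
      Submodule.span ℂ (EE (K := K) b : Set (Matrix (Lt M G K) (Lt M G K) ℂ)) := by
  classical
  have h1 := (hR S Λ M G b).1 hM
  have h2 : Submodule.span ℂ {Z' | ∃ X : Matrix Λ Λ ℚ, IsRep (M := M) (G := G) b X Z'} ≤
      (Submodule.span ℂ (EE (K := K) b : Set (Matrix (Lt M G K) (Lt M G K) ℂ))).comap inA := by
    rw [Submodule.span_le]
    rintro Z ⟨X, hX⟩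
    refine Submodule.subset_span ?_
    refine ⟨X, Z, 0, hX, ?_⟩
    rw [cmM_zero]
    rfl
  have h3 : (Matrix.fromBlocks hM 0 0 0 : Matrix (Lt M G K) (Lt M G K) ℂ) ∈
      Submodule.span ℂ (EE (K := K) b : Set (Matrix (Lt M G K) (Lt M G K) ℂ)) := h2 h1
  have h4 := Submodule.add_mem _ h3 (diag_mem b fun q : Idx K => if q.2 ∈ Φ q.1 then 1 else -1)
  rw [Matrix.fromBlocks_add, add_zero, add_zero, add_zero, zero_add] at h4
  unfold HH
  convert h4

/-- the ℂ-linear combinations of endomorphisms preserving `R`, up to a diagonal matrix on `B` -/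
def NN (R : Submodule ℚ ((T → Lt M G K) → ℂ)) : Submodule ℂ (Matrix (AL M G) (AL M G) ℂ) where
  carrier := {Z | ∃ D : Idx K → ℂ, ∀ u ∈ Submodule.span ℂ (R : Set ((T → Lt M G K) → ℂ)),
    der Finset.univ (Matrix.fromBlocks Z 0 0 (open Classical in Matrix.diagonal D)) u ∈
      Submodule.span ℂ (R : Set ((T → Lt M G K) → ℂ))}
  add_mem' := by
    classical
    rintro Z Z' ⟨D, h⟩ ⟨D', h'⟩
    refine ⟨D + D', fun u hu => ?_⟩
    have e : (Matrix.fromBlocks (Z + Z') 0 0 (open Classical in Matrix.diagonal (D + D')) :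
        Matrix (Lt M G K) (Lt M G K) ℂ) =
        Matrix.fromBlocks Z 0 0 (open Classical in Matrix.diagonal D) +
        Matrix.fromBlocks Z' 0 0 (open Classical in Matrix.diagonal D') := by
      rw [Matrix.fromBlocks_add, add_zero, add_zero, Matrix.diagonal_add]
      rfl
    rw [e, der_add]
    exact Submodule.add_mem _ (h u hu) (h' u hu)
  zero_mem' := by
    classical
    refine ⟨0, fun u _ => ?_⟩
    have e : (Matrix.fromBlocks 0 0 0 (open Classical in Matrix.diagonal 0) :
        Matrix (Lt M G K) (Lt M G K) ℂ) = 0 := by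
      rw [Matrix.diagonal_zero', Matrix.fromBlocks_zero]
    rw [e, der_zero]
    exact Submodule.zero_mem _
  smul_mem' := by
    classical
    rintro c Z ⟨D, h⟩
    refine ⟨c • D, fun u hu => ?_⟩
    have e : (Matrix.fromBlocks (c • Z) 0 0 (open Classical in Matrix.diagonal (c • D)) :
        Matrix (Lt M G K) (Lt M G K) ℂ) =
        c • Matrix.fromBlocks Z 0 0 (open Classical in Matrix.diagonal D) := by
      rw [Matrix.fromBlocks_smul, smul_zero, smul_zero, Matrix.diagonal_smul]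
    rw [e, der_smul]
    exact Submodule.smul_mem _ _ (h u hu)

theorem hM_raise (s : S) (a c : G s) : (hM : Matrix (AL M G) (AL M G) ℂ) * raise s a c -
    raise s a c * hM = (2 : ℂ) • raise s a c := by
  classical
  ext y y'
  unfold hM
  rw [Matrix.sub_apply, Matrix.diagonal_mul, Matrix.mul_diagonal, Matrix.smul_apply, smul_eq_mul]
  by_cases h1 : y.2 = true
  · by_cases h2 : y'.2 = true
    · have h3 : raise s a c y y' = 0 := by
        unfold raise
        rw [Matrix.of_apply, if_neg, if_neg, add_zero]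
        · rintro ⟨m, _, h⟩
          rw [h] at h2
          exact Bool.noConfusion h2
        · rintro ⟨m, _, h⟩
          rw [h] at h2
          exact Bool.noConfusion h2
      rw [h3]
      ring
    · rw [if_pos h1, if_neg h2]
      ring
  · have h3 : raise s a c y y' = 0 := by
      unfold raise
      rw [Matrix.of_apply, if_neg, if_neg, add_zero]
      · rintro ⟨m, h, _⟩
        rw [h] at h1
        exact h1 rfl
      · rintro ⟨m, h, _⟩
        rw [h] at h1
        exact h1 rfl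
    rw [h3]
    ring

end main

end Stab

open Stab in
theorem stab (hD : DESC) (hE : EXPA) (hPQ : PERQ) (hPX : PERX) (hA : ACT) (hR : REPS)
    (hHX : HXR) : STAB := by
  intro S Λ _ _ M G _ _ b ι _ K _ _ Φ T _ _ R hS hsub s a c
  classical
  have hW : QInd (RTn (per (M := M) (G := G) (K := K) b) (Finset.univ : Finset T)) :=
    hPQ T (Lt M G K) (Lp Λ K) _ _ (hPX S Λ M G b ι K)
  have hRW : R ≤ RTn (per (M := M) (G := G) (K := K) b) (Finset.univ : Finset T) :=
    hsub.rat.trans (hHX S Λ M G b ι K T)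
  obtain ⟨n, z, v, hz, hv, hHH⟩ := hE _ _ _ (HH_mem (K := K) hR b Φ)
  have hv2 : ∀ i, ∃ X, IsE b (v i) X := hv
  choose X hX using hv2
  have hpr : ∀ i, ∀ r ∈ R, der Finset.univ (v i) r ∈ R := by
    intro i r hr
    refine hD _ _ _ hW hRW n z (fun i => der Finset.univ (v i) r) hz ?_ ?_ i
    · intro i
      obtain ⟨Z, y, h1, h2⟩ := hX i
      change der Finset.univ (v i) r ∈ _
      rw [h2]
      exact hA S Λ M G b ι K T (X i) Z y h1 r (hRW hr)
    · have h3 : ∑ i, z i • der Finset.univ (v i) r = der Finset.univ (HH Φ) r := by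
        rw [hHH]
        have h4 := map_sum (derM Finset.univ r) (fun i => z i • v i) Finset.univ
        change der Finset.univ (∑ i, z i • v i) r = ∑ i, der Finset.univ (z i • v i) r at h4
        rw [h4]
        refine Finset.sum_congr rfl fun i _ => ?_
        rw [der_smul]
      change ∑ i, z i • der Finset.univ (v i) r ∈ _
      rw [h3]
      exact graded hsub (Submodule.subset_span hr)
  have hm : (hM : Matrix (AL M G) (AL M G) ℂ) ∈
      Submodule.span ℂ {Z | ∃ X ∈ MM (K := K) b R, IsRep (M := M) (G := G) b X Z} := by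
    have h1 : (hM : Matrix (AL M G) (AL M G) ℂ) = ∑ i, z i • (v i).toBlocks₁₁ := by
      have h2 := congrArg Matrix.toBlocks₁₁ hHH
      unfold HH at h2
      rw [Matrix.toBlocks_fromBlocks₁₁] at h2
      rw [h2]
      ext p p'
      simp [Matrix.toBlocks₁₁, Matrix.sum_apply]
    rw [h1]
    refine Submodule.sum_mem _ fun i _ => Submodule.smul_mem _ _ (Submodule.subset_span ?_)
    refine ⟨X i, ⟨v i, hX i, hpr i⟩, ?_⟩
    obtain ⟨Z, y, h3, h4⟩ := hX i
    rw [h4, Matrix.toBlocks_fromBlocks₁₁]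
    exact h3
  have hra := hS.lie (MM (K := K) b R) MM_comm hm s a c
  have hNN : Submodule.span ℂ {Z | ∃ X ∈ MM (K := K) b R, IsRep (M := M) (G := G) b X Z} ≤
      NN R := by
    rw [Submodule.span_le]
    rintro Z ⟨X', ⟨w, ⟨Z', y, h1, h2⟩, h3⟩, h4⟩
    have h5 : Z' = Z := ((hR S Λ M G b).2 X').unique h1 h4
    subst h5
    refine ⟨fun q => q.2 (y q.1), ?_⟩
    have h6 : Submodule.span ℂ (R : Set ((T → Lt M G K) → ℂ)) ≤
        (Submodule.span ℂ (R : Set ((T → Lt M G K) → ℂ))).comap (derL Finset.univ w) := by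
      rw [Submodule.span_le]
      intro r hr
      exact Submodule.subset_span (h3 r hr)
    intro u hu
    have h7 : der Finset.univ w u ∈ Submodule.span ℂ (R : Set ((T → Lt M G K) → ℂ)) := h6 hu
    rw [h2] at h7
    exact h7
  obtain ⟨D, hD2⟩ := hNN hra
  intro u hu
  have h8 := Submodule.sub_mem _ (graded hsub (hD2 u hu)) (hD2 _ (graded hsub hu))
  rw [der_comm] at h8
  have h9 : (HH Φ : Matrix (Lt M G K) (Lt M G K) ℂ) *
      Matrix.fromBlocks (raise s a c) 0 0 (open Classical in Matrix.diagonal D) -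
      Matrix.fromBlocks (raise s a c) 0 0 (open Classical in Matrix.diagonal D) * HH Φ =
      (2 : ℂ) • Matrix.fromBlocks (raise s a c) 0 0 0 := by
    unfold HH
    rw [Matrix.fromBlocks_multiply, Matrix.fromBlocks_multiply]
    simp only [Matrix.mul_zero, Matrix.zero_mul, add_zero, zero_add]
    rw [Matrix.diagonal_mul_diagonal, Matrix.diagonal_mul_diagonal, Matrix.fromBlocks_smul,
      ← hM_raise]
    ext p p'
    rcases p with p | p <;> rcases p' with p' | p' <;> simp [Matrix.diagonal_apply, mul_comm]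
  rw [h9, der_smul] at h8
  have h10 := Submodule.smul_mem _ (2 : ℂ)⁻¹ h8
  rwa [smul_smul, inv_mul_cancel₀ two_ne_zero, one_smul] at h10

end Pool.Agent.GG
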