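import Pool.Agent.Lib.GG.Term
import Pool.Agent.Lib.GG.ALTB
import Pool.Agent.Lib.GG.Cmv
import Pool.Agent.Lib.GG.Core
import Pool.Agent.Lib.GG.CoreQ
import Pool.Agent.Lib.GG.DESC
import Pool.Agent.Lib.GG.Deco
import Pool.Agent.Lib.GG.Energy
import Pool.Agent.Lib.GG.Glie
import Pool.Agent.Lib.GG.MIXR
import Pool.Agent.Lib.GG.OPS
import Pool.Agent.Lib.GG.Omg
import Pool.Agent.Lib.GG.PERAB
import Pool.Agent.Lib.GG.PERQ
import Pool.Agent.Lib.GG.PSQ
import Pool.Agent.Lib.GG.Partc
import Pool.Agent.Lib.GG.Reps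
import Pool.Agent.Lib.GG.Stab
import Pool.Agent.Lib.GG.ACT
import Pool.Agent.Lib.RAT.Fin

/-!
# Project G: final assembly (helper39)
-/

set_option autoImplicit false

open Pool.Agent.HCM Pool.Agent.RAT

namespace Pool.Agent.GG

theorem coreF : CORE := core opsA opsB opsC energy omg

theorem psqF : PSQ := psq pera

theorem perqF : PERQ := perq qind

theorem cmvF : CMV := cmv_of (ghodgeQ hodgeQ)

theorem termF : TERM := term altB cmvF

theorem stabF : STAB := stab desc expa perqF perx act rowREPS hxr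

theorem coreqF : COREQ := rowCOREQ coreF stabF

theorem decoF : DECO := deco coreqF psqF partc mixr hxr perqF pera

theorem ghx : GHX := ghx_of decoF termF altX (glie expa)

end Pool.Agent.GG
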