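import Pool.Agent.Lib.GG.Lie2

/-!
# Row GLIE, part A: the period matrix and rational matrices
-/

set_option autoImplicit false

open scoped ComplexConjugate Matrix
open Complex Pool.Agent.HCM Pool.Agent.RAT

namespace Pool.Agent.GG.Glie

noncomputable section

variable {S Λ : Type} [Fintype S] [Fintype Λ] {M G : S → Type} [∀ s, Fintype (M s)]
  [∀ s, Fintype (G s)]

/-- The period matrix. -/
def Nm (b : Λ → Crd M G → ℂ) : Matrix (AL M G) Λ ℂ :=
  Matrix.of fun y i => if y.2 then b i y.1 else conj (b i y.1)

/-- A rational matrix as a complex one. -/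
def rc (X : Matrix Λ Λ ℚ) : Matrix Λ Λ ℂ := X.map fun q : ℚ => (q : ℂ)

omit [Fintype S] [∀ s, Fintype (M s)] [∀ s, Fintype (G s)] in
lemma perA_eq (b : Λ → Crd M G → ℂ) (y : AL M G) (x : Λ → ℚ) :
    perA b y x = ∑ i, Nm b y i * (x i : ℂ) := by
  unfold perA Nm
  by_cases hy : y.2
  · simp [hy, mul_comm]
  · simp [hy, map_sum, mul_comm]

lemma isRep_iff (b : Λ → Crd M G → ℂ) (X : Matrix Λ Λ ℚ) (Z : Matrix (AL M G) (AL M G) ℂ) :
    IsRep b X Z ↔ Nm b * rc X = Z * Nm b := by
  classical
  constructor
  · intro h
    ext y j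
    have e := h y (Pi.single j 1)
    simp only [perA_eq] at e
    rw [Matrix.mul_apply, Matrix.mul_apply]
    convert e using 1
    · refine Finset.sum_congr rfl fun i _ => ?_
      simp [rc, Matrix.mulVec, dotProduct, Pi.single_apply]
    · refine Finset.sum_congr rfl fun y' _ => ?_
      have hs : ∀ i, (((Pi.single j 1 : Λ → ℚ) i : ℚ) : ℂ) = if i = j then 1 else 0 := by
        intro i
        by_cases hi : i = j <;> simp [Pi.single_apply, hi]
      simp only [hs]
      simp
  · intro h y x
    simp only [perA_eq]
    have e : ∀ j, ∑ i, Nm b y i * (X i j : ℂ) = ∑ y', Z y y' * Nm b y' j := by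
      intro j
      have := congrFun (congrFun h y) j
      simpa [Matrix.mul_apply, rc] using this
    calc ∑ i, Nm b y i * ((X.mulVec x i : ℚ) : ℂ)
        = ∑ i, ∑ j, Nm b y i * ((X i j : ℂ) * (x j : ℂ)) := by
          refine Finset.sum_congr rfl fun i _ => ?_
          rw [← Finset.mul_sum]
          simp [Matrix.mulVec, dotProduct]
      _ = ∑ j, (∑ i, Nm b y i * (X i j : ℂ)) * (x j : ℂ) := by
          rw [Finset.sum_comm]
          refine Finset.sum_congr rfl fun j _ => ?_
          rw [Finset.sum_mul]
          exact Finset.sum_congr rfl fun i _ => by ring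
      _ = ∑ j, (∑ y', Z y y' * Nm b y' j) * (x j : ℂ) := by
          simp only [e]
      _ = ∑ y', Z y y' * ∑ i, Nm b y' i * (x i : ℂ) := by
          simp only [Finset.sum_mul, Finset.mul_sum]
          rw [Finset.sum_comm]
          exact Finset.sum_congr rfl fun y' _ => Finset.sum_congr rfl fun j _ => by ring

lemma exists_inv [DecidableEq Λ] [DecidableEq (AL M G)] (b : Module.Basis Λ ℝ (Crd M G → ℂ)) :
    ∃ N' : Matrix Λ (AL M G) ℂ, N' * Nm b = 1 ∧ Nm b * N' = 1 := by
  classical
  have hinj : Function.Injective (Matrix.toLin' (Nm (M := M) (G := G) b)) := by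
    rw [injective_iff_map_eq_zero]
    intro c hc
    have h1 : ∀ p, ∑ i, b i p * c i = 0 := by
      intro p
      have e := congrFun hc (p, true)
      simpa [Matrix.toLin'_apply, Matrix.mulVec, dotProduct, Nm] using e
    have h2 : ∀ p, ∑ i, b i p * conj (c i) = 0 := by
      intro p
      have e := congrFun hc (p, false)
      have e' : ∑ i, conj (b i p) * c i = 0 := by
        simpa [Matrix.toLin'_apply, Matrix.mulVec, dotProduct, Nm] using e
      have e2 := congrArg conj e'
      simpa [map_sum] using e2
    have hre : ∑ i, (c i).re • b i = 0 := by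
      ext p
      have e : ∑ i, b i p * (c i + conj (c i)) = 0 := by
        simp only [mul_add, Finset.sum_add_distrib, h1, h2, add_zero]
      simp only [Complex.add_conj] at e
      have e3 : 2 * ∑ i, ((c i).re : ℂ) * b i p = 0 := by
        rw [Finset.mul_sum, ← e]
        exact Finset.sum_congr rfl fun i _ => by push_cast; ring
      simpa [Finset.sum_apply] using (mul_eq_zero.1 e3).resolve_left two_ne_zero
    have him : ∑ i, (c i).im • b i = 0 := by
      ext p
      have e : ∑ i, b i p * (c i - conj (c i)) = 0 := by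
        simp only [mul_sub, Finset.sum_sub_distrib, h1, h2, sub_zero]
      simp only [Complex.sub_conj] at e
      have e3 : (2 * I) * ∑ i, ((c i).im : ℂ) * b i p = 0 := by
        rw [Finset.mul_sum, ← e]
        exact Finset.sum_congr rfl fun i _ => by push_cast; ring
      simpa [Finset.sum_apply] using (mul_eq_zero.1 e3).resolve_left (by simp)
    have l1 := Fintype.linearIndependent_iff.1 b.linearIndependent _ hre
    have l2 := Fintype.linearIndependent_iff.1 b.linearIndependent _ him
    ext i
    exact Complex.ext (by simpa using l1 i) (by simpa using l2 i)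
  have hcard : Fintype.card Λ = Fintype.card (AL M G) := by
    rw [← Module.finrank_eq_card_basis b, Module.finrank_pi_fintype ℝ]
    simp [Complex.finrank_real_complex, mul_comm]
  have hfr : Module.finrank ℂ (Λ → ℂ) = Module.finrank ℂ (AL M G → ℂ) := by
    simp only [Module.finrank_fintype_fun_eq_card, hcard]
  let e := LinearMap.linearEquivOfInjective (Matrix.toLin' (Nm (M := M) (G := G) b)) hinj hfr
  have he : ∀ x, e x = Matrix.toLin' (Nm (M := M) (G := G) b) x := fun x =>
    LinearMap.linearEquivOfInjective_apply hinj hfr x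
  refine ⟨LinearMap.toMatrix' e.symm.toLinearMap, ?_, ?_⟩
  · have h : e.symm.toLinearMap ∘ₗ Matrix.toLin' (Nm (M := M) (G := G) b) = LinearMap.id := by
      refine LinearMap.ext fun x => ?_
      simp [← he]
    have h' := congrArg LinearMap.toMatrix' h
    rw [LinearMap.toMatrix'_comp, LinearMap.toMatrix'_toLin'] at h'
    rw [h']
    simp
  · have h : Matrix.toLin' (Nm (M := M) (G := G) b) ∘ₗ e.symm.toLinearMap = LinearMap.id := by
      refine LinearMap.ext fun x => ?_
      simp [← he]
    have h' := congrArg LinearMap.toMatrix' h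
    rw [LinearMap.toMatrix'_comp, LinearMap.toMatrix'_toLin'] at h'
    rw [h']
    simp

end

end Pool.Agent.GG.Glie
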