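import Pool.Agent.Lib.GG.GlieA

/-!
# Row GLIE, part B: rational endomorphisms, commutants
-/

set_option autoImplicit false

open scoped ComplexConjugate Matrix
open Complex Pool.Agent.HCM Pool.Agent.RAT

namespace Pool.Agent.GG.Glie

noncomputable section

section rc

variable {Λ : Type} [Fintype Λ]

omit [Fintype Λ] in
lemma rc_apply (X : Matrix Λ Λ ℚ) (i j : Λ) : rc X i j = (X i j : ℂ) := rfl

lemma rc_mul (X Y : Matrix Λ Λ ℚ) : rc (X * Y) = rc X * rc Y := by
  ext i j
  simp [rc_apply, Matrix.mul_apply]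

omit [Fintype Λ] in
lemma rc_add (X Y : Matrix Λ Λ ℚ) : rc (X + Y) = rc X + rc Y := by
  ext i j
  simp [rc_apply]

omit [Fintype Λ] in
lemma rc_sub (X Y : Matrix Λ Λ ℚ) : rc (X - Y) = rc X - rc Y := by
  ext i j
  simp [rc_apply]

omit [Fintype Λ] in
lemma rc_smul (q : ℚ) (X : Matrix Λ Λ ℚ) : rc (q • X) = q • rc X := by
  ext i j
  simp [rc_apply, Rat.smul_def]

lemma rc_trace (X : Matrix Λ Λ ℚ) : (rc X).trace = ((X.trace : ℚ) : ℂ) := by
  simp [Matrix.trace, rc_apply]

omit [Fintype Λ] in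
/-- rational matrices which are `ℚ`-independent of `c` -/
lemma rc_ind {n : ℕ} {c : Fin n → ℂ} (hc : LinearIndependent ℚ c) (A : Fin n → Matrix Λ Λ ℚ)
    (h : ∑ k, c k • rc (A k) = 0) (k : Fin n) : A k = 0 := by
  ext i j
  have e : ∑ k, (A k i j) • c k = 0 := by
    have := congrFun (congrFun h i) j
    simp only [Matrix.sum_apply, Matrix.smul_apply, rc_apply, smul_eq_mul, Matrix.zero_apply] at this
    rw [← this]
    exact Finset.sum_congr rfl fun k _ => by rw [Rat.smul_def, mul_comm]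
  exact Fintype.linearIndependent_iff.1 hc (fun k => A k i j) e k

end rc

variable {S Λ : Type} [Fintype S] [Fintype Λ] {M G : S → Type} [∀ s, Fintype (M s)]
  [∀ s, Fintype (G s)]

/-- The action on the constant forms of a rational matrix. -/
def rhoL (b : Λ → Crd M G → ℂ) (N' : Matrix Λ (AL M G) ℂ) :
    Matrix Λ Λ ℚ →ₗ[ℚ] Matrix (AL M G) (AL M G) ℂ where
  toFun X := Nm b * rc X * N'
  map_add' X Y := by rw [rc_add, Matrix.mul_add, Matrix.add_mul]
  map_smul' q X := by
    rw [rc_smul, Matrix.mul_smul, Matrix.smul_mul]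
    rfl

lemma rhoL_apply (b : Λ → Crd M G → ℂ) (N' : Matrix Λ (AL M G) ℂ) (X : Matrix Λ Λ ℚ) :
    rhoL b N' X = Nm b * rc X * N' := rfl

section

variable {b : Λ → Crd M G → ℂ} {N' : Matrix Λ (AL M G) ℂ} [DecidableEq Λ] [DecidableEq (AL M G)]

omit [DecidableEq (AL M G)] in
lemma rho_mul (h1 : N' * Nm b = 1) (X Y : Matrix Λ Λ ℚ) :
    rhoL b N' X * rhoL b N' Y = rhoL b N' (X * Y) := by
  simp only [rhoL_apply, rc_mul]
  calc Nm b * rc X * N' * (Nm b * rc Y * N') = Nm b * rc X * (N' * Nm b) * rc Y * N' := by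
        simp only [Matrix.mul_assoc]
    _ = Nm b * (rc X * rc Y) * N' := by rw [h1, Matrix.mul_one, Matrix.mul_assoc (Nm b)]

omit [DecidableEq (AL M G)] in
lemma rho_trace (h1 : N' * Nm b = 1) (X : Matrix Λ Λ ℚ) :
    (rhoL b N' X).trace = ((X.trace : ℚ) : ℂ) := by
  rw [rhoL_apply, Matrix.mul_assoc, Matrix.trace_mul_comm, Matrix.mul_assoc, h1, Matrix.mul_one,
    rc_trace]

omit [DecidableEq (AL M G)] in
lemma rho_N (h1 : N' * Nm b = 1) (X : Matrix Λ Λ ℚ) : rhoL b N' X * Nm b = Nm b * rc X := by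
  rw [rhoL_apply, Matrix.mul_assoc, h1, Matrix.mul_one]

omit [DecidableEq Λ] in
lemma eq_rho (h2 : Nm b * N' = 1) {Z : Matrix (AL M G) (AL M G) ℂ} {X : Matrix Λ Λ ℚ}
    (h : Nm b * rc X = Z * Nm b) : Z = rhoL b N' X := by
  rw [rhoL_apply, h, Matrix.mul_assoc, h2, Matrix.mul_one]

lemma set_eq (h1 : N' * Nm b = 1) (h2 : Nm b * N' = 1) (𝔪 : Submodule ℚ (Matrix Λ Λ ℚ)) :
    {Z | ∃ X ∈ 𝔪, IsRep b X Z} = ((𝔪.map (rhoL b N') :
      Submodule ℚ (Matrix (AL M G) (AL M G) ℂ)) : Set (Matrix (AL M G) (AL M G) ℂ)) := by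
  ext Z
  simp only [Set.mem_ofPred_eq, Submodule.map_coe, Set.mem_image, SetLike.mem_coe]
  refine exists_congr fun X => and_congr_right fun _ => ?_
  rw [isRep_iff]
  exact ⟨fun h => (eq_rho h2 h).symm, fun h => by rw [← h, rho_N h1]⟩

omit [DecidableEq (AL M G)] in
lemma rho_ind (h1 : N' * Nm b = 1) {n : ℕ} {c : Fin n → ℂ} (hc : LinearIndependent ℚ c)
    (A : Fin n → Matrix Λ Λ ℚ) (h : ∑ k, c k • rhoL b N' (A k) = 0) (k : Fin n) : A k = 0 := by
  refine rc_ind hc A ?_ k
  have e : N' * (∑ k, c k • rhoL b N' (A k)) * Nm b = 0 := by rw [h]; simp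
  rw [Matrix.mul_sum, Matrix.sum_mul] at e
  rw [← e]
  refine Finset.sum_congr rfl fun k _ => ?_
  rw [Matrix.mul_smul, Matrix.smul_mul, rhoL_apply]
  congr 1
  calc rc (A k) = (N' * Nm b) * rc (A k) * (N' * Nm b) := by rw [h1]; simp
    _ = N' * (Nm b * rc (A k) * N') * Nm b := by simp only [Matrix.mul_assoc]

/-- every matrix is a combination of rational ones -/
lemma mem_span_rho (h2 : Nm b * N' = 1) (Z : Matrix (AL M G) (AL M G) ℂ) :
    Z ∈ Submodule.span ℂ (((⊤ : Submodule ℚ (Matrix Λ Λ ℚ)).map (rhoL b N') :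
      Submodule ℚ (Matrix (AL M G) (AL M G) ℂ)) : Set (Matrix (AL M G) (AL M G) ℂ)) := by
  have e : Z = ∑ i, ∑ j, (N' * Z * Nm b) i j • rhoL b N' (Matrix.single i j 1) := by
    have e1 : N' * Z * Nm b = ∑ i, ∑ j, (N' * Z * Nm b) i j • rc (Matrix.single i j (1 : ℚ)) := by
      conv_lhs => rw [Matrix.matrix_eq_sum_single (N' * Z * Nm b)]
      refine Finset.sum_congr rfl fun i _ => Finset.sum_congr rfl fun j _ => ?_
      ext i' j'
      rw [Matrix.smul_apply, rc_apply, Matrix.single_apply, Matrix.single_apply]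
      split_ifs <;> simp
    have e2 : Z = Nm b * (N' * Z * Nm b) * N' := by
      calc Z = (Nm b * N') * Z * (Nm b * N') := by rw [h2]; simp
        _ = Nm b * (N' * Z * Nm b) * N' := by simp only [Matrix.mul_assoc]
    conv_lhs => rw [e2, e1]
    simp only [Matrix.mul_sum, Matrix.sum_mul, Matrix.mul_smul, Matrix.smul_mul, rhoL_apply]
  rw [e]
  refine Submodule.sum_mem _ fun i _ => Submodule.sum_mem _ fun j _ =>
    Submodule.smul_mem _ _ (Submodule.subset_span ?_)
  exact ⟨_, Submodule.mem_top, rfl⟩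

end

/-! ### Diagonal and doubled matrices -/

lemma hM_mul (Z : Matrix (AL M G) (AL M G) ℂ) (y y' : AL M G) :
    ((hM : Matrix (AL M G) (AL M G) ℂ) * Z) y y' = (if y.2 then 1 else -1) * Z y y' := by
  unfold hM
  exact @Matrix.diagonal_mul _ _ _ _ _ (_) _ _ _ _

lemma mul_hM (Z : Matrix (AL M G) (AL M G) ℂ) (y y' : AL M G) :
    (Z * (hM : Matrix (AL M G) (AL M G) ℂ)) y y' = Z y y' * (if y'.2 then 1 else -1) := by
  unfold hM
  exact @Matrix.mul_diagonal _ _ _ _ _ (_) _ _ _ _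

/-- `a ⊕ a` -/
def dbl (A : Matrix (Crd M G) (Crd M G) ℂ) : Matrix (AL M G) (AL M G) ℂ :=
  Matrix.of fun y y' => if y.2 = y'.2 then A y.1 y'.1 else 0

/-- the matrix `a ⊕ a` commutes with `h` -/
lemma dbl_hM (A : Matrix (Crd M G) (Crd M G) ℂ) :
    dbl A * (hM : Matrix (AL M G) (AL M G) ℂ) = (hM : Matrix (AL M G) (AL M G) ℂ) * dbl A := by
  ext y y'
  rw [hM_mul, mul_hM]
  simp only [dbl, Matrix.of_apply]
  by_cases h : y.2 = y'.2
  · simp [h, mul_comm]
  · simp [h]

section

variable {b : Λ → Crd M G → ℂ} {N' : Matrix Λ (AL M G) ℂ} [DecidableEq Λ] [DecidableEq (AL M G)]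

/-- real structure -/
lemma rho_conj (h1 : N' * Nm b = 1) (h2 : Nm b * N' = 1) (X : Matrix Λ Λ ℚ) (p q : Crd M G)
    (u v : Bool) : rhoL b N' X (p, !u) (q, !v) = conj (rhoL b N' X (p, u) (q, v)) := by
  have hN : ∀ (p : Crd M G) (u : Bool) (j : Λ), Nm b (p, !u) j = conj (Nm b (p, u) j) := by
    intro p u j
    cases u <;> simp [Nm]
  let Z : Matrix (AL M G) (AL M G) ℂ := Matrix.of fun y y' =>
    conj (rhoL b N' X (y.1, !y.2) (y'.1, !y'.2))
  have hZ : Nm b * rc X = Z * Nm b := by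
    ext y j
    have e := congrFun (congrFun (rho_N h1 X) (y.1, !y.2)) j
    have e2 := congrArg conj e
    rw [Matrix.mul_apply, Matrix.mul_apply, map_sum, map_sum] at e2
    rw [Matrix.mul_apply, Matrix.mul_apply]
    calc ∑ i, Nm b y i * rc X i j = ∑ i, conj (Nm b (y.1, !y.2) i * rc X i j) := by
          refine Finset.sum_congr rfl fun i _ => ?_
          rw [hN, map_mul]
          simp [rc_apply]
      _ = ∑ y', conj (rhoL b N' X (y.1, !y.2) y' * Nm b y' j) := e2.symm
      _ = ∑ y', Z y y' * Nm b y' j := by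
          refine Fintype.sum_equiv (Equiv.prodCongr (Equiv.refl _) Equiv.boolNot) _ _ fun y' => ?_
          simp only [Z, Matrix.of_apply, Equiv.prodCongr_apply, Prod.map, Equiv.refl_apply,
            Equiv.boolNot_apply, Bool.not_not, map_mul]
          rw [hN]
  have e := eq_rho h2 hZ
  have e3 := congrFun (congrFun e (p, !u)) (q, !v)
  rw [← e3]
  simp [Z]

variable (hb : IsGL2 (M := M) (G := G) b)

include hb in
/-- The endomorphisms of `A`. -/
lemma end_spec (h1 : N' * Nm b = 1) (h2 : Nm b * N' = 1) {Y : Matrix Λ Λ ℚ}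
    (hY : rhoL b N' Y * hM = hM * rhoL b N' Y) :
    (∀ p q u v, u ≠ v → rhoL b N' Y (p, u) (q, v) = 0) ∧
    (∀ p q u, p.1 ≠ q.1 → rhoL b N' Y (p, u) (q, u) = 0) ∧
    ∀ p q, rhoL b N' Y (p, true) (q, true) = rhoL b N' Y (p, false) (q, false) := by
  have h0 : ∀ p q u v, u ≠ v → rhoL b N' Y (p, u) (q, v) = 0 := by
    intro p q u v huv
    have e := congrFun (congrFun hY (p, u)) (q, v)
    rw [hM_mul, mul_hM] at e
    cases u <;> cases v <;> simp at huv
    · simp only [if_true] at e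
      have e' : rhoL b N' Y (p, false) (q, true) = - rhoL b N' Y (p, false) (q, true) := by
        simpa using e
      exact self_eq_neg.1 e'
    · have e' : rhoL b N' Y (p, true) (q, false) = - rhoL b N' Y (p, true) (q, false) := by
        have := e.symm
        simpa using this
      exact self_eq_neg.1 e'
  let A : Matrix (Crd M G) (Crd M G) ℂ := Matrix.of fun p q => rhoL b N' Y (p, true) (q, true)
  have hA : A ∈ EndQ b := by
    intro j
    have e : A.mulVec (b j) = ∑ i, (Y i j) • b i := by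
      ext p
      have e1 := congrFun (congrFun (rho_N h1 Y) (p, true)) j
      rw [Matrix.mul_apply, Matrix.mul_apply, Fintype.sum_prod_type] at e1
      simp only [Fintype.sum_bool, h0 p _ true false (by simp), zero_mul, add_zero] at e1
      simp only [Matrix.mulVec, dotProduct, A, Matrix.of_apply, Finset.sum_apply, Pi.smul_apply]
      simp only [Nm, Matrix.of_apply, if_true, rc_apply] at e1
      rw [e1]
      exact Finset.sum_congr rfl fun i _ => by rw [Rat.smul_def, mul_comm]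
    rw [e]
    exact Submodule.sum_mem _ fun i _ => Submodule.smul_mem _ _ (Submodule.subset_span ⟨i, rfl⟩)
  have hA2 := (hb.2 A).1 (Submodule.subset_span hA)
  have hcj : ∀ p q, rhoL b N' Y (p, true) (q, true) = rhoL b N' Y (p, false) (q, false) := by
    intro p q
    have e := rho_conj h1 h2 Y p q true true
    simp only [Bool.not_true] at e
    rw [e]
    exact (Complex.conj_eq_iff_im.2 (hA2.2 p q)).symm
  refine ⟨h0, ?_, hcj⟩
  intro p q u hpq
  cases u
  · rw [← hcj]
    exact hA2.1 p q hpq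
  · exact hA2.1 p q hpq

include hb in
/-- The real endomorphisms of `A`. -/
lemma exists_end (h2 : Nm b * N' = 1) {A : Matrix (Crd M G) (Crd M G) ℂ} (hA : A ∈ EndQ b) :
    ∃ Y : Matrix Λ Λ ℚ, dbl A = rhoL b N' Y := by
  have hA2 := (hb.2 A).1 (Submodule.subset_span hA)
  have hY : ∀ j, ∃ c : Λ → ℚ, ∑ i, c i • b i = A.mulVec (b j) := fun j =>
    (Submodule.mem_span_range_iff_exists_fun ℚ).1 (hA j)
  choose Y hY using hY
  refine ⟨Matrix.of fun i j => Y j i, eq_rho h2 ?_⟩
  have e : ∀ j p, ∑ q, A p q * b j q = ∑ i, b i p * (Y j i : ℂ) := by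
    intro j p
    have e1 := congrFun (hY j) p
    simp only [Matrix.mulVec, dotProduct, Finset.sum_apply, Pi.smul_apply] at e1
    rw [← e1]
    exact Finset.sum_congr rfl fun i _ => by rw [Rat.smul_def, mul_comm]
  ext y j
  obtain ⟨p, u⟩ := y
  rw [Matrix.mul_apply, Matrix.mul_apply, Fintype.sum_prod_type]
  cases u
  · simp only [Fintype.sum_bool, dbl, Matrix.of_apply, Nm, rc_apply]
    simp only [Bool.false_eq_true, if_false, if_true, zero_mul, zero_add]
    have e1 := congrArg conj (e j p)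
    rw [map_sum, map_sum] at e1
    convert e1.symm using 1
    · exact Finset.sum_congr rfl fun i _ => by simp
    · refine Finset.sum_congr rfl fun q _ => ?_
      rw [map_mul, Complex.conj_eq_iff_im.2 (hA2.2 p q)]
  · simp only [Fintype.sum_bool, dbl, Matrix.of_apply, Nm, rc_apply]
    simp only [Bool.true_eq_false, if_false, if_true, zero_mul, add_zero]
    exact (e j p).symm

end

end

end Pool.Agent.GG.Glie
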