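import Pool.Agent.Lib.GG.GlieB

/-!
# Row GLIE, part C: the Lie algebra commuting with the endomorphisms
-/

set_option autoImplicit false

open scoped ComplexConjugate Matrix
open Complex Pool.Agent.HCM Pool.Agent.RAT

namespace Pool.Agent.GG.Glie

noncomputable section

variable {S Λ : Type} [Fintype S] [Fintype Λ] {M G : S → Type} [∀ s, Fintype (M s)]
  [∀ s, Fintype (G s)]

/-- The elements of `𝔪` commuting with the endomorphisms, and orthogonal to them. -/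
def m0 (b : Λ → Crd M G → ℂ) (N' : Matrix Λ (AL M G) ℂ) (𝔪 : Submodule ℚ (Matrix Λ Λ ℚ)) :
    Submodule ℚ (Matrix Λ Λ ℚ) where
  carrier := {X | X ∈ 𝔪 ∧ ∀ Y, rhoL b N' Y * hM = hM * rhoL b N' Y →
    X * Y = Y * X ∧ (X * Y).trace = 0}
  add_mem' := by
    rintro X X' ⟨h, h'⟩ ⟨k, k'⟩
    refine ⟨𝔪.add_mem h k, fun Y hY => ?_⟩
    obtain ⟨a1, a2⟩ := h' Y hY
    obtain ⟨b1, b2⟩ := k' Y hY
    constructor
    · rw [Matrix.add_mul, Matrix.mul_add, a1, b1]
    · rw [Matrix.add_mul, Matrix.trace_add, a2, b2, add_zero]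
  zero_mem' := ⟨𝔪.zero_mem, fun Y _ => by simp⟩
  smul_mem' := by
    rintro q X ⟨h, h'⟩
    refine ⟨𝔪.smul_mem q h, fun Y hY => ?_⟩
    obtain ⟨a1, a2⟩ := h' Y hY
    constructor
    · rw [Matrix.smul_mul, Matrix.mul_smul, a1]
    · rw [Matrix.smul_mul, Matrix.trace_smul, a2, smul_zero]

/-- The complex span. -/
def sp (b : Λ → Crd M G → ℂ) (N' : Matrix Λ (AL M G) ℂ) (𝔫 : Submodule ℚ (Matrix Λ Λ ℚ)) :
    Submodule ℂ (Matrix (AL M G) (AL M G) ℂ) :=
  Submodule.span ℂ ((𝔫.map (rhoL b N') : Submodule ℚ (Matrix (AL M G) (AL M G) ℂ)) :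
    Set (Matrix (AL M G) (AL M G) ℂ))

variable {b : Λ → Crd M G → ℂ} {N' : Matrix Λ (AL M G) ℂ}

lemma rho_mem_sp {𝔫 : Submodule ℚ (Matrix Λ Λ ℚ)} {X : Matrix Λ Λ ℚ} (hX : X ∈ 𝔫) :
    rhoL b N' X ∈ sp b N' 𝔫 := Submodule.subset_span ⟨X, hX, rfl⟩

lemma sp_induction {𝔫 : Submodule ℚ (Matrix Λ Λ ℚ)} (V : Submodule ℂ (Matrix (AL M G) (AL M G) ℂ))
    (h : ∀ X ∈ 𝔫, rhoL b N' X ∈ V) : sp b N' 𝔫 ≤ V := by
  refine Submodule.span_le.2 ?_
  rintro _ ⟨X, hX, rfl⟩
  exact h X hX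

lemma sp_mono {𝔫 𝔫' : Submodule ℚ (Matrix Λ Λ ℚ)} (h : 𝔫 ≤ 𝔫') : sp b N' 𝔫 ≤ sp b N' 𝔫' :=
  sp_induction _ fun X hX => rho_mem_sp (h hX)

lemma m0_le (𝔪 : Submodule ℚ (Matrix Λ Λ ℚ)) : m0 b N' 𝔪 ≤ 𝔪 := fun _ hX => hX.1

lemma m0_comm {𝔪 : Submodule ℚ (Matrix Λ Λ ℚ)}
    (h𝔪 : ∀ X ∈ 𝔪, ∀ X' ∈ 𝔪, X * X' - X' * X ∈ 𝔪) {X X' : Matrix Λ Λ ℚ}
    (hX : X ∈ m0 b N' 𝔪) (hX' : X' ∈ m0 b N' 𝔪) : X * X' - X' * X ∈ m0 b N' 𝔪 := by
  refine ⟨h𝔪 X hX.1 X' hX'.1, fun Y hY => ?_⟩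
  obtain ⟨a1, -⟩ := hX.2 Y hY
  obtain ⟨b1, -⟩ := hX'.2 Y hY
  constructor
  · rw [Matrix.sub_mul, Matrix.mul_sub, Matrix.mul_assoc, b1, ← Matrix.mul_assoc, a1,
      Matrix.mul_assoc X' X Y, a1, ← Matrix.mul_assoc X', b1, Matrix.mul_assoc, Matrix.mul_assoc]
  · rw [Matrix.sub_mul, Matrix.trace_sub, sub_eq_zero, Matrix.mul_assoc X' X Y,
      Matrix.trace_mul_comm X', Matrix.mul_assoc X Y X', ← b1, Matrix.mul_assoc]

lemma comm_of_sp {𝔫 : Submodule ℚ (Matrix Λ Λ ℚ)} {T : Matrix (AL M G) (AL M G) ℂ}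
    (h : ∀ X ∈ 𝔫, T * rhoL b N' X = rhoL b N' X * T) {Z : Matrix (AL M G) (AL M G) ℂ}
    (hZ : Z ∈ sp b N' 𝔫) : T * Z = Z * T := by
  let V : Submodule ℂ (Matrix (AL M G) (AL M G) ℂ) :=
    { carrier := {Z | T * Z = Z * T}
      add_mem' := by
        intro a c ha hc
        simp only [Set.mem_setOf_eq] at *
        rw [Matrix.mul_add, Matrix.add_mul, ha, hc]
      zero_mem' := by simp
      smul_mem' := by
        intro r a ha
        simp only [Set.mem_setOf_eq] at *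
        rw [Matrix.mul_smul, Matrix.smul_mul, ha] }
  exact sp_induction V (fun X hX => h X hX) hZ

lemma dbl_add (A B : Matrix (Crd M G) (Crd M G) ℂ) : dbl (A + B) = dbl A + dbl B := by
  ext y y'
  simp only [dbl, Matrix.of_apply, Matrix.add_apply]
  split_ifs <;> simp

lemma dbl_smul (r : ℝ) (A : Matrix (Crd M G) (Crd M G) ℂ) : dbl (r • A) = r • dbl A := by
  ext y y'
  simp only [dbl, Matrix.of_apply, Matrix.smul_apply]
  split_ifs <;> simp

section

variable [DecidableEq Λ] [DecidableEq (AL M G)] (hb : IsGL2 (M := M) (G := G) b)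
  (h1 : N' * Nm b = 1) (h2 : Nm b * N' = 1)

include hb h1 h2 in
lemma hM_mem (hx : EXPA) {𝔪 : Submodule ℚ (Matrix Λ Λ ℚ)} (h : hM ∈ sp b N' 𝔪) :
    hM ∈ sp b N' (m0 b N' 𝔪) := by
  obtain ⟨n, c, v, hc, hv, he⟩ := hx _ _ _ h
  choose X hX hXv using hv
  have he' : (hM : Matrix (AL M G) (AL M G) ℂ) = ∑ k, c k • rhoL b N' (X k) := by
    rw [he]
    exact Finset.sum_congr rfl fun k _ => by rw [hXv]
  have hmem : ∀ k, X k ∈ m0 b N' 𝔪 := by
    intro k
    refine ⟨hX k, fun Y hY => ?_⟩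
    constructor
    · have e : ∑ k, c k • rhoL b N' (X k * Y - Y * X k) = 0 := by
        have e1 : ∑ k, c k • rhoL b N' (X k * Y - Y * X k) =
            (∑ k, c k • rhoL b N' (X k)) * rhoL b N' Y - rhoL b N' Y * ∑ k, c k • rhoL b N' (X k) := by
          rw [Matrix.sum_mul, Matrix.mul_sum, ← Finset.sum_sub_distrib]
          refine Finset.sum_congr rfl fun k _ => ?_
          rw [map_sub, ← rho_mul h1, ← rho_mul h1, Matrix.smul_mul, Matrix.mul_smul, smul_sub]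
        rw [e1, ← he', hY, sub_self]
      exact sub_eq_zero.1 (rho_ind h1 hc (fun k => X k * Y - Y * X k) e k)
    · have e2 : ((hM : Matrix (AL M G) (AL M G) ℂ) * rhoL b N' Y).trace = 0 := by
        obtain ⟨-, -, hd⟩ := end_spec hb h1 h2 hY
        rw [Matrix.trace, Fintype.sum_prod_type]
        refine Finset.sum_eq_zero fun p _ => ?_
        simp only [Matrix.diag_apply, Fintype.sum_bool, hM_mul]
        rw [hd]
        simp
      have e3 : ∑ k, (X k * Y).trace • c k = 0 := by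
        rw [← e2, he', Matrix.sum_mul, Matrix.trace_sum]
        refine Finset.sum_congr rfl fun k _ => ?_
        rw [Matrix.smul_mul, Matrix.trace_smul, rho_mul h1, rho_trace h1, Rat.smul_def, smul_eq_mul,
          mul_comm]
      exact Fintype.linearIndependent_iff.1 hc (fun k => (X k * Y).trace) e3 k
  rw [he']
  exact Submodule.sum_mem _ fun k _ => Submodule.smul_mem _ _ (rho_mem_sp (hmem k))

include hb h1 h2 in
lemma m0_dbl {𝔪 : Submodule ℚ (Matrix Λ Λ ℚ)} {X : Matrix Λ Λ ℚ} (hX : X ∈ m0 b N' 𝔪)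
    {A : Matrix (Crd M G) (Crd M G) ℂ} (hA : A ∈ Submodule.span ℝ (EndQ b)) :
    rhoL b N' X * dbl A = dbl A * rhoL b N' X ∧ (rhoL b N' X * dbl A).trace = 0 := by
  induction hA using Submodule.span_induction with
  | mem A hA =>
    obtain ⟨Y, hY⟩ := exists_end hb h2 hA
    have e := dbl_hM A
    rw [hY] at e ⊢
    obtain ⟨a1, a2⟩ := hX.2 Y e
    rw [rho_mul h1, rho_mul h1, a1, ← a1, rho_trace h1, a2]
    simp
  | zero =>
    have : dbl (0 : Matrix (Crd M G) (Crd M G) ℂ) = 0 := by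
      ext y y'
      simp [dbl]
    rw [this]
    simp
  | add A B _ _ ihA ihB =>
    rw [dbl_add, Matrix.mul_add, Matrix.add_mul, ihA.1, ihB.1]
    refine ⟨rfl, ?_⟩
    rw [← ihA.1, ← ihB.1, Matrix.trace_add, ihA.2, ihB.2, add_zero]
  | smul r A _ ih =>
    rw [dbl_smul, Matrix.mul_smul, Matrix.smul_mul, ih.1]
    refine ⟨rfl, ?_⟩
    rw [← ih.1, Matrix.trace_smul, ih.2, smul_zero]

include hb h1 h2 in
lemma m0_entries {𝔪 : Submodule ℚ (Matrix Λ Λ ℚ)} {X : Matrix Λ Λ ℚ} (hX : X ∈ m0 b N' 𝔪) :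
    (∀ p q u v, p ≠ q → rhoL b N' X (p, u) (q, v) = 0) ∧
    (∀ p q u v, p.1 = q.1 → rhoL b N' X (p, u) (p, v) = rhoL b N' X (q, u) (q, v)) ∧
    ∀ p, rhoL b N' X (p, true) (p, true) + rhoL b N' X (p, false) (p, false) = 0 := by
  classical
  have hs : ∀ p q : Crd M G, p.1 = q.1 → Matrix.single p q (1 : ℂ) ∈ Submodule.span ℝ (EndQ b) := by
    intro p q hpq
    rw [hb.2]
    constructor
    · intro p' q' h'
      rw [Matrix.single_apply]
      split_ifs with h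
      · exact absurd (by rw [← h.1, ← h.2, hpq]) h'
      · rfl
    · intro p' q'
      rw [Matrix.single_apply]
      split_ifs <;> simp
  have hr : ∀ (Z : Matrix (AL M G) (AL M G) ℂ) (p q : Crd M G) (y : AL M G) (c : Crd M G) (v : Bool),
      (Z * dbl (Matrix.single p q (1 : ℂ))) y (c, v) = if q = c then Z y (p, v) else 0 := by
    intro Z p q y c v
    rw [Matrix.mul_apply, Finset.sum_eq_single (p, v)]
    · simp only [dbl, Matrix.of_apply, if_true, Matrix.single_apply, true_and]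
      split_ifs <;> simp
    · rintro ⟨a, w⟩ _ hne
      simp only [dbl, Matrix.of_apply, Matrix.single_apply]
      by_cases hw : w = v
      · subst hw
        have : p ≠ a := fun h => hne (by rw [h])
        simp [this]
      · simp [hw]
    · simp
  have hl : ∀ (Z : Matrix (AL M G) (AL M G) ℂ) (p q : Crd M G) (y : AL M G) (a : Crd M G) (u : Bool),
      (dbl (Matrix.single p q (1 : ℂ)) * Z) (a, u) y = if p = a then Z (q, u) y else 0 := by
    intro Z p q y a u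
    rw [Matrix.mul_apply, Finset.sum_eq_single (q, u)]
    · simp only [dbl, Matrix.of_apply, if_true, Matrix.single_apply, and_true]
      split_ifs <;> simp
    · rintro ⟨c, w⟩ _ hne
      simp only [dbl, Matrix.of_apply, Matrix.single_apply]
      by_cases hw : u = w
      · subst hw
        have : q ≠ c := fun h => hne (by rw [h])
        simp [this]
      · simp [hw]
    · simp
  refine ⟨?_, ?_, ?_⟩
  · intro p q u v hpq
    have e := congrFun (congrFun (m0_dbl hb h1 h2 hX (hs q q rfl)).1 (p, u)) (q, v)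
    rw [hr, hl, if_pos rfl, if_neg (Ne.symm hpq)] at e
    exact e
  · intro p q u v hpq
    have e := congrFun (congrFun (m0_dbl hb h1 h2 hX (hs p q hpq)).1 (p, u)) (q, v)
    rw [hr, hl, if_pos rfl, if_pos rfl] at e
    exact e
  · intro p
    have e := (m0_dbl hb h1 h2 hX (hs p p rfl)).2
    rw [Matrix.trace, Fintype.sum_prod_type] at e
    simp only [Matrix.diag_apply, hr, Fintype.sum_bool] at e
    rw [Finset.sum_eq_single p] at e
    · simpa using e
    · intro q _ hq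
      simp [Ne.symm hq]
    · simp

include hb h1 h2 in
/-- The commutant of `m0` is `End(A) ⊗ ℂ`. -/
lemma commutant (hx : EXPA) {𝔪 : Submodule ℚ (Matrix Λ Λ ℚ)}
    (h : hM ∈ sp b N' (m0 b N' 𝔪)) {g : Matrix (AL M G) (AL M G) ℂ}
    (hg : ∀ X ∈ m0 b N' 𝔪, g * rhoL b N' X = rhoL b N' X * g) :
    (∀ p q u, p.1 ≠ q.1 → g (p, u) (q, u) = 0) ∧
    ∀ p q, g (p, true) (q, true) = g (p, false) (q, false) := by
  obtain ⟨n, c, v, hc, hv, he⟩ := hx _ _ _ (mem_span_rho (b := b) (N' := N') h2 g)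
  choose Y hY hYv using hv
  have he' : g = ∑ k, c k • rhoL b N' (Y k) := by
    rw [he]
    exact Finset.sum_congr rfl fun k _ => by rw [hYv]
  have hcomm : ∀ k, ∀ X ∈ m0 b N' 𝔪, Y k * X = X * Y k := by
    intro k X hX
    have e : ∑ k, c k • rhoL b N' (Y k * X - X * Y k) = 0 := by
      have e1 : ∑ k, c k • rhoL b N' (Y k * X - X * Y k) =
          (∑ k, c k • rhoL b N' (Y k)) * rhoL b N' X - rhoL b N' X * ∑ k, c k • rhoL b N' (Y k) := by
        rw [Matrix.sum_mul, Matrix.mul_sum, ← Finset.sum_sub_distrib]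
        refine Finset.sum_congr rfl fun k _ => ?_
        rw [map_sub, ← rho_mul h1, ← rho_mul h1, Matrix.smul_mul, Matrix.mul_smul, smul_sub]
      rw [e1, ← he', hg X hX, sub_self]
    exact sub_eq_zero.1 (rho_ind h1 hc (fun k => Y k * X - X * Y k) e k)
  have hspec : ∀ k, _ := fun k => end_spec hb h1 h2 (Y := Y k)
    (comm_of_sp (fun X hX => by rw [rho_mul h1, rho_mul h1, hcomm k X hX]) h)
  rw [he']
  constructor
  · intro p q u hpq
    rw [Matrix.sum_apply]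
    exact Finset.sum_eq_zero fun k _ => by rw [Matrix.smul_apply, (hspec k).2.1 p q u hpq, smul_zero]
  · intro p q
    rw [Matrix.sum_apply, Matrix.sum_apply]
    exact Finset.sum_congr rfl fun k _ => by
      rw [Matrix.smul_apply, Matrix.smul_apply, (hspec k).2.2 p q]

end

end

end Pool.Agent.GG.Glie
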