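import Pool.Agent.Lib.GG.Fin

/-!
# The Hodge conjecture for `A × B` (helper39)
-/

set_option autoImplicit false

open scoped ComplexConjugate Matrix
open Complex Pool.Agent.CMN Pool.Agent.HCM Pool.Agent.RAT

namespace Pool.Agent.GG

noncomputable section

section

variable {S Λ : Type} {M G : S → Type} [Fintype Λ]
variable {ι : Type} {K : ι → Type} [∀ i, Field (K i)]

/-- `w`, of degree `2n`, is the Pontryagin product of `j` rational classes `δ r` of type `(1,1)` in
`H_2(A)` and of a class `v`, of degree `2c` on `B`, which is a combination of classes of maps from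
compact arithmetic quotients of the `c`-ball to `B` (a rational number for `c = 0`), `j + c = n`. -/
def IsProdH (b : Λ → Crd M G → ℂ) (Φ : ∀ i, Set (K i →+* ℂ)) (n : ℕ)
    (w : (Fin (2 * n) → Lt M G K) → ℂ) : Prop :=
  ∃ (j c : ℕ) (e : (Fin j × Fin 2) ⊕ Two c ≃ Fin (2 * n))
    (δ : Fin j → (Fin 2 → Lt M G K) → ℂ) (v : (Two c → Idx K) → ℂ),
    j + c = n ∧
    (∀ r, δ r ∈ HA K b (Fin 2) ∧ ∀ t, cntT Φ t ≠ 1 → δ r t = 0) ∧
    ((c = 0 ∧ ∃ q : ℚ, ∀ t, v t = q) ∨ (0 < c ∧ IsBallQ Φ v)) ∧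
    w = alt fun t => (∏ r, δ r fun i => t (e (Sum.inl (r, i)))) *
      extB v fun i => t (e (Sum.inr i))

end

/-- **The Hodge conjecture for `A × B`**, `A` with the largest possible Hodge group or of
`GL₂`-type, `B` of CM type. -/
def HODX : Prop :=
  ∀ (n : ℕ) (S Λ : Type) [Fintype S] [Fintype Λ] (M G : S → Type)
    [∀ s, Fintype (M s)] [∀ s, Fintype (G s)]
    (b : Module.Basis Λ ℝ (Crd M G → ℂ)) (ι : Type) [Finite ι] (K : ι → Type)
    [∀ i, Field (K i)] [∀ i, NumberField (K i)] [∀ i, NumberField.IsCMField (K i)]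
    (Φ : ∀ i, Set (K i →+* ℂ)), (∀ i, IsCMType (Φ i)) → IsSymp b ∨ IsGL2 b →
    ∀ u ∈ HX (M := M) (G := G) K b (Fin (2 * n)), (∀ t, cntT Φ t ≠ n → u t = 0) →
    u ∈ Submodule.span ℚ {w | IsProdH b Φ n w}

namespace HodA

section push

variable {ι : Type} {K : ι → Type} [∀ i, Field (K i)] {E ι' : Type} [Field E]

theorem torus_push {n : ℕ} (x : Two n → ∀ c, KS K E ι' c) (t : Two n → Idx K) :
    torusClass x (fun i => (onA (t i) : Idx (KS K E ι'))) =
      torusClass (fun i a => x i (Sum.inl a)) t := rfl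

theorem HQ_push {n : ℕ} {γ : (Two n → Idx (KS K E ι')) → ℂ} (h : γ ∈ HQ (KS K E ι') n) :
    (fun t : Two n → Idx K => γ fun i => onA (t i)) ∈ HQ K n := by
  refine Submodule.span_induction
    (p := fun γ _ => (fun t : Two n → Idx K => γ fun i => onA (t i)) ∈ HQ K n) ?_ ?_ ?_ ?_ h
  · rintro _ ⟨x, rfl⟩
    exact Submodule.subset_span ⟨fun i a => x i (Sum.inl a), rfl⟩
  · exact Submodule.zero_mem _
  · intro f g _ _ hf hg
    exact Submodule.add_mem _ hf hg
  · intro q f _ hf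
    exact Submodule.smul_mem _ q hf

theorem Ball_push {n : ℕ} {Φ : ∀ i, Set (K i →+* ℂ)} {Ψ : ι' → Set (E →+* ℂ)}
    {γ : (Two n → Idx (KS K E ι')) → ℂ} (h : γ ∈ BallCl (PS Φ Ψ)) :
    (fun t : Two n → Idx K => γ fun i => onA (t i)) ∈ BallCl Φ := by
  obtain ⟨F, i1, i2, v₁, D, h, Γ, χ, f, ℓ, h1, h2, h3, h4, h5, h6, h7, h8, rfl⟩ := h
  exact ⟨F, i1, i2, v₁, D, h, Γ, χ, fun i => f (Sum.inl i), fun i => ℓ (Sum.inl i),
    h1, h2, h3, h4, h5, h6, h7, fun i => h8 (Sum.inl i), rfl⟩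

theorem BallQ_push {n : ℕ} {Φ : ∀ i, Set (K i →+* ℂ)} {Ψ : ι' → Set (E →+* ℂ)}
    {γ : (Two n → Idx (KS K E ι')) → ℂ} (h : IsBallQ (PS Φ Ψ) γ) :
    IsBallQ Φ (fun t : Two n → Idx K => γ fun i => onA (t i)) := by
  refine Submodule.span_induction
    (p := fun γ _ => IsBallQ Φ (fun t : Two n → Idx K => γ fun i => onA (t i))) ?_ ?_ ?_ ?_ h
  · rintro γ ⟨h1, v, h2, rfl⟩
    exact Submodule.subset_span ⟨HQ_push h1, _, Ball_push h2, rfl⟩
  · exact Submodule.zero_mem _
  · intro f g _ _ hf hg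
    exact Submodule.add_mem _ hf hg
  · intro q f _ hf
    exact Submodule.smul_mem _ q hf

theorem contr_zero {Φ : ∀ i, Set (K i →+* ℂ)} {Ψ : ι' → Set (E →+* ℂ)} [NumberField E]
    [Fintype ι'] {c : ℕ} {v : (Fin (2 * c + 0) → Idx K) → ℂ} (h : IsContr Φ Ψ c 0 v) :
    ∃ (e : Two c ≃ Fin (2 * c)) (v' : (Two c → Idx K) → ℂ), IsBallQ Φ v' ∧
      ∀ t, v t = v' fun i => t (e i) := by
  obtain ⟨e, γ, β, h1, h2, h3⟩ := h
  obtain ⟨q, hq⟩ := h2 (fun i => i.elim0)
  have hβ : β default = q := by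
    rw [← hq, Fintype.sum_unique]
    simp
  refine ⟨e.trans (Equiv.sumEmpty _ _), fun t => (q : ℂ) * γ fun i => onA (t i), ?_, ?_⟩
  · have h4 := Submodule.smul_mem _ q (BallQ_push h1)
    refine (congrArg (IsBallQ Φ) ?_).mp h4
    funext t
    simp [Algebra.smul_def]
  · intro t
    rw [h3, Fintype.sum_unique, hβ]
    congr 2
    funext i
    rcases h5 : e i with a | a
    · simp [glue, Function.comp, h5]
    · exact a.elim0

end push

end HodA

open HodA

theorem hodx : HODX := by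
  intro n S Λ _ _ M G _ _ b ι _ K _ _ _ Φ hΦ hA u hu hH
  have hR : IsSub b Φ (Submodule.span ℚ {u}) := by
    refine ⟨?_, ?_⟩
    · rw [Submodule.span_le]
      rintro _ rfl
      exact hu
    · intro w hw p
      obtain ⟨q, rfl⟩ := Submodule.mem_span_singleton.1 hw
      by_cases hp : p = n
      · have h1 : part Φ p (q • u) = q • u := by
          funext t
          rw [part]
          split_ifs with h2
          · rfl
          · rw [hp] at h2
            rw [Pi.smul_apply, hH t h2, smul_zero]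
        rw [h1]
        exact Submodule.subset_span hw
      · have h1 : part Φ p (q • u) = 0 := by
          funext t
          rw [part]
          split_ifs with h2
          · rw [Pi.smul_apply, hH t (by rw [h2]; exact hp), smul_zero, Pi.zero_apply]
          · rfl
        rw [h1]
        exact Submodule.zero_mem _
  have hC : IsCon n 0 Φ (Submodule.span ℚ {u}) := by
    intro w hw t ht
    obtain ⟨q, rfl⟩ := Submodule.mem_span_singleton.1 hw
    rw [Pi.smul_apply, hH t (fun h => ht (by omega)), smul_zero]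
  have h1 := ghx n 0 S Λ M G b ι K Φ hΦ hA (Submodule.span ℚ {u}) hR hC u
    (Submodule.mem_span_singleton_self u)
  refine Submodule.span_mono ?_ h1
  rintro w ⟨j, c, a, l', e, δ, x, v, hjc, hal, hδ, hv, rfl⟩
  obtain rfl : a = 0 := by omega
  obtain rfl : l' = 0 := by omega
  obtain ⟨ε, v', hv', hvv⟩ : ∃ (ε : Two c ≃ Fin (2 * c)) (v' : (Two c → Idx K) → ℂ),
      ((c = 0 ∧ ∃ q : ℚ, ∀ t, v' t = q) ∨ (0 < c ∧ IsBallQ Φ v')) ∧
      ∀ t, v t = v' fun i => t (ε i) := by
    rcases Nat.eq_zero_or_pos c with hc | hc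
    · subst hc
      have h2 := hv.1
      obtain ⟨q, hq⟩ : ∃ q : ℚ, ∀ t, v t = q := by
        refine Submodule.span_induction
          (p := fun (v : (Fin (2 * 0 + 0) → Idx K) → ℂ) _ => ∃ q : ℚ, ∀ t, v t = (q : ℂ))
          ?_ ?_ ?_ ?_ h2
        · rintro _ ⟨y, rfl⟩
          have : IsEmpty (Fin (2 * 0 + 0)) := by
            rw [Nat.mul_zero, Nat.add_zero]
            infer_instance
          exact ⟨1, fun t => by
            rw [torusT, Matrix.det_isEmpty]; simp⟩
        · exact ⟨0, fun t => by simp⟩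
        · rintro f g _ _ ⟨q, hf⟩ ⟨q', hg⟩
          exact ⟨q + q', fun t => by rw [Pi.add_apply, hf, hg]; push_cast; ring⟩
        · rintro r f _ ⟨q, hf⟩
          exact ⟨r * q, fun t => by
            rw [Pi.smul_apply, hf, Algebra.smul_def]; simp⟩
      exact ⟨Fintype.equivOfCardEq (by simp), fun _ => q, Or.inl ⟨rfl, q, fun _ => rfl⟩, hq⟩
    · obtain ⟨E, i1, i2, i3, ι', i4, Ψ, -, h3⟩ := hv.2 (by omega)
      obtain ⟨ε, v', h4, h5⟩ := contr_zero h3
      exact ⟨ε, v', Or.inr ⟨hc, h4⟩, h5⟩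
  let e' : (Fin j × Fin 2) ⊕ Two c ≃ Fin (2 * n) :=
    (Equiv.sumCongr (Equiv.refl _) (ε.trans (Equiv.emptySum (Fin 0) (Fin (2 * c))).symm)).trans e
  refine ⟨j, c, e', δ, v', hjc, hδ, hv', ?_⟩
  congr 1
  funext t
  have h6 : ∏ i : Fin 0, per b (t (e (Sum.inr (Sum.inl i)))) (x i, 0) = 1 :=
    Finset.prod_of_isEmpty _
  rw [h6, mul_one]
  congr 1
  by_cases h7 : ∀ i, (t (e (Sum.inr (Sum.inr i)))).isRight
  · have h8 : ∀ i, (t (e' (Sum.inr i))).isRight := fun i => h7 (ε i)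
    rw [extB, extB, dif_pos h7, dif_pos h8]
    exact hvv _
  · have h8 : ¬ ∀ i, (t (e' (Sum.inr i))).isRight := by
      intro h9
      apply h7
      intro i
      have h10 := h9 (ε.symm i)
      have h11 : e' (Sum.inr (ε.symm i)) = e (Sum.inr (Sum.inr i)) := by
        simp [e']
      rw [h11] at h10
      exact h10
    rw [extB, extB, dif_neg h7, dif_neg h8]

end

end Pool.Agent.GG
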