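import Pool.Agent.Lib.GG.Rows

/-!
# Row LIE2: Lie subalgebras of `∏ₛ 𝔰𝔩₂(ℂ)`
-/

set_option autoImplicit false

open scoped ComplexConjugate
open Complex

namespace Pool.Agent.GG

theorem lie2 : LIE2 := by
  classical
  intro S _ 𝔭 h1 hbr hcj hne hlink
  have hE : ∀ x ∈ 𝔭, ((0, x.2.1, 0) : (S → ℂ) × (S → ℂ) × (S → ℂ)) ∈ 𝔭 ∧
      ((0, 0, x.2.2) : (S → ℂ) × (S → ℂ) × (S → ℂ)) ∈ 𝔭 := by
    intro x hx
    have e1 := hbr _ h1 _ hx
    have e2 := hbr _ h1 _ e1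
    constructor
    · have e3 := 𝔭.add_mem (𝔭.smul_mem (1 / 4 : ℂ) e1) (𝔭.smul_mem (1 / 8 : ℂ) e2)
      convert e3 using 1
      ext s <;> simp <;> ring
    · have e3 := 𝔭.add_mem (𝔭.smul_mem (-(1 / 4) : ℂ) e1) (𝔭.smul_mem (1 / 8 : ℂ) e2)
      convert e3 using 1
      ext s <;> simp <;> ring
  have hA : ∀ x ∈ 𝔭, ((x.1, 0, 0) : (S → ℂ) × (S → ℂ) × (S → ℂ)) ∈ 𝔭 := by
    intro x hx
    have e3 := 𝔭.sub_mem (𝔭.sub_mem hx (hE x hx).1) (hE x hx).2
    convert e3 using 1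
    ext s <;> simp
  -- P, Q, R
  have hPQ : ∀ b : S → ℂ, ((0, b, 0) : (S → ℂ) × (S → ℂ) × (S → ℂ)) ∈ 𝔭 →
      ((0, 0, fun s => conj (b s)) : (S → ℂ) × (S → ℂ) × (S → ℂ)) ∈ 𝔭 := by
    intro b hb
    have e := hcj _ hb
    convert e using 1
    ext s <;> simp
  have hQP : ∀ b : S → ℂ, ((0, 0, b) : (S → ℂ) × (S → ℂ) × (S → ℂ)) ∈ 𝔭 →
      ((0, fun s => conj (b s), 0) : (S → ℂ) × (S → ℂ) × (S → ℂ)) ∈ 𝔭 := by
    intro b hb
    have e := hcj _ hb
    convert e using 1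
    ext s <;> simp
  have hmulR : ∀ b c : S → ℂ, ((0, b, 0) : (S → ℂ) × (S → ℂ) × (S → ℂ)) ∈ 𝔭 →
      ((0, 0, c) : (S → ℂ) × (S → ℂ) × (S → ℂ)) ∈ 𝔭 →
      ((b * c, 0, 0) : (S → ℂ) × (S → ℂ) × (S → ℂ)) ∈ 𝔭 := by
    intro b c hb hc
    have e := hbr _ hb _ hc
    convert e using 1
    ext s <;> simp
  have hmulP : ∀ a b : S → ℂ, ((a, 0, 0) : (S → ℂ) × (S → ℂ) × (S → ℂ)) ∈ 𝔭 →
      ((0, b, 0) : (S → ℂ) × (S → ℂ) × (S → ℂ)) ∈ 𝔭 →
      ((0, a * b, 0) : (S → ℂ) × (S → ℂ) × (S → ℂ)) ∈ 𝔭 := by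
    intro a b ha hb
    have e := 𝔭.smul_mem (1 / 2 : ℂ) (hbr _ ha _ hb)
    convert e using 1
    ext s <;> simp
  -- R separates points
  have hsep : ∀ s s', s ≠ s' → ∃ a : S → ℂ, ((a, 0, 0) : (S → ℂ) × (S → ℂ) × (S → ℂ)) ∈ 𝔭 ∧
      a s ≠ a s' := by
    intro s s' hss
    by_contra hcon
    push Not at hcon
    obtain ⟨x0, hx0, hb0⟩ := hne s
    have hprod : ∀ b : S → ℂ, ((0, b, 0) : (S → ℂ) × (S → ℂ) × (S → ℂ)) ∈ 𝔭 →
        b s * conj (x0.2.1 s) = b s' * conj (x0.2.1 s') := by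
      intro b hb
      have e := hmulR b _ hb (hPQ _ (hE x0 hx0).1)
      simpa using hcon _ e
    have hself := hprod _ (hE x0 hx0).1
    have hs' : x0.2.1 s' ≠ 0 := by
      intro h0
      rw [h0] at hself
      simp [hb0] at hself
    have hcs : conj (x0.2.1 s) ≠ 0 := by simpa using hb0
    have hcs' : conj (x0.2.1 s') ≠ 0 := by simpa using hs'
    refine hlink s s' hss ⟨conj (x0.2.1 s) / conj (x0.2.1 s'), div_ne_zero hcs hcs', ?_⟩
    intro x hx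
    refine ⟨(hcon _ (hA x hx)).symm, ?_, ?_⟩
    · rw [div_mul_eq_mul_div, eq_div_iff hcs', ← hprod _ (hE x hx).1, mul_comm]
    · have e := hprod _ (hQP _ (hE x hx).2)
      have e2 : x.2.2 s * x0.2.1 s = x.2.2 s' * x0.2.1 s' := by
        have e3 := congrArg conj e
        simpa using e3
      rw [inv_div]
      have e4 : x.2.2 s' = x.2.2 s * x0.2.1 s / x0.2.1 s' := by
        rw [eq_div_iff hs', e2]
      rw [e4, div_mul_eq_mul_div, div_eq_div_iff hs' hcs]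
      have e5 : x.2.2 s * (x0.2.1 s * conj (x0.2.1 s)) = x.2.2 s * (x0.2.1 s' * conj (x0.2.1 s')) := by
        rw [hself]
      linear_combination e5
  -- indicator functions
  have hind : ∀ s, ((0, Pi.single s 1, 0) : (S → ℂ) × (S → ℂ) × (S → ℂ)) ∈ 𝔭 := by
    intro s
    have key : ∀ F : Finset S, s ∉ F → ∃ b : S → ℂ,
        ((0, b, 0) : (S → ℂ) × (S → ℂ) × (S → ℂ)) ∈ 𝔭 ∧ b s ≠ 0 ∧ ∀ s' ∈ F, b s' = 0 := by
      intro F
      induction F using Finset.induction_on with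
      | empty =>
        intro _
        obtain ⟨x0, hx0, hb0⟩ := hne s
        exact ⟨x0.2.1, (hE x0 hx0).1, hb0, by simp⟩
      | insert s' F hs'F ih =>
        intro hs
        rw [Finset.mem_insert, not_or] at hs
        obtain ⟨b, hb, hbs, hbF⟩ := ih hs.2
        obtain ⟨a, ha, has⟩ := hsep s s' hs.1
        have ha' : ((a - fun _ => a s', 0, 0) : (S → ℂ) × (S → ℂ) × (S → ℂ)) ∈ 𝔭 := by
          have e := 𝔭.sub_mem ha (𝔭.smul_mem (a s') h1)
          convert e using 1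
          ext t <;> simp
        refine ⟨(a - fun _ => a s') * b, hmulP _ _ ha' hb, ?_, ?_⟩
        · simp only [Pi.mul_apply, Pi.sub_apply]
          exact mul_ne_zero (sub_ne_zero.2 has) hbs
        · intro t ht
          rcases Finset.mem_insert.1 ht with rfl | ht
          · simp
          · simp [hbF t ht]
    obtain ⟨b, hb, hbs, hb0⟩ := key (Finset.univ.erase s) (by simp)
    have e := 𝔭.smul_mem (b s)⁻¹ hb
    convert e using 1
    ext t
    · simp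
    · by_cases ht : t = s
      · subst ht
        simp [hbs]
      · have : b t = 0 := hb0 t (by simp [ht])
        simp [this, ht]
    · simp
  have hPall : ∀ b : S → ℂ, ((0, b, 0) : (S → ℂ) × (S → ℂ) × (S → ℂ)) ∈ 𝔭 := by
    intro b
    have e := 𝔭.sum_mem (t := Finset.univ) (fun s _ => 𝔭.smul_mem (b s) (hind s))
    convert e using 1
    refine Prod.ext ?_ (Prod.ext ?_ ?_)
    · ext t
      simp [Prod.fst_sum]
    · ext t
      simp [Prod.fst_sum, Prod.snd_sum, Finset.sum_apply, Pi.single_apply]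
    · ext t
      simp [Prod.snd_sum]
  have hQall : ∀ c : S → ℂ, ((0, 0, c) : (S → ℂ) × (S → ℂ) × (S → ℂ)) ∈ 𝔭 := by
    intro c
    have e := hPQ _ (hPall fun s => conj (c s))
    convert e using 1
    ext s <;> simp
  rw [Submodule.eq_top_iff']
  intro x
  have e1 := hmulR _ _ (hPall x.1) (hQall 1)
  have e := 𝔭.add_mem (𝔭.add_mem e1 (hPall x.2.1)) (hQall x.2.2)
  convert e using 1
  ext s <;> simp

end Pool.Agent.GG
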