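import Pool.Agent.Lib.GG.Rows

/-!
# Project G: assembly (helper39)
-/

set_option autoImplicit false

open scoped ComplexConjugate Matrix
open Complex Pool.Agent.HCM Pool.Agent.RAT

namespace Pool.Agent.GG

noncomputable section

namespace MainA

section

variable {S : Type} {M G : S → Type} {ι : Type} {K : ι → Type} [∀ i, Field (K i)] {N : ℕ}

open Classical in
/-- the function of words with the `A`-letters exactly at the positions in `Q` -/
def Lc (Q : Finset (Fin N)) (g : ({i // i ∈ Q} → AL M G) → ({i // i ∉ Q} → Idx K) → ℂ)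
    (t : Fin N → Lt M G K) : ℂ :=
  if h : ∀ i, (t i).isLeft = true ↔ i ∈ Q then
    g (fun i => (t i.1).getLeft ((h i.1).2 i.2))
      (fun i => (t i.1).getRight (by
        have h1 := fun h2 => i.2 ((h i.1).1 h2)
        cases h3 : t i.1 with
        | inl a => rw [h3] at h1; exact absurd rfl h1
        | inr a => rfl))
  else 0

theorem Lc_add (Q : Finset (Fin N)) (g g' : ({i // i ∈ Q} → AL M G) → ({i // i ∉ Q} → Idx K) → ℂ) :
    Lc Q (g + g') = Lc Q g + Lc Q g' := by
  funext t
  simp only [Lc, Pi.add_apply]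
  split_ifs <;> simp

theorem Lc_smul (Q : Finset (Fin N)) (c : ℚ)
    (g : ({i // i ∈ Q} → AL M G) → ({i // i ∉ Q} → Idx K) → ℂ) :
    Lc Q (c • g) = c • Lc Q g := by
  funext t
  simp only [Lc, Pi.smul_apply]
  split_ifs <;> simp

theorem Lc_zero (Q : Finset (Fin N)) :
    Lc Q (0 : ({i // i ∈ Q} → AL M G) → ({i // i ∉ Q} → Idx K) → ℂ) = 0 := by
  funext t
  simp only [Lc, Pi.zero_apply]
  split_ifs <;> rfl

theorem Lc_mix (Q : Finset (Fin N)) (g : ({i // i ∈ Q} → AL M G) → ({i // i ∉ Q} → Idx K) → ℂ)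
    (t : {i // i ∈ Q} → AL M G) (w : {i // i ∉ Q} → Idx K) : Lc Q g (mix Q t w) = g t w := by
  have h : ∀ i, (mix (G := G) Q t w i).isLeft = true ↔ i ∈ Q := by
    intro i
    by_cases hi : i ∈ Q
    · simp [mix, hi]
    · simp [mix, hi]
  rw [Lc, dif_pos h]
  congr 1
  · funext i
    have h2 : mix (G := G) Q t w i.1 = Sum.inl (t i) := by
      rw [mix, dif_pos i.2]
    simp only [h2, Sum.getLeft_inl]
  · funext i
    have h2 : mix (G := G) Q t w i.1 = Sum.inr (w i) := by
      rw [mix, dif_neg i.2]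
    simp only [h2, Sum.getRight_inr]

theorem Lc_of_not (Q : Finset (Fin N))
    (g : ({i // i ∈ Q} → AL M G) → ({i // i ∉ Q} → Idx K) → ℂ) (t : Fin N → Lt M G K)
    (h : ¬ ∀ i, (t i).isLeft = true ↔ i ∈ Q) : Lc Q g t = 0 := by
  rw [Lc, dif_neg h]

theorem sum_Lc (u : (Fin N → Lt M G K) → ℂ) :
    u = ∑ Q : Finset (Fin N), Lc Q (fun t w => u (mix Q t w)) := by
  funext t
  rw [Finset.sum_apply]
  set Q₀ : Finset (Fin N) := Finset.univ.filter fun i => (t i).isLeft = true with hQ
  have h0 : ∀ i, (t i).isLeft = true ↔ i ∈ Q₀ := by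
    intro i
    simp [hQ]
  rw [Finset.sum_eq_single Q₀]
  · rw [Lc, dif_pos h0]
    congr 1
    funext i
    by_cases hi : i ∈ Q₀
    · rw [mix, dif_pos hi]
      simp
    · rw [mix, dif_neg hi]
      simp
  · intro Q _ hne
    apply Lc_of_not
    intro h
    apply hne
    ext i
    rw [← h i, h0 i]
  · intro h
    exact absurd (Finset.mem_univ _) h

end

section

variable {Y : Type} {N : ℕ}

theorem alt_add (f g : (Fin N → Y) → ℂ) : alt (f + g) = alt f + alt g := by
  funext t
  simp only [alt, Pi.add_apply, mul_add, Finset.sum_add_distrib]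

theorem alt_smul (c : ℚ) (f : (Fin N → Y) → ℂ) : alt (c • f) = c • alt f := by
  funext t
  simp only [alt, Pi.smul_apply, Finset.smul_sum, mul_smul_comm]

theorem alt_zero : alt (0 : (Fin N → Y) → ℂ) = 0 := by
  funext t
  simp [alt]

theorem alt_sum {κ : Type} (s : Finset κ) (f : κ → (Fin N → Y) → ℂ) :
    alt (∑ i ∈ s, f i) = ∑ i ∈ s, alt (f i) := by
  classical
  induction s using Finset.induction_on with
  | empty => simp [alt_zero]
  | insert a s ha ih => rw [Finset.sum_insert ha, Finset.sum_insert ha, alt_add, ih]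

end

end MainA

open MainA

theorem ghx_of (hD : DECO) (hT : TERM) (hX : ALTX) (hG : GLIE) : GHX := by
  intro k l S Λ _ _ M G _ _ b ι _ K _ _ _ Φ hΦ hA R hR hC u hu
  have := Fintype.ofFinite ι
  have hs : IsSymp (M := M) (G := G) b := hA.elim id (hG S Λ M G b)
  have key : alt u ∈ Submodule.span ℚ {w | IsProd b Φ k l w} := by
    rw [sum_Lc u, alt_sum]
    refine Submodule.sum_mem _ fun Q _ => ?_
    have h1 := hD k l S Λ M G b ι K Φ R hΦ hs hR hC u hu Q
    refine Submodule.span_induction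
      (p := fun g _ => alt (Lc Q g) ∈ Submodule.span ℚ {w | IsProd b Φ k l w}) ?_ ?_ ?_ ?_ h1
    · rintro g ⟨j, hj, p, hp, v, hv, hvn, rfl⟩
      exact hT k l S Λ M G b ι K Φ hΦ Q j hj p hp v hv hvn _ (fun t w => Lc_mix Q _ t w)
        (fun t ht => Lc_of_not Q _ t ht)
    · simp only [Lc_zero, alt_zero]
      exact Submodule.zero_mem _
    · intro g g' _ _ h h'
      simp only [Lc_add, alt_add]
      exact Submodule.add_mem _ h h'
    · intro c g _ h
      simp only [Lc_smul, alt_smul]
      exact Submodule.smul_mem _ c h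
  have h2 := hX S Λ M G b ι K (2 * k + l) u (hR.rat hu)
  have h3 : u = ((2 * k + l).factorial : ℚ)⁻¹ • alt u := by
    rw [h2]
    funext t
    have h4 : ((2 * k + l).factorial : ℂ) ≠ 0 := by
      exact_mod_cast Nat.factorial_ne_zero _
    simp only [Pi.smul_apply, Algebra.smul_def, map_inv₀, map_natCast]
    field_simp
  rw [h3]
  exact Submodule.smul_mem _ _ key

end

end Pool.Agent.GG
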