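import Pool.Agent.Lib.GG.Rows

/-!
# Project G: row REPS (helper27)
-/

set_option autoImplicit false
set_option linter.unusedSimpArgs false

open scoped ComplexConjugate Matrix
open Complex Pool.Agent.HCM Pool.Agent.RAT

namespace Pool.Agent.GG

noncomputable section

section reps

variable {S Λ : Type} {M G : S → Type}

/-- the coordinates of the period vectors -/
def nv (b : Λ → Crd M G → ℂ) (i : Λ) : AL M G → ℂ := fun y => if y.2 then b i y.1 else conj (b i y.1)

lemma perA_eq [Fintype Λ] (b : Λ → Crd M G → ℂ) (y : AL M G) (x : Λ → ℚ) :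
    perA b y x = ∑ i, (x i : ℂ) * nv b i y := by
  unfold perA nv
  split_ifs with h
  · rfl
  · rw [map_sum]
    refine Finset.sum_congr rfl fun i _ => ?_
    rw [map_mul]
    congr 1
    exact map_ratCast (starRingEnd ℂ) (x i)

lemma nv_ind [Fintype Λ] (b : Module.Basis Λ ℝ (Crd M G → ℂ)) :
    LinearIndependent ℂ (nv (M := M) (G := G) b) := by
  rw [Fintype.linearIndependent_iff]
  intro c hc
  have h1 : ∀ p : Crd M G, ∑ i, c i * b i p = 0 := by
    intro p
    have := congrFun hc (p, true)
    simpa [nv, Finset.sum_apply] using this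
  have h2 : ∀ p : Crd M G, ∑ i, conj (c i) * b i p = 0 := by
    intro p
    have h := congrFun hc (p, false)
    have h3 : ∑ i, c i * conj (b i p) = 0 := by simpa [nv, Finset.sum_apply] using h
    have h4 := congrArg conj h3
    rw [map_sum, map_zero] at h4
    rw [← h4]
    refine Finset.sum_congr rfl fun i _ => ?_
    rw [map_mul, Complex.conj_conj]
  have hb := Fintype.linearIndependent_iff.1 b.linearIndependent
  have hre : ∀ i, (c i).re = 0 := by
    apply hb (fun i => (c i).re)
    funext p
    have h5 : ∑ i, ((c i).re : ℂ) * b i p = (∑ i, c i * b i p + ∑ i, conj (c i) * b i p) / 2 := by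
      rw [← Finset.sum_add_distrib, Finset.sum_div]
      refine Finset.sum_congr rfl fun i _ => ?_
      rw [Complex.re_eq_add_conj]
      ring
    rw [h1, h2, add_zero, zero_div] at h5
    simpa [Finset.sum_apply] using h5
  have him : ∀ i, (c i).im = 0 := by
    apply hb (fun i => (c i).im)
    funext p
    have h5 : ∑ i, ((c i).im : ℂ) * b i p =
        (∑ i, c i * b i p - ∑ i, conj (c i) * b i p) / (2 * I) := by
      rw [← Finset.sum_sub_distrib, Finset.sum_div]
      refine Finset.sum_congr rfl fun i _ => ?_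
      rw [Complex.im_eq_sub_conj]
      ring
    rw [h1, h2, sub_zero, zero_div] at h5
    simpa [Finset.sum_apply] using h5
  intro i
  exact Complex.ext (hre i) (him i)

variable [Fintype S] [∀ s, Fintype (M s)] [∀ s, Fintype (G s)]

lemma isRep_iff [Fintype Λ] [DecidableEq Λ] (b : Λ → Crd M G → ℂ) (X : Matrix Λ Λ ℚ)
    (Z : Matrix (AL M G) (AL M G) ℂ) :
    IsRep b X Z ↔ ∀ j, Z.mulVec (nv b j) = ∑ i, (X i j : ℂ) • nv b i := by
  unfold IsRep
  constructor
  · intro h j
    funext y
    have h1 := h y (Pi.single j 1)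
    rw [perA_eq] at h1
    simp only [perA_eq] at h1
    rw [Finset.sum_apply]
    simp only [Pi.smul_apply, smul_eq_mul]
    have e1 : ∀ i, (X.mulVec (Pi.single j (1 : ℚ))) i = X i j := by
      intro i
      simp [Matrix.mulVec, dotProduct, Pi.single_apply]
    have e2 : ∀ y', ∑ i, (((Pi.single j (1 : ℚ) : Λ → ℚ) i : ℚ) : ℂ) * nv b i y' = nv b j y' := by
      intro y'
      rw [Finset.sum_eq_single j]
      · simp
      · intro i _ hij
        simp [Pi.single_apply, hij]
      · simp
    simp only [e1, e2] at h1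
    rw [h1]
    rfl
  · intro h y x
    simp only [perA_eq]
    have e1 : ∑ y', Z y y' * ∑ i, (x i : ℂ) * nv b i y' = ∑ j, (x j : ℂ) * (Z.mulVec (nv b j)) y := by
      simp only [Matrix.mulVec, dotProduct, Finset.mul_sum]
      rw [Finset.sum_comm]
      refine Finset.sum_congr rfl fun j _ => Finset.sum_congr rfl fun y' _ => ?_
      ring
    rw [e1]
    have e2 : ∀ j, (Z.mulVec (nv b j)) y = ∑ i, (X i j : ℂ) * nv b i y := by
      intro j
      rw [h j, Finset.sum_apply]
      rfl
    have e3 : ∑ j, (x j : ℂ) * (Z.mulVec (nv b j)) y =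
        ∑ j, (x j : ℂ) * ∑ i, (X i j : ℂ) * nv b i y :=
      Finset.sum_congr rfl fun j _ => by rw [e2 j]
    rw [e3]
    simp only [Matrix.mulVec, dotProduct]
    push_cast
    simp only [Finset.sum_mul, Finset.mul_sum]
    rw [Finset.sum_comm]
    refine Finset.sum_congr rfl fun j _ => Finset.sum_congr rfl fun i _ => ?_
    ring

lemma card_AL [Fintype Λ] (b : Module.Basis Λ ℝ (Crd M G → ℂ)) :
    Fintype.card Λ = Module.finrank ℂ (AL M G → ℂ) := by
  have h1 : Module.finrank ℝ (Crd M G → ℂ) = Fintype.card Λ := Module.finrank_eq_card_basis b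
  rw [← h1, Module.finrank_pi, Module.finrank_pi_fintype]
  simp [Complex.finrank_real_complex, Finset.sum_const, Fintype.card_prod]

end reps

theorem rowREPS : REPS := by
  intro S Λ _ _ M G _ _ b
  classical
  rcases isEmpty_or_nonempty Λ with hΛ | hΛ
  · have hf := card_AL b
    have h0 : Fintype.card Λ = 0 := Fintype.card_eq_zero
    rw [h0, Module.finrank_pi] at hf
    have hA : IsEmpty (AL M G) := Fintype.card_eq_zero_iff.1 hf.symm
    refine ⟨fun Z => ?_, fun X => ⟨0, ?_, fun Z _ => ?_⟩⟩
    · have : Z = 0 := by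
        ext y
        exact hA.elim y
      rw [this]
      exact Submodule.zero_mem _
    · intro y
      exact hA.elim y
    · ext y
      exact hA.elim y
  obtain ⟨B, hB⟩ : ∃ B : Module.Basis Λ ℂ (AL M G → ℂ), ∀ i, B i = nv b i :=
    ⟨basisOfLinearIndependentOfCardEqFinrank (nv_ind b) (card_AL b), fun i => by simp⟩
  obtain ⟨Rp, hRp⟩ : ∃ Rp : Matrix Λ Λ ℚ → Matrix (AL M G) (AL M G) ℂ, ∀ X, Rp X =
      LinearMap.toMatrix' (B.constr ℂ (fun j => ∑ i, (X i j : ℂ) • nv b i)) := ⟨_, fun _ => rfl⟩
  have hrep : ∀ X, IsRep b X (Rp X) := by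
    intro X
    rw [isRep_iff]
    intro j
    rw [hRp, LinearMap.toMatrix'_mulVec, ← hB j, Module.Basis.constr_basis]
  have huniq : ∀ Z Z' : Matrix (AL M G) (AL M G) ℂ, (∀ j, Z.mulVec (nv b j) = Z'.mulVec (nv b j)) →
      Z = Z' := by
    intro Z Z' h
    have h1 : Matrix.toLin' Z = Matrix.toLin' Z' := by
      refine B.ext fun j => ?_
      rw [hB j, Matrix.toLin'_apply, Matrix.toLin'_apply]
      exact h j
    exact Matrix.toLin'.injective h1
  refine ⟨fun Z => ?_, fun X => ⟨Rp X, hrep X, fun Z hZ => ?_⟩⟩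
  · have hZ : Z = ∑ i, ∑ j, (B.repr (Z.mulVec (nv b j)) i) • Rp (Matrix.single i j 1) := by
      apply huniq
      intro j
      simp only [Matrix.sum_mulVec, Matrix.smul_mulVec]
      have e1 : ∀ i j', (Rp (Matrix.single i j' 1)).mulVec (nv b j) =
          if j' = j then nv b i else 0 := by
        intro i j'
        rw [(isRep_iff b _ _).1 (hrep _) j, Finset.sum_eq_single i]
        · by_cases h : j' = j
          · simp [h]
          · simp [h, Matrix.single_apply]
        · intro i' _ hi
          simp [Matrix.single_apply, Ne.symm hi]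
        · simp
      simp only [e1, smul_ite, smul_zero, Finset.sum_ite_eq', Finset.mem_univ, if_true]
      conv_lhs => rw [← B.sum_repr (Z.mulVec (nv b j))]
      refine Finset.sum_congr rfl fun i _ => ?_
      rw [hB i]
    rw [hZ]
    exact Submodule.sum_mem _ fun i _ => Submodule.sum_mem _ fun j _ =>
      Submodule.smul_mem _ _ (Submodule.subset_span ⟨_, hrep _⟩)
  · apply huniq
    intro j
    rw [(isRep_iff b _ _).1 hZ j, (isRep_iff b _ _).1 (hrep X) j]

end

end Pool.Agent.GG
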