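import Pool.Agent.Lib.GG.Stat

/-!
# Project G: the rows (helper39, design of helper35 and helper39)

Positions `P`, letters `AL M G` (forms on `A`), `Idx K` (forms on `B`), `Lt M G K` (both).
-/

set_option autoImplicit false

open scoped ComplexConjugate Matrix
open Complex Pool.Agent.HCM Pool.Agent.RAT

namespace Pool.Agent.GG

noncomputable section

/-! ### Functions of words in the letters of `A` -/

section core

variable {P Y : Type}

/-- `f` depends only on the letters at the positions in `Q`. -/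
def DepOn (Q : Finset P) (f : (P → Y) → ℂ) : Prop := ∀ t t', (∀ i ∈ Q, t i = t' i) → f t = f t'

/-- The matrix `Z` acts as a derivation at the positions in `Q`. -/
def der [Fintype Y] [DecidableEq P] (Q : Finset P) (Z : Matrix Y Y ℂ) (f : (P → Y) → ℂ) :
    (P → Y) → ℂ := fun t => ∑ i ∈ Q, ∑ y', Z (t i) y' * f (Function.update t i y')

variable {S : Type} {M G : S → Type}

/-- The number of letters of type `(0,1)` at the positions in `Q`. -/
def cntF (Q : Finset P) (t : P → AL M G) : ℕ := (Q.filter fun i => (t i).2 = false).card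

def partF (Q : Finset P) (m : ℕ) (f : (P → AL M G) → ℂ) : (P → AL M G) → ℂ :=
  fun t => if cntF Q t = m then f t else 0

/-- The contraction of the positions `i` and `j`. -/
def ct [DecidableEq P] [∀ s, Fintype (G s)] (s : S) (m m' : M s) (i j : P)
    (f : (P → AL M G) → ℂ) : (P → AL M G) → ℂ := fun t =>
  ∑ k, (f (Function.update (Function.update t i (⟨s, (m, k)⟩, true)) j (⟨s, (m', k)⟩, false)) -
    f (Function.update (Function.update t i (⟨s, (m, k)⟩, false)) j (⟨s, (m', k)⟩, true)))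

/-- All contractions of two positions in `Q` vanish. -/
def Trl [DecidableEq P] [∀ s, Fintype (G s)] (Q : Finset P) (f : (P → AL M G) → ℂ) : Prop :=
  ∀ i ∈ Q, ∀ j ∈ Q, i ≠ j → ∀ s (m m' : M s), ct s m m' i j f = 0

/-- The operator `Ω`. -/
def Om [DecidableEq P] [Fintype S] [∀ s, Fintype (M s)] [∀ s, Fintype (G s)] (Q : Finset P)
    (f : (P → AL M G) → ℂ) : (P → AL M G) → ℂ := fun t =>
  ∑ i ∈ Q, ∑ j ∈ Q.erase i, ∑ s, ∑ m, ∑ m', ps s m m' (t i) (t j) * ct s m m' i j f t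

/-- The span of the products of `j` invariants `ps` at disjoint pairs of positions in `Q`, times a
function of the other positions in `Q`. -/
def PJ [DecidableEq P] [∀ s, Fintype (G s)] (Q : Finset P) (j : ℕ) :
    Submodule ℂ ((P → AL M G) → ℂ) :=
  Submodule.span ℂ {f | ∃ e : Fin j × Fin 2 → P, Function.Injective e ∧ (∀ x, e x ∈ Q) ∧
    ∃ (s : Fin j → S) (m m' : ∀ r, M (s r)) (h : (P → AL M G) → ℂ),
      DepOn (Q \ Finset.univ.image e) h ∧
      f = fun t => (∏ r, ps (s r) (m r) (m' r) (t (e (r, 0))) (t (e (r, 1)))) * h t}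

end core

/-- (a) contraction and raising operators commute -/
def OPSA : Prop := ∀ (S : Type) [Fintype S] (M G : S → Type) [∀ s, Fintype (M s)]
  [∀ s, Fintype (G s)] (P : Type) [DecidableEq P] (Q : Finset P) (f : (P → AL M G) → ℂ) (i j : P),
  i ∈ Q → j ∈ Q → i ≠ j → ∀ (s' : S) (a c : G s') (s : S) (m m' : M s),
    ct s m m' i j (der Q (raise s' a c) f) = der ((Q.erase i).erase j) (raise s' a c) (ct s m m' i j f)

/-- (b) raising operators kill `ps` -/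
def OPSB : Prop := ∀ (S : Type) [Fintype S] (M G : S → Type) [∀ s, Fintype (M s)]
  [∀ s, Fintype (G s)] (P : Type) [DecidableEq P] (Q : Finset P) (h : (P → AL M G) → ℂ) (i j : P),
  i ∈ Q → j ∈ Q → i ≠ j → DepOn ((Q.erase i).erase j) h →
  ∀ (s' : S) (a c : G s') (s : S) (m m' : M s),
    der Q (raise s' a c) (fun t => ps s m m' (t i) (t j) * h t) =
      fun t => ps s m m' (t i) (t j) * der ((Q.erase i).erase j) (raise s' a c) h t

/-- (c), (d), (e) the gradings -/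
def OPSC : Prop := ∀ (S : Type) [Fintype S] (M G : S → Type) [∀ s, Fintype (M s)]
  [∀ s, Fintype (G s)] (P : Type) [DecidableEq P] (Q : Finset P) (f : (P → AL M G) → ℂ) (n : ℕ),
  (∀ (s' : S) (a c : G s'), partF Q n (der Q (raise s' a c) f) =
    der Q (raise s' a c) (partF Q (n + 1) f)) ∧
  ∀ i ∈ Q, ∀ j ∈ Q, i ≠ j → ∀ (s : S) (m m' : M s),
    partF ((Q.erase i).erase j) n (ct s m m' i j f) = ct s m m' i j (partF Q (n + 1) f) ∧
    partF Q (n + 1) (fun t => ps s m m' (t i) (t j) * f t) =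
      fun t => ps s m m' (t i) (t j) * partF ((Q.erase i).erase j) n f t

/-- the energy identity -/
def ENERGY : Prop := ∀ (S : Type) [Fintype S] (M G : S → Type) [∀ s, Fintype (M s)]
  [∀ s, Fintype (G s)] (P : Type) [Fintype P] [DecidableEq P] (Q : Finset P)
  (f : (P → AL M G) → ℂ), Trl Q f → (∀ s (a c : G s), der Q (raise s a c) f = 0) →
    ∀ t, (∃ i ∈ Q, (t i).2 = false) → f t = 0

/-- the kernel of `Ω` -/
def OMG : Prop := ∀ (S : Type) [Fintype S] (M G : S → Type) [∀ s, Fintype (M s)]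
  [∀ s, Fintype (G s)] (P : Type) [Fintype P] [DecidableEq P] (Q : Finset P)
  (f : (P → AL M G) → ℂ), Om Q f = 0 → Trl Q f

def CORE : Prop := ∀ (S : Type) [Fintype S] (M G : S → Type) [∀ s, Fintype (M s)]
  [∀ s, Fintype (G s)] (P : Type) [Fintype P] [DecidableEq P] (j : ℕ) (Q : Finset P)
  (U : Submodule ℂ ((P → AL M G) → ℂ)), (∀ f ∈ U, DepOn Q f) →
  (∀ f ∈ U, ∀ s (a c : G s), der Q (raise s a c) f ∈ U) → (∀ f ∈ U, ∀ n, partF Q n f ∈ U) →
  (∀ f ∈ U, ∀ t, cntF Q t < j → f t = 0) → U ≤ PJ Q j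

/-! ### Linear algebra over `ℚ ⊂ ℂ` -/

section lin

variable {F : Type} [AddCommGroup F] [Module ℂ F] [Module ℚ F] [IsScalarTower ℚ ℂ F]

/-- Linear independence over `ℚ` in `W` implies linear independence over `ℂ`. -/
def QInd (W : Submodule ℚ F) : Prop :=
  ∀ (n : ℕ) (v : Fin n → F), (∀ i, v i ∈ W) → LinearIndependent ℚ v → LinearIndependent ℂ v

end lin

def DESC : Prop := ∀ (F : Type) [AddCommGroup F] [Module ℂ F] [Module ℚ F] [IsScalarTower ℚ ℂ F]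
  (W R : Submodule ℚ F), QInd W → R ≤ W → ∀ (n : ℕ) (c : Fin n → ℂ) (v : Fin n → F),
  LinearIndependent ℚ c → (∀ i, v i ∈ W) → ∑ i, c i • v i ∈ Submodule.span ℂ (R : Set F) →
  ∀ i, v i ∈ R

def EXPA : Prop := ∀ (F : Type) [AddCommGroup F] [Module ℂ F] [Module ℚ F] [IsScalarTower ℚ ℂ F]
  (R : Submodule ℚ F) (z : F), z ∈ Submodule.span ℂ (R : Set F) →
  ∃ (n : ℕ) (c : Fin n → ℂ) (v : Fin n → F), LinearIndependent ℚ c ∧ (∀ i, v i ∈ R) ∧
    z = ∑ i, c i • v i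

/-- a family of rational tensors is `ℂ`-independent as soon as it is in the `ℚ`-span of a
`ℂ`-independent family -/
def QIND : Prop := ∀ (F κ : Type) [AddCommGroup F] [Module ℂ F] [Module ℚ F]
  [IsScalarTower ℚ ℂ F] (β : κ → F), LinearIndependent ℂ β →
  QInd (Submodule.span ℚ (Set.range β))

/-- filtration lemma -/
def PARTC : Prop := ∀ (X Y : Type) (WA : ℕ → Submodule ℚ (X → ℂ)) (WB : Submodule ℚ (Y → ℂ))
  (k : ℕ) (n : Y → ℕ) (f : X → Y → ℂ), QInd (WA 0) → Antitone WA →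
  f ∈ Submodule.span ℚ {g : X → Y → ℂ | ∃ p ∈ WA 0, ∃ v ∈ WB, g = fun x y => p x * v y} →
  (∀ y, (fun x => f x y) ∈ Submodule.span ℂ (WA (k - n y) : Set (X → ℂ))) →
  f ∈ Submodule.span ℚ {g : X → Y → ℂ | ∃ j ≤ k, ∃ p ∈ WA j, ∃ v ∈ WB,
    (∀ y, v y ≠ 0 → k - j ≤ n y) ∧ g = fun x y => p x * v y}

/-! ### Rational tensors -/

section rat

variable {P Y V : Type}

/-- The rational tensors at the positions in `Q`, for the periods `p`. -/
def RTn (p : Y → V → ℂ) (Q : Finset P) : Submodule ℚ ((P → Y) → ℂ) :=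
  Submodule.span ℚ (Set.range fun (x : P → V) (t : P → Y) => ∏ i ∈ Q, p (t i) (x i))

/-- `p` is the period pairing of the `ℚ`-vector space `V` with the basis `Y` of the dual of
`V ⊗ ℂ`. -/
def IsPer [AddCommGroup V] [Module ℚ V] (p : Y → V → ℂ) : Prop :=
  (∀ y x x', p y (x + x') = p y x + p y x') ∧ (∀ y (q : ℚ) x, p y (q • x) = q * p y x) ∧
  ∃ (E : Type) (_ : Fintype E) (β : E → V), ⊤ ≤ Submodule.span ℚ (Set.range β) ∧
    LinearIndependent ℂ fun (e : E) (y : Y) => p y (β e)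

end rat

def PERQ : Prop := ∀ (P Y V : Type) [Fintype P] [Finite Y] [AddCommGroup V] [Module ℚ V]
  (p : Y → V → ℂ) (Q : Finset P), IsPer p → QInd (RTn p Q)

def PERA : Prop := ∀ (S Λ : Type) [Fintype S] [Fintype Λ] (M G : S → Type) [∀ s, Fintype (M s)]
  [∀ s, Fintype (G s)] (b : Module.Basis Λ ℝ (Crd M G → ℂ)), IsPer (perA (M := M) (G := G) b)

/-- the periods of `B` -/
def perB {ι : Type} {K : ι → Type} [∀ i, Field (K i)] (q : Idx K) (x : ∀ i, K i) : ℂ := q.2 (x q.1)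

def PERB : Prop := ∀ (ι : Type) [Finite ι] (K : ι → Type) [∀ i, Field (K i)]
  [∀ i, NumberField (K i)], IsPer (perB (K := K))

def PERX : Prop := ∀ (S Λ : Type) [Fintype S] [Fintype Λ] (M G : S → Type) [∀ s, Fintype (M s)]
  [∀ s, Fintype (G s)] (b : Module.Basis Λ ℝ (Crd M G → ℂ)) (ι : Type) [Finite ι]
  (K : ι → Type) [∀ i, Field (K i)] [∀ i, NumberField (K i)],
  IsPer (per (M := M) (G := G) (K := K) b)

/-! ### Stability under the raising operators -/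

open Classical in
/-- the matrix of the multiplication by `y` on `H_1(B, ℚ)` -/
def cmM {ι : Type} {K : ι → Type} [∀ i, Field (K i)] (y : ∀ i, K i) :
    Matrix (Idx K) (Idx K) ℂ := Matrix.diagonal fun q => q.2 (y q.1)

/-- `H_1(A, ℚ)` endomorphisms act on rational tensors (letters of `A × B`, all positions) -/
def ACT : Prop := ∀ (S Λ : Type) [Fintype S] [Fintype Λ] (M G : S → Type) [∀ s, Fintype (M s)]
  [∀ s, Fintype (G s)] (b : Λ → Crd M G → ℂ) (ι : Type) [Fintype ι]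
  (K : ι → Type) [∀ i, Field (K i)] [∀ i, NumberField (K i)] (T : Type) [Fintype T]
  [DecidableEq T] (X : Matrix Λ Λ ℚ) (Z : Matrix (AL M G) (AL M G) ℂ) (y : ∀ i, K i),
  IsRep b X Z → ∀ f ∈ RTn (per (M := M) (G := G) (K := K) b) (Finset.univ : Finset T),
    der Finset.univ (Matrix.fromBlocks Z 0 0 (cmM y)) f ∈
      RTn (per (M := M) (G := G) (K := K) b) (Finset.univ : Finset T)

/-- every matrix is a `ℂ`-combination of rational ones; `h` is `(hM, ±1)` -/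
def REPS : Prop := ∀ (S Λ : Type) [Fintype S] [Fintype Λ] (M G : S → Type) [∀ s, Fintype (M s)]
  [∀ s, Fintype (G s)] (b : Module.Basis Λ ℝ (Crd M G → ℂ)),
  (∀ Z : Matrix (AL M G) (AL M G) ℂ,
    Z ∈ Submodule.span ℂ {Z' | ∃ X : Matrix Λ Λ ℚ, IsRep (M := M) (G := G) b X Z'}) ∧
  ∀ X : Matrix Λ Λ ℚ, ∃! Z : Matrix (AL M G) (AL M G) ℂ, IsRep b X Z

def STAB : Prop := ∀ (S Λ : Type) [Fintype S] [Fintype Λ] (M G : S → Type) [∀ s, Fintype (M s)]
  [∀ s, Fintype (G s)] (b : Module.Basis Λ ℝ (Crd M G → ℂ)) (ι : Type) [Fintype ι]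
  (K : ι → Type) [∀ i, Field (K i)] [∀ i, NumberField (K i)] (Φ : ∀ i, Set (K i →+* ℂ))
  (T : Type) [Fintype T] [DecidableEq T] (R : Submodule ℚ ((T → Lt M G K) → ℂ)),
  IsSymp b → IsSub b Φ R → ∀ s (a c : G s), ∀ u ∈ Submodule.span ℂ (R : Set ((T → Lt M G K) → ℂ)),
    der Finset.univ (Matrix.fromBlocks (raise s a c) 0 0 0) u ∈
      Submodule.span ℂ (R : Set ((T → Lt M G K) → ℂ))

/-! ### From the core lemma to the decomposition -/

section mix

variable {P S : Type} {M G : S → Type} {ι : Type} {K : ι → Type} [∀ i, Field (K i)]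

/-- The word with the letters `t` at the positions in `Q` and `w` at the others. -/
def mix [DecidableEq P] (Q : Finset P) (t : {i // i ∈ Q} → AL M G) (w : {i // i ∉ Q} → Idx K) :
    P → Lt M G K := fun i => if h : i ∈ Q then Sum.inl (t ⟨i, h⟩) else Sum.inr (w ⟨i, h⟩)

/-- The number of letters of type `(0,1)`. -/
def nF (Φ : ∀ i, Set (K i →+* ℂ)) (w : P → Idx K) : ℕ := {i | (w i).2 ∉ Φ (w i).1}.ncard

/-- The number of letters of type `(1,0)`. -/
def nT (Φ : ∀ i, Set (K i →+* ℂ)) (w : P → Idx K) : ℕ := {i | (w i).2 ∈ Φ (w i).1}.ncard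

variable {Λ : Type} [Fintype Λ]

/-- The rational form of `PJ`. -/
def PJQ [DecidableEq P] (b : Λ → Crd M G → ℂ) (Q : Finset P) (j : ℕ) :
    Submodule ℚ ((P → AL M G) → ℂ) :=
  Submodule.span ℚ {f | ∃ e : Fin j × Fin 2 → P, Function.Injective e ∧ (∀ x, e x ∈ Q) ∧
    ∃ (δ : Fin j → AL M G → AL M G → ℂ) (x : P → Λ → ℚ), (∀ r, δ r ∈ RT11 b) ∧
      f = fun t => (∏ r, δ r (t (e (r, 0))) (t (e (r, 1)))) *
        ∏ i ∈ Q \ Finset.univ.image e, perA b (t i) (x i)}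

end mix

/-- `PJ` is defined over `ℚ` -/
def PSQ : Prop := ∀ (S Λ : Type) [Fintype S] [Fintype Λ] (M G : S → Type) [∀ s, Fintype (M s)]
  [∀ s, Fintype (G s)] (b : Module.Basis Λ ℝ (Crd M G → ℂ)) (P : Type) [Fintype P]
  [DecidableEq P] (Q : Finset P) (j : ℕ), IsSymp b →
  PJ Q j ≤ Submodule.span ℂ (PJQ (M := M) (G := G) b Q j : Set ((P → AL M G) → ℂ)) ∧
  PJQ (M := M) (G := G) b Q (j + 1) ≤ PJQ b Q j ∧
  RTn (perA (M := M) (G := G) b) Q ≤ PJQ b Q 0 ∧
  PJQ (M := M) (G := G) b Q j ≤ RTn (perA b) Q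

/-- application of the core lemma to a rational sub-Hodge structure of coniveau `k` -/
def COREQ : Prop := ∀ (k l : ℕ) (S Λ : Type) [Fintype S] [Fintype Λ] (M G : S → Type)
  [∀ s, Fintype (M s)] [∀ s, Fintype (G s)] (b : Module.Basis Λ ℝ (Crd M G → ℂ)) (ι : Type)
  [Fintype ι] (K : ι → Type) [∀ i, Field (K i)] [∀ i, NumberField (K i)]
  (Φ : ∀ i, Set (K i →+* ℂ)) (R : Submodule ℚ ((Fin (2 * k + l) → Lt M G K) → ℂ)),
  IsSymp b → IsSub b Φ R → IsCon k l Φ R → ∀ u ∈ R, ∀ (Q : Finset (Fin (2 * k + l)))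
  (w : {i // i ∉ Q} → Idx K), (fun t => u (mix Q t w)) ∈ PJ Finset.univ (k - nF Φ w)

/-- a rational tensor, restricted to the words with `A`-letters exactly at `Q` -/
def MIXR : Prop := ∀ (S Λ : Type) [Fintype Λ] (M G : S → Type) (b : Λ → Crd M G → ℂ) (ι : Type)
  (K : ι → Type) [∀ i, Field (K i)] (P : Type) [Fintype P] [DecidableEq P] (Q : Finset P),
  ∀ u ∈ RTn (per (M := M) (G := G) (K := K) b) (Finset.univ : Finset P),
  (fun t w => u (mix Q t w)) ∈ Submodule.span ℚ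
    {g : ({i // i ∈ Q} → AL M G) → ({i // i ∉ Q} → Idx K) → ℂ |
      ∃ p ∈ RTn (perA b) Finset.univ, ∃ v ∈ RTn (perB (K := K)) Finset.univ,
        g = fun x y => p x * v y}

/-- torus classes are rational tensors -/
def HXR : Prop := ∀ (S Λ : Type) [Fintype Λ] (M G : S → Type) (b : Λ → Crd M G → ℂ) (ι : Type)
  (K : ι → Type) [∀ i, Field (K i)] (T : Type) [Fintype T] [DecidableEq T],
  HX (M := M) (G := G) K b T ≤ RTn (per b) Finset.univ

/-- the decomposition of `u`, for a fixed set `Q` of `A`-positions -/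
def DECO : Prop := ∀ (k l : ℕ) (S Λ : Type) [Fintype S] [Fintype Λ] (M G : S → Type)
  [∀ s, Fintype (M s)] [∀ s, Fintype (G s)] (b : Module.Basis Λ ℝ (Crd M G → ℂ)) (ι : Type)
  [Fintype ι] (K : ι → Type) [∀ i, Field (K i)] [∀ i, NumberField (K i)]
  [∀ i, NumberField.IsCMField (K i)] (Φ : ∀ i, Set (K i →+* ℂ))
  (R : Submodule ℚ ((Fin (2 * k + l) → Lt M G K) → ℂ)), (∀ i, IsCMType (Φ i)) →
  IsSymp b → IsSub b Φ R → IsCon k l Φ R → ∀ u ∈ R, ∀ Q : Finset (Fin (2 * k + l)),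
  (fun t w => u (mix Q t w)) ∈ Submodule.span ℚ
    {g : ({i // i ∈ Q} → AL M G) → ({i // i ∉ Q} → Idx K) → ℂ | ∃ j ≤ k,
      ∃ p ∈ PJQ (M := M) (G := G) b Finset.univ j, ∃ v ∈ RTn (perB (K := K)) Finset.univ,
      (∀ w, v w ≠ 0 → k - j ≤ nF Φ w ∧ k - j ≤ nT Φ w) ∧ g = fun x y => p x * v y}

/-! ### Antisymmetrisation -/

/-- antisymmetrise a block first -/
def ALTB : Prop := ∀ (Y R : Type) (m N : ℕ) (e : Fin m ⊕ R ≃ Fin N) (f : (Fin m → Y) → ℂ)
  (g : (R → Y) → ℂ),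
  alt (fun t : Fin N → Y => alt f (fun i => t (e (Sum.inl i))) * g (fun i => t (e (Sum.inr i)))) =
    fun t => (m.factorial : ℂ) *
      alt (fun t : Fin N → Y => f (fun i => t (e (Sum.inl i))) * g (fun i => t (e (Sum.inr i)))) t

/-- the classes in `HX` are alternating -/
def ALTX : Prop := ∀ (S Λ : Type) [Fintype Λ] (M G : S → Type) (b : Λ → Crd M G → ℂ) (ι : Type)
  (K : ι → Type) [∀ i, Field (K i)] (N : ℕ), ∀ u ∈ HX (M := M) (G := G) K b (Fin N),
  alt u = fun t => (N.factorial : ℂ) * u t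

/-- the `B`-part: the antisymmetrisation of a rational tensor of coniveau `c` is algebraic -/
def CMV : Prop := ∀ (ι : Type) [Finite ι] (K : ι → Type) [∀ i, Field (K i)]
  [∀ i, NumberField (K i)] [∀ i, NumberField.IsCMField (K i)] (Φ : ∀ i, Set (K i →+* ℂ))
  (c l' : ℕ), (∀ i, IsCMType (Φ i)) →
  ∀ v ∈ RTn (perB (K := K)) (Finset.univ : Finset (Fin (2 * c + l'))),
  (∀ w, v w ≠ 0 → c ≤ nF Φ w ∧ c ≤ nT Φ w) →
  IsCM Φ c l' (alt v)

/-- the terms of the decomposition, antisymmetrised, are products -/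
def TERM : Prop := ∀ (k l : ℕ) (S Λ : Type) [Fintype S] [Fintype Λ] (M G : S → Type)
  [∀ s, Fintype (M s)] [∀ s, Fintype (G s)] (b : Module.Basis Λ ℝ (Crd M G → ℂ)) (ι : Type)
  [Fintype ι] (K : ι → Type) [∀ i, Field (K i)] [∀ i, NumberField (K i)]
  [∀ i, NumberField.IsCMField (K i)] (Φ : ∀ i, Set (K i →+* ℂ)), (∀ i, IsCMType (Φ i)) →
  ∀ (Q : Finset (Fin (2 * k + l))) (j : ℕ), j ≤ k →
  ∀ p ∈ PJQ (P := {i // i ∈ Q}) (M := M) (G := G) b Finset.univ j,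
  ∀ v ∈ RTn (P := {i // i ∉ Q}) (perB (K := K)) Finset.univ,
  (∀ w, v w ≠ 0 → k - j ≤ nF Φ w ∧ k - j ≤ nT Φ w) →
  ∀ f : (Fin (2 * k + l) → Lt M G K) → ℂ, (∀ t w, f (mix Q t w) = p t * v w) →
  (∀ t, (¬ ∀ i, (t i).isLeft = true ↔ i ∈ Q) → f t = 0) →
  alt f ∈ Submodule.span ℚ {w | IsProd b Φ k l w}

/-! ### `GL₂`-type -/

/-- for `GL₂`-type the Hodge Lie algebra is as large as possible -/
def GLIE : Prop := ∀ (S Λ : Type) [Fintype S] [Fintype Λ] (M G : S → Type) [∀ s, Fintype (M s)]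
  [∀ s, Fintype (G s)] (b : Module.Basis Λ ℝ (Crd M G → ℂ)), IsGL2 (M := M) (G := G) b → IsSymp (M := M) (G := G) b

/-- the elementary lemma on Lie subalgebras of `∏ₛ 𝔰𝔩₂(ℂ)`: `𝔭` is given by its elements
`α H + β E + γ F`, `α β γ : S → ℂ` -/
def LIE2 : Prop := ∀ (S : Type) [Fintype S] (𝔭 : Submodule ℂ ((S → ℂ) × (S → ℂ) × (S → ℂ))),
  ((1, 0, 0) ∈ 𝔭) →
  (∀ x ∈ 𝔭, ∀ y ∈ 𝔭, (x.2.1 * y.2.2 - x.2.2 * y.2.1, 2 * (x.1 * y.2.1 - x.2.1 * y.1),
    2 * (x.2.2 * y.1 - x.1 * y.2.2)) ∈ 𝔭) →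
  (∀ x ∈ 𝔭, (fun s => -conj (x.1 s), fun s => conj (x.2.2 s), fun s => conj (x.2.1 s)) ∈ 𝔭) →
  (∀ s, ∃ x ∈ 𝔭, x.2.1 s ≠ 0) →
  (∀ s s', s ≠ s' → ¬ ∃ c : ℂ, c ≠ 0 ∧ ∀ x ∈ 𝔭, x.1 s' = x.1 s ∧ x.2.1 s' = c * x.2.1 s ∧
    x.2.2 s' = c⁻¹ * x.2.2 s) →
  𝔭 = ⊤

end

end Pool.Agent.GG
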