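import Pool.Agent.Lib.RAT.GQ

/-!
# The generalized Hodge conjecture for `A × B`, `A` of symplectic type, `B` of CM type: statement

`A = ℂ^P / ∑ ℤ b_i`, `P = Σ s, M s × G s`, `b` an `ℝ`-basis of `ℂ^P`.  `B` is the product of the tori
of CM type of `Pool.Agent.Lib.HCM.Stat`.  The constant one-forms (letters) are
`(p, true) = dz_p`, `(p, false) = conj dz_p` on `A` and `(i, τ)` on `B`.  A class in
`H_m(A × B, ℂ)` is given by its pairings with the forms `⋀ₐ (t a)`, that is by a function of the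
word `t` of letters.
-/

set_option autoImplicit false

open scoped ComplexConjugate Matrix
open Complex Pool.Agent.HCM Pool.Agent.RAT

namespace Pool.Agent.GG

noncomputable section

/-- The coordinates of `A`. -/
abbrev Crd {S : Type} (M G : S → Type) : Type := Σ s, M s × G s

/-- The constant one-forms on `A`: `(p, true) = dz_p` and `(p, false) = conj dz_p`. -/
abbrev AL {S : Type} (M G : S → Type) : Type := Crd M G × Bool

section torus

variable {S Λ : Type} {M G : S → Type} [Fintype Λ]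

/-- The period of a constant one-form on `A` over the loop `∑ x_i b_i`. -/
def perA (b : Λ → Crd M G → ℂ) (y : AL M G) (x : Λ → ℚ) : ℂ :=
  if y.2 then ∑ i, (x i : ℂ) * b i y.1 else conj (∑ i, (x i : ℂ) * b i y.1)

variable {ι : Type} {K : ι → Type} [∀ i, Field (K i)]

/-- The constant one-forms on `A × B`. -/
abbrev Lt (M G : S → Type) {ι : Type} (K : ι → Type) [∀ i, Field (K i)] : Type := AL M G ⊕ Idx K

/-- `H_1(A × B, ℚ)`. -/
abbrev Lp (Λ : Type) {ι : Type} (K : ι → Type) : Type := (Λ → ℚ) × (∀ i, K i)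

/-- The period of a constant one-form on `A × B`. -/
def per (b : Λ → Crd M G → ℂ) (y : Lt M G K) (x : Lp Λ K) : ℂ :=
  Sum.elim (fun a => perA b a x.1) (fun q => q.2 (x.2 q.1)) y

/-- The homology class of the real torus spanned by the loops `x c`, `c : T`. -/
def torX {T : Type} [Fintype T] [DecidableEq T] (b : Λ → Crd M G → ℂ) (x : T → Lp Λ K)
    (t : T → Lt M G K) : ℂ :=
  Matrix.det (Matrix.of fun a c => per b (t a) (x c))

variable (K) in
/-- `H_m(A × B, ℚ)`, `m` the number of elements of `T`. -/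
def HX (b : Λ → Crd M G → ℂ) (T : Type) [Fintype T] [DecidableEq T] :
    Submodule ℚ ((T → Lt M G K) → ℂ) := Submodule.span ℚ (Set.range (torX b))

variable (K) in
/-- `H_m(A, ℚ)` in `H_m(A × B, ℚ)`. -/
def HA (b : Λ → Crd M G → ℂ) (T : Type) [Fintype T] [DecidableEq T] :
    Submodule ℚ ((T → Lt M G K) → ℂ) :=
  Submodule.span ℚ (Set.range fun x : T → Λ → ℚ => torX b fun c => ((x c, 0) : Lp Λ K))

/-- The letter is of type `(1,0)`. -/
def IsT (Φ : ∀ i, Set (K i →+* ℂ)) (y : Lt M G K) : Prop :=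
  Sum.elim (fun a => a.2 = true) (fun q => q.2 ∈ Φ q.1) y

/-- The number of letters of type `(1,0)`. -/
def cntT {T : Type} (Φ : ∀ i, Set (K i →+* ℂ)) (t : T → Lt M G K) : ℕ := {a | IsT Φ (t a)}.ncard

open Classical in
/-- The part of `u` on the words with exactly `p` letters of type `(1,0)`. -/
def part {T : Type} (Φ : ∀ i, Set (K i →+* ℂ)) (p : ℕ) (u : (T → Lt M G K) → ℂ) :
    (T → Lt M G K) → ℂ := fun t => if cntT Φ t = p then u t else 0

/-- `R` is a rational sub-Hodge structure of `H_m(A × B)`. -/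
structure IsSub {T : Type} [Fintype T] [DecidableEq T] (b : Λ → Crd M G → ℂ)
    (Φ : ∀ i, Set (K i →+* ℂ)) (R : Submodule ℚ ((T → Lt M G K) → ℂ)) : Prop where
  rat : R ≤ HX K b T
  graded : ∀ u ∈ R, ∀ p, part Φ p u ∈ Submodule.span ℂ (R : Set ((T → Lt M G K) → ℂ))

/-- `R`, in degree `2k + l`, is of coniveau `k`: all its Hodge types `(p, q)` satisfy
`k ≤ p, q`. -/
def IsCon (k l : ℕ) (Φ : ∀ i, Set (K i →+* ℂ))
    (R : Submodule ℚ ((Fin (2 * k + l) → Lt M G K) → ℂ)) : Prop :=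
  ∀ u ∈ R, ∀ t, ¬ (k ≤ cntT Φ t ∧ cntT Φ t ≤ k + l) → u t = 0

/-- Antisymmetrisation (`m!` times the Pontryagin product of the factors). -/
def alt {Y : Type} {m : ℕ} (f : (Fin m → Y) → ℂ) (t : Fin m → Y) : ℂ :=
  ∑ σ : Equiv.Perm (Fin m), ((Equiv.Perm.sign σ : ℤ) : ℂ) * f (t ∘ σ)

open Classical in
/-- A class on `B`, as a class on `A × B`. -/
def extB {T : Type} (v : (T → Idx K) → ℂ) (t : T → Lt M G K) : ℂ :=
  if h : ∀ i, (t i).isRight then v fun i => (t i).getRight (h i) else 0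

/-- `v`, of degree `2c + l'` on `B`, comes from an algebraic subset of `B` of dimension `c + l'`:
it is rational, and for `c + l' > 0` it is a contraction as in `IsContr`. -/
def IsCM (Φ : ∀ i, Set (K i →+* ℂ)) (c l' : ℕ) (v : (Fin (2 * c + l') → Idx K) → ℂ) : Prop :=
  v ∈ HT K (Fin (2 * c + l')) ∧
  (0 < c + l' → ∃ (E : Type) (_ : Field E) (_ : NumberField E) (_ : NumberField.IsCMField E)
    (ι' : Type) (_ : Fintype ι') (Ψ : ι' → Set (E →+* ℂ)), (∀ d, IsCMType (Ψ d)) ∧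
    IsContr Φ Ψ c l' v)

/-- `w`, of degree `2k + l`, is the Pontryagin product of `j` rational classes `δ r` of type `(1,1)`
in `H_2(A)`, of `a` loops `x i` in `A` and of a class `v` as in `IsCM`, of degree `2c + l'` on `B`,
`k = j + c`, `l = a + l'`.  So `w` comes from an algebraic subset of `A × B` of dimension
`j + a + (c + l') = k + l`. -/
def IsProd (b : Λ → Crd M G → ℂ) (Φ : ∀ i, Set (K i →+* ℂ)) (k l : ℕ)
    (w : (Fin (2 * k + l) → Lt M G K) → ℂ) : Prop :=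
  ∃ (j c a l' : ℕ) (e : (Fin j × Fin 2) ⊕ (Fin a ⊕ Fin (2 * c + l')) ≃ Fin (2 * k + l))
    (δ : Fin j → (Fin 2 → Lt M G K) → ℂ) (x : Fin a → Λ → ℚ)
    (v : (Fin (2 * c + l') → Idx K) → ℂ),
    j + c = k ∧ a + l' = l ∧
    (∀ r, δ r ∈ HA K b (Fin 2) ∧ ∀ t, cntT Φ t ≠ 1 → δ r t = 0) ∧
    IsCM Φ c l' v ∧
    w = alt fun t => (∏ r, δ r fun i => t (e (Sum.inl (r, i)))) *
      (∏ i, per b (t (e (Sum.inr (Sum.inl i)))) (x i, 0)) *
      extB v fun i => t (e (Sum.inr (Sum.inr i)))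

end torus

section symp

variable {S Λ : Type} {M G : S → Type} [Fintype Λ]

/-- The matrix `Z` (in the basis of constant one-forms) of the endomorphism `X` of `H_1(A, ℚ)`. -/
def IsRep [Fintype S] [∀ s, Fintype (M s)] [∀ s, Fintype (G s)] (b : Λ → Crd M G → ℂ) (X : Matrix Λ Λ ℚ) (Z : Matrix (AL M G) (AL M G) ℂ) : Prop :=
  ∀ y x, perA b y (X.mulVec x) = ∑ y', Z y y' * perA b y' x

open Classical in
/-- The Hodge structure: `h = 1` on the forms of type `(1,0)`, `h = -1` on those of type `(0,1)`. -/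
def hM : Matrix (AL M G) (AL M G) ℂ := Matrix.diagonal fun y => if y.2 then 1 else -1

open Classical in
/-- The raising operators of `𝔰𝔭(V_s) ⊗ 1`, `H_1(A, ℂ) = ⨁ₛ V_s ⊗ ℂ^(M s)`, `V_s` with the basis
`(G s) × {true, false}`. -/
def raise (s : S) (a c : G s) : Matrix (AL M G) (AL M G) ℂ := Matrix.of fun y y' =>
  (if ∃ m, y = (⟨s, (m, c)⟩, true) ∧ y' = (⟨s, (m, a)⟩, false) then 1 else 0) +
  (if ∃ m, y = (⟨s, (m, a)⟩, true) ∧ y' = (⟨s, (m, c)⟩, false) then 1 else 0)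

open Classical in
/-- The invariant of `𝔰𝔭(V_s)` in `(V_s ⊗ m) ⊗ (V_s ⊗ m')`. -/
def ps [∀ s, Fintype (G s)] (s : S) (m m' : M s) (y y' : AL M G) : ℂ :=
  ∑ k, ((if y = (⟨s, (m, k)⟩, true) ∧ y' = (⟨s, (m', k)⟩, false) then 1 else 0) -
    (if y = (⟨s, (m, k)⟩, false) ∧ y' = (⟨s, (m', k)⟩, true) then 1 else 0))

/-- The elements of `H_1(A, ℚ) ⊗ H_1(A, ℚ)`. -/
def RT2 (b : Λ → Crd M G → ℂ) : Submodule ℚ (AL M G → AL M G → ℂ) :=
  Submodule.span ℚ (Set.range fun x : (Λ → ℚ) × (Λ → ℚ) => fun y y' =>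
    perA b y x.1 * perA b y' x.2)

/-- The elements of type `(1,1)` of `H_1(A, ℚ) ⊗ H_1(A, ℚ)`. -/
def RT11 (b : Λ → Crd M G → ℂ) : Set (AL M G → AL M G → ℂ) :=
  {δ | δ ∈ RT2 b ∧ ∀ y y', y.2 = y'.2 → δ y y' = 0}

/-- **The Hodge group of `A` is as large as possible**: `H_1(A, ℂ) = ⨁ₛ V_s ⊗ ℂ^(M s)` and the
complexified Hodge Lie algebra is `⨁ₛ 𝔰𝔭(V_s) ⊗ 1`: it is contained in it, because the invariants
`ps` are combinations of rational elements of type `(1,1)`, and every rational Lie algebra which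
contains the Hodge structure contains the raising operators. -/
structure IsSymp [Fintype S] [∀ s, Fintype (M s)] [∀ s, Fintype (G s)]
    (b : Λ → Crd M G → ℂ) : Prop where
  ns : ∀ s (m m' : M s), (ps s m m' : AL M G → AL M G → ℂ) ∈ Submodule.span ℂ (RT11 b)
  lie : ∀ 𝔪 : Submodule ℚ (Matrix Λ Λ ℚ), (∀ X ∈ 𝔪, ∀ X' ∈ 𝔪, X * X' - X' * X ∈ 𝔪) →
    hM ∈ Submodule.span ℂ {Z | ∃ X ∈ 𝔪, IsRep b X Z} → ∀ s (a c : G s),
      (raise s a c : Matrix (AL M G) (AL M G) ℂ) ∈ Submodule.span ℂ {Z | ∃ X ∈ 𝔪, IsRep b X Z}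

/-- The endomorphisms of `A`, tensored with `ℚ`, acting on `ℂ^P`. -/
def EndQ [Fintype S] [∀ s, Fintype (M s)] [∀ s, Fintype (G s)] (b : Λ → Crd M G → ℂ) :
    Set (Matrix (Crd M G) (Crd M G) ℂ) :=
  {Z | ∀ i, Z.mulVec (b i) ∈ Submodule.span ℚ (Set.range b)}

/-- **`A` is of `GL₂`-type**: `End(A) ⊗ ℝ = ∏ₛ M_(m_s)(ℝ)`, acting in the standard way on
`ℂ^P = ⨁ₛ ℂ^(m_s)`. -/
def IsGL2 [Fintype S] [∀ s, Fintype (M s)] [∀ s, Fintype (G s)] (b : Λ → Crd M G → ℂ) : Prop :=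
  (∀ s, Subsingleton (G s)) ∧ ∀ Z, Z ∈ Submodule.span ℝ (EndQ b) ↔
    (∀ p q, p.1 ≠ q.1 → Z p q = 0) ∧ ∀ p q, (Z p q).im = 0

end symp

/-- **The generalized Hodge conjecture for `A × B`**, `A` with the largest possible Hodge group or of
`GL₂`-type, `B` of CM type. -/
def GHX : Prop :=
  ∀ (k l : ℕ) (S Λ : Type) [Fintype S] [Fintype Λ] (M G : S → Type)
    [∀ s, Fintype (M s)] [∀ s, Fintype (G s)]
    (b : Module.Basis Λ ℝ (Crd M G → ℂ)) (ι : Type) [Finite ι] (K : ι → Type)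
    [∀ i, Field (K i)] [∀ i, NumberField (K i)] [∀ i, NumberField.IsCMField (K i)]
    (Φ : ∀ i, Set (K i →+* ℂ)), (∀ i, IsCMType (Φ i)) → IsSymp b ∨ IsGL2 b →
    ∀ (R : Submodule ℚ ((Fin (2 * k + l) → Lt M G K) → ℂ)), IsSub b Φ R → IsCon k l Φ R →
    ∀ u ∈ R, u ∈ Submodule.span ℚ {w | IsProd b Φ k l w}

end

end Pool.Agent.GG
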