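import Pool.Agent.Lib.GG.Main

/-!
# Project G, row TERM (helper39)
-/

set_option autoImplicit false

open scoped ComplexConjugate Matrix
open Complex Pool.Agent.HCM Pool.Agent.RAT

namespace Pool.Agent.GG

noncomputable section

namespace TermA

section

variable {S Λ : Type} {M G : S → Type} [Fintype Λ] {ι : Type} {K : ι → Type}
  [∀ i, Field (K i)]

/-- extension of a 2-tensor on `A` to the letters of `A × B` -/
def hat (δ : AL M G → AL M G → ℂ) (y : Fin 2 → Lt M G K) : ℂ :=
  match y 0, y 1 with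
  | Sum.inl a, Sum.inl c => δ a c
  | _, _ => 0

/-- the products -/
def Fm {j a m N : ℕ} (b : Λ → Crd M G → ℂ) (E : (Fin j × Fin 2) ⊕ (Fin a ⊕ Fin m) ≃ Fin N)
    (x : Fin a → Λ → ℚ) (δ : Fin j → (Fin 2 → Lt M G K) → ℂ) (v : (Fin m → Idx K) → ℂ)
    (t : Fin N → Lt M G K) : ℂ :=
  (∏ r, δ r fun i => t (E (Sum.inl (r, i)))) *
    (∏ i, per b (t (E (Sum.inr (Sum.inl i)))) (x i, 0)) *
    extB v fun i => t (E (Sum.inr (Sum.inr i)))

theorem extB_alt {m : ℕ} (v : (Fin m → Idx K) → ℂ) :
    (extB (alt v) : (Fin m → Lt M G K) → ℂ) = alt (extB v) := by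
  classical
  funext t
  by_cases h : ∀ i, (t i).isRight
  · simp only [extB, alt]
    rw [dif_pos h]
    refine Finset.sum_congr rfl fun σ _ => ?_
    have h' : ∀ i, ((t ∘ σ) i).isRight := fun i => h (σ i)
    rw [dif_pos h']
    rfl
  · simp only [extB, alt]
    rw [dif_neg h]
    symm
    refine Finset.sum_eq_zero fun σ _ => ?_
    have h' : ¬ ∀ i, ((t ∘ σ) i).isRight := by
      intro h2
      apply h
      intro i
      have := h2 (σ.symm i)
      simpa using this
    rw [dif_neg h', mul_zero]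

theorem stepB (hA : ALTB) {j a m N : ℕ} (b : Λ → Crd M G → ℂ)
    (E : (Fin j × Fin 2) ⊕ (Fin a ⊕ Fin m) ≃ Fin N)
    (x : Fin a → Λ → ℚ) (δ : Fin j → (Fin 2 → Lt M G K) → ℂ) (v : (Fin m → Idx K) → ℂ) :
    alt (Fm b E x δ (alt v)) = fun t => (m.factorial : ℂ) * alt (Fm b E x δ v) t := by
  have h := hA (Lt M G K) ((Fin j × Fin 2) ⊕ Fin a) m N
    ((Equiv.sumComm _ _).trans ((Equiv.sumAssoc _ _ _).trans E)) (extB v)
    (fun s => (∏ r, δ r fun i => s (Sum.inl (r, i))) * ∏ i, per b (s (Sum.inr i)) (x i, 0))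
  have h1 : Fm b E x δ (alt v) = fun t : Fin N → Lt M G K => alt (extB v)
      (fun i => t (((Equiv.sumComm _ _).trans ((Equiv.sumAssoc _ _ _).trans E)) (Sum.inl i))) *
      ((∏ r, δ r fun i => t (((Equiv.sumComm _ _).trans ((Equiv.sumAssoc _ _ _).trans E))
          (Sum.inr (Sum.inl (r, i))))) *
        ∏ i, per b (t (((Equiv.sumComm _ _).trans ((Equiv.sumAssoc _ _ _).trans E))
          (Sum.inr (Sum.inr i)))) (x i, 0)) := by
    funext t
    rw [Fm, extB_alt, mul_comm]
    rfl
  have h2 : Fm b E x δ v = fun t : Fin N → Lt M G K => extB v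
      (fun i => t (((Equiv.sumComm _ _).trans ((Equiv.sumAssoc _ _ _).trans E)) (Sum.inl i))) *
      ((∏ r, δ r fun i => t (((Equiv.sumComm _ _).trans ((Equiv.sumAssoc _ _ _).trans E))
          (Sum.inr (Sum.inl (r, i))))) *
        ∏ i, per b (t (((Equiv.sumComm _ _).trans ((Equiv.sumAssoc _ _ _).trans E))
          (Sum.inr (Sum.inr i)))) (x i, 0)) := by
    funext t
    rw [Fm, mul_comm]
    rfl
  rw [h1, h2]
  exact h

/-- the positions, with the block `r₀` first -/
def eR {j a m N : ℕ} (E : (Fin j × Fin 2) ⊕ (Fin a ⊕ Fin m) ≃ Fin N) (r₀ : Fin j) :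
    Fin 2 ⊕ (({r : Fin j // r ≠ r₀} × Fin 2) ⊕ (Fin a ⊕ Fin m)) ≃ Fin N :=
  Equiv.ofBijective
    (Sum.elim (fun i => E (Sum.inl (r₀, i))) (Sum.elim (fun p => E (Sum.inl (p.1.1, p.2)))
      (fun z => E (Sum.inr z)))) (by
    constructor
    · rintro (i | (⟨r, i⟩ | z)) (i' | (⟨r', i'⟩ | z')) h
      · simpa using h
      · exact absurd (congrArg Prod.fst (Sum.inl_injective (E.injective h))).symm r'.2
      · exact absurd (E.injective h) (by simp)
      · exact absurd (congrArg Prod.fst (Sum.inl_injective (E.injective h))) r.2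
      · have h2 := Sum.inl_injective (E.injective h)
        simp only [Prod.mk.injEq] at h2
        have h3 : r = r' := Subtype.ext h2.1
        rw [h3, h2.2]
      · exact absurd (E.injective h) (by simp)
      · exact absurd (E.injective h) (by simp)
      · exact absurd (E.injective h) (by simp)
      · have h2 := Sum.inr_injective (E.injective h)
        rw [h2]
    · intro n
      obtain ⟨z, rfl⟩ := E.surjective n
      rcases z with ⟨r, i⟩ | z
      · by_cases hr : r = r₀
        · exact ⟨Sum.inl i, by rw [hr]; rfl⟩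
        · exact ⟨Sum.inr (Sum.inl (⟨r, hr⟩, i)), rfl⟩
      · exact ⟨Sum.inr (Sum.inr z), rfl⟩)

theorem Fm_split {j a m N : ℕ} (b : Λ → Crd M G → ℂ)
    (E : (Fin j × Fin 2) ⊕ (Fin a ⊕ Fin m) ≃ Fin N)
    (x : Fin a → Λ → ℚ) (δ : Fin j → (Fin 2 → Lt M G K) → ℂ) (v : (Fin m → Idx K) → ℂ)
    (r₀ : Fin j) : Fm b E x δ v = fun t : Fin N → Lt M G K =>
      δ r₀ (fun i => t (eR E r₀ (Sum.inl i))) *
      ((∏ r : {r : Fin j // r ≠ r₀}, δ r.1 fun i => t (eR E r₀ (Sum.inr (Sum.inl (r, i))))) *
        (∏ i, per b (t (eR E r₀ (Sum.inr (Sum.inr (Sum.inl i))))) (x i, 0)) *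
        extB v fun i => t (eR E r₀ (Sum.inr (Sum.inr (Sum.inr i))))) := by
  funext t
  rw [Fm, Fintype.prod_eq_mul_prod_subtype_ne _ r₀]
  simp only [mul_assoc]
  rfl

theorem stepD (hA : ALTB) {j a m N : ℕ} (b : Λ → Crd M G → ℂ)
    (E : (Fin j × Fin 2) ⊕ (Fin a ⊕ Fin m) ≃ Fin N)
    (x : Fin a → Λ → ℚ) (δ : Fin j → (Fin 2 → Lt M G K) → ℂ) (v : (Fin m → Idx K) → ℂ)
    (r₀ : Fin j) :
    alt (Fm b E x (Function.update δ r₀ (alt (δ r₀))) v) = fun t => 2 * alt (Fm b E x δ v) t := by
  have h := hA (Lt M G K) (({r : Fin j // r ≠ r₀} × Fin 2) ⊕ (Fin a ⊕ Fin m)) 2 N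
    (eR E r₀) (δ r₀)
    (fun s => (∏ r : {r : Fin j // r ≠ r₀}, δ r.1 fun i => s (Sum.inl (r, i))) *
        (∏ i, per b (s (Sum.inr (Sum.inl i))) (x i, 0)) *
        extB v fun i => s (Sum.inr (Sum.inr i)))
  rw [Fm_split b E x δ v r₀, Fm_split b E x (Function.update δ r₀ (alt (δ r₀))) v r₀]
  simp only [Function.update_self]
  have h3 : ∀ r : {r : Fin j // r ≠ r₀},
      Function.update δ r₀ (alt (δ r₀)) r.1 = δ r.1 := fun r =>
    Function.update_of_ne r.2 _ _
  simp only [h3]
  rw [h]
  funext t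
  norm_num [Nat.factorial]

theorem stepDD (hA : ALTB) {j a m N : ℕ} (b : Λ → Crd M G → ℂ)
    (E : (Fin j × Fin 2) ⊕ (Fin a ⊕ Fin m) ≃ Fin N)
    (x : Fin a → Λ → ℚ) (δ : Fin j → (Fin 2 → Lt M G K) → ℂ) (v : (Fin m → Idx K) → ℂ)
    (s : Finset (Fin j)) :
    alt (Fm b E x (fun r => if r ∈ s then alt (δ r) else δ r) v) =
      fun t => 2 ^ s.card * alt (Fm b E x δ v) t := by
  classical
  induction s using Finset.induction_on with
  | empty => simp
  | insert r₀ s hr ih =>
    have h1 : (fun r => if r ∈ insert r₀ s then alt (δ r) else δ r) =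
        Function.update (fun r => if r ∈ s then alt (δ r) else δ r) r₀
          (alt ((fun r => if r ∈ s then alt (δ r) else δ r) r₀)) := by
      funext r
      by_cases h : r = r₀
      · subst h
        simp [hr]
      · rw [Function.update_of_ne h]
        simp [h]
    rw [h1, stepD hA, ih, Finset.card_insert_of_notMem hr]
    funext t
    ring

theorem alt_two {Y : Type} (f : (Fin 2 → Y) → ℂ) (t : Fin 2 → Y) :
    alt f t = f t - f (t ∘ Equiv.swap 0 1) := by
  have h : (Finset.univ : Finset (Equiv.Perm (Fin 2))) = {1, Equiv.swap 0 1} := by decide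
  have h01 : (1 : Equiv.Perm (Fin 2)) ≠ Equiv.swap 0 1 := by decide
  rw [alt, h, Finset.sum_pair h01]
  simp [sub_eq_add_neg]

theorem hat_add (δ δ' : AL M G → AL M G → ℂ) (y : Fin 2 → Lt M G K) :
    hat (δ + δ') y = hat δ y + hat δ' y := by
  simp only [hat]
  rcases y 0 with a | a <;> rcases y 1 with c | c <;> simp

theorem hat_smul (q : ℚ) (δ : AL M G → AL M G → ℂ) (y : Fin 2 → Lt M G K) :
    hat (q • δ) y = q • hat δ y := by
  simp only [hat]
  rcases y 0 with a | a <;> rcases y 1 with c | c <;> simp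

theorem hat_zero (y : Fin 2 → Lt M G K) : hat (0 : AL M G → AL M G → ℂ) y = 0 := by
  simp only [hat]
  rcases y 0 with a | a <;> rcases y 1 with c | c <;> simp

theorem per_inl (b : Λ → Crd M G → ℂ) (a : AL M G) (x : Λ → ℚ) :
    per (K := K) b (Sum.inl a) (x, 0) = perA b a x := rfl

theorem per_inr (b : Λ → Crd M G → ℂ) (a : Idx K) (x : Λ → ℚ) :
    per (K := K) b (Sum.inr a) (x, 0) = 0 := by
  simp [per]

theorem alt_hat_mem (b : Λ → Crd M G → ℂ) (δ : AL M G → AL M G → ℂ) (hδ : δ ∈ RT2 b) :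
    alt (hat δ : (Fin 2 → Lt M G K) → ℂ) ∈ HA K b (Fin 2) := by
  refine Submodule.span_induction
      (p := fun δ _ => alt (hat δ : (Fin 2 → Lt M G K) → ℂ) ∈ HA K b (Fin 2)) ?_ ?_ ?_ ?_ hδ
  · rintro _ ⟨⟨x, x'⟩, rfl⟩
    refine Submodule.subset_span ⟨![x, x'], ?_⟩
    funext t
    rw [alt_two]
    simp only [torX, Matrix.det_fin_two, Matrix.of_apply, Matrix.cons_val_zero,
      Matrix.cons_val_one, hat, Function.comp, Equiv.swap_apply_left, Equiv.swap_apply_right]
    rcases t 0 with a | a <;> rcases t 1 with c | c <;>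
      simp only [per_inl, per_inr] <;> ring
  · have h : (hat (0 : AL M G → AL M G → ℂ) : (Fin 2 → Lt M G K) → ℂ) = 0 := by
      funext y; exact hat_zero y
    rw [h, MainA.alt_zero]
    exact Submodule.zero_mem _
  · intro f g _ _ hf hg
    have h : (hat (f + g) : (Fin 2 → Lt M G K) → ℂ) = hat f + hat g := by
      funext y; exact hat_add f g y
    rw [h, MainA.alt_add]
    exact Submodule.add_mem _ hf hg
  · intro q f _ hf
    have h : (hat (q • f) : (Fin 2 → Lt M G K) → ℂ) = q • hat f := by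
      funext y; exact hat_smul q f y
    rw [h, MainA.alt_smul]
    exact Submodule.smul_mem _ q hf

theorem alt_hat_type (Φ : ∀ i, Set (K i →+* ℂ)) (δ : AL M G → AL M G → ℂ)
    (hδ : ∀ y y', y.2 = y'.2 → δ y y' = 0) (t : Fin 2 → Lt M G K) (ht : cntT Φ t ≠ 1) :
    alt (hat δ) t = 0 := by
  rw [alt_two]
  simp only [hat, Function.comp, Equiv.swap_apply_left, Equiv.swap_apply_right]
  rcases h0 : t 0 with a | a <;> rcases h1 : t 1 with c | c <;> simp only [sub_zero]
  have hac : a.2 = c.2 := by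
    by_contra hne
    apply ht
    rw [cntT, Set.ncard_eq_one]
    cases ha : a.2
    · have hc : c.2 = true := by
        cases hc : c.2
        · exact absurd (ha.trans hc.symm) hne
        · rfl
      refine ⟨1, ?_⟩
      ext i
      fin_cases i
      · simp [h0, IsT, ha]
      · simp [h1, IsT, hc]
    · have hc : c.2 = false := by
        cases hc : c.2
        · rfl
        · exact absurd (ha.trans hc.symm) hne
      refine ⟨0, ?_⟩
      ext i
      fin_cases i
      · simp [h0, IsT, ha]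
      · simp [h1, IsT, hc]
  rw [hδ _ _ hac, hδ _ _ hac.symm, sub_zero]

end

section main

variable {S Λ : Type} {M G : S → Type} [Fintype Λ] {ι : Type} {K : ι → Type}
  [∀ i, Field (K i)]

/-- the enumeration of the positions -/
def EE {N j a m : ℕ} {Q : Finset (Fin N)} (e : Fin j × Fin 2 → {i // i ∈ Q})
    (he : Function.Injective e) (ea : {q : {i // i ∈ Q} // q ∉ Set.range e} ≃ Fin a)
    (eb : {i // i ∉ Q} ≃ Fin m) : (Fin j × Fin 2) ⊕ (Fin a ⊕ Fin m) ≃ Fin N :=
  Equiv.ofBijective
    (Sum.elim (fun z => (e z).1) (Sum.elim (fun i => (ea.symm i).1.1)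
      (fun i => (eb.symm i).1))) (by
    constructor
    · rintro (z | (i | i)) (z' | (i' | i')) h
      · rw [he (Subtype.ext h)]
      · have h1 : e z = (ea.symm i').1 := Subtype.ext h
        exact absurd ⟨z, h1⟩ (ea.symm i').2
      · have h1 : (e z).1 = (eb.symm i').1 := h
        exact absurd (h1 ▸ (e z).2) (eb.symm i').2
      · have h1 : (ea.symm i).1 = e z' := Subtype.ext h
        exact absurd ⟨z', h1.symm⟩ (ea.symm i).2
      · have h1 : (ea.symm i).1 = (ea.symm i').1 := Subtype.ext h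
        rw [ea.symm.injective (Subtype.ext h1)]
      · have h1 : (ea.symm i).1.1 = (eb.symm i').1 := h
        exact absurd (h1 ▸ (ea.symm i).1.2) (eb.symm i').2
      · have h1 : (eb.symm i).1 = (e z').1 := h
        exact absurd (h1 ▸ (e z').2) (eb.symm i).2
      · have h1 : (eb.symm i).1 = (ea.symm i').1.1 := h
        exact absurd (h1 ▸ (ea.symm i').1.2) (eb.symm i).2
      · have h1 : (eb.symm i).1 = (eb.symm i').1 := h
        rw [eb.symm.injective (Subtype.ext h1)]
    · intro n
      by_cases hn : n ∈ Q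
      · by_cases hr : (⟨n, hn⟩ : {i // i ∈ Q}) ∈ Set.range e
        · obtain ⟨z, hz⟩ := hr
          exact ⟨Sum.inl z, by simp only [Sum.elim_inl, hz]⟩
        · exact ⟨Sum.inr (Sum.inl (ea ⟨⟨n, hn⟩, hr⟩)), by simp⟩
      · exact ⟨Sum.inr (Sum.inr (eb ⟨n, hn⟩)), by simp⟩)

theorem f_eq {N j a m : ℕ} {Q : Finset (Fin N)} (e : Fin j × Fin 2 → {i // i ∈ Q})
    (he : Function.Injective e) (ea : {q : {i // i ∈ Q} // q ∉ Set.range e} ≃ Fin a)
    (eb : {i // i ∉ Q} ≃ Fin m) (b : Λ → Crd M G → ℂ) (δ : Fin j → AL M G → AL M G → ℂ)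
    (x : {i // i ∈ Q} → Λ → ℚ) (v : ({i // i ∉ Q} → Idx K) → ℂ)
    (f : (Fin N → Lt M G K) → ℂ)
    (hf : ∀ t w, f (mix Q t w) = ((∏ r, δ r (t (e (r, 0))) (t (e (r, 1)))) *
        ∏ i ∈ Finset.univ \ Finset.univ.image e, perA b (t i) (x i)) * v w)
    (hf0 : ∀ t, (¬ ∀ i, (t i).isLeft = true ↔ i ∈ Q) → f t = 0) :
    f = Fm b (EE e he ea eb) (fun i => x (ea.symm i).1) (fun r => hat (δ r))
      (fun w' => v fun i => w' (eb i)) := by
  classical
  funext t
  by_cases h : ∀ i, (t i).isLeft = true ↔ i ∈ Q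
  · have hR : ∀ i : {i // i ∉ Q}, (t i.1).isRight = true := by
      intro i
      have h1 := fun h2 => i.2 ((h i.1).1 h2)
      cases h3 : t i.1 with
      | inl a => rw [h3] at h1; exact absurd rfl h1
      | inr a => rfl
    set t1 : {i // i ∈ Q} → AL M G := fun i => (t i.1).getLeft ((h i.1).2 i.2) with ht1
    set w1 : {i // i ∉ Q} → Idx K := fun i => (t i.1).getRight (hR i) with hw1
    have htm : t = mix Q t1 w1 := by
      funext i
      by_cases hi : i ∈ Q
      · rw [mix, dif_pos hi]; simp [ht1]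
      · rw [mix, dif_neg hi]; simp [hw1]
    have hl : ∀ i : {i // i ∈ Q}, t i.1 = Sum.inl (t1 i) := fun i => by simp [ht1]
    have hr : ∀ i : {i // i ∉ Q}, t i.1 = Sum.inr (w1 i) := fun i => by simp [hw1]
    have h2 : f t = ((∏ r, δ r (t1 (e (r, 0))) (t1 (e (r, 1)))) *
        ∏ i ∈ Finset.univ \ Finset.univ.image e, perA b (t1 i) (x i)) * v w1 := by
      conv_lhs => rw [htm]
      exact hf t1 w1
    rw [h2, Fm]
    congr 1
    · congr 1
      · refine Finset.prod_congr rfl fun r _ => ?_
        have h3 : ∀ i, t (EE e he ea eb (Sum.inl (r, i))) = Sum.inl (t1 (e (r, i))) :=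
          fun i => hl (e (r, i))
        simp only [hat, h3]
      · have h4 : ∏ i ∈ Finset.univ \ Finset.univ.image e, perA b (t1 i) (x i) =
            ∏ q : {q : {i // i ∈ Q} // q ∉ Set.range e}, perA b (t1 q.1) (x q.1) := by
          refine (Finset.prod_subtype _ ?_ _)
          intro q
          simp
        rw [h4]
        refine Fintype.prod_equiv ea _ _ fun q => ?_
        have h5 : t (EE e he ea eb (Sum.inr (Sum.inl (ea q)))) = Sum.inl (t1 q.1) := by
          have : EE e he ea eb (Sum.inr (Sum.inl (ea q))) = (q.1).1 := by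
            simp [EE]
          rw [this]
          exact hl q.1
        rw [h5, per_inl, Equiv.symm_apply_apply]
    · have h6 : ∀ i : Fin m, t (EE e he ea eb (Sum.inr (Sum.inr i))) = Sum.inr (w1 (eb.symm i)) :=
        fun i => hr (eb.symm i)
      have h7 : ∀ i : Fin m, (t (EE e he ea eb (Sum.inr (Sum.inr i)))).isRight = true := by
        intro i
        rw [h6]
        rfl
      rw [extB, dif_pos h7]
      congr 1
      funext i
      have h8 := h6 (eb i)
      rw [Equiv.symm_apply_apply] at h8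
      simp only [h8, Sum.getRight_inr]
  · rw [hf0 t h, Fm]
    symm
    push Not at h
    obtain ⟨i, hi⟩ := h
    obtain ⟨z, rfl⟩ := (EE e he ea eb).surjective i
    rcases z with z | (n | n)
    · have hQ : EE e he ea eb (Sum.inl z) ∈ Q := (e z).2
      have hz : ¬ (t (EE e he ea eb (Sum.inl z))).isLeft = true := by
        rcases hi with hi | hi
        · exact absurd hQ hi.2
        · exact hi.1
      obtain ⟨c, hc⟩ : ∃ c, t (EE e he ea eb (Sum.inl z)) = Sum.inr c := by
        cases h3 : t (EE e he ea eb (Sum.inl z)) with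
        | inl a => rw [h3] at hz; exact absurd rfl hz
        | inr a => exact ⟨a, rfl⟩
      have h9 : ∏ r, hat (δ r) (fun i => t (EE e he ea eb (Sum.inl (r, i)))) = 0 := by
        refine Finset.prod_eq_zero (Finset.mem_univ z.1) ?_
        obtain ⟨r, i⟩ := z
        simp only [hat]
        fin_cases i
        · simp only [Fin.zero_eta] at hc
          rw [hc]
        · simp only [Fin.mk_one] at hc
          rw [hc]
          rcases t (EE e he ea eb (Sum.inl (r, 0))) with a | a <;> rfl
      rw [h9, zero_mul, zero_mul]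
    · have hQ : EE e he ea eb (Sum.inr (Sum.inl n)) ∈ Q := (ea.symm n).1.2
      have hz : ¬ (t (EE e he ea eb (Sum.inr (Sum.inl n)))).isLeft = true := by
        rcases hi with hi | hi
        · exact absurd hQ hi.2
        · exact hi.1
      obtain ⟨c, hc⟩ : ∃ c, t (EE e he ea eb (Sum.inr (Sum.inl n))) = Sum.inr c := by
        cases h3 : t (EE e he ea eb (Sum.inr (Sum.inl n))) with
        | inl a => rw [h3] at hz; exact absurd rfl hz
        | inr a => exact ⟨a, rfl⟩
      have h9 : ∏ i, per b (t (EE e he ea eb (Sum.inr (Sum.inl i)))) (x (ea.symm i).1, 0) = 0 := by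
        refine Finset.prod_eq_zero (Finset.mem_univ n) ?_
        rw [hc, per_inr]
      rw [h9, mul_zero, zero_mul]
    · have hQ : EE e he ea eb (Sum.inr (Sum.inr n)) ∉ Q := (eb.symm n).2
      have hz : (t (EE e he ea eb (Sum.inr (Sum.inr n)))).isLeft = true := by
        rcases hi with hi | hi
        · exact hi.1
        · exact absurd hi.2 hQ
      have h10 : ¬ ∀ i, (t (EE e he ea eb (Sum.inr (Sum.inr i)))).isRight = true := by
        intro h11
        have h12 := h11 n
        cases h3 : t (EE e he ea eb (Sum.inr (Sum.inr n))) with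
        | inl a => rw [h3] at h12; exact absurd h12 (by simp)
        | inr a => rw [h3] at hz; exact absurd hz (by simp)
      rw [extB, dif_neg h10, mul_zero]

theorem nF_equiv {P P' : Type} (Φ : ∀ i, Set (K i →+* ℂ)) (e : P ≃ P') (w : P' → Idx K) :
    nF Φ (fun i => w (e i)) = nF Φ w := by
  have h : {i | (w (e i)).2 ∉ Φ (w (e i)).1} = e ⁻¹' {i | (w i).2 ∉ Φ (w i).1} := rfl
  rw [nF, nF, h, ← Set.ncard_image_of_injective _ e.injective,
    Set.image_preimage_eq _ e.surjective]

theorem nT_equiv {P P' : Type} (Φ : ∀ i, Set (K i →+* ℂ)) (e : P ≃ P') (w : P' → Idx K) :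
    nT Φ (fun i => w (e i)) = nT Φ w := by
  have h : {i | (w (e i)).2 ∈ Φ (w (e i)).1} = e ⁻¹' {i | (w i).2 ∈ Φ (w i).1} := rfl
  rw [nT, nT, h, ← Set.ncard_image_of_injective _ e.injective,
    Set.image_preimage_eq _ e.surjective]

theorem nF_add_nT {P : Type} [Fintype P] (Φ : ∀ i, Set (K i →+* ℂ)) (w : P → Idx K) :
    nF Φ w + nT Φ w = Fintype.card P := by
  have h := Set.ncard_add_ncard_compl {i | (w i).2 ∈ Φ (w i).1}
  rw [Nat.card_eq_fintype_card] at h
  rw [← h, add_comm]
  rfl

theorem RTn_equiv {P P' : Type} [Fintype P] [Fintype P'] (e : P ≃ P')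
    (v : (P → Idx K) → ℂ) (hv : v ∈ RTn (perB (K := K)) (Finset.univ : Finset P)) :
    (fun w' : P' → Idx K => v fun i => w' (e i)) ∈
      RTn (perB (K := K)) (Finset.univ : Finset P') := by
  refine Submodule.span_induction
    (p := fun v _ => (fun w' : P' → Idx K => v fun i => w' (e i)) ∈
      RTn (perB (K := K)) (Finset.univ : Finset P')) ?_ ?_ ?_ ?_ hv
  · rintro _ ⟨y, rfl⟩
    refine Submodule.subset_span ⟨fun i => y (e.symm i), ?_⟩
    funext w'
    refine (Fintype.prod_equiv e _ _ fun i => ?_).symm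
    simp only [Equiv.symm_apply_apply]
  · exact Submodule.zero_mem _
  · intro f g _ _ hf hg
    exact Submodule.add_mem _ hf hg
  · intro q f _ hf
    exact Submodule.smul_mem _ q hf

end main

end TermA

open TermA MainA

theorem term (hA : ALTB) (hCM : CMV) : TERM := by
  classical
  intro k l S Λ _ _ M G _ _ b ι _ K _ _ _ Φ hΦ Q j hj p hp v hv hvn f hf hf0
  -- reduction to the function `Lc`
  have hfL : f = Lc Q (fun t w => p t * v w) := by
    funext t
    by_cases h : ∀ i, (t i).isLeft = true ↔ i ∈ Q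
    · rw [Lc, dif_pos h, ← hf]
      congr 1
      funext i
      by_cases hi : i ∈ Q
      · rw [mix, dif_pos hi]; simp
      · rw [mix, dif_neg hi]; simp
    · rw [hf0 t h, Lc_of_not Q _ t h]
  rw [hfL]
  clear hfL hf hf0 f
  refine Submodule.span_induction (p := fun p _ =>
    alt (Lc Q (fun t w => p t * v w)) ∈ Submodule.span ℚ {w | IsProd b Φ k l w}) ?_ ?_ ?_ ?_ hp
  · rintro p ⟨e, he, -, δ, x, hδ, rfl⟩
    by_cases hv0 : ∃ w, v w ≠ 0
    · obtain ⟨w0, hw0⟩ := hv0
      have h1 := hvn w0 hw0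
      have h2 := nF_add_nT Φ w0
      have h3 : Fintype.card {i // i ∈ Q} + Fintype.card {i // i ∉ Q} = 2 * k + l := by
        rw [← Fintype.card_sum, Fintype.card_congr (Equiv.sumCompl fun i => i ∈ Q),
          Fintype.card_fin]
      have h4 : Fintype.card {q : {i // i ∈ Q} // q ∉ Set.range e} + j * 2 =
          Fintype.card {i // i ∈ Q} := by
        have h5 : Fintype.card (Set.range e) = j * 2 := by
          rw [Set.card_range_of_injective he]
          simp
        rw [← h5, add_comm, ← Fintype.card_sum]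
        exact Fintype.card_congr (Equiv.sumCompl fun q => q ∈ Set.range e)
      obtain ⟨l', hl'⟩ : ∃ l', Fintype.card {i // i ∉ Q} = 2 * (k - j) + l' :=
        ⟨Fintype.card {i // i ∉ Q} - 2 * (k - j), by omega⟩
      set a := Fintype.card {q : {i // i ∈ Q} // q ∉ Set.range e} with ha
      have hal : a + l' = l := by omega
      set ea : {q : {i // i ∈ Q} // q ∉ Set.range e} ≃ Fin a := Fintype.equivFin _ with hea
      set eb : {i // i ∉ Q} ≃ Fin (2 * (k - j) + l') := Fintype.equivFinOfCardEq hl' with heb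
      have hF := f_eq e he ea eb b δ x v
        (Lc Q (fun t w => ((∏ r, δ r (t (e (r, 0))) (t (e (r, 1)))) *
          ∏ i ∈ Finset.univ \ Finset.univ.image e, perA b (t i) (x i)) * v w))
        (fun t w => Lc_mix Q _ t w) (fun t ht => Lc_of_not Q _ t ht)
      rw [hF]
      set v' : (Fin (2 * (k - j) + l') → Idx K) → ℂ := fun w' => v fun i => w' (eb i) with hv'
      have hv'mem : v' ∈ RTn (perB (K := K)) (Finset.univ : Finset (Fin (2 * (k - j) + l'))) :=
        RTn_equiv eb v hv
      have hcm : IsCM Φ (k - j) l' (alt v') := by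
        refine hCM ι K Φ (k - j) l' hΦ v' hv'mem fun w hw => ?_
        have h6 := hvn _ hw
        rw [nF_equiv, nT_equiv] at h6
        exact h6
      have hB := stepB hA b (EE e he ea eb) (fun i => x (ea.symm i).1)
        (fun r => (hat (δ r) : (Fin 2 → Lt M G K) → ℂ)) v'
      have hD := stepDD hA b (EE e he ea eb) (fun i => x (ea.symm i).1)
        (fun r => (hat (δ r) : (Fin 2 → Lt M G K) → ℂ)) (alt v') Finset.univ
      simp only [Finset.mem_univ, if_true, Finset.card_univ, Fintype.card_fin] at hD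
      have hm : alt (Fm b (EE e he ea eb) (fun i => x (ea.symm i).1)
          (fun r => (alt (hat (δ r)) : (Fin 2 → Lt M G K) → ℂ)) (alt v')) ∈
          Submodule.span ℚ {w | IsProd b Φ k l w} := by
        refine Submodule.subset_span ⟨j, k - j, a, l', EE e he ea eb,
          fun r => alt (hat (δ r)), fun i => x (ea.symm i).1, alt v', by omega, hal, ?_, hcm, rfl⟩
        intro r
        exact ⟨alt_hat_mem b (δ r) (hδ r).1, fun t ht => alt_hat_type Φ (δ r) (hδ r).2 t ht⟩
      have hfin : alt (Fm b (EE e he ea eb) (fun i => x (ea.symm i).1)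
          (fun r => (hat (δ r) : (Fin 2 → Lt M G K) → ℂ)) v') =
          ((2 ^ j * ((2 * (k - j) + l').factorial : ℚ))⁻¹ : ℚ) •
          alt (Fm b (EE e he ea eb) (fun i => x (ea.symm i).1)
          (fun r => (alt (hat (δ r)) : (Fin 2 → Lt M G K) → ℂ)) (alt v')) := by
        rw [hD, hB]
        funext t
        have h7 : ((2 * (k - j) + l').factorial : ℂ) ≠ 0 := by
          exact_mod_cast Nat.factorial_ne_zero _
        simp only [Pi.smul_apply, Algebra.smul_def, map_inv₀, map_mul, map_pow, map_natCast,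
          map_ofNat]
        field_simp
      rw [hfin]
      exact Submodule.smul_mem _ _ hm
    · push Not at hv0
      have h1 : (Lc Q (fun t w => ((∏ r, δ r (t (e (r, 0))) (t (e (r, 1)))) *
          ∏ i ∈ Finset.univ \ Finset.univ.image e, perA b (t i) (x i)) * v w) :
          (Fin (2 * k + l) → Lt M G K) → ℂ) = 0 := by
        funext t
        simp only [Lc, hv0, mul_zero]
        split_ifs <;> rfl
      rw [h1, alt_zero]
      exact Submodule.zero_mem _
  · have h1 : (Lc Q (fun t w => (0 : ({i // i ∈ Q} → AL M G) → ℂ) t * v w) :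
        (Fin (2 * k + l) → Lt M G K) → ℂ) = 0 := by
      funext t
      simp only [Lc, Pi.zero_apply, zero_mul]
      split_ifs <;> rfl
    rw [h1, alt_zero]
    exact Submodule.zero_mem _
  · intro p p' _ _ h h'
    have h1 : (Lc Q (fun t w => (p + p') t * v w) : (Fin (2 * k + l) → Lt M G K) → ℂ) =
        Lc Q (fun t w => p t * v w) + Lc Q (fun t w => p' t * v w) := by
      rw [← Lc_add]
      congr 1
      funext t w
      simp only [Pi.add_apply, add_mul]
    rw [h1, alt_add]
    exact Submodule.add_mem _ h h'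
  · intro q p _ h
    have h1 : (Lc Q (fun t w => (q • p) t * v w) : (Fin (2 * k + l) → Lt M G K) → ℂ) =
        q • Lc Q (fun t w => p t * v w) := by
      rw [← Lc_smul]
      congr 1
      funext t w
      simp only [Pi.smul_apply, smul_mul_assoc]
    rw [h1, alt_smul]
    exact Submodule.smul_mem _ q h

end

end Pool.Agent.GG
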